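import Mathlib

/-!
# Counting: polynomials over prime fields, inner products, list size bound
-/

namespace Pool.Agent.H48.NE

open Polynomial

/-! ### Evaluation of polynomials with bits as coefficients -/

/-- The value at `z`, modulo `p`, of the polynomial with the given bits as coefficients. -/
def hv (T : List Bool) (z p : ℕ) : ℕ := T.foldr (fun b acc => (acc * z + b.toNat) % max p 1) 0

lemma hv_nil (z p : ℕ) : hv [] z p = 0 := rfl

lemma hv_cons (b : Bool) (T : List Bool) (z : ℕ) {p : ℕ} (hp : 0 < p) :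
    hv (b :: T) z p = (hv T z p * z + b.toNat) % p := by
  have h : max p 1 = p := max_eq_left hp
  show (hv T z p * z + b.toNat) % max p 1 = _
  rw [h]

lemma hv_le (T : List Bool) (z p : ℕ) : hv T z p ≤ p := by
  cases T with
  | nil => exact Nat.zero_le _
  | cons b T =>
    have h : hv (b :: T) z p < max p 1 := Nat.mod_lt _ (lt_of_lt_of_le Nat.one_pos (le_max_right _ _))
    omega

lemma hv_lt (T : List Bool) (z : ℕ) {p : ℕ} (hp : 0 < p) : hv T z p < p := by
  cases T with
  | nil => exact hp
  | cons b T =>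
    rw [hv_cons b T z hp]
    exact Nat.mod_lt _ hp

/-- The polynomial with the given bits as coefficients. -/
noncomputable def pv (p : ℕ) : List Bool → (ZMod p)[X]
  | [] => 0
  | b :: l => C ((b.toNat : ℕ) : ZMod p) + X * pv p l

lemma eval_pv {p : ℕ} (hp : 0 < p) (T : List Bool) (z : ℕ) :
    (pv p T).eval (z : ZMod p) = (hv T z p : ZMod p) := by
  induction T with
  | nil => simp [pv, hv_nil]
  | cons b T ih =>
    rw [pv, hv_cons b T z hp, eval_add, eval_C, eval_mul, eval_X, ih, ZMod.natCast_mod]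
    push_cast
    ring

lemma degree_pv (p : ℕ) (T : List Bool) : (pv p T).degree < T.length := by
  induction T with
  | nil => simp [pv]
  | cons b T ih =>
    rw [pv]
    refine lt_of_le_of_lt (degree_add_le _ _) (max_lt ?_ ?_)
    · refine lt_of_le_of_lt degree_C_le ?_
      exact_mod_cast Nat.succ_pos _
    · rcases eq_or_ne (pv p T) 0 with h | h
      · rw [h, mul_zero, degree_zero]
        exact WithBot.bot_lt_coe _
      · rw [List.length_cons]
        have h1 : (X * pv p T).degree ≤ 1 + (pv p T).degree := by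
          refine (degree_mul_le _ _).trans ?_
          gcongr
          exact degree_X_le
        refine lt_of_le_of_lt h1 ?_
        rw [degree_eq_natDegree h] at ih ⊢
        have h2 : (pv p T).natDegree < T.length := by exact_mod_cast ih
        have h3 : 1 + (pv p T).natDegree < T.length + 1 := by omega
        exact_mod_cast h3

lemma pv_inj {p : ℕ} (hp : 1 < p) : ∀ {T T' : List Bool}, T.length = T'.length →
    pv p T = pv p T' → T = T' := by
  have : Fact (1 < p) := ⟨hp⟩
  intro T
  induction T with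
  | nil =>
    intro T' hl _
    cases T' with
    | nil => rfl
    | cons b T' => simp at hl
  | cons b T ih =>
    intro T' hl h
    cases T' with
    | nil => simp at hl
    | cons b' T' =>
      have h0 := congrArg (fun f => f.coeff 0) h
      simp only [pv, coeff_add, coeff_C_zero, mul_coeff_zero, coeff_X_zero, zero_mul, add_zero] at h0
      have hb : b = b' := by
        cases b <;> cases b' <;> simp at h0 ⊢
      subst hb
      have h1 : X * pv p T = X * pv p T' := by
        simpa [pv] using h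
      have h2 : pv p T = pv p T' := by
        ext i
        have := congrArg (fun f => f.coeff (i + 1)) h1
        simpa [coeff_X_mul] using this
      rw [ih (by simpa using hl) h2]

/-- Two different bit lists of length `ℓ` give the same value at fewer than `ℓ` points. -/
theorem card_hv_eq_lt {p : ℕ} (hp : p.Prime) {T T' : List Bool} (hl : T.length = T'.length)
    (hne : T ≠ T') :
    ((Finset.range p).filter fun z => hv T z p = hv T' z p).card < T.length := by
  have : Fact p.Prime := ⟨hp⟩
  have hne' : pv p T - pv p T' ≠ 0 := fun h =>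
    hne (pv_inj hp.one_lt hl (sub_eq_zero.1 h))
  have h1 : ((Finset.range p).filter fun z => hv T z p = hv T' z p).card ≤
      (pv p T - pv p T').roots.toFinset.card := by
    refine Finset.card_le_card_of_injOn (fun z => (z : ZMod p)) ?_ ?_
    · intro z hz
      simp only [Finset.coe_filter, Finset.mem_range, Set.mem_ofPred_eq] at hz
      simp only [Finset.mem_coe, Multiset.mem_toFinset]
      rw [mem_roots hne', IsRoot.def, eval_sub, eval_pv hp.pos, eval_pv hp.pos, hz.2, sub_self]
    · intro z hz z' hz' h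
      simp only [Finset.coe_filter, Finset.mem_range, Set.mem_ofPred_eq] at hz hz'
      have h2 := (ZMod.natCast_eq_natCast_iff' z z' p).1 h
      rwa [Nat.mod_eq_of_lt hz.1, Nat.mod_eq_of_lt hz'.1] at h2
  have h2 : (pv p T - pv p T').degree < T.length := by
    refine lt_of_le_of_lt (degree_sub_le _ _) (max_lt (degree_pv p T) ?_)
    rw [hl]
    exact degree_pv p T'
  have h3 : (pv p T - pv p T').natDegree < T.length := by
    rw [degree_eq_natDegree hne'] at h2
    exact_mod_cast h2
  have h4 := Multiset.toFinset_card_le (pv p T - pv p T').roots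
  have h5 := card_roots' (pv p T - pv p T')
  omega

/-! ### Inner products of bit vectors -/

/-- Inner product modulo 2 of the `a` lowest bits of `u` and `r`. -/
def ip : ℕ → ℕ → ℕ → Bool
  | 0, _, _ => false
  | a + 1, u, r => xor (decide (u % 2 = 1) && decide (r % 2 = 1)) (ip a (u / 2) (r / 2))

/-- Sign of a bit. -/
def sg (b : Bool) : ℤ := bif b then -1 else 1

lemma sg_xor (b b' : Bool) : sg (xor b b') = sg b * sg b' := by
  cases b <;> cases b' <;> rfl

lemma sg_sq (b : Bool) : sg b * sg b = 1 := by cases b <;> rfl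

lemma sg_abs (b : Bool) : |sg b| = 1 := by cases b <;> simp [sg]

lemma sum_range_two_mul (f : ℕ → ℤ) (n : ℕ) :
    ∑ i ∈ Finset.range (2 * n), f i = ∑ i ∈ Finset.range n, (f (2 * i) + f (2 * i + 1)) := by
  induction n with
  | zero => simp
  | succ n ih =>
    rw [show 2 * (n + 1) = 2 * n + 1 + 1 by ring, Finset.sum_range_succ, Finset.sum_range_succ, ih,
      Finset.sum_range_succ]
    ring

theorem sum_ip_ne (a : ℕ) : ∀ {u u' : ℕ}, u < 2 ^ a → u' < 2 ^ a → u ≠ u' →
    ∑ r ∈ Finset.range (2 ^ a), sg (ip a u r) * sg (ip a u' r) = 0 := by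
  induction a with
  | zero =>
    intro u u' hu hu' h
    simp at hu hu'
    omega
  | succ a ih =>
    intro u u' hu hu' h
    rw [pow_succ, Nat.mul_comm, sum_range_two_mul]
    have e1 : ∀ (v i : ℕ), ip (a + 1) v (2 * i) = ip a (v / 2) i := by
      intro v i
      have h1 : 2 * i % 2 = 0 := by omega
      have h2 : 2 * i / 2 = i := by omega
      simp [ip, h1, h2]
    have e2 : ∀ (v i : ℕ), ip (a + 1) v (2 * i + 1) =
        xor (decide (v % 2 = 1)) (ip a (v / 2) i) := by
      intro v i
      have h1 : (2 * i + 1) % 2 = 1 := by omega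
      have h2 : (2 * i + 1) / 2 = i := by omega
      simp [ip, h1, h2]
    have e3 : ∀ i, sg (ip (a + 1) u (2 * i)) * sg (ip (a + 1) u' (2 * i)) +
        sg (ip (a + 1) u (2 * i + 1)) * sg (ip (a + 1) u' (2 * i + 1)) =
        (1 + sg (decide (u % 2 = 1)) * sg (decide (u' % 2 = 1))) *
          (sg (ip a (u / 2) i) * sg (ip a (u' / 2) i)) := by
      intro i
      rw [e1, e1, e2, e2, sg_xor, sg_xor]
      ring
    rw [Finset.sum_congr rfl fun i _ => e3 i, ← Finset.mul_sum]
    rw [pow_succ] at hu hu'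
    by_cases hpar : u % 2 = u' % 2
    · rw [ih (by omega) (by omega) (by omega), mul_zero]
    · have : sg (decide (u % 2 = 1)) * sg (decide (u' % 2 = 1)) = -1 := by
        rcases Nat.mod_two_eq_zero_or_one u with h1 | h1 <;>
          rcases Nat.mod_two_eq_zero_or_one u' with h2 | h2
        · omega
        · simp [h1, h2, sg]
        · simp [h1, h2, sg]
        · omega
      rw [this]
      ring

/-! ### The list size bound -/

/-- If the vectors `f i` (with entries `±1`, on `M` positions) have pairwise inner products at most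
`η` and inner product at least `θ` with the `±1` vector `w`, and `2 M η ≤ θ ^ 2`, then their number
is at most `2 M ^ 2 / θ ^ 2`. -/
theorem johnson {ι κ : Type} (S : Finset ι) (P : Finset κ) (f : ι → κ → ℤ) (w : κ → ℤ)
    (η θ : ℤ) (hf : ∀ i ∈ S, ∀ y ∈ P, f i y * f i y = 1) (hw : ∀ y ∈ P, w y * w y = 1)
    (h1 : ∀ i ∈ S, ∀ j ∈ S, i ≠ j → ∑ y ∈ P, f i y * f j y ≤ η)
    (h2 : ∀ i ∈ S, θ ≤ ∑ y ∈ P, f i y * w y) (hθ : 0 ≤ θ) (hη : 0 ≤ η)
    (hc : 2 * (P.card : ℤ) * η ≤ θ ^ 2) :
    (S.card : ℤ) * θ ^ 2 ≤ 2 * (P.card : ℤ) ^ 2 := by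
  classical
  set M : ℤ := (P.card : ℤ) with hM
  set s : ℤ := (S.card : ℤ) with hs
  have hM0 : 0 ≤ M := by positivity
  have hs0 : 0 ≤ s := by positivity
  -- sum of the vectors
  have hA : s * θ ≤ ∑ y ∈ P, (∑ i ∈ S, f i y) * w y := by
    have : ∑ y ∈ P, (∑ i ∈ S, f i y) * w y = ∑ i ∈ S, ∑ y ∈ P, f i y * w y := by
      rw [Finset.sum_comm]
      exact Finset.sum_congr rfl fun y _ => Finset.sum_mul _ _ _
    rw [this, hs]
    calc (S.card : ℤ) * θ = ∑ i ∈ S, θ := by simp
      _ ≤ _ := Finset.sum_le_sum h2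
  have hB : ∑ y ∈ P, (∑ i ∈ S, f i y) ^ 2 ≤ s * M + s ^ 2 * η := by
    have e1 : ∑ y ∈ P, (∑ i ∈ S, f i y) ^ 2 = ∑ i ∈ S, ∑ j ∈ S, ∑ y ∈ P, f i y * f j y := by
      calc ∑ y ∈ P, (∑ i ∈ S, f i y) ^ 2 = ∑ y ∈ P, ∑ i ∈ S, ∑ j ∈ S, f i y * f j y := by
            refine Finset.sum_congr rfl fun y _ => ?_
            rw [sq, Finset.sum_mul_sum]
        _ = _ := by
            rw [Finset.sum_comm]
            refine Finset.sum_congr rfl fun i _ => ?_
            rw [Finset.sum_comm]
    rw [e1]
    have e2 : ∀ i ∈ S, ∑ j ∈ S, ∑ y ∈ P, f i y * f j y ≤ M + s * η := by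
      intro i hi
      rw [← Finset.add_sum_erase _ _ hi]
      have e3 : ∑ y ∈ P, f i y * f i y = M := by
        rw [Finset.sum_congr rfl (hf i hi)]
        simp [hM]
      rw [e3]
      have e4 : ∑ j ∈ S.erase i, ∑ y ∈ P, f i y * f j y ≤ ∑ j ∈ S.erase i, η :=
        Finset.sum_le_sum fun j hj => h1 i hi j (Finset.mem_of_mem_erase hj)
          (Finset.ne_of_mem_erase hj).symm
      have e5 : ∑ j ∈ S.erase i, η ≤ s * η := by
        rw [Finset.sum_const, nsmul_eq_mul]
        refine mul_le_mul_of_nonneg_right ?_ hη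
        rw [hs]
        exact_mod_cast Finset.card_le_card (Finset.erase_subset _ _)
      linarith
    calc ∑ i ∈ S, ∑ j ∈ S, ∑ y ∈ P, f i y * f j y ≤ ∑ i ∈ S, (M + s * η) :=
          Finset.sum_le_sum e2
      _ = s * M + s ^ 2 * η := by
          rw [Finset.sum_const, nsmul_eq_mul]
          ring
  have hC : (∑ y ∈ P, (∑ i ∈ S, f i y) * w y) ^ 2 ≤
      (∑ y ∈ P, (∑ i ∈ S, f i y) ^ 2) * ∑ y ∈ P, w y ^ 2 := Finset.sum_mul_sq_le_sq_mul_sq _ _ _
  have hW : ∑ y ∈ P, w y ^ 2 = M := by
    rw [Finset.sum_congr rfl fun y hy => (sq (w y)).trans (hw y hy)]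
    simp [hM]
  rw [hW] at hC
  have hD : (s * θ) ^ 2 ≤ (s * M + s ^ 2 * η) * M := by
    calc (s * θ) ^ 2 ≤ (∑ y ∈ P, (∑ i ∈ S, f i y) * w y) ^ 2 :=
          pow_le_pow_left₀ (mul_nonneg hs0 hθ) hA 2
      _ ≤ _ := hC
      _ ≤ _ := mul_le_mul_of_nonneg_right hB hM0
  rcases hs0.eq_or_lt with h | h
  · rw [← h]
    simp only [zero_mul]
    positivity
  · have hE : s * (s * θ ^ 2) ≤ s * (M ^ 2 + s * η * M) := by nlinarith
    have hF := le_of_mul_le_mul_left hE h
    have hG : 2 * (s * η * M) ≤ s * θ ^ 2 := by nlinarith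
    nlinarith

end Pool.Agent.H48.NE
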