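import Pool.Agent.H48.NE.Num
import Pool.Agent.H48.NE.Math

/-!
# Polynomial time computability of the coding functions
-/

namespace Pool.Agent.H48.NE

open TMLib Polynomial

variable {α β γ δ σ τ : Type} [Enc α] [Enc β] [Enc γ] [Enc δ] [Enc σ] [Enc τ]

@[fun_prop] lemma ptime_hv {T : α → List Bool} {z p : α → ℕ} (hT : PTime T) (hz : PTime z)
    (hp : PTime p) : PTime (fun x => hv (T x) (z x) (p x)) := by
  have e1 : ∀ (a : α) (l : List Bool),
      l.reverse.foldl (fun s b => (s * z a + (bif b then 1 else 0)) % max (p a) 1) 0 =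
        hv l (z a) (p a) := by
    intro a l
    rw [List.foldl_reverse, hv]
    congr 1
  have hle : ∀ (a : α) (l : List Bool),
      l.foldl (fun s b => (s * z a + (bif b then 1 else 0)) % max (p a) 1) 0 ≤ p a := by
    intro a l
    have := e1 a l.reverse
    rw [List.reverse_reverse] at this
    rw [this]
    exact hv_le _ _ _
  have := PTime.foldl (f := fun (a : α) (s : ℕ) (b : Bool) =>
    (s * z a + (bif b then 1 else 0)) % max (p a) 1) (init := fun _ => 0)
    (l := fun a => (T a).reverse) (by
      have h1 : PTime (fun q : α × ℕ × Bool => q.2.1 * z q.1) :=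
        PTime.mul (by fun_prop) (hz.comp (PTime.fst PTime.id))
      have h2 : PTime (fun q : α × ℕ × Bool => (bif q.2.2 then 1 else 0 : ℕ)) :=
        PTime.cond (by fun_prop) (by fun_prop) (by fun_prop)
      have h3 : PTime (fun q : α × ℕ × Bool => max (p q.1) 1) :=
        PTime.max (hp.comp (PTime.fst PTime.id)) (by fun_prop)
      exact PTime.mod (PTime.add h1 h2) h3) (by fun_prop) (by fun_prop)
    (h := fun a => sz (p a)) hp.pb (fun a l' _ => by
      have := hle a l'
      simp only [sz_nat]
      omega)
  exact this.congr fun a => (e1 a (T a)).symm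

/-- One step of the inner product. -/
def ipStep (s : (ℕ × ℕ) × Bool) : (ℕ × ℕ) × Bool :=
  ((s.1.1 / 2, s.1.2 / 2), !(s.2 == (decide (s.1.1 % 2 = 1) && decide (s.1.2 % 2 = 1))))

lemma ipStep_iterate (a : ℕ) : ∀ (u r : ℕ) (b : Bool),
    ipStep^[a] ((u, r), b) = ((u / 2 ^ a, r / 2 ^ a), xor b (ip a u r)) := by
  induction a with
  | zero => intro u r b; simp [ip]
  | succ a ih =>
    intro u r b
    rw [Function.iterate_succ_apply, ipStep, ih]
    simp only [Nat.div_div_eq_div_mul, pow_succ, Nat.mul_comm (2 ^ a) 2, ip]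
    congr 1
    cases b <;> cases (decide (u % 2 = 1)) <;> cases (decide (r % 2 = 1)) <;>
      cases (ip a (u / 2) (r / 2)) <;> rfl

@[fun_prop] lemma ptime_ip {n u r : α → ℕ} (hn : PTime n) (hu : PTime u) (hr : PTime r) :
    PTime (fun x => ip (n x) (u x) (r x)) := by
  have hstep : PTime ipStep := by unfold ipStep; fun_prop
  have h := PTime.iter hstep (s := fun a => ((u a, r a), false)) (n := n) (by fun_prop) hn
    (h := fun a => 1 + (1 + sz (u a) + sz (r a)) + 3)
    (((PB.const 1).add (((PB.const 1).add hu.pb).add hr.pb)).add (PB.const 3))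
    (fun a i _ => by
      rw [ipStep_iterate, sz_pair, sz_pair]
      have h1 : u a / 2 ^ i ≤ u a := Nat.div_le_self _ _
      have h2 : r a / 2 ^ i ≤ r a := Nat.div_le_self _ _
      have h3 := sz_bool_le (xor false (ip i (u a) (r a)))
      simp only [sz_nat]
      omega)
  refine (PTime.snd h).congr fun a => ?_
  rw [ipStep_iterate]
  simp

/-- Primality test. -/
def isPr (k : ℕ) : Bool :=
  decide (2 ≤ k) && (List.range k).all fun d => decide (d < 2) || decide (k % d ≠ 0)

lemma isPr_iff (k : ℕ) : isPr k = true ↔ k.Prime := by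
  unfold isPr
  simp only [Bool.and_eq_true, decide_eq_true_eq, List.all_eq_true, List.mem_range,
    Bool.or_eq_true]
  rw [Nat.prime_def_lt]
  refine and_congr_right fun h2 => ⟨fun h m hm hd => ?_, fun h m hm => ?_⟩
  · rcases h m hm with h3 | h3
    · have : m ≠ 0 := by
        rintro rfl
        have := Nat.eq_zero_of_zero_dvd hd
        omega
      omega
    · exact absurd (Nat.mod_eq_zero_of_dvd hd) h3
  · by_cases h3 : m < 2
    · exact Or.inl h3
    · right
      intro h4
      have := h m hm (Nat.dvd_of_mod_eq_zero h4)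
      omega

@[fun_prop] lemma ptime_isPr {k : α → ℕ} (hk : PTime k) : PTime (fun x => isPr (k x)) := by
  unfold isPr
  fun_prop

/-- The least prime in `(B, 2B]`. -/
def prm (B : ℕ) : ℕ :=
  ((List.range (2 * B + 1)).filter fun k => decide (B < k) && isPr k).headD 0

lemma prm_spec {B : ℕ} (hB : B ≠ 0) : (prm B).Prime ∧ B < prm B ∧ prm B ≤ 2 * B := by
  obtain ⟨p, hp, h1, h2⟩ := Nat.exists_prime_lt_and_le_two_mul B hB
  have hmem : p ∈ (List.range (2 * B + 1)).filter fun k => decide (B < k) && isPr k := by
    simp only [List.mem_filter, List.mem_range, Bool.and_eq_true, decide_eq_true_eq]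
    exact ⟨by omega, h1, (isPr_iff p).2 hp⟩
  unfold prm
  cases h : (List.range (2 * B + 1)).filter fun k => decide (B < k) && isPr k with
  | nil => rw [h] at hmem; simp at hmem
  | cons q l =>
    have hq : q ∈ (List.range (2 * B + 1)).filter fun k => decide (B < k) && isPr k := by
      rw [h]; exact List.mem_cons_self
    simp only [List.mem_filter, List.mem_range, Bool.and_eq_true, decide_eq_true_eq] at hq
    exact ⟨(isPr_iff q).1 hq.2.2, hq.2.1, by show q ≤ 2 * B; omega⟩

@[fun_prop] lemma ptime_headD {l : α → List β} {d : α → β} (hl : PTime l) (hd : PTime d) :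
    PTime (fun x => (l x).headD (d x)) :=
  (PTime.getD (PTime.head? hl) hd).congr fun x => by cases l x <;> rfl

@[fun_prop] lemma ptime_prm {B : α → ℕ} (hB : PTime B) : PTime (fun x => prm (B x)) := by
  refine PTime.comp (g := prm) ?_ hB
  unfold prm
  fun_prop

end Pool.Agent.H48.NE
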