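import Pool.Agent.H48.NE.Bridge
import Pool.Agent.H48.NE.Fns

/-!
# The classes in terms of numbers
-/

namespace Pool.Agent.H48.NE

open TMLib Polynomial

variable {α β γ δ σ τ : Type} [Enc α] [Enc β] [Enc γ] [Enc δ] [Enc σ] [Enc τ]

/-- The language of a predicate of the length and the value of a string. -/
def lang (R : ℕ → ℕ → Prop) : Set (List Bool) := {x | R x.length (val x)}

/-- Padded polynomial space. -/
def ESn (R : ℕ → ℕ → Prop) : Prop := ∃ (c : ℕ) (P : ℕ × ℕ × ℕ → Prop), PSp P ∧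
  ∀ n k N, k < 2 ^ n → 2 ^ (c * (n + 1)) ≤ N → (P (n, k, N) ↔ R n k)

/-- Padded polynomial certificates. -/
def NEn (R : ℕ → ℕ → Prop) : Prop := ∃ (c : ℕ) (P : ℕ × ℕ × ℕ → Prop), NPp P ∧
  ∀ n k N, k < 2 ^ n → 2 ^ (c * (n + 1)) ≤ N → (P (n, k, N) ↔ R n k)

lemma esn_of_mem {L : Set (List Bool)} (hL : L ∈ EXPSPACE) : ESn fun n k => bitsOf n k ∈ L := by
  obtain ⟨c, P, hP, h⟩ := exists_psp_of_mem_EXPSPACE hL
  refine ⟨c, fun q => P (bitsOf q.1 q.2.1, q.2.2),
    hP.comp (g := fun q : ℕ × ℕ × ℕ => (bitsOf q.1 q.2.1, q.2.2)) (by fun_prop), ?_⟩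
  intro n k N _ hN
  exact h (bitsOf n k) N (by simpa using hN)

lemma nen_of_mem {L : Set (List Bool)} (hL : L ∈ NEXPTIME) : NEn fun n k => bitsOf n k ∈ L := by
  obtain ⟨c, P, hP, h⟩ := exists_npp_of_mem_NEXPTIME hL
  refine ⟨c, fun q => P (bitsOf q.1 q.2.1, q.2.2),
    hP.comp (g := fun q : ℕ × ℕ × ℕ => (bitsOf q.1 q.2.1, q.2.2)) (by fun_prop), ?_⟩
  intro n k N _ hN
  exact h (bitsOf n k) N (by simpa using hN)

lemma mem_of_esn {R : ℕ → ℕ → Prop} (hR : ESn R) : lang R ∈ EXPSPACE := by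
  obtain ⟨c, P, hP, h⟩ := hR
  refine mem_EXPSPACE_of_psp (P := fun q => P (q.1.length, valB q.2 q.1, q.2))
    (hP.comp (g := fun q : List Bool × ℕ => (q.1.length, valB q.2 q.1, q.2)) (by fun_prop))
    (c + 1) (fun x => ?_)
  have h1 : val x < 2 ^ x.length := val_lt x
  have h2 : 2 ^ x.length ≤ 2 ^ ((c + 1) * (x.length + 1)) := two_pow_le_exp (by omega) _
  have h3 : valB (2 ^ ((c + 1) * (x.length + 1))) x = val x := valB_eq (by omega)
  simp only [h3]
  exact (h _ _ _ h1 (pow_mono_exp (by omega) _)).symm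

lemma mem_of_nen {R : ℕ → ℕ → Prop} (hR : NEn R) : lang R ∈ NEXPTIME := by
  obtain ⟨c, P, hP, h⟩ := hR
  refine mem_NEXPTIME_of_npp (P := fun q => P (q.1.length, valB q.2 q.1, q.2))
    (hP.comp (g := fun q : List Bool × ℕ => (q.1.length, valB q.2 q.1, q.2)) (by fun_prop))
    (c + 1) (fun x => ?_)
  have h1 : val x < 2 ^ x.length := val_lt x
  have h2 : 2 ^ x.length ≤ 2 ^ ((c + 1) * (x.length + 1)) := two_pow_le_exp (by omega) _
  have h3 : valB (2 ^ ((c + 1) * (x.length + 1))) x = val x := valB_eq (by omega)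
  simp only [h3]
  exact (h _ _ _ h1 (pow_mono_exp (by omega) _)).symm

lemma lang_bitsOf (L : Set (List Bool)) : lang (fun n k => bitsOf n k ∈ L) = L := by
  ext x
  simp [lang]

lemma mem_NEXPTIME_iff (L : Set (List Bool)) :
    L ∈ NEXPTIME ↔ NEn fun n k => bitsOf n k ∈ L :=
  ⟨nen_of_mem, fun h => by have := mem_of_nen h; rwa [lang_bitsOf] at this⟩

lemma mem_EXPSPACE_iff (L : Set (List Bool)) :
    L ∈ EXPSPACE ↔ ESn fun n k => bitsOf n k ∈ L :=
  ⟨esn_of_mem, fun h => by have := mem_of_esn h; rwa [lang_bitsOf] at this⟩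

/-- `NEXPTIME ⊆ EXPSPACE`. -/
theorem NEXPTIME_subset_EXPSPACE : NEXPTIME ⊆ EXPSPACE := by
  intro L hL
  rw [mem_EXPSPACE_iff]
  obtain ⟨c, P, hP, h⟩ := nen_of_mem hL
  exact ⟨c, P, hP.psp, h⟩

/-- Finitely many lengths do not matter. -/
lemma NEn.of_eventually {R : ℕ → ℕ → Prop} {c n₀ : ℕ} {P : ℕ × ℕ × ℕ → Prop} (hP : NPp P)
    (h : ∀ n k N, n₀ ≤ n → k < 2 ^ n → 2 ^ (c * (n + 1)) ≤ N → (P (n, k, N) ↔ R n k)) :
    NEn R := by
  classical
  let l : List (ℕ × ℕ) := ((List.range n₀).flatMap fun n =>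
    (List.range (2 ^ n)).map fun k => (n, k)).filter fun q => decide (R q.1 q.2)
  refine ⟨c, fun q => ((q.1, q.2.1) ∈ l) ∨ (n₀ ≤ q.1 ∧ P q), ?_, ?_⟩
  · refine NPp.or (NPp.of_ptime ?_) (NPp.and (NPp.of_ptime ?_) hP)
    · exact PTime.mem (by fun_prop) (PTime.const l)
    · fun_prop
  · intro n k N hk hN
    have hl : (n, k) ∈ l ↔ n < n₀ ∧ R n k := by
      simp only [l, List.mem_filter, List.mem_flatMap, List.mem_map, List.mem_range,
        decide_eq_true_eq, Prod.mk.injEq]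
      constructor
      · rintro ⟨⟨n', hn', k', hk', rfl, rfl⟩, hR⟩
        exact ⟨hn', hR⟩
      · rintro ⟨hn, hR⟩
        exact ⟨⟨n, hn, k, hk, rfl, rfl⟩, hR⟩
    simp only [hl]
    rcases Nat.lt_or_ge n n₀ with hn | hn
    · constructor
      · rintro (h1 | h1)
        · exact h1.2
        · omega
      · intro h1
        exact Or.inl ⟨hn, h1⟩
    · rw [h n k N hn hk hN]
      constructor
      · rintro (h1 | h1)
        · exact h1.2
        · exact h1.2
      · intro h1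
        exact Or.inr ⟨hn, h1⟩

/-! ### Truth tables -/

open Classical in
/-- The truth table of a predicate at length `n`. -/
noncomputable def tab (R : ℕ → ℕ → Prop) (n : ℕ) : List Bool :=
  (List.range (2 ^ n)).map fun i => decide (R n i)

@[simp] lemma length_tab (R : ℕ → ℕ → Prop) (n : ℕ) : (tab R n).length = 2 ^ n := by simp [tab]

lemma getD_tab {R : ℕ → ℕ → Prop} {n i : ℕ} (hi : i < 2 ^ n) :
    (tab R n).getD i false = true ↔ R n i := by
  simp [tab, List.getD, hi]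

/-- The predicate saying that `T` is the truth table. -/
def IsTab (P : ℕ × ℕ × ℕ → Prop) (T : List Bool) (n N : ℕ) : Prop :=
  T.length = powB N n ∧ ∀ i ∈ List.range (powB N n), (T.getD i false = true ↔ P (n, i, N))

lemma psp_isTab {P : ℕ × ℕ × ℕ → Prop} (hP : PSp P) {T : α → List Bool} {n N : α → ℕ}
    (hT : PTime T) (hn : PTime n) (hN : PTime N) : PSp fun a => IsTab P (T a) (n a) (N a) := by
  refine PSp.and (PSp.of_ptime ?_) (PSp.forall_mem (R := fun a i =>
    ((T a).getD i false = true ↔ P (n a, i, N a))) (PSp.iff (PSp.of_ptime ?_) ?_) ?_)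
  · exact PTime.eq (PTime.length hT) (ptime_powB hN hn)
  · exact PTime.decide_true' (PTime.listGetD (hT.comp (PTime.fst PTime.id)) (PTime.snd PTime.id)
      (PTime.const false))
  · exact hP.comp (g := fun p : α × ℕ => (n p.1, p.2, N p.1))
      (PTime.pair (hn.comp (PTime.fst PTime.id)) (PTime.pair (PTime.snd PTime.id)
        (hN.comp (PTime.fst PTime.id))))
  · exact PTime.range (ptime_powB hN hn)

lemma isTab_iff {P : ℕ × ℕ × ℕ → Prop} {R : ℕ → ℕ → Prop} {c : ℕ}
    (h : ∀ n k N, k < 2 ^ n → 2 ^ (c * (n + 1)) ≤ N → (P (n, k, N) ↔ R n k))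
    {T : List Bool} {n N : ℕ} (hN : 2 ^ (c * (n + 1)) ≤ N) (hN' : 2 ^ n ≤ N) :
    IsTab P T n N ↔ T = tab R n := by
  unfold IsTab
  rw [powB_eq hN']
  constructor
  · rintro ⟨h1, h2⟩
    refine List.ext_getElem (by rw [h1, length_tab]) fun i hi hi' => ?_
    rw [length_tab] at hi'
    have h3 := h2 i (List.mem_range.2 hi')
    have h4 := getD_tab (R := R) hi'
    rw [h n i N hi' hN, ← h4, ← Bool.eq_iff_iff] at h3
    simpa [List.getD, hi, hi'] using h3
  · rintro rfl
    refine ⟨length_tab R n, fun i hi => ?_⟩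
    rw [List.mem_range] at hi
    rw [getD_tab hi, h n i N hi hN]

/-! ### Counting -/

lemma length_filter_range (M : ℕ) (f : ℕ → Bool) :
    ((List.range M).filter f).length = ((Finset.range M).filter fun y => f y = true).card := by
  rw [← Multiset.coe_card]
  congr 1
  show ((List.filter f (List.range M) : List ℕ) : Multiset ℕ) =
    Multiset.filter (fun y => f y = true) (Multiset.range M)
  rw [← Multiset.coe_range, Multiset.filter_coe]
  congr 1
  apply List.filter_congr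
  intro y _
  cases f y <;> rfl

open Classical in
lemma ncard_eq (L : Set (List Bool)) (n : ℕ) : {x | x ∈ L ∧ x.length = n}.ncard =
    ((Finset.range (2 ^ n)).filter fun k => bitsOf n k ∈ L).card := by
  have h1 : {x | x ∈ L ∧ x.length = n} =
      bitsOf n '' ((Finset.range (2 ^ n)).filter fun k => bitsOf n k ∈ L) := by
    ext x
    simp only [Set.mem_ofPred_eq, Finset.coe_filter, Finset.mem_range, Set.mem_image]
    constructor
    · rintro ⟨hx, rfl⟩
      exact ⟨val x, ⟨val_lt x, by rwa [bitsOf_val]⟩, bitsOf_val x⟩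
    · rintro ⟨k, ⟨_, hk'⟩, rfl⟩
      exact ⟨hk', length_bitsOf n k⟩
  rw [h1, Set.ncard_image_of_injOn, Set.ncard_coe_finset]
  intro k hk k' hk' h
  simp only [Finset.coe_filter, Finset.mem_range, Set.mem_ofPred_eq] at hk hk'
  exact bitsOf_inj hk.1 hk'.1 h

end Pool.Agent.H48.NE
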