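import Pool.Agent.H48.NE.Fns

/-!
# The Reed-Solomon-Hadamard code
-/

namespace Pool.Agent.H48.NE

/-- The list size bound for weights of absolute value at most one. -/
theorem johnson' {ι κ : Type} (S : Finset ι) (P : Finset κ) (f : ι → κ → ℤ) (w : κ → ℤ)
    (η θ : ℤ) (hf : ∀ i ∈ S, ∀ y ∈ P, f i y * f i y = 1) (hw : ∀ y ∈ P, w y * w y ≤ 1)
    (h1 : ∀ i ∈ S, ∀ j ∈ S, i ≠ j → ∑ y ∈ P, f i y * f j y ≤ η)
    (h2 : ∀ i ∈ S, θ ≤ ∑ y ∈ P, f i y * w y) (hθ : 0 ≤ θ) (hη : 0 ≤ η)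
    (hc : 2 * (P.card : ℤ) * η ≤ θ ^ 2) :
    (S.card : ℤ) * θ ^ 2 ≤ 2 * (P.card : ℤ) ^ 2 := by
  classical
  set M : ℤ := (P.card : ℤ) with hM
  set s : ℤ := (S.card : ℤ) with hs
  have hM0 : 0 ≤ M := by positivity
  have hs0 : 0 ≤ s := by positivity
  -- sum of the vectors
  have hA : s * θ ≤ ∑ y ∈ P, (∑ i ∈ S, f i y) * w y := by
    have : ∑ y ∈ P, (∑ i ∈ S, f i y) * w y = ∑ i ∈ S, ∑ y ∈ P, f i y * w y := by
      rw [Finset.sum_comm]
      exact Finset.sum_congr rfl fun y _ => Finset.sum_mul _ _ _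
    rw [this, hs]
    calc (S.card : ℤ) * θ = ∑ i ∈ S, θ := by simp
      _ ≤ _ := Finset.sum_le_sum h2
  have hB : ∑ y ∈ P, (∑ i ∈ S, f i y) ^ 2 ≤ s * M + s ^ 2 * η := by
    have e1 : ∑ y ∈ P, (∑ i ∈ S, f i y) ^ 2 = ∑ i ∈ S, ∑ j ∈ S, ∑ y ∈ P, f i y * f j y := by
      calc ∑ y ∈ P, (∑ i ∈ S, f i y) ^ 2 = ∑ y ∈ P, ∑ i ∈ S, ∑ j ∈ S, f i y * f j y := by
            refine Finset.sum_congr rfl fun y _ => ?_
            rw [sq, Finset.sum_mul_sum]
        _ = _ := by
            rw [Finset.sum_comm]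
            refine Finset.sum_congr rfl fun i _ => ?_
            rw [Finset.sum_comm]
    rw [e1]
    have e2 : ∀ i ∈ S, ∑ j ∈ S, ∑ y ∈ P, f i y * f j y ≤ M + s * η := by
      intro i hi
      rw [← Finset.add_sum_erase _ _ hi]
      have e3 : ∑ y ∈ P, f i y * f i y = M := by
        rw [Finset.sum_congr rfl (hf i hi)]
        simp [hM]
      rw [e3]
      have e4 : ∑ j ∈ S.erase i, ∑ y ∈ P, f i y * f j y ≤ ∑ j ∈ S.erase i, η :=
        Finset.sum_le_sum fun j hj => h1 i hi j (Finset.mem_of_mem_erase hj)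
          (Finset.ne_of_mem_erase hj).symm
      have e5 : ∑ j ∈ S.erase i, η ≤ s * η := by
        rw [Finset.sum_const, nsmul_eq_mul]
        refine mul_le_mul_of_nonneg_right ?_ hη
        rw [hs]
        exact_mod_cast Finset.card_le_card (Finset.erase_subset _ _)
      linarith
    calc ∑ i ∈ S, ∑ j ∈ S, ∑ y ∈ P, f i y * f j y ≤ ∑ i ∈ S, (M + s * η) :=
          Finset.sum_le_sum e2
      _ = s * M + s ^ 2 * η := by
          rw [Finset.sum_const, nsmul_eq_mul]
          ring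
  have hC : (∑ y ∈ P, (∑ i ∈ S, f i y) * w y) ^ 2 ≤
      (∑ y ∈ P, (∑ i ∈ S, f i y) ^ 2) * ∑ y ∈ P, w y ^ 2 := Finset.sum_mul_sq_le_sq_mul_sq _ _ _
  have hW : ∑ y ∈ P, w y ^ 2 ≤ M := by
    calc ∑ y ∈ P, w y ^ 2 ≤ ∑ y ∈ P, 1 := Finset.sum_le_sum fun y hy => by
          rw [sq]; exact hw y hy
      _ = M := by simp [hM]
  have hBn : 0 ≤ ∑ y ∈ P, (∑ i ∈ S, f i y) ^ 2 := Finset.sum_nonneg fun y _ => sq_nonneg _
  have hD : (s * θ) ^ 2 ≤ (s * M + s ^ 2 * η) * M := by
    calc (s * θ) ^ 2 ≤ (∑ y ∈ P, (∑ i ∈ S, f i y) * w y) ^ 2 :=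
          pow_le_pow_left₀ (mul_nonneg hs0 hθ) hA 2
      _ ≤ _ := hC
      _ ≤ (∑ y ∈ P, (∑ i ∈ S, f i y) ^ 2) * M := mul_le_mul_of_nonneg_left hW hBn
      _ ≤ _ := mul_le_mul_of_nonneg_right hB hM0
  rcases hs0.eq_or_lt with h | h
  · rw [← h]
    simp only [zero_mul]
    positivity
  · have hE : s * (s * θ ^ 2) ≤ s * (M ^ 2 + s * η * M) := by nlinarith
    have hF := le_of_mul_le_mul_left hE h
    have hG : 2 * (s * η * M) ≤ s * θ ^ 2 := by nlinarith
    nlinarith

/-- The code: evaluation of the polynomial, then Hadamard code. -/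
def hc (a p : ℕ) (T : List Bool) (y : ℕ) : Bool := ip a (hv T (y / 2 ^ a % p) p) (y % 2 ^ a)

/-- Sums over a product range. -/
lemma sum_range_mul (M N : ℕ) (f : ℕ → ℤ) :
    ∑ y ∈ Finset.range (M * N), f y =
      ∑ z ∈ Finset.range M, ∑ r ∈ Finset.range N, f (z * N + r) := by
  induction M with
  | zero => simp
  | succ M ih =>
    rw [Nat.succ_mul, Finset.sum_range_add, ih, Finset.sum_range_succ]

/-- Each residue has at most two representatives below `2^a < 2 p`. -/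
lemma card_mod_le {M p : ℕ} (hM : M ≤ 2 * p) (Q : ℕ → Prop) [DecidablePred Q] :
    ((Finset.range M).filter fun z => Q (z % p)).card ≤
      2 * ((Finset.range p).filter fun z => Q z).card := by
  classical
  rcases Nat.eq_zero_or_pos p with rfl | hp
  · have : M = 0 := by omega
    subst this
    simp
  have h1 : ((Finset.range M).filter fun z => Q (z % p)) ⊆
      ((Finset.range p).filter fun z => Q z) ∪
        ((Finset.range p).filter fun z => Q z).image (fun z => z + p) := by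
    intro z hz
    rw [Finset.mem_filter, Finset.mem_range] at hz
    rw [Finset.mem_union, Finset.mem_filter, Finset.mem_range, Finset.mem_image]
    rcases Nat.lt_or_ge z p with h | h
    · left
      rw [Nat.mod_eq_of_lt h] at hz
      exact ⟨h, hz.2⟩
    · right
      have h2 : z % p = z - p := by
        rw [Nat.mod_eq_sub_mod h, Nat.mod_eq_of_lt (by omega)]
      refine ⟨z - p, ?_, by omega⟩
      rw [Finset.mem_filter, Finset.mem_range]
      rw [h2] at hz
      exact ⟨by omega, hz.2⟩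
  calc _ ≤ _ := Finset.card_le_card h1
    _ ≤ _ := Finset.card_union_le _ _
    _ ≤ ((Finset.range p).filter fun z => Q z).card +
        ((Finset.range p).filter fun z => Q z).card :=
        Nat.add_le_add_left Finset.card_image_le _
    _ = _ := by ring

/-- Collisions of two polynomials on `2^a` points. -/
lemma card_coll_le {M p : ℕ} (hM : M ≤ 2 * p) (hp : p.Prime) {T T' : List Bool}
    (hl : T.length = T'.length) (hne : T ≠ T') :
    ((Finset.range M).filter fun z => hv T (z % p) p = hv T' (z % p) p).card ≤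
      2 * T.length := by
  refine (card_mod_le hM (fun z => hv T z p = hv T' z p)).trans ?_
  exact Nat.mul_le_mul_left _ (card_hv_eq_lt hp hl hne).le

/-- Pairwise inner products of codewords. -/
theorem sum_hc_le {a p : ℕ} (hp : p.Prime) (h1 : 2 ^ a ≤ 2 * p) (h2 : p ≤ 2 ^ a)
    {T T' : List Bool} (hl : T.length = T'.length) (hne : T ≠ T') :
    ∑ y ∈ Finset.range (2 ^ a * 2 ^ a), sg (hc a p T y) * sg (hc a p T' y) ≤
      2 * T.length * 2 ^ a := by
  classical
  rw [sum_range_mul]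
  have e1 : ∀ z ∈ Finset.range (2 ^ a), ∑ r ∈ Finset.range (2 ^ a),
      sg (hc a p T (z * 2 ^ a + r)) * sg (hc a p T' (z * 2 ^ a + r)) =
      if hv T (z % p) p = hv T' (z % p) p then (2 : ℤ) ^ a else 0 := by
    intro z _
    have e2 : ∀ r ∈ Finset.range (2 ^ a),
        sg (hc a p T (z * 2 ^ a + r)) * sg (hc a p T' (z * 2 ^ a + r)) =
        sg (ip a (hv T (z % p) p) r) * sg (ip a (hv T' (z % p) p) r) := by
      intro r hr
      rw [Finset.mem_range] at hr
      have e3 : (z * 2 ^ a + r) / 2 ^ a = z := by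
        rw [Nat.add_comm, Nat.add_mul_div_right _ _ (by positivity), Nat.div_eq_of_lt hr,
          zero_add]
      have e4 : (z * 2 ^ a + r) % 2 ^ a = r := by
        rw [Nat.add_comm, Nat.add_mul_mod_self_right, Nat.mod_eq_of_lt hr]
      unfold hc
      rw [e3, e4]
    rw [Finset.sum_congr rfl e2]
    split_ifs with h
    · rw [h, Finset.sum_congr rfl fun r _ => sg_sq _]
      simp
    · exact sum_ip_ne a (lt_of_lt_of_le (hv_lt _ _ hp.pos) h2)
        (lt_of_lt_of_le (hv_lt _ _ hp.pos) h2) h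
  rw [Finset.sum_congr rfl e1, ← Finset.sum_filter, Finset.sum_const, nsmul_eq_mul]
  refine mul_le_mul_of_nonneg_right ?_ (by positivity)
  exact_mod_cast card_coll_le h1 hp hl hne

/-- List size bound for the code. -/
theorem hc_list {a p k : ℕ} (hp : p.Prime) (h1 : 2 ^ a ≤ 2 * p) (h2 : p ≤ 2 ^ a)
    (w : ℕ → ℤ) (hw : ∀ y, w y * w y ≤ 1) (θ : ℤ) (hθ : 0 ≤ θ)
    (hk : 2 * (2 ^ a * 2 ^ a) * (2 * k * 2 ^ a) ≤ θ ^ 2) (Λ : Finset (List Bool))
    (hΛ : ∀ T ∈ Λ, T.length = k ∧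
      θ ≤ ∑ y ∈ Finset.range (2 ^ a * 2 ^ a), sg (hc a p T y) * w y) :
    (Λ.card : ℤ) * θ ^ 2 ≤ 2 * (2 ^ a * 2 ^ a) ^ 2 := by
  have h := johnson' Λ (Finset.range (2 ^ a * 2 ^ a)) (fun T y => sg (hc a p T y)) w
    (2 * k * 2 ^ a) θ (fun T _ y _ => sg_sq _) (fun y _ => hw y) ?_ (fun T hT => (hΛ T hT).2) hθ
    (by positivity) ?_
  · rw [Finset.card_range] at h
    push_cast at h
    exact h
  · intro T hT T' hT' hne
    have h3 := sum_hc_le hp h1 h2 (T := T) (T' := T') (by rw [(hΛ T hT).1, (hΛ T' hT').1]) hne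
    rw [(hΛ T hT).1] at h3
    exact h3
  · rw [Finset.card_range]
    push_cast
    exact hk

open TMLib in
@[fun_prop] lemma ptime_hc {α : Type} [Enc α] {a p N : α → ℕ} {T : α → List Bool} {y : α → ℕ}
    (ha : PTime a) (hp : PTime p) (hN : PTime N) (hT : PTime T) (hy : PTime y) :
    PTime (fun x => ip (a x) (hv (T x) (y x / powB (N x) (a x) % p x) (p x))
      (y x % powB (N x) (a x))) := by
  have e1 : PTime fun x => y x / powB (N x) (a x) := PTime.div hy (ptime_powB hN ha)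
  have e2 : PTime fun x => y x % powB (N x) (a x) := PTime.mod hy (ptime_powB hN ha)
  exact ptime_ip ha (ptime_hv hT (PTime.mod e1 hp) hp) e2

end Pool.Agent.H48.NE
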