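import Pool.Agent.H48.NE.Decode
import Pool.Agent.H48.NE.Code

/-!
# Approximation with exponentially small advantage, first version
-/

namespace Pool.Agent.H48.NE

open TMLib Polynomial Filter

set_option maxHeartbeats 4000000

lemma sum_sg_eq (M : ℕ) (c w : ℕ → Bool) :
    ∑ y ∈ Finset.range M, sg (c y) * sg (w y) =
      2 * (((Finset.range M).filter fun y => c y = w y).card : ℤ) - M := by
  have e : ∀ y ∈ Finset.range M, sg (c y) * sg (w y) = 2 * (if c y = w y then 1 else 0) - 1 := by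
    intro y _
    cases c y <;> cases w y <;> simp [sg]
  rw [Finset.sum_congr rfl e, Finset.sum_sub_distrib, ← Finset.mul_sum, Finset.sum_boole]
  simp

/-- The agreement of two languages at one length. -/
lemma ncard_agr (A L : Set (List Bool)) (n : ℕ) :
    {x | x.length = n ∧ (x ∈ A ↔ x ∈ L)}.ncard =
      agr n (fun n k => bitsOf n k ∈ L) (fun n k => bitsOf n k ∈ A) := by
  classical
  have e : {x | x.length = n ∧ (x ∈ A ↔ x ∈ L)} = {x | x ∈ {x | x ∈ A ↔ x ∈ L} ∧ x.length = n} := by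
    ext x
    simp only [Set.mem_ofPred_eq]
    tauto
  rw [e, ncard_eq]
  unfold agr
  congr 1
  ext k
  simp only [Finset.mem_filter]
  exact Iff.rfl

/-- Approximability with advantage `2^(-δ n)`. -/
def AppR (δ : ℝ) : Prop := ∀ L ∈ EXPSPACE, ∃ A ∈ NEXPTIME, ∃ n₀ : ℕ, ∀ n ≥ n₀,
  (1 / 2 + (2 : ℝ) ^ (-(δ * n))) * 2 ^ n ≤ {x | x.length = n ∧ (x ∈ A ↔ x ∈ L)}.ncard

lemma nen_congr {S : ℕ → ℕ → Prop} {A : Set (List Bool)} (hA : A ∈ NEXPTIME)
    (h : S = fun n k => bitsOf n k ∈ A) : NEn S := by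
  rw [h]
  exact nen_of_mem hA

lemma agr_lang (n : ℕ) (R : ℕ → ℕ → Prop) (S : ℕ → ℕ → Prop) :
    agr n (fun n k => bitsOf n k ∈ lang R) S = agr n R S := by
  classical
  unfold agr
  congr 1
  refine Finset.filter_congr fun k hk => ?_
  rw [Finset.mem_range] at hk
  have : bitsOf n k ∈ lang R ↔ R n k := by
    show R (bitsOf n k).length (val (bitsOf n k)) ↔ R n k
    rw [length_bitsOf, val_bitsOf hk]
  beta_reduce
  rw [this]

lemma majH_of_appR {δ : ℝ} (H : AppR δ) : MajH := by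
  intro R hR _
  obtain ⟨A, hA, n₀, hn₀⟩ := H _ (mem_of_esn hR)
  refine ⟨_, nen_of_mem hA, n₀, fun n hn => ?_⟩
  have h1 := hn₀ n hn
  rw [ncard_agr, agr_lang] at h1
  have h2 : (0 : ℝ) < (2 : ℝ) ^ (-(δ * n)) := Real.rpow_pos_of_pos (by norm_num) _
  have h3 : (0 : ℝ) < 2 ^ n := by positivity
  have h4 : (2 : ℝ) ^ n < 2 * (agr n R fun n k => bitsOf n k ∈ A : ℕ) := by nlinarith
  exact_mod_cast h4

lemma appH_of_appR {δ : ℝ} (H : AppR δ) {C E : ℕ} (hC : 1 ≤ C) (hE : δ * C ≤ E)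
    (hEC : E ≤ C) : AppH C E := by
  intro R hR
  obtain ⟨A, hA, n₀, hn₀⟩ := H _ (mem_of_esn hR)
  refine ⟨_, nen_of_mem hA, n₀, fun n hn => ?_⟩
  have hn1 : n ≤ C * n := Nat.le_mul_of_pos_left _ hC
  have h1 := hn₀ (C * n) (by omega)
  rw [ncard_agr, agr_lang] at h1
  have h2 : (2 : ℝ) ^ (C * n - E * n) ≤ (2 : ℝ) ^ (-(δ * (C * n : ℕ))) * 2 ^ (C * n) := by
    rw [← Real.rpow_natCast 2 (C * n), ← Real.rpow_natCast 2 (C * n - E * n),
      ← Real.rpow_add (by norm_num)]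
    refine Real.rpow_le_rpow_of_exponent_le (by norm_num) ?_
    rw [Nat.cast_sub (Nat.mul_le_mul_right _ hEC)]
    push_cast
    have h3 : (0 : ℝ) ≤ n := Nat.cast_nonneg n
    nlinarith
  have h4 : (2 : ℝ) ^ (C * n) + 2 * 2 ^ (C * n - E * n) ≤
      2 * (agr (C * n) R fun n k => bitsOf n k ∈ A : ℕ) := by
    nlinarith
  exact_mod_cast h4

theorem nen_of_app4 {C E : ℕ} (hCE : 2 * E + 1 ≤ C) (H : AppH (2 * C) E) (Hm : MajH)
    {R : ℕ → ℕ → Prop} (hR : ESn R) : NEn R := by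
  refine nen_of_nef_tab ?_
  refine nef_decode (esn_padR hR) (C := 2 * C) (E := E) (by omega) H Hm
    (F := fun _ => ()) (esf_of_ptime (G := fun _ => ()) (by fun_prop)
      (Eventually.of_forall fun _ => rfl)) (nef_of_ptime (G := fun _ => ()) (by fun_prop)
      (Eventually.of_forall fun _ => rfl))
    (cw := fun n T z => hc (C * n) (prm (2 ^ (C * n - 1))) T z)
    (V := fun x => ip (C * x.1.1.1) (hv x.1.2 (x.2 / powB x.1.1.2.2 (C * x.1.1.1) %
      prm (powB x.1.1.2.2 (C * x.1.1.1 - 1))) (prm (powB x.1.1.2.2 (C * x.1.1.1 - 1))))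
      (x.2 % powB x.1.1.2.2 (C * x.1.1.1))) ?_ ?_ (2 * E) ?_
  · exact ptime_hc (by fun_prop) (by fun_prop) (by fun_prop) (by fun_prop) (by fun_prop)
  · filter_upwards [eventually_two_pow_le ⊤ C] with q hq T z hT hz
    have h1 : 2 ^ (C * q.1 - 1) ≤ q.2 :=
      le_trans (Nat.pow_le_pow_right (by norm_num) (by omega)) hq
    rw [powB_eq hq, powB_eq h1]
    rfl
  · filter_upwards [eventually_pows_ge 1] with n hn w Λ hΛ
    have hCn : n ≤ C * n := Nat.le_mul_of_pos_left _ (by omega)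
    set a := C * n with ha
    obtain ⟨hp, hp1, hp2⟩ := prm_spec (B := 2 ^ (a - 1)) (by positivity)
    set p := prm (2 ^ (a - 1)) with hpdef
    have e1 : 2 * 2 ^ (a - 1) = 2 ^ a := by
      rw [← pow_succ']
      congr 1
      omega
    have e2 : 2 * C * n = a + a := by rw [ha]; ring
    have hEa : 2 * (E * n) + n ≤ a := by rw [ha]; nlinarith
    rw [e2] at hΛ
    obtain ⟨X, hX⟩ : ∃ X : ℤ, X = 2 ^ (a + a - E * n) := ⟨_, rfl⟩
    have hX2 : X * 2 ^ (E * n) = 2 ^ a * 2 ^ a := by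
      rw [hX, ← pow_add, ← pow_add]
      congr 1
      omega
    have hXpos : 0 < X := by rw [hX]; positivity
    have h1 := hc_list (a := a) (p := p) (k := 2 ^ n) hp (by omega) (by omega) (fun y => sg (w y))
      (fun y => (sg_sq _).le) (2 * X) (by positivity) ?_ Λ ?_
    · -- conclusion
      have h2 : (Λ.card : ℤ) * (2 * X) ^ 2 ≤ 2 * (X * 2 ^ (E * n)) ^ 2 := by rw [hX2]; exact h1
      have h3 : X ^ 2 * ((Λ.card : ℤ) * 4) ≤ X ^ 2 * (2 * (2 ^ (E * n)) ^ 2) := by nlinarith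
      have h4 := le_of_mul_le_mul_left h3 (by positivity)
      have h5 : ((2 : ℤ) ^ (E * n)) ^ 2 = 2 ^ (2 * E * n) := by
        rw [← pow_mul]
        congr 1
        ring
      rw [h5] at h4
      have h6 : (Λ.card : ℤ) ≤ 2 ^ (2 * E * n) := by
        have : (0 : ℤ) ≤ (Λ.card : ℤ) := by positivity
        omega
      exact_mod_cast h6
    · -- parameters
      have h2 : (2 : ℤ) * (2 ^ a * 2 ^ a) * (2 * (2 ^ n : ℕ) * 2 ^ a) =
          4 * (2 ^ (a + a + a + n)) := by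
        push_cast
        ring
      have h3 : (2 * X) ^ 2 = 4 * 2 ^ ((a + a - E * n) + (a + a - E * n)) := by
        rw [hX]
        ring
      rw [h2, h3]
      have h4 : (2 : ℤ) ^ (a + a + a + n) ≤ 2 ^ ((a + a - E * n) + (a + a - E * n)) :=
        pow_le_pow_right₀ (by norm_num) (by omega)
      linarith
    · intro T hT
      obtain ⟨h2, h3⟩ := hΛ T hT
      refine ⟨h2, ?_⟩
      have h4 := sum_sg_eq (2 ^ a * 2 ^ a) (hc a p T) w
      rw [h4]
      have h5 : ((2 : ℕ) ^ (a + a) : ℤ) + 2 * (2 : ℕ) ^ (a + a - E * n) ≤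
          2 * (agw (a + a) (hc a p T) w : ℕ) := by exact_mod_cast h3
      have h6 : agw (a + a) (hc a p T) w =
          ((Finset.range (2 ^ a * 2 ^ a)).filter fun y => hc a p T y = w y).card := by
        unfold agw
        rw [pow_add]
      rw [h6] at h5
      rw [hX]
      push_cast at h5 ⊢
      rw [pow_add] at h5
      linarith

end Pool.Agent.H48.NE
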