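import Mathlib

/-!
# Exponential time and space classes with linear exponents

Machines are Mathlib's multi-stack machines `FinTM2` (finitely many stacks, labels and internal
states) with input and output alphabet identified with `Bool`.
-/

namespace Pool.Agent.H48.NE

open Turing

/-- A deterministic machine with input and output alphabet `Bool`. -/
abbrev Mach := TM2ComputableAux Bool Bool

/-- The input `x` followed by the guessed string `w` (the bits of `x` are marked). -/
def pairStr (x w : List Bool) : List Bool := x.flatMap (fun b => [true, b]) ++ false :: w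

/-- On input `l` the machine halts after at most `t` steps with output `l'`. -/
def OutInTime (M : Mach) (l l' : List Bool) (t : ℕ) : Prop :=
  Nonempty (TM2OutputsInTime M.tm (l.map M.inputAlphabet.invFun)
    (some (l'.map M.outputAlphabet.invFun)) t)

/-- The configuration after `i` steps on input `l` (`none` if the machine has halted before). -/
def cfgAt (M : Mach) (l : List Bool) (i : ℕ) : Option M.tm.Cfg :=
  (flip bind M.tm.step)^[i] (some (initList M.tm (l.map M.inputAlphabet.invFun)))

/-- On input `l` the machine halts with output `l'`, and in every configuration of the computation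
every stack has length at most `s`. -/
def OutInSpace (M : Mach) (l l' : List Bool) (s : ℕ) : Prop :=
  ∃ n, cfgAt M l n = some (haltList M.tm (l'.map M.outputAlphabet.invFun)) ∧
    ∀ i ≤ n, ∀ c, cfgAt M l i = some c → ∀ k, (c.stk k).length ≤ s

/-- `NTIME(2^O(n))`: there is a machine `M` which on every pair `(x, w)` with
`|w| ≤ 2^(c(|x|+1))` halts within `2^(d(|x|+1))` steps with output a bit `V x w`, and `x` is in the
language iff `V x w = 1` for some `w` with `|w| ≤ 2^(c(|x|+1))`. -/
def NEXPTIME : Set (Set (List Bool)) :=
  {L | ∃ (M : Mach) (c d : ℕ) (V : List Bool → List Bool → Bool),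
    (∀ x w, w.length ≤ 2 ^ (c * (x.length + 1)) →
      OutInTime M (pairStr x w) [V x w] (2 ^ (d * (x.length + 1)))) ∧
    ∀ x, x ∈ L ↔ ∃ w, w.length ≤ 2 ^ (c * (x.length + 1)) ∧ V x w = true}

open Classical in
/-- `DSPACE(2^O(n))`: there is a machine which on every input `x` halts with output the bit
`[x ∈ L]`, using space at most `2^(c(|x|+1))` on every stack. -/
def EXPSPACE : Set (Set (List Bool)) :=
  {L | ∃ (M : Mach) (c : ℕ), ∀ x, OutInSpace M x [decide (x ∈ L)] (2 ^ (c * (x.length + 1)))}

end Pool.Agent.H48.NE
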