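import Pool.Agent.H48.NE.NPp
import Pool.Agent.H48.NE.Defs

/-!
# Bit strings and numbers
-/

namespace Pool.Agent.H48.NE

open TMLib Polynomial

variable {α β γ δ σ τ : Type} [Enc α] [Enc β] [Enc γ] [Enc δ] [Enc σ] [Enc τ]

/-- The `n` lowest bits of `k`, lowest bit first. -/
def bitsOf : ℕ → ℕ → List Bool
  | 0, _ => []
  | n + 1, k => decide (k % 2 = 1) :: bitsOf n (k / 2)

/-- The number with given bits, lowest bit first. -/
def val : List Bool → ℕ
  | [] => 0
  | b :: l => b.toNat + 2 * val l

@[simp] lemma length_bitsOf (n k : ℕ) : (bitsOf n k).length = n := by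
  induction n generalizing k with
  | zero => rfl
  | succ n ih => simp [bitsOf, ih]

lemma val_lt (l : List Bool) : val l < 2 ^ l.length := by
  induction l with
  | nil => simp [val]
  | cons b l ih =>
    have : b.toNat ≤ 1 := Bool.toNat_le b
    simp only [val, List.length_cons, pow_succ]
    omega

@[simp] lemma bitsOf_val (l : List Bool) : bitsOf l.length (val l) = l := by
  induction l with
  | nil => rfl
  | cons b l ih =>
    have h1 : (b.toNat + 2 * val l) / 2 = val l := by cases b <;> simp <;> omega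
    have h2 : decide ((b.toNat + 2 * val l) % 2 = 1) = b := by cases b <;> simp <;> omega
    simp only [List.length_cons, bitsOf, val, h1, h2, ih]

lemma val_bitsOf {n k : ℕ} (h : k < 2 ^ n) : val (bitsOf n k) = k := by
  induction n generalizing k with
  | zero =>
    simp at h
    simp [bitsOf, val, h]
  | succ n ih =>
    have h1 : k / 2 < 2 ^ n := by
      rw [pow_succ] at h
      omega
    simp only [bitsOf, val, ih h1]
    rcases Nat.mod_two_eq_zero_or_one k with h2 | h2
    · simp [h2]; omega
    · simp [h2]; omega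

lemma bitsOf_inj {n k k' : ℕ} (h : k < 2 ^ n) (h' : k' < 2 ^ n) (e : bitsOf n k = bitsOf n k') :
    k = k' := by
  rw [← val_bitsOf h, e, val_bitsOf h']

/-- The capped power of two. -/
def powB (B e : ℕ) : ℕ := min B (2 ^ e)

/-- The capped value of a bit string. -/
def valB (B : ℕ) (l : List Bool) : ℕ := min B (val l)

lemma powB_eq {B e : ℕ} (h : 2 ^ e ≤ B) : powB B e = 2 ^ e := min_eq_right h
lemma valB_eq {B : ℕ} {l : List Bool} (h : val l ≤ B) : valB B l = val l := min_eq_right h

@[fun_prop] lemma ptime_powB {B e : α → ℕ} (hB : PTime B) (he : PTime e) :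
    PTime (fun x => powB (B x) (e x)) := by
  have e1 : ∀ (a : α) (i : ℕ), Nat.rec (motive := fun _ => ℕ) (min (B a) 1)
      (fun _ s => min (B a) (2 * s)) i = powB (B a) i := by
    intro a i
    induction i with
    | zero => simp [powB]
    | succ i ih =>
      simp only [ih, powB, pow_succ]
      omega
  have := PTime.natRec (f := fun a => min (B a) 1) (g := fun a _ s => min (B a) (2 * s)) (n := e)
    (by fun_prop) (by
      exact PTime.min (hB.comp (PTime.fst PTime.id)) (by fun_prop)) he (h := fun a => sz (B a))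
    hB.pb (fun a i _ => by rw [e1]; simp [powB])
  exact this.congr fun a => (e1 a (e a)).symm

@[fun_prop] lemma ptime_valB {B : α → ℕ} {l : α → List Bool} (hB : PTime B) (hl : PTime l) :
    PTime (fun x => valB (B x) (l x)) := by
  have e1 : ∀ (a : α) (l : List Bool),
      l.reverse.foldl (fun s b => min (B a) ((bif b then 1 else 0) + 2 * s)) 0 =
        valB (B a) l := by
    intro a l
    induction l with
    | nil => simp [valB, val]
    | cons b l ih =>
      rw [List.reverse_cons, List.foldl_append, ih]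
      simp only [List.foldl_cons, List.foldl_nil, valB, val]
      cases b <;> simp <;> omega
  have hle : ∀ (a : α) (l : List Bool),
      l.foldl (fun s b => min (B a) ((bif b then 1 else 0) + 2 * s)) 0 ≤ B a := by
    intro a l
    induction l using List.reverseRecOn with
    | nil => simp
    | append_singleton l b ih =>
      rw [List.foldl_append]
      simp
  have := PTime.foldl (f := fun (a : α) (s : ℕ) (b : Bool) =>
    min (B a) ((bif b then 1 else 0) + 2 * s)) (init := fun _ => 0)
    (l := fun a => (l a).reverse) (by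
      refine PTime.min (hB.comp (PTime.fst PTime.id)) (PTime.add ?_ (by fun_prop))
      exact PTime.cond (by fun_prop) (by fun_prop) (by fun_prop)) (by fun_prop) (by fun_prop)
    (h := fun a => sz (B a)) hB.pb (fun a l' _ => by
      have := hle a l'
      simp only [sz_nat]
      omega)
  exact this.congr fun a => (e1 a (l a)).symm

/-- One step of the extraction of bits. -/
def bitStep (s : ℕ × List Bool) : ℕ × List Bool := (s.1 / 2, decide (s.1 % 2 = 1) :: s.2)

lemma bitStep_iterate (n : ℕ) : ∀ (k : ℕ) (acc : List Bool),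
    bitStep^[n] (k, acc) = (k / 2 ^ n, (bitsOf n k).reverse ++ acc) := by
  induction n with
  | zero => intro k acc; simp [bitsOf]
  | succ n ih =>
    intro k acc
    rw [Function.iterate_succ_apply, bitStep, ih]
    simp [bitsOf, Nat.div_div_eq_div_mul, pow_succ, Nat.mul_comm]

@[fun_prop] lemma ptime_bitsOf {n k : α → ℕ} (hn : PTime n) (hk : PTime k) :
    PTime (fun x => bitsOf (n x) (k x)) := by
  have hstep : PTime bitStep := by unfold bitStep; fun_prop
  have h := PTime.iter hstep (s := fun a => (k a, ([] : List Bool))) (n := n) (by fun_prop) hn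
    (h := fun a => 1 + sz (k a) + (1 + sz (n a) * (1 + 3)))
    (((PB.const 1).add hk.pb).add ((PB.const 1).add (hn.pb.mul (PB.const 4))))
    (fun a i hi => by
      rw [bitStep_iterate]
      have h3 := sz_list_le ((bitsOf i (k a)).reverse ++ []) (sz (n a)) 3
        (by simp; omega) (fun b _ => sz_bool_le b)
      rw [sz_pair]
      have : k a / 2 ^ i ≤ k a := Nat.div_le_self _ _
      simp only [sz_nat] at *
      omega)
  refine (PTime.reverse (PTime.snd h)).congr fun a => ?_
  rw [bitStep_iterate]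
  simp

/-! ### Polynomials and exponentials -/

lemma exists_pow_bound (q : ℕ[X]) : ∃ k : ℕ, ∀ m : ℕ, q.eval m ≤ (m + 2) ^ k := by
  induction q using Polynomial.induction_on' with
  | add p q hp hq =>
    obtain ⟨k, hk⟩ := hp
    obtain ⟨l, hl⟩ := hq
    refine ⟨max k l + 1, fun m => ?_⟩
    have h1 := hk m
    have h2 := hl m
    have h3 : (m + 2) ^ k ≤ (m + 2) ^ max k l := Nat.pow_le_pow_right (by omega) (le_max_left _ _)
    have h4 : (m + 2) ^ l ≤ (m + 2) ^ max k l := Nat.pow_le_pow_right (by omega) (le_max_right _ _)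
    have h5 : 2 * (m + 2) ^ max k l ≤ (m + 2) ^ (max k l + 1) := by
      rw [pow_succ, Nat.mul_comm]
      exact Nat.mul_le_mul_left _ (by omega)
    simp only [eval_add]
    omega
  | monomial n a =>
    refine ⟨a + n, fun m => ?_⟩
    rw [eval_monomial, pow_add]
    refine Nat.mul_le_mul ?_ (Nat.pow_le_pow_left (by omega) _)
    calc a ≤ 2 ^ a := Nat.lt_two_pow_self.le
      _ ≤ (m + 2) ^ a := Nat.pow_le_pow_left (by omega) _

/-- A polynomial in a quantity `≤ 2^(c(n+1))` is `≤ 2^(d(n+1))`. -/
lemma exists_exp_bound (q : ℕ[X]) (c : ℕ) :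
    ∃ d : ℕ, ∀ n m : ℕ, m ≤ 2 ^ (c * (n + 1)) → q.eval m ≤ 2 ^ (d * (n + 1)) := by
  obtain ⟨k, hk⟩ := exists_pow_bound q
  refine ⟨(c + 2) * k, fun n m hm => (hk m).trans ?_⟩
  have h1 : m + 2 ≤ 2 ^ ((c + 2) * (n + 1)) := by
    have e : (c + 2) * (n + 1) = c * (n + 1) + 2 * (n + 1) := by ring
    rw [e, pow_add]
    have h2 : 1 ≤ 2 ^ (c * (n + 1)) := Nat.one_le_two_pow
    have h3 : 4 ≤ 2 ^ (2 * (n + 1)) := by
      calc 4 = 2 ^ 2 := by norm_num
        _ ≤ 2 ^ (2 * (n + 1)) := Nat.pow_le_pow_right (by norm_num) (by omega)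
    calc m + 2 ≤ 2 ^ (c * (n + 1)) * 4 := by omega
      _ ≤ _ := Nat.mul_le_mul_left _ h3
  calc (m + 2) ^ k ≤ (2 ^ ((c + 2) * (n + 1))) ^ k := Nat.pow_le_pow_left h1 _
    _ = 2 ^ ((c + 2) * k * (n + 1)) := by rw [← pow_mul]; congr 1; ring

lemma pow_mono_exp {c d : ℕ} (h : c ≤ d) (n : ℕ) : 2 ^ (c * (n + 1)) ≤ 2 ^ (d * (n + 1)) :=
  Nat.pow_le_pow_right (by norm_num) (Nat.mul_le_mul_right _ h)

lemma n_lt_exp (n : ℕ) : n + 1 < 2 ^ (1 * (n + 1)) := by
  rw [one_mul]
  exact Nat.lt_two_pow_self

lemma two_pow_le_exp {c : ℕ} (hc : 1 ≤ c) (n : ℕ) : 2 ^ n ≤ 2 ^ (c * (n + 1)) := by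
  refine Nat.pow_le_pow_right (by norm_num) ?_
  nlinarith

end Pool.Agent.H48.NE
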