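import Pool.Agent.H48.NE.Sim2
import Pool.Agent.H48.NE.Num

/-!
# The classes in terms of padded polynomial space and polynomial certificates
-/

namespace Pool.Agent.H48.NE

open TMLib Polynomial Turing

variable {α β γ δ σ τ : Type} [Enc α] [Enc β] [Enc γ] [Enc δ] [Enc σ] [Enc τ]

/-! ### Space -/

/-- A space-bounded machine is simulated in polynomial space, given a large pad. -/
theorem exists_psp_of_mem_EXPSPACE {L : Set (List Bool)} (hL : L ∈ EXPSPACE) :
    ∃ (c : ℕ) (P : List Bool × ℕ → Prop), PSp P ∧
      ∀ x N, 2 ^ (c * (x.length + 1)) ≤ N → (P (x, N) ↔ x ∈ L) := by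
  classical
  obtain ⟨M, c, hM⟩ := hL
  obtain ⟨init, step, out, halted, C, E, h1, h2, h3, h4, h5, h6⟩ := exists_sim M
  obtain ⟨Q, hQ⟩ := h2.exists_size_le
  let K : ℕ × (ℕ × List (List ℕ)) → Bool × (ℕ × (ℕ × List (List ℕ))) := fun s =>
    bif (halted s.2 || decide (s.1 < sz s.2)) then (false, s) else (true, (s.1, step s.2))
  let fn : ℕ × (ℕ × List (List ℕ)) → Bool := fun s =>
    halted s.2 && decide (sz s.2 ≤ s.1) && decide (out s.2 = [true])
  have hK : PTime K := by
    refine PTime.cond (PTime.or (h4.comp (PTime.snd PTime.id)) (by fun_prop)) (by fun_prop) ?_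
    exact PTime.pair (PTime.const true) (PTime.pair (PTime.fst PTime.id)
      (h2.comp (PTime.snd PTime.id)))
  have hfn : PTime fn := by
    refine PTime.and (PTime.and (h4.comp (PTime.snd PTime.id)) (by fun_prop)) ?_
    exact PTime.eq (h3.comp (PTime.snd PTime.id)) (PTime.const [true])
  -- halting time of each input
  have hhalt : ∀ x, ∃ T, halted (step^[T] (init x)) = true := by
    intro x
    obtain ⟨n, hn, -⟩ := hM x
    exact ⟨n * C, (h6 x _ n hn).1 _ le_rfl⟩
  let BB : ℕ[X] := 2 + 2 * X + 1 + (Q + (E : ℕ[X]) * (X + 1))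
  have hBB : ∀ m, BB.eval m = 2 + 2 * m + 1 + (Q.eval m + E * (m + 1)) := by
    intro m
    simp [BB]
  have hrun : ∀ (x : List Bool) (N T : ℕ), halted (step^[T] (init x)) = true →
      ∀ d i, i + d = T → sz (step^[i] (init x)) ≤ Q.eval N + E * (x.length + 1) →
        ∃ j, i ≤ j ∧ Conv K (BB.eval (N + x.length)) (N, step^[i] (init x)) (N, step^[j] (init x)) ∧
          (halted (step^[j] (init x)) = true ∨ N < sz (step^[j] (init x))) := by
    intro x N T hT d
    have hsz : ∀ i, sz (step^[i] (init x)) ≤ Q.eval N + E * (x.length + 1) →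
        sz (N, step^[i] (init x)) ≤ BB.eval (N + x.length) := by
      intro i hi
      rw [sz_pair, hBB]
      have l1 := eval_mono Q (show N ≤ N + x.length by omega)
      have l2 : E * (x.length + 1) ≤ E * (N + x.length + 1) := Nat.mul_le_mul_left _ (by omega)
      simp only [sz_nat] at *
      omega
    induction d with
    | zero =>
      intro i hi hs
      have e : i = T := by omega
      subst e
      have e1 : K (N, step^[i] (init x)) = (false, (N, step^[i] (init x))) := by
        simp only [K, hT, Bool.true_or, cond_true]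
      refine ⟨i, le_rfl, ?_, Or.inl hT⟩
      have := Conv.stop (G := K) (B := BB.eval (N + x.length)) (s := (N, step^[i] (init x)))
        (hsz i hs) (by rw [e1]) (by rw [e1]; exact hsz i hs)
      rw [e1] at this
      exact this
    | succ d ih =>
      intro i hi hs
      by_cases hstop : halted (step^[i] (init x)) = true ∨ N < sz (step^[i] (init x))
      · have e1 : K (N, step^[i] (init x)) = (false, (N, step^[i] (init x))) := by
          have : (halted (step^[i] (init x)) || decide (N < sz (step^[i] (init x)))) = true := by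
            simpa using hstop
          simp only [K, this, cond_true]
        refine ⟨i, le_rfl, ?_, hstop⟩
        have := Conv.stop (G := K) (B := BB.eval (N + x.length)) (s := (N, step^[i] (init x)))
          (hsz i hs) (by rw [e1]) (by rw [e1]; exact hsz i hs)
        rw [e1] at this
        exact this
      · have hstop' : (halted (step^[i] (init x)) || decide (N < sz (step^[i] (init x)))) =
            false := by
          push Not at hstop
          simp only [Bool.or_eq_false_iff, decide_eq_false_iff_not, not_lt]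
          exact ⟨by simpa using hstop.1, hstop.2⟩
        have e1 : K (N, step^[i] (init x)) = (true, (N, step^[i + 1] (init x))) := by
          simp only [K, hstop', cond_false, Function.iterate_succ_apply']
        have hs' : sz (step^[i + 1] (init x)) ≤ Q.eval N + E * (x.length + 1) := by
          rw [Function.iterate_succ_apply']
          refine (hQ _).trans ?_
          push Not at hstop
          have := eval_mono Q hstop.2
          omega
        obtain ⟨j, hj, hj', hj''⟩ := ih (i + 1) (by omega) hs'
        refine ⟨j, by omega, ?_, hj''⟩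
        exact Conv.step (hsz i hs) (by rw [e1]) (by rw [e1]; exact hj')
  have hall : ∀ p : List Bool × ℕ, ∃ t, Conv K (BB.eval (sz p)) (p.2, init p.1) t ∧
      ∃ j, t = (p.2, step^[j] (init p.1)) ∧
        (halted (step^[j] (init p.1)) = true ∨ p.2 < sz (step^[j] (init p.1))) := by
    rintro ⟨x, N⟩
    obtain ⟨T, hT⟩ := hhalt x
    obtain ⟨j, -, hj, hj'⟩ := hrun x N T hT T 0 (by omega) (by
      have := h5 x 0
      simp only [Function.iterate_zero, id, Nat.add_zero] at this ⊢
      omega)
    refine ⟨_, ?_, j, rfl, hj'⟩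
    refine hj.mono (eval_mono BB ?_)
    have := length_lt_sz x
    simp only [sz_pair, sz_nat]
    omega
  choose t ht ht' using hall
  have hP : PSpF (fun p : List Bool × ℕ => fn (t p)) :=
    ⟨ℕ × (ℕ × List (List ℕ)), inferInstance, fun p => (p.2, init p.1), K, fn, BB,
      PTime.pair (PTime.snd PTime.id) (h1.comp (PTime.fst PTime.id)), hK, hfn,
      fun p => ⟨t p, ht p, rfl⟩⟩
  refine ⟨c + E + 1, fun p => fn (t p) = true, ⟨_, hP, fun a => Iff.rfl⟩, fun x N hN => ?_⟩
  obtain ⟨j, hj, hj'⟩ := ht' (x, N)
  obtain ⟨n, hn, hn'⟩ := hM x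
  obtain ⟨g1, g2, g3⟩ := h6 x _ n hn
  have hsz := g3 _ hn' j
  have hN' : E * (2 ^ (c * (x.length + 1)) + 1) ≤ N := by
    refine le_trans ?_ hN
    have e : (c + E + 1) * (x.length + 1) = c * (x.length + 1) + (E + 1) * (x.length + 1) := by
      ring
    rw [e, pow_add]
    have l1 : 1 ≤ 2 ^ (c * (x.length + 1)) := Nat.one_le_two_pow
    have l2 : 2 * E ≤ 2 ^ ((E + 1) * (x.length + 1)) := by
      calc 2 * E ≤ 2 * 2 ^ E := Nat.mul_le_mul_left _ Nat.lt_two_pow_self.le
        _ = 2 ^ (E + 1) := by rw [pow_succ]; ring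
        _ ≤ _ := Nat.pow_le_pow_right (by norm_num) (Nat.le_mul_of_pos_right _ (by omega))
    calc E * (2 ^ (c * (x.length + 1)) + 1) ≤ E * (2 ^ (c * (x.length + 1)) * 2) :=
          Nat.mul_le_mul_left _ (by omega)
      _ = 2 ^ (c * (x.length + 1)) * (2 * E) := by ring
      _ ≤ _ := Nat.mul_le_mul_left _ l2
  have hle : sz (step^[j] (init x)) ≤ N := hsz.trans hN'
  have hh : halted (step^[j] (init x)) = true := by
    rcases hj' with h | h
    · exact h
    · simp only at h
      omega
  have ho := g2 j hh
  show fn (t (x, N)) = true ↔ _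
  rw [hj]
  show (halted (step^[j] (init x)) && decide (sz (step^[j] (init x)) ≤ N) &&
    decide (out (step^[j] (init x)) = [true])) = true ↔ _
  rw [hh, ho, decide_eq_true hle]
  simp

/-- Padding: the map `x ↦ (x, 2^(c(|x|+1)))`. -/
lemma scomp_pad (c : ℕ) : SComp (fun x : List Bool => x.length + 2 ^ (c * (x.length + 1)))
    (fun x : List Bool => (x, 2 ^ (c * (x.length + 1)))) := by
  let K : List Bool × ℕ × ℕ → Bool × (List Bool × ℕ × ℕ) := fun s =>
    bif decide (s.2.1 = 0) then (false, s) else (true, (s.1, s.2.1 - 1, 2 * s.2.2))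
  have hK : PTime K := by
    refine PTime.cond (by fun_prop) (by fun_prop) (by fun_prop)
  have key : ∀ (x : List Bool) (k A B : ℕ), 2 + sz x + (2 * k + 1) + (2 * (A * 2 ^ k) + 1) ≤ B →
      Conv K B (x, k, A) (x, 0, A * 2 ^ k) := by
    intro x k
    induction k with
    | zero =>
      intro A B hB
      have e1 : K (x, 0, A) = (false, (x, 0, A)) := rfl
      have hs : sz (x, 0, A) ≤ B := by
        simp only [sz_pair, sz_nat]
        omega
      have := Conv.stop (G := K) (B := B) (s := (x, 0, A)) hs (by rw [e1]) (by rw [e1]; exact hs)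
      rw [e1] at this
      simpa using this
    | succ k ih =>
      intro A B hB
      have e1 : K (x, k + 1, A) = (true, (x, k, 2 * A)) := rfl
      have e2 : A * 2 ^ (k + 1) = 2 * A * 2 ^ k := by rw [pow_succ]; ring
      have e3 : A ≤ 2 * A * 2 ^ k := by
        calc A ≤ 2 * A := by omega
          _ ≤ 2 * A * 2 ^ k := Nat.le_mul_of_pos_right _ (by positivity)
      refine Conv.step ?_ (by rw [e1]) ?_
      · simp only [sz_pair, sz_nat]
        rw [e2] at hB
        omega
      · rw [e1, e2]
        refine ih (2 * A) B ?_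
        rw [e2] at hB
        omega
  refine ⟨List Bool × ℕ × ℕ, inferInstance, fun x => (x, c * (x.length + 1), 1), K,
    fun s => (s.1, s.2.2), 10 + 10 * X + 2 * (c : ℕ[X]) * (X + 1), by fun_prop, hK, by fun_prop,
    fun x => ⟨(x, 0, 1 * 2 ^ (c * (x.length + 1))), key _ _ _ _ ?_, by simp⟩⟩
  have h1 := sz_bits_le x
  have h0 : 1 ≤ 2 ^ (c * (x.length + 1)) := Nat.one_le_two_pow
  simp only [eval_add, eval_mul, eval_X, eval_ofNat, eval_natCast, eval_one, Nat.cast_id]
  have h2 : 2 * c * (x.length + 1) ≤ 2 * c * (x.length + 2 ^ (c * (x.length + 1)) + 1) :=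
    Nat.mul_le_mul_left _ (by omega)
  have h3 : 2 * c * (x.length + 1) = 2 * (c * (x.length + 1)) := by ring
  rw [h3] at h2
  omega

/-- Padded polynomial space predicates give languages in `EXPSPACE`. -/
theorem mem_EXPSPACE_of_psp {L : Set (List Bool)} {P : List Bool × ℕ → Prop} (hP : PSp P) (c : ℕ)
    (h : ∀ x, x ∈ L ↔ P (x, 2 ^ (c * (x.length + 1)))) : L ∈ EXPSPACE := by
  classical
  obtain ⟨f, hf, hf'⟩ := hP
  have h1 : SComp (fun x : List Bool => x.length + 2 ^ (c * (x.length + 1)))
      (fun x : List Bool => f (x, 2 ^ (c * (x.length + 1)))) := by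
    refine SComp.comp hf (scomp_pad c) (q₀ := 10 + 10 * X) (fun a => ?_) (fun a => ?_)
    · simp only [eval_add, eval_mul, eval_X, eval_ofNat]
      omega
    · have := sz_bits_le a
      simp only [eval_add, eval_mul, eval_X, eval_ofNat, sz_pair, sz_nat]
      omega
  have h2 : SComp (fun x : List Bool => x.length + 2 ^ (c * (x.length + 1)))
      (fun x : List Bool => [f (x, 2 ^ (c * (x.length + 1)))]) := by
    refine SComp.comp (SComp.of_ptime (f := fun b : Bool => [b]) (by fun_prop)) h1
      (q₀ := 10 + 10 * X) (fun a => ?_) (fun a => ?_)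
    · simp only [eval_add, eval_mul, eval_X, eval_ofNat]
      omega
    · have := sz_bool_le (f (a, 2 ^ (c * (a.length + 1))))
      simp only [eval_add, eval_mul, eval_X, eval_ofNat]
      omega
  obtain ⟨M, q, hM⟩ := exists_mach_of_scomp h2 (fun x => Nat.le_add_right _ _)
  obtain ⟨d, hd⟩ := exists_exp_bound q (c + 2)
  refine ⟨M, d, fun x => ?_⟩
  have hx : decide (x ∈ L) = f (x, 2 ^ (c * (x.length + 1))) := by
    rw [Bool.eq_iff_iff, decide_eq_true_eq, hf']
    exact h x
  rw [hx]
  obtain ⟨n, hn, hn'⟩ := hM x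
  refine ⟨n, hn, fun i hi cf hcf k => (hn' i hi cf hcf k).trans ?_⟩
  refine hd x.length _ ?_
  have e : (c + 2) * (x.length + 1) = c * (x.length + 1) + 2 * (x.length + 1) := by ring
  rw [e, pow_add]
  have l1 : 1 ≤ 2 ^ (c * (x.length + 1)) := Nat.one_le_two_pow
  have l2 : x.length + 1 < 2 ^ (x.length + 1) := Nat.lt_two_pow_self
  have l3 : 2 ^ (2 * (x.length + 1)) = 2 ^ (x.length + 1) * 2 ^ (x.length + 1) := by
    rw [two_mul, pow_add]
  have l4 : 2 * 2 ^ (x.length + 1) ≤ 2 ^ (x.length + 1) * 2 ^ (x.length + 1) := by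
    refine Nat.mul_le_mul_right _ ?_
    calc 2 = 2 ^ 1 := by norm_num
      _ ≤ _ := Nat.pow_le_pow_right (by norm_num) (by omega)
  rw [l3]
  calc x.length + 2 ^ (c * (x.length + 1)) ≤
        2 ^ (c * (x.length + 1)) * (2 * 2 ^ (x.length + 1)) := by nlinarith
    _ ≤ _ := Nat.mul_le_mul_left _ l4

/-! ### Nondeterministic time -/

lemma chunks_pairStr (x w : List Bool) : chunks 2 1 (pairStr x w) = (x, false :: w) := by
  have key : ∀ (x acc : List Bool) (n : ℕ), x.length ≤ n →
      (chunkStep 2 1)^[n] (acc, pairStr x w) = (x.reverse ++ acc, false :: w) := by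
    intro x
    induction x with
    | nil =>
      intro acc n _
      rw [chunkStep_fix _ _ _ _ rfl]
      rfl
    | cons b l ih =>
      intro acc n hn
      cases n with
      | zero => simp at hn
      | succ n =>
        rw [Function.iterate_succ_apply]
        have : chunkStep 2 1 (acc, pairStr (b :: l) w) = (b :: acc, pairStr l w) := rfl
        rw [this, ih _ _ (by simpa using hn)]
        simp
  unfold chunks
  rw [key x [] _ (by
    simp only [pairStr, List.length_append, List.length_flatMap, List.length_cons,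
      List.length_nil]
    simp
    omega)]
  simp

lemma length_pairStr (x w : List Bool) : (pairStr x w).length = 2 * x.length + 1 + w.length := by
  simp [pairStr]
  omega

/-- A nondeterministic machine is simulated with polynomial certificates, given a large pad. -/
theorem exists_npp_of_mem_NEXPTIME {L : Set (List Bool)} (hL : L ∈ NEXPTIME) :
    ∃ (c : ℕ) (P : List Bool × ℕ → Prop), NPp P ∧
      ∀ x N, 2 ^ (c * (x.length + 1)) ≤ N → (P (x, N) ↔ x ∈ L) := by
  classical
  obtain ⟨M, c, d, V, hM, hL⟩ := hL
  obtain ⟨init, step, out, halted, C, E, h1, h2, h3, h4, h5, h6⟩ := exists_sim M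
  let R : List Bool × ℕ → List Bool → Prop := fun p w =>
    w.length ≤ powB p.2 (c * (p.1.length + 1)) ∧
      halted (step^[C * p.2] (init (pairStr p.1 w))) = true ∧
        out (step^[C * p.2] (init (pairStr p.1 w))) = [true]
  have hpair : PTime (fun q : (List Bool × ℕ) × List Bool => pairStr q.1.1 q.2) := by
    unfold pairStr
    fun_prop
  have hit : PTime (fun q : (List Bool × ℕ) × List Bool =>
      step^[C * q.1.2] (init (pairStr q.1.1 q.2))) := by
    refine PTime.iter h2 (h1.comp hpair) (by fun_prop)
      (h := fun q : (List Bool × ℕ) × List Bool =>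
        E * (sz (pairStr q.1.1 q.2) + sz (C * q.1.2) + 1)) ?_ ?_
    · have e1 : PTime (fun q : (List Bool × ℕ) × List Bool => C * q.1.2) := by fun_prop
      exact (PB.const E).mul ((hpair.pb.add e1.pb).add (PB.const 1))
    · intro q i hi
      refine (h5 _ i).trans (Nat.mul_le_mul_left _ ?_)
      have := length_lt_sz (pairStr q.1.1 q.2)
      simp only [sz_nat]
      omega
  have hR : NPp fun q : (List Bool × ℕ) × List Bool => R q.1 q.2 := by
    refine NPp.and (NPp.of_ptime (by fun_prop)) (NPp.and (NPp.of_ptime ?_) (NPp.of_ptime ?_))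
    · exact PTime.decide_true' (h4.comp hit)
    · exact PTime.eq (h3.comp hit) (PTime.const [true])
  have hP := NPp.exists_le hR (q := fun p : List Bool × ℕ => 1 + 4 * p.2) (by fun_prop)
  refine ⟨c + d, _, hP, fun x N hN => ?_⟩
  have hc : 2 ^ (c * (x.length + 1)) ≤ N := (pow_mono_exp (by omega) _).trans hN
  have hd : 2 ^ (d * (x.length + 1)) ≤ N := (pow_mono_exp (by omega) _).trans hN
  have hrun : ∀ w : List Bool, w.length ≤ 2 ^ (c * (x.length + 1)) →
      halted (step^[C * N] (init (pairStr x w))) = true ∧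
        out (step^[C * N] (init (pairStr x w))) = [V x w] := by
    intro w hw
    obtain ⟨ho⟩ := hM x w hw
    have hev : cfgAt M (pairStr x w) ho.steps =
        some (haltList M.tm (([V x w] : List Bool).map M.outputAlphabet.invFun)) :=
      ho.evals_in_steps
    obtain ⟨g1, g2, -⟩ := h6 _ _ _ hev
    have hsteps : ho.steps * C ≤ C * N := by
      rw [Nat.mul_comm]
      exact Nat.mul_le_mul_left _ (ho.steps_le_m.trans hd)
    exact ⟨g1 _ hsteps, g2 _ (g1 _ hsteps)⟩
  rw [hL]
  simp only [R]
  rw [powB_eq hc]
  constructor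
  · rintro ⟨w, -, hw, -, hw'⟩
    refine ⟨w, hw, ?_⟩
    rw [(hrun w hw).2] at hw'
    simpa using hw'
  · rintro ⟨w, hw, hw'⟩
    refine ⟨w, ?_, hw, (hrun w hw).1, by rw [(hrun w hw).2, hw']⟩
    have := sz_bits_le w
    omega

/-- Padded predicates with polynomial certificates give languages in `NEXPTIME`. -/
theorem mem_NEXPTIME_of_npp {L : Set (List Bool)} {P : List Bool × ℕ → Prop} (hP : NPp P) (c : ℕ)
    (h : ∀ x, x ∈ L ↔ P (x, 2 ^ (c * (x.length + 1)))) : L ∈ NEXPTIME := by
  classical
  obtain ⟨V₀, q, h1, h2, h3⟩ := hP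
  let dec : List Bool → ℕ × D := fun w => TMLib.Fix.fix (parse w)
  let V : List Bool → List Bool → Bool := fun x w =>
    decide ((dec w).1 = powB ((dec w).1 + 1) (c * (x.length + 1))) &&
      V₀ (x, (dec w).1) (dec w).2
  have hdec : PTime dec := by
    show PTime (fun w : List Bool => (TMLib.Fix.fix (parse w) : ℕ × D))
    fun_prop
  have hV : PTime (fun p : List Bool × List Bool => V p.1 p.2) := by
    have e1 : PTime (fun p : List Bool × List Bool => dec p.2) := hdec.comp (PTime.snd PTime.id)
    have e2 : PTime (fun p : List Bool × List Bool => (dec p.2).1) := PTime.fst e1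
    refine PTime.and (PTime.eq e2 (by fun_prop)) ?_
    exact h1.comp (f := fun p : List Bool × List Bool => ((p.1, (dec p.2).1), (dec p.2).2))
      (PTime.pair (PTime.pair (PTime.fst PTime.id) e2) (PTime.snd e1))
  have hpow : ∀ (x : List Bool) (N : ℕ), N = powB (N + 1) (c * (x.length + 1)) ↔
      N = 2 ^ (c * (x.length + 1)) := by
    intro x N
    unfold powB
    constructor <;> intro h <;> omega
  let f : List Bool → List Bool := fun z =>
    [V (chunks 2 1 z).1 (chunks 2 1 z).2.tail]
  have hf : PTime f := by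
    refine PTime.cons ?_ (PTime.const [])
    exact hV.comp (f := fun z : List Bool => ((chunks 2 1 z).1, (chunks 2 1 z).2.tail))
      (by fun_prop)
  have hfV : ∀ x w, f (pairStr x w) = [V x w] := by
    intro x w
    simp only [f, chunks_pairStr, List.tail_cons]
  obtain ⟨p, T, hp⟩ := runs_wrap hf
  -- bound on certificates
  let q' : ℕ[X] := 2 + 2 * X + q.comp (10 + 10 * X)
  obtain ⟨c', hc'⟩ := exists_exp_bound q' (c + 1)
  obtain ⟨d', hd'⟩ := exists_exp_bound (1 + T.comp (4 * X)) (c' + 1)
  refine ⟨⟨machine (wrap p), Equiv.refl Bool, Equiv.refl Bool⟩, c', d', V, ?_, ?_⟩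
  · intro x w hw
    have hr := hp (pairStr x w)
    rw [hfV] at hr
    obtain ⟨t, ht, hr⟩ := hr
    have hT : t + 1 ≤ 2 ^ (d' * (x.length + 1)) := by
      have l1 := hd' x.length (2 ^ ((c' + 1) * (x.length + 1))) le_rfl
      simp only [eval_add, eval_one, eval_comp, eval_mul, eval_X, eval_ofNat] at l1
      have l2 : (pairStr x w).length ≤ 4 * 2 ^ ((c' + 1) * (x.length + 1)) := by
        rw [length_pairStr]
        have l3 : 2 ^ (c' * (x.length + 1)) ≤ 2 ^ ((c' + 1) * (x.length + 1)) :=
          pow_mono_exp (by omega) _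
        have l4 := n_lt_exp x.length
        have l5 : 2 ^ (1 * (x.length + 1)) ≤ 2 ^ ((c' + 1) * (x.length + 1)) :=
          pow_mono_exp (by omega) _
        omega
      have l6 := eval_mono T l2
      omega
    have ho := outputsInTime_of_run hr hT
    have g3 : ∀ l : List Bool, l.map (Equiv.refl Bool).invFun = l := fun l => List.map_id l
    unfold OutInTime
    have e : ∀ l l' : List Bool, l = pairStr x w → l' = [V x w] →
        Nonempty (TM2OutputsInTime (machine (wrap p)) l (some l') (2 ^ (d' * (x.length + 1)))) := by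
      rintro _ _ rfl rfl
      exact ho
    exact e _ _ (g3 _) (g3 _)
  · intro x
    rw [h]
    constructor
    · intro hx
      obtain ⟨w, hw, hw'⟩ := h3 _ hx
      refine ⟨(enc (2 ^ (c * (x.length + 1)), w)).code, ?_, ?_⟩
      · rw [D.length_code]
        have e1 : (enc (2 ^ (c * (x.length + 1)), w)).size =
          sz (2 ^ (c * (x.length + 1)), w) := rfl
        rw [e1, sz_pair, sz_nat]
        have l1 := hc' x.length (2 ^ ((c + 1) * (x.length + 1))) le_rfl
        refine le_trans ?_ l1
        simp only [q', eval_add, eval_comp, eval_mul, eval_X, eval_ofNat]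
        have l2 : 2 ^ (c * (x.length + 1)) ≤ 2 ^ ((c + 1) * (x.length + 1)) :=
          pow_mono_exp (by omega) _
        have l4 := n_lt_exp x.length
        have l5 : 2 ^ (1 * (x.length + 1)) ≤ 2 ^ ((c + 1) * (x.length + 1)) :=
          pow_mono_exp (by omega) _
        have l6 := sz_bits_le x
        have l7 : q.eval (sz (x, 2 ^ (c * (x.length + 1)))) ≤
            q.eval (10 + 10 * 2 ^ ((c + 1) * (x.length + 1))) := by
          refine eval_mono q ?_
          rw [sz_pair, sz_nat]
          simp only
          omega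
        simp only [sz_D]
        omega
      · simp only [V, dec, parse_code, TMLib.Fix.fix_enc, Bool.and_eq_true, decide_eq_true_eq]
        exact ⟨(hpow x _).2 rfl, hw'⟩
    · rintro ⟨w, -, hw⟩
      simp only [V, Bool.and_eq_true, decide_eq_true_eq] at hw
      have h7 := (hpow x _).1 hw.1
      have h8 := h2 _ _ hw.2
      rwa [h7] at h8

end Pool.Agent.H48.NE
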