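import Pool.Agent.H48.NE.Form

/-!
# Functions whose graphs are decidable in exponential space or have certificates
-/

namespace Pool.Agent.H48.NE

open TMLib Polynomial Filter

variable {α β γ δ : Type} [Enc α] [Enc β] [Enc γ] [Enc δ]

/-- Pairs `(n, N)` with `n` going along `f` and `N ≥ 2^(c(n+1))` for every fixed `c`. -/
def big (f : Filter ℕ) : Filter (ℕ × ℕ) where
  sets := {s | ∃ c : ℕ, ∀ᶠ n in f, ∀ N, 2 ^ (c * (n + 1)) ≤ N → (n, N) ∈ s}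
  univ_sets := ⟨0, Eventually.of_forall fun _ _ _ => trivial⟩
  sets_of_superset := by
    rintro s t ⟨c, hc⟩ hst
    exact ⟨c, hc.mono fun n h N hN => hst (h N hN)⟩
  inter_sets := by
    rintro s t ⟨c, hc⟩ ⟨d, hd⟩
    refine ⟨max c d, ?_⟩
    filter_upwards [hc, hd] with n h1 h2 N hN
    exact ⟨h1 N (le_trans (pow_mono_exp (le_max_left _ _) _) hN),
      h2 N (le_trans (pow_mono_exp (le_max_right _ _) _) hN)⟩

lemma eventually_big {f : Filter ℕ} {p : ℕ × ℕ → Prop} :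
    (∀ᶠ q in big f, p q) ↔ ∃ c : ℕ, ∀ᶠ n in f, ∀ N, 2 ^ (c * (n + 1)) ≤ N → p (n, N) := Iff.rfl

lemma eventually_big_top {p : ℕ × ℕ → Prop} :
    (∀ᶠ q in big ⊤, p q) ↔ ∃ c : ℕ, ∀ n N, 2 ^ (c * (n + 1)) ≤ N → p (n, N) := by
  rw [eventually_big]
  simp only [eventually_top]

/-- Large powers of two. -/
def pows : Filter ℕ := Filter.map (fun j => 2 ^ j) atTop

lemma eventually_pows {p : ℕ → Prop} : (∀ᶠ n in pows, p n) ↔ ∃ n₀, ∀ j, n₀ ≤ 2 ^ j → p (2 ^ j) := by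
  unfold pows
  rw [eventually_map, eventually_atTop]
  constructor
  · rintro ⟨j₀, h⟩
    refine ⟨2 ^ j₀, fun j hj => h j ?_⟩
    exact (Nat.pow_le_pow_iff_right (by norm_num)).1 hj
  · rintro ⟨n₀, h⟩
    exact ⟨n₀, fun j hj => h j (le_trans hj (Nat.lt_two_pow_self).le)⟩

lemma eventually_pows_ge (n₀ : ℕ) : ∀ᶠ n in pows, n₀ ≤ n :=
  eventually_pows.2 ⟨n₀, fun _ h => h⟩

lemma big_mono {f g : Filter ℕ} (h : f ≤ g) : big f ≤ big g := by
  rintro s ⟨c, hc⟩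
  exact ⟨c, h hc⟩

lemma big_le_top (f : Filter ℕ) : big f ≤ big ⊤ := big_mono le_top

lemma eventually_fst {f : Filter ℕ} {p : ℕ → Prop} (h : ∀ᶠ n in f, p n) :
    ∀ᶠ q in big f, p q.1 := ⟨0, h.mono fun _ h _ _ => h⟩

lemma eventually_pow_le (f : Filter ℕ) (c : ℕ) : ∀ᶠ q in big f, 2 ^ (c * (q.1 + 1)) ≤ q.2 :=
  ⟨c, Eventually.of_forall fun _ _ h => h⟩

lemma eventually_two_pow_le (f : Filter ℕ) (c : ℕ) : ∀ᶠ q in big f, 2 ^ (c * q.1) ≤ q.2 := by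
  filter_upwards [eventually_pow_le f c] with q hq
  exact le_trans (Nat.pow_le_pow_right (by norm_num) (Nat.mul_le_mul_left _ (by omega))) hq

lemma eventually_le_two_pow (f : Filter ℕ) {c : ℕ} (m : ℕ → ℕ) (hm : ∀ n, m n ≤ c * (n + 1)) :
    ∀ᶠ q in big f, 2 ^ m q.1 ≤ q.2 := by
  filter_upwards [eventually_pow_le f c] with q hq
  exact le_trans (Nat.pow_le_pow_right (by norm_num) (hm _)) hq

/-- Uniformity over all smaller scales. -/
lemma eventually_forall_le {p : ℕ × ℕ → Prop} (h : ∀ᶠ q in big ⊤, p q) (f : Filter ℕ) (C : ℕ) :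
    ∀ᶠ q in big f, ∀ m, m ≤ C * (q.1 + 1) → p (m, q.2) := by
  obtain ⟨c, hc⟩ := eventually_big_top.1 h
  refine ⟨c * (C + 1), Eventually.of_forall fun n N hN m hm => hc m N (le_trans ?_ hN)⟩
  refine Nat.pow_le_pow_right (by norm_num) ?_
  simp only at hm
  calc c * (m + 1) ≤ c * (C * (n + 1) + (n + 1)) := Nat.mul_le_mul_left _ (by omega)
    _ = c * (C + 1) * (n + 1) := by ring

/-- Functions whose graph is decidable in exponential space. -/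
def ESf (F : ℕ → β) : Prop := ∃ P : ℕ × β × ℕ → Prop, PSp P ∧
  ∀ᶠ q in big ⊤, sz (F q.1) ≤ q.2 ∧ ∀ b, P (q.1, b, q.2) ↔ b = F q.1

/-- Functions whose graph has certificates, at large powers of two. -/
def NEf (F : ℕ → β) : Prop := ∃ P : ℕ × β × ℕ → Prop, NPp P ∧
  ∀ᶠ q in big pows, sz (F q.1) ≤ q.2 ∧ ∀ b, P (q.1, b, q.2) ↔ b = F q.1

lemma size_map {f : Filter ℕ} {F : ℕ → β} {F' : ℕ → γ}
    (hF : ∀ᶠ q in big f, sz (F q.1) ≤ q.2) {G : ℕ × β × ℕ → γ} (hG : PTime G)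
    (h : ∀ᶠ q in big f, G (q.1, F q.1, q.2) = F' q.1) : ∀ᶠ q in big f, sz (F' q.1) ≤ q.2 := by
  obtain ⟨B, hB⟩ := hG.exists_size_le
  obtain ⟨c, hc⟩ := eventually_big.1 (hF.and (h.and (eventually_pow_le f 1)))
  obtain ⟨d, hd⟩ := exists_exp_bound (B.comp (5 * X + 3)) c
  refine ⟨d, hc.mono fun n h1 N hN => ?_⟩
  obtain ⟨h2, h3, h4⟩ := h1 _ le_rfl
  simp only at h2 h3 h4 ⊢
  refine le_trans ?_ ((hd n _ le_rfl).trans hN)
  rw [← h3]
  refine (hB _).trans ?_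
  rw [eval_comp]
  refine eval_mono B ?_
  have h5 := n_lt_exp n
  simp only [sz_pair, sz_nat, eval_add, eval_mul, eval_X]
  have e1 : eval (2 ^ (c * (n + 1))) (5 : ℕ[X]) = 5 := by
    rw [show (5 : ℕ[X]) = C 5 from rfl, eval_C]
  have e2 : eval (2 ^ (c * (n + 1))) (3 : ℕ[X]) = 3 := by
    rw [show (3 : ℕ[X]) = C 3 from rfl, eval_C]
  rw [e1, e2]
  omega

lemma ESf.map [TMLib.Fix β] [EncInj γ] {F : ℕ → β} {F' : ℕ → γ} (hF : ESf F)
    {G : ℕ × β × ℕ → γ} (hG : PTime G)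
    (h : ∀ᶠ q in big ⊤, G (q.1, F q.1, q.2) = F' q.1) : ESf F' := by
  classical
  obtain ⟨P, hP, hP'⟩ := hF
  refine ⟨fun q => ∃ b : β, sz b ≤ q.2.2 ∧ (P (q.1, b, q.2.2) ∧ q.2.1 = G (q.1, b, q.2.2)), ?_, ?_⟩
  · refine PSp.exists_le (R := fun (q : ℕ × γ × ℕ) b => P (q.1, b, q.2.2) ∧
      q.2.1 = G (q.1, b, q.2.2)) (PSp.and ?_ (PSp.of_ptime ?_)) (by fun_prop)
    · exact hP.comp (g := fun p : (ℕ × γ × ℕ) × β => (p.1.1, p.2, p.1.2.2)) (by fun_prop)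
    · exact PTime.eq (by fun_prop) (hG.comp (f := fun p : (ℕ × γ × ℕ) × β =>
        (p.1.1, p.2, p.1.2.2)) (by fun_prop))
  · filter_upwards [size_map (hP'.mono fun q h => h.1) hG h, hP', h] with q h1 h2 h3
    refine ⟨h1, fun b' => ?_⟩
    constructor
    · rintro ⟨b, -, hb, rfl⟩
      rw [(h2.2 b).1 hb, h3]
    · rintro rfl
      exact ⟨F q.1, h2.1, (h2.2 _).2 rfl, h3.symm⟩

lemma NEf.map [TMLib.Fix β] [EncInj γ] {F : ℕ → β} {F' : ℕ → γ} (hF : NEf F)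
    {G : ℕ × β × ℕ → γ} (hG : PTime G)
    (h : ∀ᶠ q in big pows, G (q.1, F q.1, q.2) = F' q.1) : NEf F' := by
  classical
  obtain ⟨P, hP, hP'⟩ := hF
  refine ⟨fun q => ∃ b : β, sz b ≤ q.2.2 ∧ (P (q.1, b, q.2.2) ∧ q.2.1 = G (q.1, b, q.2.2)), ?_, ?_⟩
  · refine NPp.exists_le (R := fun (q : ℕ × γ × ℕ) b => P (q.1, b, q.2.2) ∧
      q.2.1 = G (q.1, b, q.2.2)) (NPp.and ?_ (NPp.of_ptime ?_)) (by fun_prop)
    · exact hP.comp (g := fun p : (ℕ × γ × ℕ) × β => (p.1.1, p.2, p.1.2.2)) (by fun_prop)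
    · exact PTime.eq (by fun_prop) (hG.comp (f := fun p : (ℕ × γ × ℕ) × β =>
        (p.1.1, p.2, p.1.2.2)) (by fun_prop))
  · filter_upwards [size_map (hP'.mono fun q h => h.1) hG h, hP', h] with q h1 h2 h3
    refine ⟨h1, fun b' => ?_⟩
    constructor
    · rintro ⟨b, -, hb, rfl⟩
      rw [(h2.2 b).1 hb, h3]
    · rintro rfl
      exact ⟨F q.1, h2.1, (h2.2 _).2 rfl, h3.symm⟩

lemma size_prod {f : Filter ℕ} {F : ℕ → β} {F' : ℕ → γ}
    (hF : ∀ᶠ q in big f, sz (F q.1) ≤ q.2) (hF' : ∀ᶠ q in big f, sz (F' q.1) ≤ q.2) :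
    ∀ᶠ q in big f, sz (F q.1, F' q.1) ≤ q.2 := by
  obtain ⟨c, hc⟩ := eventually_big.1 (hF.and hF')
  refine ⟨c + 2, hc.mono fun n h1 N hN => ?_⟩
  obtain ⟨h2, h3⟩ := h1 _ le_rfl
  simp only at h2 h3
  show sz (F n, F' n) ≤ N
  rw [sz_pair]
  refine le_trans ?_ hN
  have e : (c + 2) * (n + 1) = c * (n + 1) + 2 * (n + 1) := by ring
  rw [e, pow_add]
  have h5 : 1 ≤ 2 ^ (c * (n + 1)) := Nat.one_le_two_pow
  have h6 : 4 ≤ 2 ^ (2 * (n + 1)) := by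
    calc 4 = 2 ^ 2 := by norm_num
      _ ≤ 2 ^ (2 * (n + 1)) := Nat.pow_le_pow_right (by norm_num) (by omega)
  calc 1 + sz (F n) + sz (F' n) ≤ 2 ^ (c * (n + 1)) * 4 := by omega
    _ ≤ _ := Nat.mul_le_mul_left _ h6

lemma ESf.prod {F : ℕ → β} {F' : ℕ → γ} (hF : ESf F) (hF' : ESf F') :
    ESf fun n => (F n, F' n) := by
  obtain ⟨P, hP, h⟩ := hF
  obtain ⟨P', hP', h'⟩ := hF'
  refine ⟨fun q => P (q.1, q.2.1.1, q.2.2) ∧ P' (q.1, q.2.1.2, q.2.2), PSp.and ?_ ?_, ?_⟩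
  · exact hP.comp (g := fun q : ℕ × (β × γ) × ℕ => (q.1, q.2.1.1, q.2.2)) (by fun_prop)
  · exact hP'.comp (g := fun q : ℕ × (β × γ) × ℕ => (q.1, q.2.1.2, q.2.2)) (by fun_prop)
  · filter_upwards [size_prod (h.mono fun q h => h.1) (h'.mono fun q h => h.1), h, h']
      with q h1 h2 h3
    refine ⟨h1, fun b => ?_⟩
    simp only [h2.2, h3.2]
    rw [← Prod.mk.injEq]

lemma NEf.prod {F : ℕ → β} {F' : ℕ → γ} (hF : NEf F) (hF' : NEf F') :
    NEf fun n => (F n, F' n) := by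
  obtain ⟨P, hP, h⟩ := hF
  obtain ⟨P', hP', h'⟩ := hF'
  refine ⟨fun q => P (q.1, q.2.1.1, q.2.2) ∧ P' (q.1, q.2.1.2, q.2.2), NPp.and ?_ ?_, ?_⟩
  · exact hP.comp (g := fun q : ℕ × (β × γ) × ℕ => (q.1, q.2.1.1, q.2.2)) (by fun_prop)
  · exact hP'.comp (g := fun q : ℕ × (β × γ) × ℕ => (q.1, q.2.1.2, q.2.2)) (by fun_prop)
  · filter_upwards [size_prod (h.mono fun q h => h.1) (h'.mono fun q h => h.1), h, h']
      with q h1 h2 h3
    refine ⟨h1, fun b => ?_⟩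
    simp only [h2.2, h3.2]
    rw [← Prod.mk.injEq]

/-- Functions computable in exponential time. -/
lemma esf_of_ptime [EncInj γ] {F' : ℕ → γ} {G : ℕ × ℕ → γ} (hG : PTime G)
    (h : ∀ᶠ q in big ⊤, G (q.1, q.2) = F' q.1) : ESf F' := by
  have h0 : ESf (fun _ : ℕ => ()) := by
    refine ⟨fun q => q.2.1 = (), PSp.of_ptime (PTime.eq (by fun_prop) (by fun_prop)), ?_⟩
    filter_upwards [eventually_pow_le ⊤ 0] with q hq
    exact ⟨by simpa using hq, fun b => Iff.rfl⟩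
  exact h0.map (G := fun q : ℕ × Unit × ℕ => G (q.1, q.2.2)) (hG.comp (by fun_prop)) h

lemma nef_of_ptime [EncInj γ] {F' : ℕ → γ} {G : ℕ × ℕ → γ} (hG : PTime G)
    (h : ∀ᶠ q in big pows, G (q.1, q.2) = F' q.1) : NEf F' := by
  have h0 : NEf (fun _ : ℕ => ()) := by
    refine ⟨fun q => q.2.1 = (), NPp.of_ptime (PTime.eq (by fun_prop) (by fun_prop)), ?_⟩
    filter_upwards [eventually_pow_le pows 0] with q hq
    exact ⟨by simpa using hq, fun b => Iff.rfl⟩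
  exact h0.map (G := fun q : ℕ × Unit × ℕ => G (q.1, q.2.2)) (hG.comp (by fun_prop)) h

lemma sz_tab_le (R : ℕ → ℕ → Prop) (m : ℕ) : sz (tab R m) ≤ 1 + 4 * 2 ^ m := by
  have := sz_bits_le (tab R m)
  rwa [length_tab] at this

lemma eventually_sz_tab (f : Filter ℕ) (R : ℕ → ℕ → Prop) (C : ℕ) :
    ∀ᶠ q in big f, sz (tab R (C * q.1)) ≤ q.2 := by
  filter_upwards [eventually_pow_le f (C + 3)] with q hq
  refine (sz_tab_le R _).trans (le_trans ?_ hq)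
  have e : (C + 3) * (q.1 + 1) = C * q.1 + (C + 3 * (q.1 + 1)) := by ring
  rw [e, pow_add]
  have h5 : 1 ≤ 2 ^ (C * q.1) := Nat.one_le_two_pow
  have h6 : 8 ≤ 2 ^ (C + 3 * (q.1 + 1)) := by
    calc 8 = 2 ^ 3 := by norm_num
      _ ≤ _ := Nat.pow_le_pow_right (by norm_num) (by omega)
  calc 1 + 4 * 2 ^ (C * q.1) ≤ 2 ^ (C * q.1) * 8 := by omega
    _ ≤ _ := Nat.mul_le_mul_left _ h6

/-- Truth tables of languages in exponential space. -/
lemma esf_tab {R : ℕ → ℕ → Prop} (hR : ESn R) (C : ℕ) : ESf fun n => tab R (C * n) := by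
  obtain ⟨c, P, hP, h⟩ := hR
  refine ⟨fun q => IsTab P q.2.1 (C * q.1) q.2.2, psp_isTab hP (by fun_prop) (by fun_prop)
    (by fun_prop), ?_⟩
  have h1 : ∀ᶠ q in big ⊤, 2 ^ (c * (q.1 + 1)) ≤ q.2 := eventually_pow_le _ _
  filter_upwards [eventually_forall_le h1 ⊤ C, eventually_two_pow_le ⊤ C,
    eventually_sz_tab ⊤ R C] with q h2 h3 h4
  refine ⟨h4, fun b => ?_⟩
  exact isTab_iff h (h2 _ (by nlinarith)) h3

/-- Languages defined from exponential space functions, at lengths `C n`. -/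
lemma esn_scaled [TMLib.Fix β] {F : ℕ → β} (hF : ESf F) {C : ℕ} (hC : 1 ≤ C)
    {V : (ℕ × β × ℕ) × ℕ → Bool} (hV : PTime V) {R : ℕ → ℕ → Prop}
    (h : ∀ᶠ q in big ⊤, ∀ z, z < 2 ^ (C * q.1) → (V ((q.1, F q.1, q.2), z) = true ↔ R q.1 z)) :
    ESn fun m z => ∃ n, m = C * n ∧ R n z := by
  obtain ⟨P, hP, hP'⟩ := hF
  have h1 := eventually_forall_le (hP'.and h) ⊤ 1
  obtain ⟨c, hc⟩ := eventually_big_top.1 h1
  refine ⟨c, fun q => ∃ n ∈ List.range (q.1 + 1), q.1 = C * n ∧ ∃ b : β, sz b ≤ q.2.2 ∧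
    (P (n, b, q.2.2) ∧ V ((n, b, q.2.2), q.2.1) = true), ?_, ?_⟩
  · refine PSp.exists_mem (R := fun (q : ℕ × ℕ × ℕ) n => q.1 = C * n ∧ ∃ b : β, sz b ≤ q.2.2 ∧
      (P (n, b, q.2.2) ∧ V ((n, b, q.2.2), q.2.1) = true)) ?_ (by fun_prop)
    refine PSp.and (PSp.of_ptime (by fun_prop)) ?_
    refine PSp.exists_le (R := fun (s : (ℕ × ℕ × ℕ) × ℕ) (b : β) => P (s.2, b, s.1.2.2) ∧
      V ((s.2, b, s.1.2.2), s.1.2.1) = true) (PSp.and ?_ (PSp.of_ptime ?_)) (by fun_prop)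
    · exact hP.comp (g := fun x : ((ℕ × ℕ × ℕ) × ℕ) × β => (x.1.2, x.2, x.1.1.2.2)) (by fun_prop)
    · exact PTime.decide_true' (hV.comp (f := fun x : ((ℕ × ℕ × ℕ) × ℕ) × β =>
        ((x.1.2, x.2, x.1.1.2.2), x.1.1.2.1)) (by fun_prop))
  · intro m z N hz hN
    have h2 := hc m N hN
    simp only at h2 ⊢
    constructor
    · rintro ⟨n, hn, rfl, b, -, hb, hv⟩
      rw [List.mem_range] at hn
      obtain ⟨⟨-, h3⟩, h4⟩ := h2 n (by omega)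
      rw [h3] at hb
      subst hb
      exact ⟨n, rfl, (h4 z hz).1 hv⟩
    · rintro ⟨n, rfl, hR⟩
      have hn : n ≤ C * n := Nat.le_mul_of_pos_left _ hC
      obtain ⟨⟨h3, h3'⟩, h4⟩ := h2 n (by omega)
      exact ⟨n, List.mem_range.2 (by omega), rfl, F n, h3, (h3' _).2 rfl, (h4 z hz).2 hR⟩

/-- The least number below `B n` with a given property (`0` if there is none). -/
noncomputable def leastN (B : ℕ → ℕ) (Gd : ℕ → ℕ → Prop) (n : ℕ) : ℕ := by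
  classical exact if h : ∃ v, v < B n ∧ Gd n v then Nat.find h else 0

lemma leastN_spec {B : ℕ → ℕ} {Gd : ℕ → ℕ → Prop} {n : ℕ} (h : ∃ v, v < B n ∧ Gd n v) :
    leastN B Gd n < B n ∧ Gd n (leastN B Gd n) := by
  classical
  unfold leastN
  rw [dif_pos h]
  exact Nat.find_spec h

lemma leastN_min {B : ℕ → ℕ} {Gd : ℕ → ℕ → Prop} {n v : ℕ} (hv : v < leastN B Gd n) :
    ¬ Gd n v := by
  classical
  intro hG
  unfold leastN at hv
  split_ifs at hv with h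
  · have h1 := Nat.find_min h hv
    have h2 := (Nat.find_spec h).1
    exact h1 ⟨by omega, hG⟩
  · omega

lemma leastN_lt {B : ℕ → ℕ} {Gd : ℕ → ℕ → Prop} {n : ℕ} (hB : 0 < B n) :
    leastN B Gd n < B n := by
  classical
  by_cases h : ∃ v, v < B n ∧ Gd n v
  · exact (leastN_spec h).1
  · unfold leastN
    rw [dif_neg h]
    exact hB

/-- The least number with a property decidable in exponential space. -/
lemma esf_least [TMLib.Fix β] {W : ℕ → β} (hW : ESf W) {B : ℕ → ℕ} (hB0 : ∀ n, 0 < B n)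
    (hB : ESf B) {Gd : (ℕ × β × ℕ) × ℕ → Prop} (hGd : PSp Gd) {G : ℕ → ℕ → Prop}
    (h : ∀ᶠ q in big ⊤, ∀ v, v < B q.1 → (Gd ((q.1, W q.1, q.2), v) ↔ G q.1 v)) :
    ESf (leastN B G) := by
  obtain ⟨P, hP, hP'⟩ := hW.prod hB
  refine ⟨fun q => ∃ b : β × ℕ, sz b ≤ q.2.2 ∧ (P (q.1, b, q.2.2) ∧
    ((q.2.1 < b.2 ∧ Gd ((q.1, b.1, q.2.2), q.2.1) ∧ ∀ v ∈ List.range q.2.1,
      ¬ Gd ((q.1, b.1, q.2.2), v)) ∨ (q.2.1 = 0 ∧ ∀ v ∈ List.range b.2,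
      ¬ Gd ((q.1, b.1, q.2.2), v)))), ?_, ?_⟩
  · refine PSp.exists_le (R := fun (q : ℕ × ℕ × ℕ) (b : β × ℕ) => P (q.1, b, q.2.2) ∧
      ((q.2.1 < b.2 ∧ Gd ((q.1, b.1, q.2.2), q.2.1) ∧ ∀ v ∈ List.range q.2.1,
      ¬ Gd ((q.1, b.1, q.2.2), v)) ∨ (q.2.1 = 0 ∧ ∀ v ∈ List.range b.2,
      ¬ Gd ((q.1, b.1, q.2.2), v)))) ?_ (by fun_prop)
    refine PSp.and ?_ (PSp.or (PSp.and (PSp.of_ptime (by fun_prop)) (PSp.and ?_ ?_))
      (PSp.and (PSp.of_ptime (by fun_prop)) ?_))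
    · exact hP.comp (g := fun x : (ℕ × ℕ × ℕ) × (β × ℕ) => (x.1.1, x.2, x.1.2.2)) (by fun_prop)
    · exact hGd.comp (g := fun x : (ℕ × ℕ × ℕ) × (β × ℕ) =>
        ((x.1.1, x.2.1, x.1.2.2), x.1.2.1)) (by fun_prop)
    · refine PSp.forall_mem (R := fun (x : (ℕ × ℕ × ℕ) × (β × ℕ)) v =>
        ¬ Gd ((x.1.1, x.2.1, x.1.2.2), v)) (PSp.not ?_) (by fun_prop)
      exact hGd.comp (g := fun x : ((ℕ × ℕ × ℕ) × (β × ℕ)) × ℕ =>
        ((x.1.1.1, x.1.2.1, x.1.1.2.2), x.2)) (by fun_prop)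
    · refine PSp.forall_mem (R := fun (x : (ℕ × ℕ × ℕ) × (β × ℕ)) v =>
        ¬ Gd ((x.1.1, x.2.1, x.1.2.2), v)) (PSp.not ?_) (by fun_prop)
      exact hGd.comp (g := fun x : ((ℕ × ℕ × ℕ) × (β × ℕ)) × ℕ =>
        ((x.1.1.1, x.1.2.1, x.1.1.2.2), x.2)) (by fun_prop)
  · filter_upwards [hP', h] with q h1 h2
    obtain ⟨h3, h4⟩ := h1
    have h5 : leastN B G q.1 < B q.1 := leastN_lt (hB0 _)
    refine ⟨?_, fun v => ?_⟩
    · simp only [sz_pair, sz_nat] at h3 ⊢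
      omega
    · simp only [h4]
      constructor
      · rintro ⟨b, -, rfl, ⟨hv, hG, hmin⟩ | ⟨hv, hno⟩⟩
        · simp only at hv hG hmin
          rw [h2 v hv] at hG
          have hex : ∃ v, v < B q.1 ∧ G q.1 v := ⟨v, hv, hG⟩
          obtain ⟨h6, h7⟩ := leastN_spec hex
          by_contra hne
          rcases lt_or_gt_of_ne hne with h8 | h8
          · exact leastN_min h8 hG
          · exact hmin _ (List.mem_range.2 h8) ((h2 _ h6).2 h7)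
        · simp only at hv hno
          have hex : ¬ ∃ v, v < B q.1 ∧ G q.1 v := by
            rintro ⟨v', hv', hG'⟩
            exact hno v' (List.mem_range.2 hv') ((h2 _ hv').2 hG')
          unfold leastN
          rw [dif_neg hex, hv]
      · rintro rfl
        refine ⟨(W q.1, B q.1), h3, rfl, ?_⟩
        simp only
        by_cases hex : ∃ v, v < B q.1 ∧ G q.1 v
        · obtain ⟨h6, h7⟩ := leastN_spec hex
          refine Or.inl ⟨h6, (h2 _ h6).2 h7, fun v hv hG => ?_⟩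
          rw [List.mem_range] at hv
          exact leastN_min hv ((h2 v (by omega)).1 hG)
        · refine Or.inr ⟨?_, fun v hv hG => ?_⟩
          · unfold leastN
            rw [dif_neg hex]
          · rw [List.mem_range] at hv
            exact hex ⟨v, hv, (h2 v hv).1 hG⟩

end Pool.Agent.H48.NE
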