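import Pool.Agent.TM.Sim

/-!
# Iteration of polynomial time functions within bounded size

`SComp h f`: the function `f` is computed by iterating a polynomial time step function until a flag
is lowered, all states having size polynomial in `h a` (the number of steps is not bounded).
-/

namespace Pool.Agent.H48.NE

open TMLib Polynomial

variable {α β γ δ σ τ : Type} [Enc α] [Enc β] [Enc γ] [Enc δ] [Enc σ] [Enc τ]

/-! ### Sum types -/

instance instEncSum {α β : Type} [Enc α] [Enc β] : Enc (α ⊕ β) :=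
  ⟨Sum.elim (fun a => enc (false, a)) (fun b => enc (true, b))⟩

lemma enc_inl (a : α) : enc (Sum.inl a : α ⊕ β) = D.cons D.nil (enc a) := rfl
lemma enc_inr (b : β) : enc (Sum.inr b : α ⊕ β) = D.cons (D.cons D.nil D.nil) (enc b) := rfl

@[simp] lemma sz_inl (a : α) : sz (Sum.inl a : α ⊕ β) = 2 + sz a := rfl

@[simp] lemma sz_inr (b : β) : sz (Sum.inr b : α ⊕ β) = 4 + sz b := rfl

@[fun_prop] lemma ptime_inl {f : α → β} (hf : PTime f) :
    PTime (fun x => (Sum.inl (f x) : β ⊕ γ)) :=
  (PTime.of_enc_eq (f := fun p : Unit × β => (Sum.inl p.2 : β ⊕ γ)) (fun _ => rfl)).comp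
    (PTime.pair (PTime.const ()) hf)

@[fun_prop] lemma ptime_inr {f : α → γ} (hf : PTime f) :
    PTime (fun x => (Sum.inr (f x) : β ⊕ γ)) :=
  (PTime.of_enc_eq (f := fun p : (Unit × Unit) × γ => (Sum.inr p.2 : β ⊕ γ)) (fun _ => rfl)).comp
    (PTime.pair (PTime.const ((), ())) hf)

lemma ptime_sumCases {s : α → β ⊕ γ} {f : α → β → δ} {g : α → γ → δ} (hs : PTime s)
    (hf : PTime fun p : α × β => f p.1 p.2) (hg : PTime fun p : α × γ => g p.1 p.2) :
    PTime (fun x => Sum.elim (f x) (g x) (s x)) := by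
  have hc : PTime (fun x => (enc (s x)).hd) := PTime.hd.comp (PTime.enc'.comp hs)
  have hu : PTime (fun x => (x, (enc (s x)).tl)) :=
    PTime.pair PTime.id (PTime.tl.comp (PTime.enc'.comp hs))
  obtain ⟨pc, Tc, hc⟩ := hc
  obtain ⟨pu, Tu, hu⟩ := hu
  obtain ⟨p, T, hp⟩ := hf
  obtain ⟨q, U, hq⟩ := hg
  refine ⟨.seq dup (.seq pc (.ite .m isT (.seq drop (.seq pu q)) (.seq drop (.seq pu p)))),
    12 + 27 * X + Tc + 9 * (X + Tc) + Tu + T.comp (X + Tu) + U.comp (X + Tu), fun x r => ?_⟩
  have h12 : eval (sz x) (12 : ℕ[X]) = 12 := by simp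
  have h27 : eval (sz x) (27 : ℕ[X]) = 27 := by simp
  have h9 : eval (sz x) (9 : ℕ[X]) = 9 := by simp
  have h2 := PTime.size_le hc x
  have h3 := PTime.size_le hu x
  simp only [eval_add, eval_mul, eval_X, eval_comp, h12, h27, h9, sz_D] at h2 h3 ⊢
  have h0 : (enc x).size = sz x := rfl
  have hdup := runs_dup (enc x) r
  have hpc := hc x ((enc x).code ++ r)
  have hpu := hu x r
  beta_reduce at hpc hpu
  cases hx : s x with
  | inl b =>
    rw [hx] at hpc h2 hpu h3
    have hq' := hp (x, b) r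
    have e1 : (enc (x, b)).code = (enc (x, (enc (Sum.inl b : β ⊕ γ)).tl)).code := rfl
    have e2 : sz (x, b) = sz (x, (enc (Sum.inl b : β ⊕ γ)).tl) := rfl
    rw [e1, e2] at hq'
    have h1 : Runs (.ite .m isT (.seq drop (.seq pu q)) (.seq drop (.seq pu p)))
        (ms ((enc (enc (Sum.inl b : β ⊕ γ)).hd).code ++ ((enc x).code ++ r)))
        (ms ((enc (f x b)).code ++ r)) (1 + ((3 + 7 * (enc (Sum.inl b : β ⊕ γ)).hd.size) +
          (Tu.eval (sz x) + T.eval (sz (x, (enc (Sum.inl b : β ⊕ γ)).tl))))) :=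
      Runs.iteF rfl ((runs_drop _ ((enc x).code ++ r)).seq (hpu.seq hq'))
    refine (hdup.seq (hpc.seq h1)).mono ?_
    have h5 := eval_mono T h3
    omega
  | inr b =>
    rw [hx] at hpc h2 hpu h3
    have hq' := hq (x, b) r
    have e1 : (enc (x, b)).code = (enc (x, (enc (Sum.inr b : β ⊕ γ)).tl)).code := rfl
    have e2 : sz (x, b) = sz (x, (enc (Sum.inr b : β ⊕ γ)).tl) := rfl
    rw [e1, e2] at hq'
    have h1 : Runs (.ite .m isT (.seq drop (.seq pu q)) (.seq drop (.seq pu p)))
        (ms ((enc (enc (Sum.inr b : β ⊕ γ)).hd).code ++ ((enc x).code ++ r)))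
        (ms ((enc (g x b)).code ++ r)) (1 + ((3 + 7 * (enc (Sum.inr b : β ⊕ γ)).hd.size) +
          (Tu.eval (sz x) + U.eval (sz (x, (enc (Sum.inr b : β ⊕ γ)).tl))))) :=
      Runs.iteT rfl ((runs_drop _ ((enc x).code ++ r)).seq (hpu.seq hq'))
    refine (hdup.seq (hpc.seq h1)).mono ?_
    have h5 := eval_mono U h3
    omega

/-! ### Convergent iterations -/

/-- Starting from `s`, iterate `G` while the flag is true; the iteration ends with the state `t`
and all states have size at most `B`. -/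
inductive Conv (G : σ → Bool × σ) (B : ℕ) : σ → σ → Prop
  | stop {s : σ} : sz s ≤ B → (G s).1 = false → sz (G s).2 ≤ B → Conv G B s (G s).2
  | step {s t : σ} : sz s ≤ B → (G s).1 = true → Conv G B (G s).2 t → Conv G B s t

lemma Conv.mono {G : σ → Bool × σ} {B B' : ℕ} {s t : σ} (h : Conv G B s t) (hB : B ≤ B') :
    Conv G B' s t := by
  induction h with
  | stop h1 h2 h3 => exact .stop (h1.trans hB) h2 (h3.trans hB)
  | step h1 h2 _ ih => exact .step (h1.trans hB) h2 ih

lemma Conv.sz_le {G : σ → Bool × σ} {B : ℕ} {s t : σ} (h : Conv G B s t) : sz t ≤ B := by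
  induction h with
  | stop h1 h2 h3 => exact h3
  | step h1 h2 _ ih => exact ih

lemma Conv.sz_le' {G : σ → Bool × σ} {B : ℕ} {s t : σ} (h : Conv G B s t) : sz s ≤ B := by
  cases h with
  | stop h1 h2 h3 => exact h1
  | step h1 h2 _ => exact h1

lemma Conv.det {G : σ → Bool × σ} {B B' : ℕ} {s t t' : σ} (h : Conv G B s t)
    (h' : Conv G B' s t') : t = t' := by
  induction h with
  | stop h1 h2 h3 =>
    cases h' with
    | stop _ _ _ => rfl
    | step _ h5 _ => rw [h2] at h5; exact absurd h5 (by simp)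
  | step h1 h2 _ ih =>
    cases h' with
    | stop _ h5 _ => rw [h2] at h5; exact absurd h5 (by simp)
    | step _ _ h6 => exact ih h6

/-- `f` is computed in space polynomial in `h`. -/
def SComp (h : α → ℕ) (f : α → β) : Prop :=
  ∃ (σ : Type) (_ : Enc σ) (init : α → σ) (G : σ → Bool × σ) (fin : σ → β) (q : ℕ[X]),
    PTime init ∧ PTime G ∧ PTime fin ∧
      ∀ a, ∃ t, Conv G (q.eval (h a)) (init a) t ∧ fin t = f a

namespace SComp

lemma congr {h : α → ℕ} {f g : α → β} (hf : SComp h f) (hfg : ∀ a, g a = f a) : SComp h g := by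
  rwa [show g = f from funext hfg]

lemma mono {h h' : α → ℕ} {f : α → β} (hf : SComp h f) (q' : ℕ[X])
    (hh : ∀ a, h a ≤ q'.eval (h' a)) : SComp h' f := by
  obtain ⟨σ, hσ, init, G, fin, q, h1, h2, h3, h4⟩ := hf
  refine ⟨σ, hσ, init, G, fin, q.comp q', h1, h2, h3, fun a => ?_⟩
  obtain ⟨t, ht, ht'⟩ := h4 a
  refine ⟨t, ht.mono ?_, ht'⟩
  rw [eval_comp]
  exact eval_mono q (hh a)

lemma mono' {h h' : α → ℕ} {f : α → β} (hf : SComp h f) (hh : ∀ a, h a ≤ h' a) : SComp h' f :=
  hf.mono X (fun a => by simpa using hh a)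

/-- Polynomial time functions. -/
lemma of_ptime {f : α → β} (hf : PTime f) : SComp sz f := by
  refine ⟨α, inferInstance, fun a => a, fun a => (false, a), f, X, PTime.id, by fun_prop, hf,
    fun a => ⟨a, ?_, rfl⟩⟩
  exact Conv.stop (G := fun a : α => (false, a)) (by simp) rfl (by simp)

lemma of_ptime' {h : α → ℕ} {f : α → β} (hf : PTime f) (hh : ∀ a, sz a ≤ h a) : SComp h f :=
  (of_ptime hf).mono' hh

/-- The final value has size polynomial in the bound. -/
lemma exists_size_le {h : α → ℕ} {f : α → β} (hf : SComp h f) :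
    ∃ q : ℕ[X], ∀ a, sz (f a) ≤ q.eval (h a) := by
  obtain ⟨σ, hσ, init, G, fin, q, h1, h2, h3, h4⟩ := hf
  obtain ⟨B, hB⟩ := h3.exists_size_le
  refine ⟨B.comp q, fun a => ?_⟩
  obtain ⟨t, ht, ht'⟩ := h4 a
  rw [← ht', eval_comp]
  exact (hB t).trans (eval_mono B ht.sz_le)

/-- Composition. -/
lemma comp {h : α → ℕ} {h' : β → ℕ} {g : β → γ} {f : α → β} (hg : SComp h' g) (hf : SComp h f)
    {H : α → ℕ} {q₀ : ℕ[X]} (hH : ∀ a, h a ≤ q₀.eval (H a)) (hH' : ∀ a, h' (f a) ≤ q₀.eval (H a)) :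
    SComp H (fun a => g (f a)) := by
  obtain ⟨σ, hσ, init, G, fin, q, h1, h2, h3, h4⟩ := hf
  obtain ⟨τ, hτ, init', G', fin', q', h1', h2', h3', h4'⟩ := hg
  let K : σ ⊕ τ → Bool × (σ ⊕ τ) := Sum.elim
    (fun s => bif (G s).1 then (true, Sum.inl (G s).2)
      else (true, Sum.inr (init' (fin (G s).2))))
    (fun s => ((G' s).1, Sum.inr (G' s).2))
  let fn : σ ⊕ τ → γ := Sum.elim (fun s => fin' (init' (fin s))) fin'
  have hK : PTime K := by
    refine (ptime_sumCases (s := fun x : σ ⊕ τ => x) (f := fun _ s => bif (G s).1 then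
      (true, (Sum.inl (G s).2 : σ ⊕ τ)) else (true, Sum.inr (init' (fin (G s).2))))
      (g := fun _ s => ((G' s).1, (Sum.inr (G' s).2 : σ ⊕ τ))) PTime.id ?_ ?_).congr fun x => rfl
    · have hG : PTime (fun p : (σ ⊕ τ) × σ => G p.2) := h2.comp (PTime.snd PTime.id)
      exact PTime.cond (PTime.fst hG) (PTime.pair (PTime.const true) (ptime_inl (PTime.snd hG)))
        (PTime.pair (PTime.const true) (ptime_inr (h1'.comp (h3.comp (PTime.snd hG)))))
    · have hG : PTime (fun p : (σ ⊕ τ) × τ => G' p.2) := h2'.comp (PTime.snd PTime.id)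
      exact PTime.pair (PTime.fst hG) (ptime_inr (PTime.snd hG))
  have hfn : PTime fn := by
    refine (ptime_sumCases (s := fun x : σ ⊕ τ => x) (f := fun _ s => fin' (init' (fin s)))
      (g := fun _ s => fin' s) PTime.id ?_ ?_).congr fun x => rfl
    · exact h3'.comp (h1'.comp (h3.comp (PTime.snd PTime.id)))
    · exact h3'.comp (PTime.snd PTime.id)
  have key2 : ∀ (B : ℕ) (s t : τ), Conv G' B s t → Conv K (4 + B) (Sum.inr s) (Sum.inr t) := by
    intro B s t hc
    induction hc with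
    | @stop s a1 a2 a3 =>
      have e : (K (Sum.inr s)).2 = Sum.inr (G' s).2 := rfl
      rw [← e]
      refine Conv.stop (by simpa using a1) a2 ?_
      rw [e]
      simpa using a3
    | @step s t a1 a2 _ ih => exact Conv.step (by simpa using a1) a2 ih
  have key1 : ∀ (B B' : ℕ) (s t : σ) (u : τ), Conv G B s t → Conv G' B' (init' (fin t)) u →
      Conv K (4 + B + B') (Sum.inl s) (Sum.inr u) := by
    intro B B' s t u hc hu
    induction hc with
    | @stop s a1 a2 a3 =>
      refine Conv.step (by simp; omega) ?_ ?_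
      · show (bif (G s).1 then (true, (Sum.inl (G s).2 : σ ⊕ τ))
          else (true, Sum.inr (init' (fin (G s).2)))).1 = true
        rw [a2]
        rfl
      · have e : (K (Sum.inl s)).2 = Sum.inr (init' (fin (G s).2)) := by
          show (bif (G s).1 then (true, (Sum.inl (G s).2 : σ ⊕ τ))
            else (true, Sum.inr (init' (fin (G s).2)))).2 = _
          rw [a2]
          rfl
        rw [e]
        exact (key2 B' _ _ hu).mono (by omega)
    | @step s t a1 a2 _ ih =>
      have e : K (Sum.inl s) = (true, Sum.inl (G s).2) := by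
        show (bif (G s).1 then (true, (Sum.inl (G s).2 : σ ⊕ τ))
          else (true, Sum.inr (init' (fin (G s).2)))) = _
        rw [a2]
        rfl
      refine Conv.step (by simp; omega) (by rw [e]) ?_
      rw [e]
      exact ih hu
  refine ⟨σ ⊕ τ, inferInstance, fun a => Sum.inl (init a), K, fn,
    4 + q.comp q₀ + q'.comp q₀, ptime_inl h1, hK, hfn, fun a => ?_⟩
  obtain ⟨t, ht, ht'⟩ := h4 a
  obtain ⟨u, hu, hu'⟩ := h4' (f a)
  refine ⟨Sum.inr u, ?_, hu'⟩
  rw [← ht'] at hu
  refine (key1 _ _ _ _ _ ht hu).mono ?_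
  have e4 : eval (H a) (4 : ℕ[X]) = 4 := by simp
  simp only [eval_add, eval_comp, e4]
  have l1 := eval_mono q (hH a)
  have l2 := eval_mono q' (hH' a)
  rw [← ht'] at l2
  omega

/-- Carry a parameter. -/
lemma first {h : α → ℕ} {f : α → β} (hf : SComp h f) :
    SComp (fun p : α × γ => h p.1 + sz p.2) (fun p : α × γ => (f p.1, p.2)) := by
  obtain ⟨σ, hσ, init, G, fin, q, h1, h2, h3, h4⟩ := hf
  let K : σ × γ → Bool × (σ × γ) := fun s => ((G s.1).1, ((G s.1).2, s.2))
  have hK : PTime K := by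
    have hG : PTime (fun p : σ × γ => G p.1) := h2.comp (PTime.fst PTime.id)
    exact PTime.pair (PTime.fst hG) (PTime.pair (PTime.snd hG) (PTime.snd PTime.id))
  have key : ∀ (B : ℕ) (s t : σ) (c : γ), Conv G B s t → Conv K (1 + B + sz c) (s, c) (t, c) := by
    intro B s t c hc
    induction hc with
    | @stop s a1 a2 a3 =>
      have e : (K (s, c)).2 = ((G s).2, c) := rfl
      rw [← e]
      refine Conv.stop (by rw [sz_pair]; simp only; omega) a2 ?_
      rw [e, sz_pair]
      simp only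
      omega
    | @step s t a1 a2 _ ih => exact Conv.step (by rw [sz_pair]; simp only; omega) a2 ih
  refine ⟨σ × γ, inferInstance, fun p => (init p.1, p.2), K, fun s => (fin s.1, s.2),
    1 + q + X, PTime.pair (h1.comp (PTime.fst PTime.id)) (PTime.snd PTime.id), hK,
    PTime.pair (h3.comp (PTime.fst PTime.id)) (PTime.snd PTime.id), fun p => ?_⟩
  obtain ⟨t, ht, ht'⟩ := h4 p.1
  refine ⟨(t, p.2), (key _ _ _ p.2 ht).mono ?_, by
    show (fin t, p.2) = (f p.1, p.2)
    rw [ht']⟩
  have e1 : eval (h p.1 + sz p.2) (1 : ℕ[X]) = 1 := by simp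
  simp only [eval_add, eval_X, e1]
  have l1 := eval_mono q (show h p.1 ≤ h p.1 + sz p.2 by omega)
  omega

end SComp

/-! ### Polynomial space -/

/-- Functions computed in polynomial space. -/
def PSpF (f : α → β) : Prop := SComp sz f

namespace PSpF

lemma of_ptime {f : α → β} (hf : PTime f) : PSpF f := SComp.of_ptime hf

lemma congr {f g : α → β} (hf : PSpF f) (hfg : ∀ a, g a = f a) : PSpF g := SComp.congr hf hfg

lemma exists_size_le {f : α → β} (hf : PSpF f) : ∃ q : ℕ[X], ∀ a, sz (f a) ≤ q.eval (sz a) :=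
  SComp.exists_size_le hf

lemma comp {g : β → γ} {f : α → β} (hg : PSpF g) (hf : PSpF f) : PSpF (fun a => g (f a)) := by
  obtain ⟨q, hq⟩ := hf.exists_size_le
  refine SComp.comp (H := sz) (q₀ := X + q) hg hf (fun a => ?_) (fun a => ?_)
  · simp
  · simp only [eval_add, eval_X]
    have := hq a
    omega

lemma first {f : α → β} (hf : PSpF f) : PSpF (fun p : α × γ => (f p.1, p.2)) :=
  (SComp.first hf).mono' fun p => by rw [sz_pair]; omega

lemma pair {f : α → β} {g : α → γ} (hf : PSpF f) (hg : PSpF g) : PSpF (fun a => (f a, g a)) := by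
  have h1 : PSpF (fun a : α => (a, a)) := of_ptime (by fun_prop)
  have h2 : PSpF (fun a : α => (f a, a)) := comp (g := fun p : α × α => (f p.1, p.2))
    (first hf) h1
  have h3 : PSpF (fun a : α => (a, f a)) := comp (g := fun p : β × α => (p.2, p.1))
    (of_ptime (by fun_prop)) h2
  have h4 : PSpF (fun a : α => (g a, f a)) := comp (g := fun p : α × β => (g p.1, p.2))
    (first hg) h3
  exact comp (g := fun p : γ × β => (p.2, p.1)) (of_ptime (by fun_prop)) h4

end PSpF

end Pool.Agent.H48.NE
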