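import Pool.Agent.H48.NE.Tally

/-!
# Certificates for truth tables from list decodable codes
-/

namespace Pool.Agent.H48.NE

open TMLib Polynomial Filter

set_option maxHeartbeats 4000000

variable {α β γ δ : Type} [Enc α] [Enc β] [Enc γ] [Enc δ]

/-! ### Reduction to truth tables at powers of two -/

/-- All lengths below `n` put together. -/
def padR (R : ℕ → ℕ → Prop) (_n k : ℕ) : Prop :=
  ∃ m, 2 ^ m ≤ k ∧ k < 2 * 2 ^ m ∧ R m (k - 2 ^ m)

lemma esn_padR {R : ℕ → ℕ → Prop} (hR : ESn R) : ESn (padR R) := by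
  obtain ⟨c, P, hP, h⟩ := hR
  refine ⟨c + 1, fun q => ∃ m ∈ List.range q.1, (powB q.2.2 m ≤ q.2.1 ∧
    q.2.1 < 2 * powB q.2.2 m) ∧ P (m, q.2.1 - powB q.2.2 m, q.2.2), ?_, ?_⟩
  · refine PSp.exists_mem (R := fun (q : ℕ × ℕ × ℕ) m => (powB q.2.2 m ≤ q.2.1 ∧
      q.2.1 < 2 * powB q.2.2 m) ∧ P (m, q.2.1 - powB q.2.2 m, q.2.2)) ?_ (by fun_prop)
    refine PSp.and (PSp.of_ptime (by fun_prop)) ?_
    exact hP.comp (g := fun x : (ℕ × ℕ × ℕ) × ℕ =>
      (x.2, x.1.2.1 - powB x.1.2.2 x.2, x.1.2.2)) (by fun_prop)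
  · intro n k N hk hN
    have h1 : ∀ m ≤ n, 2 ^ m ≤ N ∧ 2 ^ (c * (m + 1)) ≤ N := by
      intro m hm
      constructor
      · refine le_trans (Nat.pow_le_pow_right (by norm_num) ?_) hN
        nlinarith
      · refine le_trans (Nat.pow_le_pow_right (by norm_num) ?_) hN
        nlinarith
    simp only
    constructor
    · rintro ⟨m, hm, ⟨h2, h3⟩, h4⟩
      rw [List.mem_range] at hm
      rw [powB_eq (h1 m hm.le).1] at h2 h3 h4
      exact ⟨m, h2, h3, (h m _ N (by omega) (h1 m hm.le).2).1 h4⟩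
    · rintro ⟨m, h2, h3, h4⟩
      have hm : m < n := by
        by_contra hmn
        have : 2 ^ n ≤ 2 ^ m := Nat.pow_le_pow_right (by norm_num) (by omega)
        omega
      refine ⟨m, List.mem_range.2 hm, ?_, ?_⟩
      · rw [powB_eq (h1 m hm.le).1]
        exact ⟨h2, h3⟩
      · rw [powB_eq (h1 m hm.le).1]
        exact (h m _ N (by omega) (h1 m hm.le).2).2 h4

lemma padR_iff {R : ℕ → ℕ → Prop} {n m k : ℕ} (hk : k < 2 ^ m) :
    padR R n (2 ^ m + k) ↔ R m k := by
  constructor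
  · rintro ⟨m', h1, h2, h3⟩
    have e : m' = m := by
      have h4 : 2 ^ m' < 2 ^ (m + 1) := by rw [pow_succ]; omega
      have h5 : 2 ^ m < 2 ^ (m' + 1) := by rw [pow_succ]; omega
      have h6 := (Nat.pow_lt_pow_iff_right (by norm_num : 1 < 2)).1 h4
      have h7 := (Nat.pow_lt_pow_iff_right (by norm_num : 1 < 2)).1 h5
      omega
    subst e
    rwa [Nat.add_sub_cancel_left] at h3
  · intro h
    exact ⟨m, by omega, by omega, by rwa [Nat.add_sub_cancel_left]⟩

theorem nen_of_nef_tab {R : ℕ → ℕ → Prop} (h : NEf fun n => tab (padR R) n) : NEn R := by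
  obtain ⟨P, hP, h⟩ := h
  obtain ⟨c, hc⟩ := h
  obtain ⟨n₁, hn₁⟩ := eventually_pows.1 hc
  refine NEn.of_eventually (c := 3 * c + 1) (n₀ := n₁) (P := fun q => ∃ j ∈ List.range (q.1 + 2),
    (q.1 < powB (2 * q.1 + 3) j ∧ powB (2 * q.1 + 3) j ≤ 2 * q.1 + 2) ∧ ∃ T : List Bool,
    sz T ≤ q.2.2 ∧ (P (powB (2 * q.1 + 3) j, T, q.2.2) ∧
      T.getD (powB q.2.2 q.1 + q.2.1) false = true)) ?_ ?_
  · refine NPp.exists_mem (R := fun (q : ℕ × ℕ × ℕ) j => (q.1 < powB (2 * q.1 + 3) j ∧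
      powB (2 * q.1 + 3) j ≤ 2 * q.1 + 2) ∧ ∃ T : List Bool,
      sz T ≤ q.2.2 ∧ (P (powB (2 * q.1 + 3) j, T, q.2.2) ∧
      T.getD (powB q.2.2 q.1 + q.2.1) false = true)) ?_ (by fun_prop)
    refine NPp.and (NPp.of_ptime (by fun_prop)) ?_
    refine NPp.exists_le (R := fun (s : (ℕ × ℕ × ℕ) × ℕ) (T : List Bool) =>
      P (powB (2 * s.1.1 + 3) s.2, T, s.1.2.2) ∧
      T.getD (powB s.1.2.2 s.1.1 + s.1.2.1) false = true) ?_ (by fun_prop)
    refine NPp.and ?_ (NPp.of_ptime (by fun_prop))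
    exact hP.comp (g := fun x : ((ℕ × ℕ × ℕ) × ℕ) × List Bool =>
      (powB (2 * x.1.1.1 + 3) x.1.2, x.2, x.1.1.2.2)) (by fun_prop)
  · intro n k N hn hk hN
    have h1 : 2 ^ n ≤ N := le_trans (Nat.pow_le_pow_right (by norm_num) (by nlinarith)) hN
    simp only
    have key : ∀ j, n < 2 ^ j → 2 ^ j ≤ 2 * n + 2 → ∀ T : List Bool,
        (sz T ≤ N ∧ (P (2 ^ j, T, N) ∧ T.getD (2 ^ n + k) false = true)) ↔
          (T = tab (padR R) (2 ^ j) ∧ R n k) := by
      intro j h2 h3 T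
      have h4 : 2 ^ (c * (2 ^ j + 1)) ≤ N := by
        refine le_trans (Nat.pow_le_pow_right (by norm_num) ?_) hN
        nlinarith
      obtain ⟨h5, h6⟩ := hn₁ j (by omega) N h4
      simp only at h5 h6
      rw [h6]
      have h7 : 2 ^ n + k < 2 ^ (2 ^ j) := by
        calc 2 ^ n + k < 2 ^ (n + 1) := by rw [pow_succ]; omega
          _ ≤ _ := Nat.pow_le_pow_right (by norm_num) (by omega)
      constructor
      · rintro ⟨-, rfl, h8⟩
        exact ⟨rfl, (padR_iff hk).1 ((getD_tab h7).1 h8)⟩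
      · rintro ⟨rfl, h8⟩
        exact ⟨h5, rfl, (getD_tab h7).2 ((padR_iff hk).2 h8)⟩
    constructor
    · rintro ⟨j, -, ⟨h2, h3⟩, T, h4⟩
      have h5 : powB (2 * n + 3) j = 2 ^ j := by
        unfold powB at h3 ⊢
        omega
      rw [h5] at h2 h3 h4
      rw [powB_eq h1] at h4
      exact ((key j h2 h3 T).1 h4).2
    · intro hR
      obtain ⟨j, h2, h3⟩ : ∃ j, n < 2 ^ j ∧ 2 ^ j ≤ 2 * n + 2 := by
        refine ⟨Nat.log 2 (n + 1) + 1, ?_, ?_⟩
        · have := Nat.lt_pow_succ_log_self (by norm_num : 1 < 2) (n + 1)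
          rw [Nat.succ_eq_add_one] at this
          omega
        · have := Nat.pow_log_le_self 2 (x := n + 1) (by omega)
          rw [pow_succ]
          omega
      have h5 : powB (2 * n + 3) j = 2 ^ j := powB_eq (by omega)
      have h6 : j < n + 2 := by
        by_contra hj
        have h7 : 2 ^ (n + 2) ≤ 2 ^ j := Nat.pow_le_pow_right (by norm_num) (by omega)
        have h8 : n + 2 < 2 ^ (n + 2) := Nat.lt_two_pow_self
        have h9 : 2 ^ (n + 2) = 4 * 2 ^ n := by rw [pow_add]; ring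
        have h10 : n < 2 ^ n := Nat.lt_two_pow_self
        omega
      refine ⟨j, List.mem_range.2 h6, ?_, tab (padR R) (2 ^ j), ?_⟩
      · rw [h5]
        exact ⟨h2, h3⟩
      · rw [h5, powB_eq h1]
        exact (key j h2 h3 _).2 ⟨rfl, hR⟩

/-! ### Decoding -/

/-- Every exponential space predicate is approximated by a nondeterministic exponential time
predicate with advantage `2^(-E n)` at the lengths `C n`. -/
def AppH (C E : ℕ) : Prop := ∀ R, ESn R → ∃ S, NEn S ∧ ∃ n₀, ∀ n ≥ n₀,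
  2 ^ (C * n) + 2 * 2 ^ (C * n - E * n) ≤ 2 * agr (C * n) R S

/-- The number of agreements, as a computable function. -/
def agc (C : ℕ) (V : ((ℕ × β × ℕ) × List Bool) × ℕ → Bool)
    (x : ((ℕ × β × ℕ) × List Bool) × List Bool) : ℕ :=
  ((List.range (powB x.1.1.2.2 (C * x.1.1.1))).filter
    fun z => decide (V (x.1, z) = x.2.getD z false)).length

lemma ptime_agc (C : ℕ) {V : ((ℕ × β × ℕ) × List Bool) × ℕ → Bool} (hV : PTime V) :
    PTime (agc C V) := by
  unfold agc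
  refine PTime.length (PTime.filter (g := fun (x : ((ℕ × β × ℕ) × List Bool) × List Bool) z =>
    decide (V (x.1, z) = x.2.getD z false)) (by fun_prop) ?_)
  exact PTime.eq (hV.comp (f := fun p : (((ℕ × β × ℕ) × List Bool) × List Bool) × ℕ =>
    (p.1.1, p.2)) (by fun_prop)) (by fun_prop)

lemma esn_of_nen {S : ℕ → ℕ → Prop} (hS : NEn S) : ESn S := by
  obtain ⟨c, P, hP, h⟩ := hS
  exact ⟨c, P, hP.psp, h⟩

/-- The number of agreements of the encoding of `T` with `w`. -/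
def agw (m : ℕ) (c : ℕ → Bool) (w : ℕ → Bool) : ℕ :=
  ((Finset.range (2 ^ m)).filter fun z => c z = w z).card

theorem nef_decode [TMLib.Fix β] [EncInj β] {T0 : ℕ → ℕ → Prop} (hT0 : ESn T0) {C E : ℕ}
    (hC : 1 ≤ C) (H : AppH C E) (Hm : MajH) {F : ℕ → β} (hFe : ESf F) (hFn : NEf F)
    {cw : ℕ → List Bool → ℕ → Bool} {V : ((ℕ × β × ℕ) × List Bool) × ℕ → Bool} (hV : PTime V)
    (hVcw : ∀ᶠ q in big ⊤, ∀ T z, T.length = 2 ^ q.1 → z < 2 ^ (C * q.1) →
      V (((q.1, F q.1, q.2), T), z) = cw q.1 T z) (L : ℕ)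
    (hlist : ∀ᶠ n in pows, ∀ w : ℕ → Bool, ∀ Λ : Finset (List Bool), (∀ T ∈ Λ,
      T.length = 2 ^ n ∧ 2 ^ (C * n) + 2 * 2 ^ (C * n - E * n) ≤ 2 * agw (C * n) (cw n T) w) →
      Λ.card ≤ 2 ^ (L * n)) : NEf fun n => tab T0 n := by
  classical
  have hTe : ESf fun n => tab T0 n := by
    have := esf_tab hT0 1
    simpa using this
  -- the code language
  have hR : ESn fun m z => ∃ n, m = C * n ∧ cw n (tab T0 n) z = true := by
    refine esn_scaled (hFe.prod hTe) hC
      (V := fun x : (ℕ × (β × List Bool) × ℕ) × ℕ => V (((x.1.1, x.1.2.1.1, x.1.2.2), x.1.2.1.2),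
        x.2)) ?_ ?_
    · exact hV.comp (f := fun x : (ℕ × (β × List Bool) × ℕ) × ℕ =>
        (((x.1.1, x.1.2.1.1, x.1.2.2), x.1.2.1.2), x.2)) (by fun_prop)
    · filter_upwards [hVcw] with q hq z hz
      rw [hq _ _ (length_tab _ _) hz]
  obtain ⟨S, hS, n₀, hn₀⟩ := H _ hR
  have hSe := esn_of_nen hS
  have hBe : ESf fun n => tab S (C * n) := esf_tab hSe C
  have hBn : NEf fun n => tab S (C * n) := nef_tab Hm hS hSe hC
  have hagr : ∀ n, agr (C * n) (fun m z => ∃ n, m = C * n ∧ cw n (tab T0 n) z = true) S =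
      agw (C * n) (cw n (tab T0 n)) (fun z => (tab S (C * n)).getD z false) := by
    intro n
    unfold agr agw
    congr 1
    refine Finset.filter_congr fun z hz => ?_
    rw [Finset.mem_range] at hz
    have h1 : (∃ n', C * n = C * n' ∧ cw n' (tab T0 n') z = true) ↔ cw n (tab T0 n) z = true := by
      constructor
      · rintro ⟨n', h1, h2⟩
        rwa [Nat.eq_of_mul_eq_mul_left (by omega) h1]
      · intro h
        exact ⟨n, rfl, h⟩
    beta_reduce
    rw [h1, ← getD_tab (R := S) hz, ← Bool.eq_iff_iff]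
    exact eq_comm
  have hthr : ∀ n ≥ n₀, 2 ^ (C * n) + 2 * 2 ^ (C * n - E * n) ≤
      2 * agw (C * n) (cw n (tab T0 n)) (fun z => (tab S (C * n)).getD z false) := by
    intro n hn
    rw [← hagr]
    exact hn₀ n hn
  -- close strings
  let Cl : ℕ → List Bool → Prop := fun n T => T.length = 2 ^ n ∧
    2 ^ (C * n) + 2 * 2 ^ (C * n - E * n) ≤
      2 * agw (C * n) (cw n T) (fun z => (tab S (C * n)).getD z false)
  have hVc : ∀ᶠ q in big ⊤, ∀ T B, T.length = 2 ^ q.1 →
      agc C V (((q.1, F q.1, q.2), T), B) = agw (C * q.1) (cw q.1 T) (fun z => B.getD z false) := by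
    filter_upwards [hVcw, eventually_two_pow_le ⊤ C] with q h1 h2 T B hT
    unfold agc agw
    simp only
    rw [powB_eq h2, length_filter_range]
    congr 1
    refine Finset.filter_congr fun z hz => ?_
    rw [Finset.mem_range] at hz
    rw [h1 T z hT hz, decide_eq_true_eq]
  -- the separating point
  let A := L + 1
  let G : ℕ → ℕ → Prop := fun n z => z < prm (2 ^ (A * n)) ∧ ∀ T, Cl n T → T ≠ tab T0 n →
    hv T z (prm (2 ^ (A * n))) ≠ hv (tab T0 n) z (prm (2 ^ (A * n)))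
  have hBd : ESf fun n => 2 ^ ((A + 1) * n) := by
    refine esf_of_ptime (G := fun q : ℕ × ℕ => powB q.2 ((A + 1) * q.1)) (by fun_prop) ?_
    filter_upwards [eventually_two_pow_le ⊤ (A + 1)] with q hq
    exact powB_eq hq
  have hz : ESf (leastN (fun n => 2 ^ ((A + 1) * n)) G) := by
    refine esf_least (W := fun n => ((F n, tab T0 n), tab S (C * n))) ((hFe.prod hTe).prod hBe)
      (fun n => by positivity) hBd
      (Gd := fun x => (x.2 < prm (powB x.1.2.2 (A * x.1.1))) ∧ ∀ T : List Bool,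
        sz T ≤ 1 + 4 * x.1.2.2 → ((T.length = powB x.1.2.2 x.1.1 ∧
        powB x.1.2.2 (C * x.1.1) + 2 * powB x.1.2.2 (C * x.1.1 - E * x.1.1) ≤
          2 * agc C V (((x.1.1, x.1.2.1.1.1, x.1.2.2), T), x.1.2.1.2) ∧ T ≠ x.1.2.1.1.2) →
        hv T x.2 (prm (powB x.1.2.2 (A * x.1.1))) ≠
          hv x.1.2.1.1.2 x.2 (prm (powB x.1.2.2 (A * x.1.1))))) ?_ ?_
    · refine PSp.and (PSp.of_ptime (by fun_prop)) ?_
      refine PSp.forall_le (R := fun (x : (ℕ × ((β × List Bool) × List Bool) × ℕ) × ℕ)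
        (T : List Bool) => ((T.length = powB x.1.2.2 x.1.1 ∧
        powB x.1.2.2 (C * x.1.1) + 2 * powB x.1.2.2 (C * x.1.1 - E * x.1.1) ≤
          2 * agc C V (((x.1.1, x.1.2.1.1.1, x.1.2.2), T), x.1.2.1.2) ∧ T ≠ x.1.2.1.1.2) →
        hv T x.2 (prm (powB x.1.2.2 (A * x.1.1))) ≠
          hv x.1.2.1.1.2 x.2 (prm (powB x.1.2.2 (A * x.1.1))))) ?_ (by fun_prop)
      refine PSp.imp (PSp.and (PSp.of_ptime (by fun_prop)) (PSp.and (PSp.of_ptime ?_)
        (PSp.of_ptime (by fun_prop)))) (PSp.of_ptime (by fun_prop))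
      have h1 := (ptime_agc C hV).comp (f := fun x : ((ℕ × ((β × List Bool) × List Bool) × ℕ) × ℕ)
        × List Bool => (((x.1.1.1, x.1.1.2.1.1.1, x.1.1.2.2), x.2), x.1.1.2.1.2)) (by fun_prop)
      exact PTime.le (by fun_prop) (PTime.mul (by fun_prop) h1)
    · have h0 : ∀ᶠ q in big ⊤, 2 ^ (A * q.1) ≤ q.2 ∧ 2 ^ (C * q.1) ≤ q.2 ∧ 2 ^ (1 * q.1) ≤ q.2 :=
        (eventually_two_pow_le _ _).and ((eventually_two_pow_le _ _).and
          (eventually_two_pow_le _ _))
      filter_upwards [h0, hVc] with q h1 h2 z hz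
      obtain ⟨h3, h4, h5⟩ := h1
      rw [one_mul] at h5
      have h6 : 2 ^ (C * q.1 - E * q.1) ≤ q.2 :=
        le_trans (Nat.pow_le_pow_right (by norm_num) (by omega)) h4
      rw [powB_eq h3, powB_eq h4, powB_eq h5, powB_eq h6]
      refine and_congr_right fun _ => ?_
      constructor
      · rintro h7 T ⟨h8, h9⟩ h10
        refine h7 T ?_ ⟨h8, ?_, h10⟩
        · have := sz_bits_le T
          omega
        · rw [h2 T _ h8]
          exact h9
      · rintro h7 T - ⟨h8, h9, h10⟩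
        rw [h2 T _ h8] at h9
        exact h7 T ⟨h8, h9⟩ h10
  set zs := leastN (fun n => 2 ^ ((A + 1) * n)) G with hzs
  have hu : ESf fun n => hv (tab T0 n) (zs n) (prm (2 ^ (A * n))) := by
    refine (hTe.prod hz).map (G := fun x : ℕ × (List Bool × ℕ) × ℕ =>
      hv x.2.1.1 x.2.1.2 (prm (powB x.2.2 (A * x.1)))) (by fun_prop) ?_
    filter_upwards [eventually_two_pow_le ⊤ A] with q hq
    rw [powB_eq hq]
  have hprm : ∀ n, (prm (2 ^ (A * n))).Prime ∧ 2 ^ (A * n) < prm (2 ^ (A * n)) ∧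
      prm (2 ^ (A * n)) ≤ 2 * 2 ^ (A * n) := fun n => prm_spec (by positivity)
  have hprm2 : ∀ n ≥ 1, prm (2 ^ (A * n)) ≤ 2 ^ ((A + 1) * n) := by
    intro n hn
    refine (hprm n).2.2.trans ?_
    rw [← pow_succ']
    refine Nat.pow_le_pow_right (by norm_num) ?_
    nlinarith
  have hzn : NEf zs := by
    refine nef_of_esf Hm hz (K := A + 1) (by omega) (Eventually.of_forall fun n => ?_)
    exact leastN_lt (B := fun n => 2 ^ ((A + 1) * n)) (by positivity)
  have hun : NEf fun n => hv (tab T0 n) (zs n) (prm (2 ^ (A * n))) := by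
    refine nef_of_esf Hm hu (K := A + 1) (by omega) ?_
    filter_upwards [eventually_pows_ge 1] with n hn
    exact lt_of_lt_of_le (hv_lt _ _ (hprm n).1.pos) (hprm2 n hn)
  -- the separating point works
  have hsep : ∀ᶠ n in pows, ∀ T, Cl n T → T ≠ tab T0 n →
      hv T (zs n) (prm (2 ^ (A * n))) ≠ hv (tab T0 n) (zs n) (prm (2 ^ (A * n))) := by
    filter_upwards [hlist, eventually_pows_ge 1, eventually_pows_ge n₀] with n h1 h2 h2'
    obtain ⟨hp, hp1, hp2⟩ := hprm n
    set p := prm (2 ^ (A * n)) with hpdef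
    have hfin : {T : List Bool | Cl n T}.Finite :=
      (List.finite_length_eq Bool (2 ^ n)).subset fun T hT => hT.1
    have hcard := h1 _ hfin.toFinset (fun T hT => by
      rw [Set.Finite.mem_toFinset] at hT
      exact hT)
    have hbad : ((Finset.range p).filter fun z => ∃ T ∈ hfin.toFinset, T ≠ tab T0 n ∧
        hv T z p = hv (tab T0 n) z p).card < p := by
      have h3 : ((Finset.range p).filter fun z => ∃ T ∈ hfin.toFinset, T ≠ tab T0 n ∧
          hv T z p = hv (tab T0 n) z p) ⊆ (hfin.toFinset.erase (tab T0 n)).biUnion fun T =>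
            (Finset.range p).filter fun z => hv T z p = hv (tab T0 n) z p := by
        intro z hz
        rw [Finset.mem_filter] at hz
        obtain ⟨hz1, T, hT1, hT2, hT3⟩ := hz
        rw [Finset.mem_biUnion]
        exact ⟨T, Finset.mem_erase.2 ⟨hT2, hT1⟩, Finset.mem_filter.2 ⟨hz1, hT3⟩⟩
      refine lt_of_le_of_lt (Finset.card_le_card h3) ?_
      refine lt_of_le_of_lt Finset.card_biUnion_le ?_
      have h4 : ∑ T ∈ hfin.toFinset.erase (tab T0 n), ((Finset.range p).filter fun z =>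
          hv T z p = hv (tab T0 n) z p).card ≤
          ∑ T ∈ hfin.toFinset.erase (tab T0 n), 2 ^ n := by
        refine Finset.sum_le_sum fun T hT => ?_
        rw [Finset.mem_erase, Set.Finite.mem_toFinset] at hT
        have h5 := card_hv_eq_lt hp (T := T) (T' := tab T0 n)
          (by rw [length_tab]; exact hT.2.1) hT.1
        rw [hT.2.1] at h5
        exact h5.le
      rw [Finset.sum_const, smul_eq_mul] at h4
      have h5 : (hfin.toFinset.erase (tab T0 n)).card ≤ 2 ^ (L * n) :=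
        (Finset.card_le_card (Finset.erase_subset _ _)).trans hcard
      have h6 : 2 ^ (L * n) * 2 ^ n = 2 ^ (A * n) := by
        rw [← pow_add]
        congr 1
        simp only [A]
        ring
      calc _ ≤ _ := h4
        _ ≤ 2 ^ (L * n) * 2 ^ n := Nat.mul_le_mul_right _ h5
        _ < p := by rw [h6]; exact hp1
    have hex : ∃ z, z < 2 ^ ((A + 1) * n) ∧ G n z := by
      by_contra hno
      push Not at hno
      refine absurd hbad (not_lt.2 ?_)
      rw [Finset.filter_true_of_mem, Finset.card_range]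
      intro z hz
      rw [Finset.mem_range] at hz
      have h3 := hno z (lt_of_lt_of_le hz (hprm2 n h2))
      simp only [G] at h3
      rw [← hpdef] at h3
      push Not at h3
      obtain ⟨T, h4, h5, h6⟩ := h3 hz
      exact ⟨T, by rw [Set.Finite.mem_toFinset]; exact h4, h5, h6⟩
    exact (leastN_spec (B := fun n => 2 ^ ((A + 1) * n)) hex).2.2
  obtain ⟨P, hP, hP'⟩ := (hFn.prod hBn).prod (hzn.prod hun)
  refine ⟨fun x => ∃ d : (β × List Bool) × (ℕ × ℕ), sz d ≤ x.2.2 ∧ (P (x.1, d, x.2.2) ∧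
    (x.2.1.length = powB x.2.2 x.1 ∧
    powB x.2.2 (C * x.1) + 2 * powB x.2.2 (C * x.1 - E * x.1) ≤
      2 * agc C V (((x.1, d.1.1, x.2.2), x.2.1), d.1.2) ∧
    hv x.2.1 d.2.1 (prm (powB x.2.2 (A * x.1))) = d.2.2)), ?_, ?_⟩
  · refine NPp.exists_le (R := fun (x : ℕ × List Bool × ℕ) (d : (β × List Bool) × (ℕ × ℕ)) =>
      P (x.1, d, x.2.2) ∧
      (x.2.1.length = powB x.2.2 x.1 ∧
      powB x.2.2 (C * x.1) + 2 * powB x.2.2 (C * x.1 - E * x.1) ≤
        2 * agc C V (((x.1, d.1.1, x.2.2), x.2.1), d.1.2) ∧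
      hv x.2.1 d.2.1 (prm (powB x.2.2 (A * x.1))) = d.2.2)) ?_ (by fun_prop)
    refine NPp.and ?_ (NPp.and (NPp.of_ptime (by fun_prop)) (NPp.and (NPp.of_ptime ?_)
      (NPp.of_ptime (by fun_prop))))
    · exact hP.comp (g := fun x : (ℕ × List Bool × ℕ) × ((β × List Bool) × (ℕ × ℕ)) =>
        (x.1.1, x.2, x.1.2.2)) (by fun_prop)
    · have h1 := (ptime_agc C hV).comp (f := fun x : (ℕ × List Bool × ℕ) ×
        ((β × List Bool) × (ℕ × ℕ)) => (((x.1.1, x.2.1.1, x.1.2.2), x.1.2.1), x.2.1.2))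
        (by fun_prop)
      exact PTime.le (by fun_prop) (PTime.mul (by fun_prop) h1)
  · have h0 : ∀ᶠ q in big pows, 2 ^ (A * q.1) ≤ q.2 ∧ 2 ^ (C * q.1) ≤ q.2 ∧
        2 ^ (1 * q.1) ≤ q.2 :=
      (eventually_two_pow_le _ _).and ((eventually_two_pow_le _ _).and
        (eventually_two_pow_le _ _))
    have h00 : ∀ᶠ q in big pows, sz (tab T0 (1 * q.1)) ≤ q.2 := eventually_sz_tab pows T0 1
    filter_upwards [h0, h00, hP', hVc.filter_mono (big_le_top _), eventually_fst hsep,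
      eventually_fst (eventually_pows_ge n₀)] with q h1 h1' h2 h3 h4 h5
    obtain ⟨h6, h7, h8⟩ := h1
    rw [one_mul] at h8 h1'
    have h9 : 2 ^ (C * q.1 - E * q.1) ≤ q.2 :=
      le_trans (Nat.pow_le_pow_right (by norm_num) (by omega)) h7
    refine ⟨h1', fun T => ?_⟩
    rw [powB_eq h6, powB_eq h7, powB_eq h8, powB_eq h9]
    simp only [h2.2]
    constructor
    · rintro ⟨d, -, rfl, h10, h11, h12⟩
      simp only at h11 h12
      rw [h3 T _ h10] at h11
      by_contra hne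
      exact h4 T ⟨h10, h11⟩ hne h12
    · rintro rfl
      refine ⟨_, h2.1, rfl, length_tab _ _, ?_, rfl⟩
      simp only
      rw [h3 _ _ (length_tab _ _)]
      exact hthr _ h5

end Pool.Agent.H48.NE
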