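import Pool.Agent.H48.NE.R1

set_option autoImplicit false

namespace Pool.Agent.H48.NE.DenseSubsets

open Pool.Agent.H48.NE

lemma natCast_rpow_le {κ : ℝ} (h0 : 0 < κ) (h1 : κ ≤ 1) (a : ℕ) : (a : ℝ) ^ κ ≤ a := by
  rcases Nat.eq_zero_or_pos a with rfl | ha
  · simp [Real.zero_rpow h0.ne']
  · have h2 : (1 : ℝ) ≤ a := by exact_mod_cast ha
    calc (a : ℝ) ^ κ ≤ (a : ℝ) ^ (1 : ℝ) := Real.rpow_le_rpow_of_exponent_le h2 h1
      _ = a := Real.rpow_one _

/-- For every real `0 < κ ≤ 1`: `NEXPTIME = EXPSPACE` if and only if every language `L` in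
`EXPSPACE` has a subset `A` in `NEXPTIME` such that, for all large `n`, the number of strings of
length `n` in `A` is at least the `κ`-th power of the number of strings of length `n` in `L`. -/
theorem result (κ : ℝ) (h0 : 0 < κ) (h1 : κ ≤ 1) :
    NEXPTIME = EXPSPACE ↔
      ∀ L ∈ EXPSPACE, ∃ A ∈ NEXPTIME, A ⊆ L ∧ ∃ n₀ : ℕ, ∀ n ≥ n₀,
        ({x | x ∈ L ∧ x.length = n}.ncard : ℝ) ^ κ ≤ {x | x ∈ A ∧ x.length = n}.ncard := by
  constructor
  · intro h L hL
    refine ⟨L, h ▸ hL, subset_rfl, 0, fun n _ => natCast_rpow_le h0 h1 _⟩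
  · intro h
    exact Set.Subset.antisymm NEXPTIME_subset_EXPSPACE (subset_of_dense h0 h)

end Pool.Agent.H48.NE.DenseSubsets
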