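import Pool.Agent.H48.NE.Tally

/-!
# Designs: many functions with small pairwise agreement
-/

namespace Pool.Agent.H48.NE

open TMLib Polynomial

set_option maxHeartbeats 400000

/-- The `j`-th digit of `x` in base `2^c`. -/
def dig (c j x : ℕ) : ℕ := x / 2 ^ (c * j) % 2 ^ c

/-- The number of common digits among the first `l`. -/
def agD (c l x y : ℕ) : ℕ := ((Finset.range l).filter fun j => dig c j x = dig c j y).card

lemma dig_succ (c j x : ℕ) : dig c (j + 1) x = dig c j (x / 2 ^ c) := by
  unfold dig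
  rw [Nat.div_div_eq_div_mul, ← pow_add]
  congr 3
  ring

lemma dig_zero (c x : ℕ) : dig c 0 x = x % 2 ^ c := by simp [dig]

lemma agD_succ (c l x y : ℕ) : agD c (l + 1) x y =
    (if x % 2 ^ c = y % 2 ^ c then 1 else 0) + agD c l (x / 2 ^ c) (y / 2 ^ c) := by
  unfold agD
  rw [Finset.card_filter, Finset.card_filter, Finset.sum_range_succ', add_comm]
  simp only [dig_succ, dig_zero]

lemma agD_self (c l x : ℕ) : agD c l x x = l := by simp [agD]

lemma agD_comm (c l x y : ℕ) : agD c l x y = agD c l y x := by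
  unfold agD
  congr 1
  refine Finset.filter_congr fun j _ => eq_comm

/-- Sums over a product range. -/
lemma sum_range_mul_nat (M N : ℕ) (f : ℕ → ℕ) :
    ∑ y ∈ Finset.range (M * N), f y =
      ∑ z ∈ Finset.range M, ∑ r ∈ Finset.range N, f (z * N + r) := by
  induction M with
  | zero => simp
  | succ M ih =>
    rw [Nat.succ_mul, Finset.sum_range_add, ih, Finset.sum_range_succ]

lemma sum_pow_agD (c : ℕ) : ∀ (l y : ℕ),
    ∑ x ∈ Finset.range (2 ^ (c * l)), 2 ^ (c * agD c l x y) ≤ 2 ^ ((c + 1) * l) := by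
  intro l
  induction l with
  | zero => intro y; simp [agD]
  | succ l ih =>
    intro y
    have e0 : 2 ^ (c * (l + 1)) = 2 ^ (c * l) * 2 ^ c := by rw [← pow_add]; congr 1
    rw [e0, sum_range_mul_nat]
    have e1 : ∀ z ∈ Finset.range (2 ^ (c * l)), ∑ r ∈ Finset.range (2 ^ c),
        2 ^ (c * agD c (l + 1) (z * 2 ^ c + r) y) ≤ 2 ^ (c + 1) * 2 ^ (c * agD c l z (y / 2 ^ c)) := by
      intro z _
      have e2 : ∀ r ∈ Finset.range (2 ^ c), 2 ^ (c * agD c (l + 1) (z * 2 ^ c + r) y) ≤
          (1 + if r = y % 2 ^ c then 2 ^ c else 0) * 2 ^ (c * agD c l z (y / 2 ^ c)) := by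
        intro r hr
        rw [Finset.mem_range] at hr
        have e3 : (z * 2 ^ c + r) / 2 ^ c = z := by
          rw [Nat.add_comm, Nat.add_mul_div_right _ _ (by positivity), Nat.div_eq_of_lt hr,
            zero_add]
        have e4 : (z * 2 ^ c + r) % 2 ^ c = r := by
          rw [Nat.add_comm, Nat.add_mul_mod_self_right, Nat.mod_eq_of_lt hr]
        rw [agD_succ, e3, e4]
        split_ifs with h
        · rw [mul_add, pow_add, mul_one]
          exact Nat.mul_le_mul_right _ (by omega)
        · simp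
      refine (Finset.sum_le_sum e2).trans ?_
      rw [← Finset.sum_mul]
      refine Nat.mul_le_mul_right _ ?_
      rw [Finset.sum_add_distrib, Finset.sum_ite_eq', if_pos (Finset.mem_range.2
        (Nat.mod_lt _ (by positivity)))]
      simp
      rw [pow_succ]
      omega
    refine (Finset.sum_le_sum e1).trans ?_
    rw [← Finset.mul_sum]
    refine (Nat.mul_le_mul_left _ (ih _)).trans ?_
    rw [← pow_add]
    exact Nat.pow_le_pow_right (by norm_num) (by nlinarith)

/-- Few numbers agree with a given one in many digits. -/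
lemma card_agD_lt (c l ρ y : ℕ) :
    ((Finset.range (2 ^ (c * l))).filter fun x => ρ < agD c l x y).card * 2 ^ (c * (ρ + 1)) ≤
      2 ^ ((c + 1) * l) := by
  refine le_trans ?_ (sum_pow_agD c l y)
  rw [← smul_eq_mul, ← Finset.sum_const]
  refine le_trans (Finset.sum_le_sum fun x hx => ?_)
    (Finset.sum_le_sum_of_subset (f := fun x => 2 ^ (c * agD c l x y))
      (Finset.filter_subset (fun x => ρ < agD c l x y) _))
  rw [Finset.mem_filter] at hx
  exact Nat.pow_le_pow_right (by norm_num) (Nat.mul_le_mul_left _ hx.2)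

/-! ### Greedy choice -/

/-- The greedy choice. -/
def grd (ok : ℕ → ℕ → Bool) (L : List ℕ) : List ℕ :=
  L.foldl (fun acc x => bif acc.all fun y => ok x y then x :: acc else acc) []

lemma grd_append (ok : ℕ → ℕ → Bool) (L : List ℕ) (x : ℕ) : grd ok (L ++ [x]) =
    bif (grd ok L).all fun y => ok x y then x :: grd ok L else grd ok L := by
  unfold grd
  rw [List.foldl_append]
  rfl

lemma grd_spec (ok : ℕ → ℕ → Bool) (L : List ℕ) :
    (grd ok L).Pairwise (fun x y => ok x y = true) ∧ (∀ x ∈ grd ok L, x ∈ L) ∧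
    (∀ x ∈ L, x ∈ grd ok L ∨ ∃ y ∈ grd ok L, ok x y = false) ∧
    (grd ok L).length ≤ L.length := by
  induction L using List.reverseRecOn with
  | nil => simp [grd]
  | append_singleton L x ih =>
    obtain ⟨h1, h2, h3, h4⟩ := ih
    rw [grd_append]
    by_cases h : ((grd ok L).all fun y => ok x y) = true
    · rw [h, cond_true]
      rw [List.all_eq_true] at h
      refine ⟨List.pairwise_cons.2 ⟨h, h1⟩, ?_, ?_, ?_⟩
      · intro y hy
        rcases List.mem_cons.1 hy with rfl | hy
        · simp
        · exact List.mem_append_left _ (h2 y hy)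
      · intro y hy
        rcases List.mem_append.1 hy with hy | hy
        · rcases h3 y hy with h5 | ⟨z, hz, hz'⟩
          · exact Or.inl (List.mem_cons_of_mem _ h5)
          · exact Or.inr ⟨z, List.mem_cons_of_mem _ hz, hz'⟩
        · rw [List.mem_singleton] at hy
          subst hy
          exact Or.inl List.mem_cons_self
      · simp only [List.length_cons, List.length_append, List.length_nil]
        omega
    · rw [Bool.not_eq_true] at h
      rw [h, cond_false]
      refine ⟨h1, fun y hy => List.mem_append_left _ (h2 y hy), ?_, ?_⟩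
      · intro y hy
        rcases List.mem_append.1 hy with hy | hy
        · exact h3 y hy
        · rw [List.mem_singleton] at hy
          subst hy
          right
          by_contra hno
          push Not at hno
          have : ((grd ok L).all fun z => ok y z) = true := by
            rw [List.all_eq_true]
            intro z hz
            have := hno z hz
            simpa using this
          rw [this] at h
          exact absurd h (by simp)
      · simp only [List.length_append, List.length_cons, List.length_nil]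
        omega

/-- The design. -/
def desM (c l ρ : ℕ) : List ℕ :=
  grd (fun x y => decide (agD c l x y ≤ ρ)) (List.range (2 ^ (c * l)))

lemma desM_pairwise (c l ρ : ℕ) {i k : ℕ} (hi : i < (desM c l ρ).length)
    (hk : k < (desM c l ρ).length) (hik : i ≠ k) :
    agD c l ((desM c l ρ).getD i 0) ((desM c l ρ).getD k 0) ≤ ρ := by
  have h1 := (grd_spec (fun x y => decide (agD c l x y ≤ ρ)) (List.range (2 ^ (c * l)))).1
  change (desM c l ρ).Pairwise _ at h1
  rw [List.pairwise_iff_getElem] at h1
  have e1 : (desM c l ρ).getD i 0 = (desM c l ρ)[i] := by simp [List.getD, hi]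
  have e2 : (desM c l ρ).getD k 0 = (desM c l ρ)[k] := by simp [List.getD, hk]
  rw [e1, e2]
  rcases lt_or_gt_of_ne hik with h | h
  · simpa using h1 i k hi hk h
  · rw [agD_comm]
    simpa using h1 k i hk hi h

lemma le_length_desM {c l ρ : ℕ} (hρ : ρ < l) :
    2 ^ (c * (ρ + 1)) ≤ (desM c l ρ).length * 2 ^ l := by
  classical
  obtain ⟨-, h2, h3, -⟩ := grd_spec (fun x y => decide (agD c l x y ≤ ρ))
    (List.range (2 ^ (c * l)))
  change ∀ x ∈ desM c l ρ, x ∈ List.range (2 ^ (c * l)) at h2
  change ∀ x ∈ List.range (2 ^ (c * l)), x ∈ desM c l ρ ∨ ∃ y ∈ desM c l ρ, _ at h3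
  have hsub : Finset.range (2 ^ (c * l)) ⊆ (desM c l ρ).toFinset.biUnion fun y =>
      (Finset.range (2 ^ (c * l))).filter fun x => ρ < agD c l x y := by
    intro x hx
    rw [Finset.mem_biUnion]
    rcases h3 x (List.mem_range.2 (Finset.mem_range.1 hx)) with h | ⟨y, hy, hy'⟩
    · refine ⟨x, List.mem_toFinset.2 h, Finset.mem_filter.2 ⟨hx, ?_⟩⟩
      rwa [agD_self]
    · refine ⟨y, List.mem_toFinset.2 hy, Finset.mem_filter.2 ⟨hx, ?_⟩⟩
      simpa using hy'
  have h4 := (Finset.card_le_card hsub).trans Finset.card_biUnion_le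
  rw [Finset.card_range] at h4
  have h5 : 2 ^ (c * l) * 2 ^ (c * (ρ + 1)) ≤ (desM c l ρ).length * 2 ^ ((c + 1) * l) := by
    calc 2 ^ (c * l) * 2 ^ (c * (ρ + 1)) ≤ (∑ y ∈ (desM c l ρ).toFinset,
        ((Finset.range (2 ^ (c * l))).filter fun x => ρ < agD c l x y).card) *
          2 ^ (c * (ρ + 1)) := Nat.mul_le_mul_right _ h4
      _ = ∑ y ∈ (desM c l ρ).toFinset, ((Finset.range (2 ^ (c * l))).filter
          fun x => ρ < agD c l x y).card * 2 ^ (c * (ρ + 1)) := Finset.sum_mul _ _ _
      _ ≤ ∑ y ∈ (desM c l ρ).toFinset, 2 ^ ((c + 1) * l) :=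
          Finset.sum_le_sum fun y _ => card_agD_lt c l ρ y
      _ = (desM c l ρ).toFinset.card * 2 ^ ((c + 1) * l) := by
          rw [Finset.sum_const, smul_eq_mul]
      _ ≤ _ := Nat.mul_le_mul_right _ (List.toFinset_card_le _)
  have e : 2 ^ ((c + 1) * l) = 2 ^ l * 2 ^ (c * l) := by
    rw [← pow_add]
    congr 1
    ring
  rw [e] at h5
  have h6 : 2 ^ (c * (ρ + 1)) * 2 ^ (c * l) ≤ ((desM c l ρ).length * 2 ^ l) * 2 ^ (c * l) := by
    calc 2 ^ (c * (ρ + 1)) * 2 ^ (c * l) = 2 ^ (c * l) * 2 ^ (c * (ρ + 1)) := by ring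
      _ ≤ _ := h5
      _ = _ := by ring
  exact Nat.le_of_mul_le_mul_right h6 (by positivity)

/-! ### Computability -/

/-- Capped version. -/
def digB (N c j x : ℕ) : ℕ := x / powB N (c * j) % powB N c

/-- Capped version. -/
def agB (N c l x y : ℕ) : ℕ :=
  ((List.range l).filter fun j => decide (digB N c j x = digB N c j y)).length

/-- Capped version. -/
def desB (N c l ρ : ℕ) : List ℕ :=
  grd (fun x y => decide (agB N c l x y ≤ ρ)) (List.range (powB N (c * l)))

lemma digB_eq {N c l j : ℕ} (hN : 2 ^ (c * l) ≤ N) (hj : j < l) (x : ℕ) :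
    digB N c j x = dig c j x := by
  unfold digB dig
  rw [powB_eq (le_trans (Nat.pow_le_pow_right (by norm_num) (Nat.mul_le_mul_left _ hj.le)) hN),
    powB_eq (le_trans (Nat.pow_le_pow_right (by norm_num) ?_) hN)]
  exact Nat.le_mul_of_pos_right _ (by omega)

lemma agB_eq {N c l : ℕ} (hN : 2 ^ (c * l) ≤ N) (x y : ℕ) : agB N c l x y = agD c l x y := by
  unfold agB agD
  rw [length_filter_range]
  congr 1
  refine Finset.filter_congr fun j hj => ?_
  rw [Finset.mem_range] at hj
  rw [digB_eq hN hj, digB_eq hN hj, decide_eq_true_eq]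

lemma desB_eq {N c l ρ : ℕ} (hN : 2 ^ (c * l) ≤ N) : desB N c l ρ = desM c l ρ := by
  unfold desB desM
  rw [powB_eq hN]
  congr 1
  funext x y
  rw [agB_eq hN]

variable {α : Type} [Enc α]

@[fun_prop] lemma ptime_digB {N c j x : α → ℕ} (hN : PTime N) (hc : PTime c) (hj : PTime j)
    (hx : PTime x) : PTime fun q => digB (N q) (c q) (j q) (x q) := by
  unfold digB
  exact PTime.mod (PTime.div hx (ptime_powB hN (PTime.mul hc hj))) (ptime_powB hN hc)

@[fun_prop] lemma ptime_agB {N c l x y : α → ℕ} (hN : PTime N) (hc : PTime c) (hl : PTime l)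
    (hx : PTime x) (hy : PTime y) : PTime fun q => agB (N q) (c q) (l q) (x q) (y q) := by
  unfold agB
  refine PTime.length (PTime.filter (g := fun q j => decide (digB (N q) (c q) j (x q) =
    digB (N q) (c q) j (y q))) (PTime.range hl) ?_)
  have h : ∀ {f : α → ℕ}, PTime f → PTime fun p : α × ℕ => f p.1 := fun hf =>
    hf.comp (PTime.fst PTime.id)
  exact PTime.eq (ptime_digB (h hN) (h hc) (PTime.snd PTime.id) (h hx))
    (ptime_digB (h hN) (h hc) (PTime.snd PTime.id) (h hy))

@[fun_prop] lemma ptime_desB {N c l ρ : α → ℕ} (hN : PTime N) (hc : PTime c) (hl : PTime l)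
    (hρ : PTime ρ) : PTime fun q => desB (N q) (c q) (l q) (ρ q) := by
  have h : ∀ {f : α → ℕ}, PTime f → PTime fun p : α × List ℕ × ℕ => f p.1 := fun hf =>
    hf.comp (PTime.fst PTime.id)
  have h' : ∀ {f : α → ℕ}, PTime f → PTime fun p : (α × List ℕ × ℕ) × ℕ => f p.1.1 := fun hf =>
    hf.comp (PTime.fst (PTime.fst PTime.id))
  refine (PTime.foldl (f := fun (q : α) (acc : List ℕ) (x : ℕ) =>
    bif acc.all fun y => decide (agB (N q) (c q) (l q) x y ≤ ρ q) then x :: acc else acc)
    (init := fun _ => []) (l := fun q => List.range (powB (N q) (c q * l q))) ?_ (by fun_prop)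
    (PTime.range (ptime_powB hN (PTime.mul hc hl)))
    (h := fun q => 1 + sz (N q) * (1 + sz (N q))) ?_ ?_).congr fun q => rfl
  · refine PTime.cond ?_ (PTime.cons (by fun_prop) (by fun_prop)) (by fun_prop)
    refine PTime.all (g := fun (p : α × List ℕ × ℕ) y =>
      decide (agB (N p.1) (c p.1) (l p.1) p.2.2 y ≤ ρ p.1)) (by fun_prop) ?_
    exact PTime.le (ptime_agB (h' hN) (h' hc) (h' hl) (by fun_prop) (by fun_prop)) (h' hρ)
  · exact (PB.const 1).add (hN.pb.mul ((PB.const 1).add hN.pb))
  · intro q L' hL'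
    have h1 := grd_spec (fun x y => decide (agB (N q) (c q) (l q) x y ≤ ρ q)) L'
    have h2 : L'.length ≤ N q := by
      have := hL'.length_le
      rw [List.length_range] at this
      exact this.trans (min_le_left _ _)
    have h3 : ∀ x ∈ L', x < N q := by
      intro x hx
      have h4 := hL'.subset hx
      rw [List.mem_range] at h4
      exact lt_of_lt_of_le h4 (min_le_left _ _)
    refine (sz_list_le (grd (fun x y => decide (agB (N q) (c q) (l q) x y ≤ ρ q)) L')
      (sz (N q)) (sz (N q)) ?_ ?_)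
    · have := h1.2.2.2
      simp only [sz_nat]
      omega
    · intro x hx
      have := h3 x (h1.2.1 x hx)
      simp only [sz_nat]
      omega

end Pool.Agent.H48.NE
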