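import Pool.Agent.H48.NE.R8

/-!
# Random tables and erasures
-/

namespace Pool.Agent.H48.NE

set_option maxHeartbeats 1000000

/-- The test vector for a weight function. -/
noncomputable def tvw (a p : ℕ) (w : ℕ → ℤ) (Λ : Finset (List Bool)) (i : ℕ) : ℤ :=
  w (i / 2 ^ a) * ∑ T ∈ Λ, if hv T (i / 2 ^ a % p) p = i % 2 ^ a then 1 else 0

lemma tvw_add (a p : ℕ) (w : ℕ → ℤ) (Λ : Finset (List Bool)) {z u : ℕ} (hu : u < 2 ^ a) :
    tvw a p w Λ (z * 2 ^ a + u) = w z * ∑ T ∈ Λ, if hv T (z % p) p = u then 1 else 0 := by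
  have e3 : (z * 2 ^ a + u) / 2 ^ a = z := by
    rw [Nat.add_comm, Nat.add_mul_div_right _ _ (by positivity), Nat.div_eq_of_lt hu, zero_add]
  have e4 : (z * 2 ^ a + u) % 2 ^ a = u := by
    rw [Nat.add_comm, Nat.add_mul_mod_self_right, Nat.mod_eq_of_lt hu]
  unfold tvw
  rw [e3, e4]

lemma sum_tvw (a p : ℕ) (hp : 0 < p) (hpa : p ≤ 2 ^ a) (w : ℕ → ℤ) (g : ℕ → Bool)
    (Λ : Finset (List Bool)) :
    ∑ i ∈ Finset.range (2 ^ a * 2 ^ a), sg (g i) * tvw a p w Λ i =
      ∑ T ∈ Λ, ∑ z ∈ Finset.range (2 ^ a), sg (tcw a p g T z) * w z := by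
  rw [sum_range_mul, Finset.sum_comm (s := Λ)]
  refine Finset.sum_congr rfl fun z _ => ?_
  have e1 : ∀ u ∈ Finset.range (2 ^ a), sg (g (z * 2 ^ a + u)) * tvw a p w Λ (z * 2 ^ a + u) =
      ∑ T ∈ Λ, if hv T (z % p) p = u then sg (g (z * 2 ^ a + u)) * w z else 0 := by
    intro u hu
    rw [Finset.mem_range] at hu
    rw [tvw_add a p w Λ hu, ← mul_assoc, Finset.mul_sum]
    refine Finset.sum_congr rfl fun T _ => ?_
    split_ifs <;> simp
  rw [Finset.sum_congr rfl e1, Finset.sum_comm]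
  refine Finset.sum_congr rfl fun T _ => ?_
  rw [Finset.sum_ite_eq]
  have : hv T (z % p) p < 2 ^ a := lt_of_lt_of_le (hv_lt _ _ hp) hpa
  rw [if_pos (Finset.mem_range.2 this)]
  rfl

lemma sum_tvw_sq {n a p s : ℕ} (hp : p.Prime) (hpa : p ≤ 2 ^ a) (hpa' : 2 ^ a ≤ 2 * p)
    (w : ℕ → ℤ) (hw : ∀ z, w z ^ 2 ≤ 1) (hs : ∑ z ∈ Finset.range (2 ^ a), w z ^ 2 ≤ s)
    (Λ : Finset (List Bool)) (hΛ : ∀ T ∈ Λ, T.length = 2 ^ n) :
    ∑ i ∈ Finset.range (2 ^ a * 2 ^ a), (tvw a p w Λ i) ^ 2 ≤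
      (Λ.card : ℤ) * s + (Λ.card : ℤ) ^ 2 * (2 * 2 ^ n) := by
  classical
  rw [sum_range_mul]
  have e1 : ∀ z ∈ Finset.range (2 ^ a), ∑ u ∈ Finset.range (2 ^ a),
      (tvw a p w Λ (z * 2 ^ a + u)) ^ 2 =
      ∑ T ∈ Λ, ∑ T' ∈ Λ, if hv T (z % p) p = hv T' (z % p) p then w z ^ 2 else 0 := by
    intro z _
    have e2 : ∀ u ∈ Finset.range (2 ^ a), (tvw a p w Λ (z * 2 ^ a + u)) ^ 2 =
        ∑ T ∈ Λ, ∑ T' ∈ Λ, if hv T (z % p) p = u then
          (if hv T' (z % p) p = u then w z ^ 2 else 0) else 0 := by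
      intro u hu
      rw [Finset.mem_range] at hu
      rw [tvw_add a p w Λ hu, mul_pow, sq (∑ T ∈ Λ, _), Finset.sum_mul_sum, Finset.mul_sum]
      refine Finset.sum_congr rfl fun T _ => ?_
      rw [Finset.mul_sum]
      refine Finset.sum_congr rfl fun T' _ => ?_
      split_ifs <;> simp
    rw [Finset.sum_congr rfl e2, Finset.sum_comm]
    refine Finset.sum_congr rfl fun T _ => ?_
    rw [Finset.sum_comm]
    refine Finset.sum_congr rfl fun T' _ => ?_
    rw [Finset.sum_ite_eq]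
    have : hv T (z % p) p < 2 ^ a := lt_of_lt_of_le (hv_lt _ _ hp.pos) hpa
    rw [if_pos (Finset.mem_range.2 this)]
    by_cases h : hv T (z % p) p = hv T' (z % p) p
    · rw [if_pos h, if_pos h.symm]
    · rw [if_neg h, if_neg (Ne.symm h)]
  rw [Finset.sum_congr rfl e1, Finset.sum_comm]
  have e3 : ∀ T ∈ Λ, ∑ z ∈ Finset.range (2 ^ a), ∑ T' ∈ Λ,
      (if hv T (z % p) p = hv T' (z % p) p then w z ^ 2 else 0) ≤
      (s : ℤ) + (Λ.card : ℤ) * (2 * 2 ^ n) := by
    intro T hT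
    rw [Finset.sum_comm, ← Finset.add_sum_erase _ _ hT]
    refine add_le_add ?_ ?_
    · simpa using hs
    · calc ∑ T' ∈ Λ.erase T, ∑ z ∈ Finset.range (2 ^ a),
          (if hv T (z % p) p = hv T' (z % p) p then w z ^ 2 else 0) ≤
          ∑ T' ∈ Λ.erase T, (2 * 2 ^ n : ℤ) := by
            refine Finset.sum_le_sum fun T' hT' => ?_
            rw [Finset.mem_erase] at hT'
            have h0 : ∑ z ∈ Finset.range (2 ^ a),
                (if hv T (z % p) p = hv T' (z % p) p then w z ^ 2 else 0) ≤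
                ∑ z ∈ Finset.range (2 ^ a),
                (if hv T (z % p) p = hv T' (z % p) p then (1 : ℤ) else 0) := by
              refine Finset.sum_le_sum fun z _ => ?_
              split_ifs
              · exact hw z
              · exact le_rfl
            refine h0.trans ?_
            rw [Finset.sum_boole]
            have h1 := card_coll_le (M := 2 ^ a) hpa' hp (T := T) (T' := T')
              (by rw [hΛ T hT, hΛ T' hT'.2]) (Ne.symm hT'.1)
            rw [hΛ T hT] at h1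
            exact_mod_cast h1
        _ = ((Λ.erase T).card : ℤ) * (2 * 2 ^ n) := by rw [Finset.sum_const, nsmul_eq_mul]
        _ ≤ _ := by
            refine mul_le_mul_of_nonneg_right ?_ (by positivity)
            exact_mod_cast Finset.card_le_card (Finset.erase_subset _ _)
  calc _ ≤ ∑ T ∈ Λ, ((s : ℤ) + (Λ.card : ℤ) * (2 * 2 ^ n)) := Finset.sum_le_sum e3
    _ = _ := by
      rw [Finset.sum_const, nsmul_eq_mul]
      ring

open Classical in
/-- A table is bad if some partial word with `2^q` given entries is consistent with `t`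
codewords. -/
def BadE (n a q t p : ℕ) (g : ℕ → Bool) : Prop := ∃ P N : ℕ → Bool, ∃ Λ : Finset (List Bool),
  2 ^ q ≤ ((Finset.range (2 ^ a)).filter fun z => P z = true ∨ N z = true).card ∧
  Λ.card = t ∧ ∀ T ∈ Λ, T.length = 2 ^ n ∧ ∀ z < 2 ^ a,
    (P z = true → tcw a p g T z = true) ∧ (N z = true → tcw a p g T z = false)

/-- The weight function of a partial word. -/
noncomputable def wf {M A : ℕ} (f : Fin M → Fin A × Bool) (z : ℕ) : ℤ :=
  ∑ j, if ((f j).1 : ℕ) = z then sg (f j).2 else 0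

lemma sum_wf {M A : ℕ} (f : Fin M → Fin A × Bool) (c : ℕ → ℤ) :
    ∑ z ∈ Finset.range A, c z * wf f z = ∑ j, c (f j).1 * sg (f j).2 := by
  unfold wf
  simp only [Finset.mul_sum]
  rw [Finset.sum_comm]
  refine Finset.sum_congr rfl fun j _ => ?_
  have : ∀ z ∈ Finset.range A, (c z * if ((f j).1 : ℕ) = z then sg (f j).2 else 0) =
      if ((f j).1 : ℕ) = z then c (f j).1 * sg (f j).2 else 0 := by
    intro z _
    split_ifs with h
    · rw [h]
    · simp
  rw [Finset.sum_congr rfl this, Finset.sum_ite_eq, if_pos (Finset.mem_range.2 (f j).1.2)]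

lemma wf_eq {M A : ℕ} {f : Fin M → Fin A × Bool} (hf : Function.Injective fun j => (f j).1)
    (j : Fin M) : wf f (f j).1 = sg (f j).2 := by
  unfold wf
  rw [Finset.sum_eq_single j]
  · rw [if_pos rfl]
  · intro j' _ hne
    rw [if_neg]
    intro h
    exact hne (hf (Fin.ext h))
  · intro h
    exact absurd (Finset.mem_univ j) h

lemma wf_sq_le {M A : ℕ} {f : Fin M → Fin A × Bool} (hf : Function.Injective fun j => (f j).1)
    (z : ℕ) : wf f z ^ 2 ≤ 1 := by
  by_cases h : ∃ j, ((f j).1 : ℕ) = z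
  · obtain ⟨j, rfl⟩ := h
    rw [wf_eq hf, sq, sg_sq]
  · push Not at h
    have : wf f z = 0 := by
      unfold wf
      exact Finset.sum_eq_zero fun j _ => if_neg (h j)
    rw [this]
    norm_num

lemma sum_wf_sq {M A : ℕ} {f : Fin M → Fin A × Bool} (hf : Function.Injective fun j => (f j).1) :
    ∑ z ∈ Finset.range A, wf f z ^ 2 = M := by
  have h := sum_wf f (wf f)
  have e : ∀ z, wf f z ^ 2 = wf f z * wf f z := fun z => sq _
  simp only [e]
  rw [h]
  have e2 : ∀ j, wf f (f j).1 * sg (f j).2 = 1 := fun j => by rw [wf_eq hf, sg_sq]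
  simp only [e2]
  simp

open Classical in
/-- At most half of all tables are bad. -/
theorem card_badE {n a q p K τ : ℕ} (hp : p.Prime) (hpa : p ≤ 2 ^ a) (hpa' : 2 ^ a ≤ 2 * p)
    (hτ : 8 * (a + 2) ≤ 2 ^ τ) (hq : τ + n + 3 ≤ q) (hK : K = 2 ^ a * 2 ^ a) :
    ((Finset.univ : Finset (Fin K → Bool)).filter fun g =>
      BadE n a q (2 ^ τ) p (ext g)).card * 2 ≤ 2 ^ K := by
  obtain ⟨Q, hQ⟩ : ∃ Q, Q = 2 ^ q := ⟨_, rfl⟩
  obtain ⟨t, ht⟩ : ∃ t, t = 2 ^ τ := ⟨_, rfl⟩
  have hQpos : 0 < Q := by rw [hQ]; positivity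
  have htpos : 0 < t := by rw [ht]; positivity
  rw [← ht]
  -- test vectors
  let I : Finset ((Fin Q → Fin (2 ^ a) × Bool) × Finset (List Bool)) :=
    ((Finset.univ : Finset (Fin Q → Fin (2 ^ a) × Bool)).filter fun f =>
      Function.Injective fun j => (f j).1) ×ˢ (Finset.powersetCard t (allL (2 ^ n)))
  have hI : I.card ≤ 2 ^ ((a + 1) * Q) * 2 ^ (2 ^ n * t) := by
    simp only [I]
    rw [Finset.card_product, Finset.card_powersetCard]
    refine Nat.mul_le_mul ?_ ?_
    · refine (Finset.card_filter_le _ _).trans ?_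
      rw [Finset.card_univ]
      simp only [Fintype.card_fun, Fintype.card_prod, Fintype.card_fin, Fintype.card_bool]
      rw [← pow_succ, ← pow_mul]
    · calc (allL (2 ^ n)).card.choose t ≤ (allL (2 ^ n)).card ^ t := Nat.choose_le_pow _ _
        _ ≤ (2 ^ (2 ^ n)) ^ t := Nat.pow_le_pow_left (card_allL_le _) _
        _ = _ := by rw [← pow_mul]
  have hQn : t * (2 * 2 ^ n) ≤ Q := by
    rw [hQ, ht, ← pow_succ', ← pow_add]
    exact Nat.pow_le_pow_right (by norm_num) (by omega)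
  obtain ⟨k, hk⟩ : ∃ k, k = 2 ^ (τ + q - 2) := ⟨_, rfl⟩
  have hk4 : 4 * k = t * Q := by
    rw [hk, ht, hQ, ← pow_add]
    obtain ⟨r, hr⟩ : ∃ r, τ + q = r + 2 := ⟨τ + q - 2, by omega⟩
    rw [hr, Nat.add_sub_cancel, pow_add]
    ring
  have hone : ∀ x ∈ I, ((Finset.univ : Finset (Fin K → Bool)).filter fun g =>
      ((t * Q : ℕ) : ℤ) ≤ ∑ i : Fin K, sg (g i) * tvw a p (wf x.1) x.2 i).card * 2 ^ k ≤ 2 ^ K := by
    intro x hx
    simp only [I] at hx
    rw [Finset.mem_product, Finset.mem_filter, Finset.mem_powersetCard] at hx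
    obtain ⟨⟨-, hf⟩, hq1, hq2⟩ := hx
    have h1 := hoeffding_nat (fun i : Fin K => tvw a p (wf x.1) x.2 i) (t * Q) (2 * (t * Q))
      k (by positivity) ?_ ?_
    · rw [Fintype.card_fin] at h1
      exact h1
    · rw [Fin.sum_univ_eq_sum_range (fun i => (tvw a p (wf x.1) x.2 i) ^ 2) K, hK]
      refine (sum_tvw_sq (s := Q) hp hpa hpa' (wf x.1) (wf_sq_le hf) (sum_wf_sq hf).le x.2
        (fun T hT => mem_allL.1 (hq1 hT))).trans ?_
      rw [hq2]
      have h3 : (t : ℤ) * (2 * 2 ^ n) ≤ Q := by exact_mod_cast hQn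
      have h4 : (0 : ℤ) ≤ t := by positivity
      push_cast
      nlinarith
    · calc k * (2 * (2 * (t * Q))) = 4 * k * (t * Q) := by ring
        _ = (t * Q) ^ 2 := by rw [hk4]; ring
        _ ≤ _ := le_rfl
  have hsub : ((Finset.univ : Finset (Fin K → Bool)).filter fun g => BadE n a q t p (ext g)) ⊆
      I.biUnion fun x => (Finset.univ : Finset (Fin K → Bool)).filter fun g =>
        ((t * Q : ℕ) : ℤ) ≤ ∑ i, sg (g i) * tvw a p (wf x.1) x.2 i := by
    intro g hg
    rw [Finset.mem_filter] at hg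
    obtain ⟨-, P, N, Λ, hPN, hΛ1, hΛ2⟩ := hg
    rw [← hQ] at hPN
    obtain ⟨S, hS1, hS2⟩ := Finset.exists_subset_card_eq hPN
    have hSlt : ∀ z ∈ S, z < 2 ^ a := fun z hz =>
      Finset.mem_range.1 (Finset.mem_filter.1 (hS1 hz)).1
    let em := S.orderEmbOfFin hS2
    have hem : ∀ j, em j ∈ S := fun j => Finset.orderEmbOfFin_mem S hS2 j
    let f : Fin Q → Fin (2 ^ a) × Bool := fun j => (⟨em j, hSlt _ (hem j)⟩, P (em j))
    have hf : Function.Injective fun j => (f j).1 := by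
      intro j j' h
      have h1 : (em j : ℕ) = em j' := congrArg Fin.val h
      exact em.injective h1
    rw [Finset.mem_biUnion]
    refine ⟨(f, Λ), ?_, ?_⟩
    · simp only [I]
      rw [Finset.mem_product, Finset.mem_filter, Finset.mem_powersetCard]
      exact ⟨⟨Finset.mem_univ _, hf⟩, fun T hT => mem_allL.2 (hΛ2 T hT).1, hΛ1⟩
    · rw [Finset.mem_filter]
      refine ⟨Finset.mem_univ _, ?_⟩
      have e1 : ∑ i : Fin K, sg (g i) * tvw a p (wf f) Λ i =
          ∑ i ∈ Finset.range K, sg (ext g i) * tvw a p (wf f) Λ i := by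
        rw [← Fin.sum_univ_eq_sum_range (fun i => sg (ext g i) * tvw a p (wf f) Λ i) K]
        refine Finset.sum_congr rfl fun i _ => ?_
        rw [ext_of_lt g i.2]
      have e2 := sum_tvw a p hp.pos hpa (wf f) (ext g) Λ
      rw [← hK] at e2
      simp only
      rw [e1, e2]
      have h2 : ∀ T ∈ Λ, ∑ z ∈ Finset.range (2 ^ a), sg (tcw a p (ext g) T z) * wf f z = Q := by
        intro T hT
        rw [sum_wf f (fun z => sg (tcw a p (ext g) T z))]
        have e3 : ∀ j : Fin Q, sg (tcw a p (ext g) T (f j).1) * sg (f j).2 = 1 := by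
          intro j
          have h4 := (Finset.mem_filter.1 (hS1 (hem j))).2
          have h5 := (hΛ2 T hT).2 (em j) (hSlt _ (hem j))
          have h6 : tcw a p (ext g) T (f j).1 = (f j).2 := by
            show tcw a p (ext g) T (em j) = P (em j)
            by_cases hP : P (em j) = true
            · rw [h5.1 hP, hP]
            · have h7 : N (em j) = true := by tauto
              rw [h5.2 h7]
              simpa using hP
          rw [h6, sg_sq]
        simp only [e3]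
        simp
      rw [Finset.sum_congr rfl h2, Finset.sum_const, hΛ1, nsmul_eq_mul]
      push_cast
      exact le_rfl
  have h6 : ((Finset.univ : Finset (Fin K → Bool)).filter fun g =>
      BadE n a q t p (ext g)).card * 2 ^ k ≤ 2 ^ ((a + 1) * Q) * 2 ^ (2 ^ n * t) * 2 ^ K := by
    calc _ ≤ (∑ x ∈ I, ((Finset.univ : Finset (Fin K → Bool)).filter fun g =>
        ((t * Q : ℕ) : ℤ) ≤ ∑ i : Fin K, sg (g i) * tvw a p (wf x.1) x.2 i).card) * 2 ^ k :=
          Nat.mul_le_mul_right _ ((Finset.card_le_card hsub).trans Finset.card_biUnion_le)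
      _ = ∑ x ∈ I, ((Finset.univ : Finset (Fin K → Bool)).filter fun g =>
        ((t * Q : ℕ) : ℤ) ≤ ∑ i : Fin K, sg (g i) * tvw a p (wf x.1) x.2 i).card * 2 ^ k :=
          Finset.sum_mul _ _ _
      _ ≤ ∑ x ∈ I, 2 ^ K := Finset.sum_le_sum hone
      _ = I.card * 2 ^ K := by rw [Finset.sum_const, smul_eq_mul]
      _ ≤ _ := Nat.mul_le_mul_right _ hI
  have h9 : 2 ^ ((a + 1) * Q) * 2 ^ (2 ^ n * t) * 2 ≤ 2 ^ k := by
    rw [← pow_add, ← pow_succ]
    refine Nat.pow_le_pow_right (by norm_num) ?_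
    rw [← ht] at hτ
    have h10 : 8 * (a + 2) * Q ≤ 4 * k := by
      rw [hk4]
      exact Nat.mul_le_mul_right _ hτ
    have h11 : 2 ^ n * t ≤ Q := by nlinarith
    nlinarith
  have h10 : (((Finset.univ : Finset (Fin K → Bool)).filter fun g =>
      BadE n a q t p (ext g)).card * 2) * 2 ^ k ≤ 2 ^ K * 2 ^ k := by
    calc _ = (((Finset.univ : Finset (Fin K → Bool)).filter fun g =>
      BadE n a q t p (ext g)).card * 2 ^ k) * 2 := by ring
      _ ≤ (2 ^ ((a + 1) * Q) * 2 ^ (2 ^ n * t) * 2 ^ K) * 2 := Nat.mul_le_mul_right _ h6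
      _ = 2 ^ K * (2 ^ ((a + 1) * Q) * 2 ^ (2 ^ n * t) * 2) := by ring
      _ ≤ _ := Nat.mul_le_mul_left _ h9
  exact Nat.le_of_mul_le_mul_right h10 (by positivity)

end Pool.Agent.H48.NE
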