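import Pool.Agent.H48.NE.HardL
import Pool.Agent.H48.NE.Decode

/-!
# Computability of the extraction and of the goodness of tables
-/

namespace Pool.Agent.H48.NE

open TMLib Polynomial Filter

set_option maxHeartbeats 1000000

variable {α β γ δ : Type} [Enc α] [Enc β] [Enc γ] [Enc δ]

/-! ### Comparison of bit lists -/

/-- Comparison of the values of two bit lists of the same length. -/
def ltB (L L' : List Bool) : Bool :=
  (L.zip L').foldl (fun r q => bif (q.1 == q.2) then r else (!q.1 && q.2)) false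

lemma ltB_aux : ∀ (L L' : List Bool), L.length = L'.length → ∀ r : Bool,
    (L.zip L').foldl (fun r q => bif (q.1 == q.2) then r else (!q.1 && q.2)) r =
      if val L = val L' then r else decide (val L < val L') := by
  intro L
  induction L with
  | nil =>
    intro L' h r
    cases L' with
    | nil => simp [val]
    | cons _ _ => simp at h
  | cons b L ih =>
    intro L' h r
    cases L' with
    | nil => simp at h
    | cons b' L' =>
      simp only [List.length_cons, Nat.add_right_cancel_iff] at h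
      rw [List.zip_cons_cons, List.foldl_cons, ih L' h]
      have e1 : val (b :: L) = b.toNat + 2 * val L := rfl
      have e2 : val (b' :: L') = b'.toNat + 2 * val L' := rfl
      rw [e1, e2]
      cases b <;> cases b' <;> simp only [Bool.toNat_true, Bool.toNat_false, beq_self_eq_true,
        cond_true, zero_add, Bool.not_true, Bool.not_false, Bool.true_and, Bool.false_and]
      · by_cases hv : val L = val L'
        · simp [hv]
        · rw [if_neg hv, if_neg (by omega)]
          congr 1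
          rw [eq_iff_iff]
          omega
      · have : (false == true) = false := rfl
        rw [this, cond_false]
        by_cases hv : val L = val L'
        · rw [if_pos hv, if_neg (by omega)]
          have : 2 * val L < 1 + 2 * val L' := by omega
          simp [this]
        · rw [if_neg hv, if_neg (by omega)]
          congr 1
          rw [eq_iff_iff]
          omega
      · have : (true == false) = false := rfl
        rw [this, cond_false]
        by_cases hv : val L = val L'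
        · rw [if_pos hv, if_neg (by omega)]
          have : ¬ (1 + 2 * val L < 2 * val L') := by omega
          simp [this]
        · rw [if_neg hv, if_neg (by omega)]
          congr 1
          rw [eq_iff_iff]
          omega
      · by_cases hv : val L = val L'
        · simp [hv]
        · rw [if_neg hv, if_neg (by omega)]
          congr 1
          rw [eq_iff_iff]
          omega

lemma ltB_iff {L L' : List Bool} (h : L.length = L'.length) : ltB L L' = true ↔ val L < val L' := by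
  unfold ltB
  rw [ltB_aux L L' h false]
  split_ifs with hv
  · simp [hv]
  · simp

@[fun_prop] lemma ptime_ltB {L L' : α → List Bool} (hL : PTime L) (hL' : PTime L') :
    PTime fun x => ltB (L x) (L' x) := by
  refine PTime.comp (g := fun q : List Bool × List Bool => ltB q.1 q.2) (f := fun x => (L x, L' x))
    ?_ (PTime.pair hL hL')
  unfold ltB
  refine PTime.foldl (f := fun (_ : List Bool × List Bool) (r : Bool) (q : Bool × Bool) =>
    bif (q.1 == q.2) then r else (!q.1 && q.2)) ?_ (by fun_prop) (by fun_prop)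
    (h := fun _ => 3) (PB.const 3) (fun _ _ _ => sz_bool_le _)
  have e : PTime fun p : (List Bool × List Bool) × Bool × Bool × Bool =>
      (p.2.2.1 == p.2.2.2) := by
    refine (PTime.eq (f := fun p : (List Bool × List Bool) × Bool × Bool × Bool => p.2.2.1)
      (g := fun p => p.2.2.2) (by fun_prop) (by fun_prop)).congr fun p => ?_
    cases p.2.2.1 <;> cases p.2.2.2 <;> rfl
  exact PTime.cond e (by fun_prop) (by fun_prop)

/-! ### The least list with a property -/

open Classical in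
/-- The bit list of length `2^(C n)` with least value having a property. -/
noncomputable def leastL (C : ℕ) (G : ℕ → List Bool → Prop) (n : ℕ) : List Bool :=
  if h : ∃ v, v < 2 ^ 2 ^ (C * n) ∧ G n (bitsOf (2 ^ (C * n)) v) then
    bitsOf (2 ^ (C * n)) (Nat.find h) else []

lemma leastL_spec {C : ℕ} {G : ℕ → List Bool → Prop} {n : ℕ}
    (h : ∃ L, L.length = 2 ^ (C * n) ∧ G n L) :
    (leastL C G n).length = 2 ^ (C * n) ∧ G n (leastL C G n) ∧
      ∀ L, L.length = 2 ^ (C * n) → G n L → val (leastL C G n) ≤ val L := by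
  classical
  obtain ⟨L, hL, hG⟩ := h
  have h' : ∃ v, v < 2 ^ 2 ^ (C * n) ∧ G n (bitsOf (2 ^ (C * n)) v) := by
    refine ⟨val L, ?_, ?_⟩
    · have := val_lt L
      rwa [hL] at this
    · have := bitsOf_val L
      rw [hL] at this
      rwa [this]
  unfold leastL
  rw [dif_pos h']
  obtain ⟨h1, h2⟩ := Nat.find_spec h'
  refine ⟨length_bitsOf _ _, h2, fun L' hL' hG' => ?_⟩
  rw [val_bitsOf h1]
  refine Nat.find_min' h' ⟨?_, ?_⟩
  · have := val_lt L'
    rwa [hL'] at this
  · have := bitsOf_val L'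
    rw [hL'] at this
    rwa [this]

lemma leastL_none {C : ℕ} {G : ℕ → List Bool → Prop} {n : ℕ}
    (h : ¬ ∃ L, L.length = 2 ^ (C * n) ∧ G n L) : leastL C G n = [] := by
  classical
  unfold leastL
  rw [dif_neg]
  rintro ⟨v, -, hv⟩
  exact h ⟨_, length_bitsOf _ _, hv⟩

lemma val_inj {L L' : List Bool} (h : L.length = L'.length) (hv : val L = val L') : L = L' := by
  rw [← bitsOf_val L, ← bitsOf_val L', h, hv]

lemma eventually_sz_bits (f : Filter ℕ) (C : ℕ) :
    ∀ᶠ q in big f, ∀ L : List Bool, L.length = 2 ^ (C * q.1) → sz L ≤ q.2 := by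
  filter_upwards [eventually_pow_le f (C + 3)] with q hq L hL
  have h0 := sz_bits_le L
  rw [hL] at h0
  refine h0.trans (le_trans ?_ hq)
  have e : (C + 3) * (q.1 + 1) = C * q.1 + (C + 3 * (q.1 + 1)) := by ring
  rw [e, pow_add]
  have h5 : 1 ≤ 2 ^ (C * q.1) := Nat.one_le_two_pow
  have h6 : 8 ≤ 2 ^ (C + 3 * (q.1 + 1)) := by
    calc 8 = 2 ^ 3 := by norm_num
      _ ≤ _ := Nat.pow_le_pow_right (by norm_num) (by omega)
  calc 1 + 4 * 2 ^ (C * q.1) ≤ 2 ^ (C * q.1) * 8 := by omega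
    _ ≤ _ := Nat.mul_le_mul_left _ h6

theorem esf_leastL {C : ℕ} {Gd : (ℕ × ℕ) × List Bool → Prop} (hGd : PSp Gd)
    {G : ℕ → List Bool → Prop} (h : ∀ᶠ q in big ⊤, ∀ L : List Bool, L.length = 2 ^ (C * q.1) →
      (Gd ((q.1, q.2), L) ↔ G q.1 L)) : ESf (leastL C G) := by
  refine ⟨fun q => ((q.2.1.length = powB q.2.2 (C * q.1) ∧ Gd ((q.1, q.2.2), q.2.1)) ∧
      ∀ L : List Bool, sz L ≤ q.2.2 → ((L.length = powB q.2.2 (C * q.1) ∧ ltB L q.2.1 = true) →
        ¬ Gd ((q.1, q.2.2), L))) ∨ (q.2.1 = [] ∧ ∀ L : List Bool, sz L ≤ q.2.2 →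
        (L.length = powB q.2.2 (C * q.1) → ¬ Gd ((q.1, q.2.2), L))), ?_, ?_⟩
  · have hg1 : PSp fun q : ℕ × List Bool × ℕ => Gd ((q.1, q.2.2), q.2.1) :=
      hGd.comp (g := fun q : ℕ × List Bool × ℕ => ((q.1, q.2.2), q.2.1)) (by fun_prop)
    have hg2 : PSp fun x : (ℕ × List Bool × ℕ) × List Bool => ¬ Gd ((x.1.1, x.1.2.2), x.2) :=
      PSp.not (hGd.comp (g := fun x : (ℕ × List Bool × ℕ) × List Bool =>
        ((x.1.1, x.1.2.2), x.2)) (by fun_prop))
    refine PSp.or (PSp.and (PSp.and (PSp.of_ptime (by fun_prop)) hg1) ?_)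
      (PSp.and (PSp.of_ptime (PTime.eq (by fun_prop) (by fun_prop))) ?_)
    · refine PSp.forall_le (R := fun (q : ℕ × List Bool × ℕ) (L : List Bool) =>
        ((L.length = powB q.2.2 (C * q.1) ∧ ltB L q.2.1 = true) →
        ¬ Gd ((q.1, q.2.2), L))) ?_ (by fun_prop)
      exact PSp.imp (PSp.of_ptime (by fun_prop)) hg2
    · refine PSp.forall_le (R := fun (q : ℕ × List Bool × ℕ) (L : List Bool) =>
        (L.length = powB q.2.2 (C * q.1) → ¬ Gd ((q.1, q.2.2), L))) ?_ (by fun_prop)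
      exact PSp.imp (PSp.of_ptime (by fun_prop)) hg2
  · filter_upwards [h, eventually_two_pow_le ⊤ C, eventually_sz_bits ⊤ C,
      eventually_pow_le ⊤ 0] with q h1 h2 h3 h4
    have h5 : sz (leastL C G q.1) ≤ q.2 := by
      by_cases hex : ∃ L, L.length = 2 ^ (C * q.1) ∧ G q.1 L
      · exact h3 _ (leastL_spec hex).1
      · rw [leastL_none hex, sz_nil]
        simpa using h4
    refine ⟨h5, fun L => ?_⟩
    rw [powB_eq h2]
    by_cases hex : ∃ L, L.length = 2 ^ (C * q.1) ∧ G q.1 L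
    · obtain ⟨h6, h7, h8⟩ := leastL_spec hex
      constructor
      · rintro (⟨⟨h9, h10⟩, h11⟩ | ⟨-, h9⟩)
        · rw [h1 L h9] at h10
          have h12 := h8 L h9 h10
          rcases h12.lt_or_eq with h13 | h13
          · refine absurd ((h1 _ h6).2 h7) (h11 _ (h3 _ h6) ⟨h6, ?_⟩)
            rw [ltB_iff (by rw [h6, h9])]
            exact h13
          · exact val_inj (by rw [h6, h9]) h13.symm
        · exact absurd ((h1 _ h6).2 h7) (h9 _ (h3 _ h6) h6)
      · rintro rfl
        refine Or.inl ⟨⟨h6, (h1 _ h6).2 h7⟩, fun L' _ ⟨h9, h10⟩ h11 => ?_⟩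
        rw [ltB_iff (by rw [h6, h9])] at h10
        have := h8 L' h9 ((h1 L' h9).1 h11)
        omega
    · rw [leastL_none hex]
      constructor
      · rintro (⟨⟨h9, h10⟩, -⟩ | ⟨h9, -⟩)
        · exact absurd ⟨L, h9, (h1 L h9).1 h10⟩ hex
        · exact h9
      · rintro rfl
        exact Or.inr ⟨rfl, fun L _ hL hG => hex ⟨L, hL, (h1 L hL).1 hG⟩⟩

/-! ### Badness of tables -/

/-- Agreement count for a table. -/
def cT (C : ℕ) (x : (((ℕ × ℕ) × List Bool) × List Bool) × List Bool) : ℕ :=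
  ((List.range (powB x.1.1.1.2 (C * x.1.1.1.1))).filter fun z =>
    decide (x.1.1.2.getD (z * powB x.1.1.1.2 (C * x.1.1.1.1) +
      hv x.2 (z % prm (powB x.1.1.1.2 (C * x.1.1.1.1 - 1)))
        (prm (powB x.1.1.1.2 (C * x.1.1.1.1 - 1)))) false = x.1.2.getD z false)).length

lemma ptime_cT (C : ℕ) : PTime (cT C) := by
  unfold cT
  refine PTime.length (PTime.filter (g := fun (x : (((ℕ × ℕ) × List Bool) × List Bool) × List Bool)
    z => decide (x.1.1.2.getD (z * powB x.1.1.1.2 (C * x.1.1.1.1) +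
      hv x.2 (z % prm (powB x.1.1.1.2 (C * x.1.1.1.1 - 1)))
        (prm (powB x.1.1.1.2 (C * x.1.1.1.1 - 1)))) false = x.1.2.getD z false)) (by fun_prop) ?_)
  have h1 : PTime fun p : ((((ℕ × ℕ) × List Bool) × List Bool) × List Bool) × ℕ =>
      prm (powB p.1.1.1.1.2 (C * p.1.1.1.1.1 - 1)) := by fun_prop
  have h2 : PTime fun p : ((((ℕ × ℕ) × List Bool) × List Bool) × List Bool) × ℕ =>
      p.2 % prm (powB p.1.1.1.1.2 (C * p.1.1.1.1.1 - 1)) := PTime.mod (by fun_prop) h1
  have h3 : PTime fun p : ((((ℕ × ℕ) × List Bool) × List Bool) × List Bool) × ℕ =>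
      hv p.1.2 (p.2 % prm (powB p.1.1.1.1.2 (C * p.1.1.1.1.1 - 1)))
        (prm (powB p.1.1.1.1.2 (C * p.1.1.1.1.1 - 1))) := ptime_hv (by fun_prop) h2 h1
  have h4 : PTime fun p : ((((ℕ × ℕ) × List Bool) × List Bool) × List Bool) × ℕ =>
      p.2 * powB p.1.1.1.1.2 (C * p.1.1.1.1.1) + hv p.1.2
        (p.2 % prm (powB p.1.1.1.1.2 (C * p.1.1.1.1.1 - 1)))
        (prm (powB p.1.1.1.1.2 (C * p.1.1.1.1.1 - 1))) := PTime.add (by fun_prop) h3
  exact PTime.eq (PTime.listGetD (by fun_prop) h4 (by fun_prop)) (by fun_prop)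

lemma cT_eq {C n N : ℕ} (h : 2 ^ (C * n) ≤ N) (g W T : List Bool) :
    cT C ((((n, N), g), W), T) = agw (C * n)
      (tcw (C * n) (prm (2 ^ (C * n - 1))) (fun i => g.getD i false) T)
      (fun z => W.getD z false) := by
  have h1 : 2 ^ (C * n - 1) ≤ N := le_trans (Nat.pow_le_pow_right (by norm_num) (by omega)) h
  unfold cT agw tcw
  simp only
  rw [powB_eq h, powB_eq h1, length_filter_range]
  congr 1
  refine Finset.filter_congr fun z _ => ?_
  rw [decide_eq_true_eq]

/-- No repetitions. -/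
def ndp (Λ : List (List Bool)) : Bool :=
  Λ.all fun T => decide ((Λ.filter fun T' => decide (T' = T)).length ≤ 1)

lemma ndp_iff (Λ : List (List Bool)) : ndp Λ = true ↔ Λ.Nodup := by
  unfold ndp
  rw [List.all_eq_true, List.nodup_iff_count_le_one]
  have e : ∀ T, (Λ.filter fun T' => decide (T' = T)).length = Λ.count T := by
    intro T
    rw [List.count_eq_length_filter]
    congr 1
    refine List.filter_congr fun T' _ => ?_
    by_cases h : T' = T
    · subst h; simp
    · simp [h]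
  constructor
  · intro h T
    by_cases hT : T ∈ Λ
    · have := h T hT
      rw [decide_eq_true_eq, e] at this
      exact this
    · rw [List.count_eq_zero_of_not_mem hT]
      omega
  · intro h T _
    rw [decide_eq_true_eq, e]
    exact h T

@[fun_prop] lemma ptime_ndp {Λ : α → List (List Bool)} (h : PTime Λ) :
    PTime fun x => ndp (Λ x) := by
  refine PTime.comp (g := ndp) ?_ h
  unfold ndp
  refine PTime.all (g := fun (Λ : List (List Bool)) (T : List Bool) =>
    decide ((Λ.filter fun T' => decide (T' = T)).length ≤ 1)) PTime.id ?_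
  refine PTime.le (PTime.length (PTime.filter (g := fun (p : List (List Bool) × List Bool) T' =>
    decide (T' = p.2)) (by fun_prop) (PTime.eq (by fun_prop) (by fun_prop)))) (by fun_prop)

/-- Computable form of badness. -/
def BadP (C E : ℕ) (x : (ℕ × ℕ) × List Bool) : Prop :=
  ∃ W : List Bool, sz W ≤ 1 + 4 * x.1.2 ∧ ∃ Λ : List (List Bool),
    sz Λ ≤ 1 + x.1.2 * (2 + 4 * x.1.2) ∧ ((Λ.length = powB x.1.2 (2 * (E * x.1.1) + 2) ∧
      ndp Λ = true) ∧ ∀ T ∈ Λ, (T.length = powB x.1.2 x.1.1 ∧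
        powB x.1.2 (C * x.1.1) + 2 * powB x.1.2 (C * x.1.1 - E * x.1.1) ≤ 2 * cT C ((x, W), T)))

lemma psp_badP (C E : ℕ) : PSp (BadP C E) := by
  unfold BadP
  refine PSp.exists_le (R := fun (x : (ℕ × ℕ) × List Bool) (W : List Bool) =>
    ∃ Λ : List (List Bool), sz Λ ≤ 1 + x.1.2 * (2 + 4 * x.1.2) ∧
      ((Λ.length = powB x.1.2 (2 * (E * x.1.1) + 2) ∧
      ndp Λ = true) ∧ ∀ T ∈ Λ, (T.length = powB x.1.2 x.1.1 ∧
        powB x.1.2 (C * x.1.1) + 2 * powB x.1.2 (C * x.1.1 - E * x.1.1) ≤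
          2 * cT C ((x, W), T)))) ?_ (by fun_prop)
  refine PSp.exists_le (R := fun (y : ((ℕ × ℕ) × List Bool) × List Bool) (Λ : List (List Bool)) =>
      ((Λ.length = powB y.1.1.2 (2 * (E * y.1.1.1) + 2) ∧
      ndp Λ = true) ∧ ∀ T ∈ Λ, (T.length = powB y.1.1.2 y.1.1.1 ∧
        powB y.1.1.2 (C * y.1.1.1) + 2 * powB y.1.1.2 (C * y.1.1.1 - E * y.1.1.1) ≤
          2 * cT C (y, T)))) ?_ (by fun_prop)
  refine PSp.and (PSp.of_ptime (by fun_prop)) ?_
  refine PSp.forall_mem (R := fun (z : (((ℕ × ℕ) × List Bool) × List Bool) × List (List Bool))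
      (T : List Bool) => (T.length = powB z.1.1.1.2 z.1.1.1.1 ∧
        powB z.1.1.1.2 (C * z.1.1.1.1) + 2 * powB z.1.1.1.2 (C * z.1.1.1.1 - E * z.1.1.1.1) ≤
          2 * cT C (z.1, T))) ?_ (by fun_prop)
  refine PSp.and (PSp.of_ptime (by fun_prop)) (PSp.of_ptime ?_)
  have h1 := (ptime_cT C).comp (f := fun x : ((((ℕ × ℕ) × List Bool) × List Bool) ×
    List (List Bool)) × List Bool => (x.1.1, x.2)) (by fun_prop)
  exact PTime.le (by fun_prop) (PTime.mul (by fun_prop) h1)

lemma badP_iff {C E n N : ℕ} (h1 : 2 ^ (C * n) ≤ N) (h2 : 2 ^ (2 * (E * n) + 2) ≤ N)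
    (h3 : 2 ^ n ≤ N) (g : List Bool) : BadP C E ((n, N), g) ↔
      BadT n (C * n) (E * n) (2 ^ (2 * (E * n) + 2)) (prm (2 ^ (C * n - 1)))
        (fun i => g.getD i false) := by
  classical
  have h4 : 2 ^ (C * n - E * n) ≤ N := le_trans (Nat.pow_le_pow_right (by norm_num) (by omega)) h1
  unfold BadP BadT
  simp only
  rw [powB_eq h1, powB_eq h2, powB_eq h3, powB_eq h4]
  constructor
  · rintro ⟨W, -, Λ, -, ⟨h5, h6⟩, h7⟩
    rw [ndp_iff] at h6
    refine ⟨fun z => W.getD z false, Λ.toFinset, ?_, fun T hT => ?_⟩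
    · rw [List.toFinset_card_of_nodup h6, h5]
    · obtain ⟨h8, h9⟩ := h7 T (List.mem_toFinset.1 hT)
      rw [cT_eq h1] at h9
      exact ⟨h8, h9⟩
  · rintro ⟨w, Λ, h5, h6⟩
    refine ⟨(List.range (2 ^ (C * n))).map w, ?_, Λ.toList, ?_, ⟨?_, ?_⟩, fun T hT => ?_⟩
    · have := sz_bits_le ((List.range (2 ^ (C * n))).map w)
      rw [List.length_map, List.length_range] at this
      omega
    · have h7 := sz_list_le Λ.toList (2 ^ (2 * (E * n) + 2)) (1 + 4 * 2 ^ n)
        (by rw [Finset.length_toList, h5]) (fun T hT => by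
          have h8 := sz_bits_le T
          rwa [(h6 T (Finset.mem_toList.1 hT)).1] at h8)
      refine h7.trans ?_
      have h8 : 1 + (1 + 4 * 2 ^ n) ≤ 2 + 4 * N := by omega
      exact Nat.add_le_add_left (Nat.mul_le_mul h2 h8) _
    · rw [Finset.length_toList, h5]
    · rw [ndp_iff]
      exact Finset.nodup_toList _
    · obtain ⟨h8, h9⟩ := h6 T (Finset.mem_toList.1 hT)
      refine ⟨h8, ?_⟩
      rw [cT_eq h1]
      rw [agw_congr (c' := tcw (C * n) (prm (2 ^ (C * n - 1))) (fun i => g.getD i false) T)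
        (w' := w) (fun _ _ => rfl) ?_]
      · exact h9
      · intro z hz
        simp [List.getD, hz]

/-! ### The generator -/

/-- Capped version of `selM`. -/
def selB (N c l s x : ℕ) : ℕ :=
  valB N ((List.range l).map fun j => decide (s / powB N (j * 2 ^ c + digB N c j x) % 2 = 1))

lemma selB_eq {N c l : ℕ} (h1 : 2 ^ (c * l) ≤ N) (h2 : 2 ^ (l * 2 ^ c) ≤ N) (h3 : 2 ^ l ≤ N)
    (s x : ℕ) : selB N c l s x = selM c l s x := by
  unfold selB selM
  have e : ((List.range l).map fun j =>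
      decide (s / powB N (j * 2 ^ c + digB N c j x) % 2 = 1)) =
      (List.range l).map fun j => decide (s / 2 ^ (j * 2 ^ c + dig c j x) % 2 = 1) := by
    refine List.map_congr_left fun j hj => ?_
    rw [List.mem_range] at hj
    rw [digB_eq h1 hj, powB_eq (le_trans (Nat.pow_le_pow_right (by norm_num) ?_) h2)]
    have h4 : dig c j x < 2 ^ c := Nat.mod_lt _ (by positivity)
    calc j * 2 ^ c + dig c j x ≤ j * 2 ^ c + 2 ^ c := by omega
      _ = (j + 1) * 2 ^ c := by ring
      _ ≤ _ := Nat.mul_le_mul_right _ hj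
  rw [e]
  refine valB_eq ?_
  have h5 := val_lt ((List.range l).map fun j =>
    decide (s / 2 ^ (j * 2 ^ c + dig c j x) % 2 = 1))
  rw [List.length_map, List.length_range] at h5
  omega

@[fun_prop] lemma ptime_selB {c : ℕ} {N l s x : α → ℕ} (hN : PTime N) (hl : PTime l)
    (hs : PTime s) (hx : PTime x) : PTime fun q => selB (N q) c (l q) (s q) (x q) := by
  unfold selB
  refine ptime_valB hN (PTime.map (g := fun q j => decide (s q / powB (N q) (j * 2 ^ c +
    digB (N q) c j (x q)) % 2 = 1)) (PTime.range hl) ?_)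
  have h : ∀ {f : α → ℕ}, PTime f → PTime fun p : α × ℕ => f p.1 := fun hf =>
    hf.comp (PTime.fst PTime.id)
  have h1 : PTime fun p : α × ℕ => digB (N p.1) c p.2 (x p.1) :=
    ptime_digB (h hN) (by fun_prop) (by fun_prop) (h hx)
  have h2 : PTime fun p : α × ℕ => powB (N p.1) (p.2 * 2 ^ c + digB (N p.1) c p.2 (x p.1)) :=
    ptime_powB (h hN) (PTime.add (by fun_prop) h1)
  have h3 : PTime fun p : α × ℕ => s p.1 / powB (N p.1) (p.2 * 2 ^ c +
      digB (N p.1) c p.2 (x p.1)) % 2 := PTime.mod (PTime.div (h hs) h2) (by fun_prop)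
  exact PTime.eq h3 (by fun_prop)

/-- The table generated from `B` and the seed `s`. -/
def gT (C C₃ c : ℕ) (x : ((ℕ × ℕ) × List Bool) × ℕ) : List Bool :=
  (List.range (powB x.1.1.2 (2 * (C * x.1.1.1)))).map fun i =>
    ip (C₃ * x.1.1.1) (hv x.1.2 (selB x.1.1.2 c (2 * (C₃ * x.1.1.1)) x.2
      ((desB x.1.1.2 c (2 * (C₃ * x.1.1.1)) (C * x.1.1.1)).getD i 0) /
        powB x.1.1.2 (C₃ * x.1.1.1) % prm (powB x.1.1.2 (C₃ * x.1.1.1 - 1)))
        (prm (powB x.1.1.2 (C₃ * x.1.1.1 - 1))))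
      (selB x.1.1.2 c (2 * (C₃ * x.1.1.1)) x.2
      ((desB x.1.1.2 c (2 * (C₃ * x.1.1.1)) (C * x.1.1.1)).getD i 0) %
        powB x.1.1.2 (C₃ * x.1.1.1))

lemma ptime_gT (C C₃ c : ℕ) : PTime (gT C C₃ c) := by
  unfold gT
  refine PTime.map (g := fun (x : ((ℕ × ℕ) × List Bool) × ℕ) i =>
    ip (C₃ * x.1.1.1) (hv x.1.2 (selB x.1.1.2 c (2 * (C₃ * x.1.1.1)) x.2
      ((desB x.1.1.2 c (2 * (C₃ * x.1.1.1)) (C * x.1.1.1)).getD i 0) /
        powB x.1.1.2 (C₃ * x.1.1.1) % prm (powB x.1.1.2 (C₃ * x.1.1.1 - 1)))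
        (prm (powB x.1.1.2 (C₃ * x.1.1.1 - 1))))
      (selB x.1.1.2 c (2 * (C₃ * x.1.1.1)) x.2
      ((desB x.1.1.2 c (2 * (C₃ * x.1.1.1)) (C * x.1.1.1)).getD i 0) %
        powB x.1.1.2 (C₃ * x.1.1.1))) (by fun_prop) ?_
  have h1 : PTime fun p : (((ℕ × ℕ) × List Bool) × ℕ) × ℕ =>
      (desB p.1.1.1.2 c (2 * (C₃ * p.1.1.1.1)) (C * p.1.1.1.1)).getD p.2 0 :=
    PTime.listGetD (ptime_desB (by fun_prop) (by fun_prop) (by fun_prop) (by fun_prop))
      (by fun_prop) (by fun_prop)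
  have h2 : PTime fun p : (((ℕ × ℕ) × List Bool) × ℕ) × ℕ =>
      selB p.1.1.1.2 c (2 * (C₃ * p.1.1.1.1)) p.1.2
        ((desB p.1.1.1.2 c (2 * (C₃ * p.1.1.1.1)) (C * p.1.1.1.1)).getD p.2 0) :=
    ptime_selB (by fun_prop) (by fun_prop) (by fun_prop) h1
  exact ptime_hc (a := fun p : (((ℕ × ℕ) × List Bool) × ℕ) × ℕ => C₃ * p.1.1.1.1)
    (p := fun p => prm (powB p.1.1.1.2 (C₃ * p.1.1.1.1 - 1))) (N := fun p => p.1.1.1.2)
    (T := fun p => p.1.1.2) (by fun_prop) (by fun_prop) (by fun_prop) (by fun_prop) h2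

lemma gT_eq {C C₃ c n N : ℕ} (h1 : 2 ^ (c * (2 * (C₃ * n))) ≤ N)
    (h2 : 2 ^ (2 * (C₃ * n) * 2 ^ c) ≤ N) (h3 : 2 ^ (2 * (C₃ * n)) ≤ N)
    (h4 : 2 ^ (2 * (C * n)) ≤ N) (B : List Bool) (s : ℕ) :
    gT C C₃ c (((n, N), B), s) = (List.range (2 ^ (2 * (C * n)))).map
      (gM (C₃ * n) (prm (2 ^ (C₃ * n - 1))) c (2 * (C₃ * n))
        (desM c (2 * (C₃ * n)) (C * n)) B s) := by
  have h5 : 2 ^ (C₃ * n) ≤ N := le_trans (Nat.pow_le_pow_right (by norm_num) (by omega)) h3
  have h6 : 2 ^ (C₃ * n - 1) ≤ N := le_trans (Nat.pow_le_pow_right (by norm_num) (by omega)) h3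
  unfold gT
  simp only
  rw [powB_eq h4, powB_eq h5, powB_eq h6, desB_eq h1]
  refine List.map_congr_left fun i _ => ?_
  unfold gM hc
  rw [selB_eq h1 h2 h3]

end Pool.Agent.H48.NE
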