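import Pool.Agent.H48.NE.Era

/-!
# A language from whose errorless heuristics one can extract good tables
-/

namespace Pool.Agent.H48.NE

set_option maxHeartbeats 1000000

open Classical in
/-- Few words generate only bad tables. -/
theorem card_allbad {a K m as ps c l ρ : ℕ} (D : List ℕ) (X : (ℕ → Bool) → Prop)
    (hcongr : ∀ g g' : ℕ → Bool, (∀ i < K, g i = g' i) → X g → X g')
    (hX : ((Finset.univ : Finset (Fin K → Bool)).filter fun g => X (ext g)).card * 2 ≤ 2 ^ K)
    (_ha1 : 1 ≤ a) (hK : K = 2 ^ a * 2 ^ a)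
    (hps : ps.Prime) (hps1 : 2 ^ as ≤ 2 * ps) (hps2 : ps ≤ 2 ^ as) (hl : l = as + as)
    (has : m + 4 * a + 2 ≤ as)
    (hD : ∀ i < K, ∀ k < K, i ≠ k → agD c l (D.getD i 0) (D.getD k 0) ≤ ρ)
    (hρ : ρ ≤ a) :
    ((allL (2 ^ m)).filter fun B => ∀ s < 2 ^ (l * 2 ^ c), X (gM as ps c l D B s)).card <
      2 ^ 2 ^ (3 * a + 2) := by
  have hK2 : K = 2 ^ (2 * a) := by rw [hK, ← pow_add]; congr 1; ring
  let 𝓑 : Finset (List Bool) := (allL (2 ^ m)).filter fun B =>
    ∀ s < 2 ^ (l * 2 ^ c), X (gM as ps c l D B s)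
  let f : Fin K → Fin l → Fin (2 ^ c) := fun i j =>
    ⟨dig c j (D.getD i 0), Nat.mod_lt _ (by positivity)⟩
  have hf : ∀ i k, i ≠ k → (agrS (f i) (f k)).card ≤ ρ := by
    intro i k hik
    refine le_trans ?_ (hD i i.2 k k.2 (fun h => hik (Fin.ext h)))
    unfold agrS agD
    refine Finset.card_le_card_of_injOn (fun j => (j : ℕ)) ?_ ?_
    · intro j hj
      rw [Finset.mem_coe, Finset.mem_filter] at hj
      rw [Finset.mem_coe, Finset.mem_filter, Finset.mem_range]
      refine ⟨j.2, ?_⟩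
      exact congrArg Fin.val hj.2
    · intro j _ j' _ h
      exact Fin.ext h
  have hcount : 𝓑.card ≤ K * (2 ^ K * (2 ^ 2 ^ ρ) ^ K) * 2 ^ (4 * a + 1) := by
    refine nw_count f hf (fun g => X (ext g)) hX
      (fun B y => hc as ps B (val (List.ofFn y))) 𝓑 ?_ ?_
    · intro B hB S
      simp only [𝓑] at hB
      rw [Finset.mem_filter] at hB
      -- the seed as a number
      let bits : List Bool := List.ofFn fun x : Fin (l * 2 ^ c) =>
        if h : (x : ℕ) / 2 ^ c < l then S ⟨x / 2 ^ c, h⟩ ⟨x % 2 ^ c, Nat.mod_lt _ (by positivity)⟩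
        else false
      have hs : val bits < 2 ^ (l * 2 ^ c) := val_ofFn_lt _
      refine hcongr _ _ ?_ (hB.2 _ hs)
      intro i hi
      rw [ext_of_lt _ hi]
      unfold gM selM
      congr 2
      refine List.ext_getElem (by simp) fun j hj hj' => ?_
      simp only [List.length_map, List.length_range] at hj
      rw [List.getElem_map, List.getElem_range, List.getElem_ofFn, bit_val]
      have h1 : j * 2 ^ c + dig c j (D.getD i 0) < l * 2 ^ c := by
        have h2 : dig c j (D.getD i 0) < 2 ^ c := Nat.mod_lt _ (by positivity)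
        calc j * 2 ^ c + dig c j (D.getD i 0) < j * 2 ^ c + 2 ^ c := by omega
          _ = (j + 1) * 2 ^ c := by ring
          _ ≤ _ := Nat.mul_le_mul_right _ hj
      have h2 := getD_ofFn (fun x : Fin (l * 2 ^ c) => if h : (x : ℕ) / 2 ^ c < l then
        S ⟨x / 2 ^ c, h⟩ ⟨x % 2 ^ c, Nat.mod_lt _ (by positivity)⟩ else false) ⟨_, h1⟩
      simp only at h2
      rw [h2]
      have h3 : dig c j (D.getD i 0) < 2 ^ c := Nat.mod_lt _ (by positivity)
      have e3 : (j * 2 ^ c + dig c j (D.getD i 0)) / 2 ^ c = j := by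
        rw [Nat.add_comm, Nat.add_mul_div_right _ _ (by positivity), Nat.div_eq_of_lt h3,
          zero_add]
      have e4 : (j * 2 ^ c + dig c j (D.getD i 0)) % 2 ^ c = dig c j (D.getD i 0) := by
        rw [Nat.add_comm, Nat.add_mul_mod_self_right, Nat.mod_eq_of_lt h3]
      rw [dif_pos (by rw [e3]; exact hj)]
      congr 1
      · congr 1
      · exact Fin.ext e4
    · intro w hw
      refine nw_list hps hps1 hps2 hl hK2 has w hw _ fun B hB => ?_
      simp only [𝓑] at hB
      rw [Finset.mem_filter, Finset.mem_filter] at hB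
      exact ⟨mem_allL.1 hB.1.1, hB.2⟩
  refine lt_of_le_of_lt hcount ?_
  have e1 : K * (2 ^ K * (2 ^ 2 ^ ρ) ^ K) * 2 ^ (4 * a + 1) =
      2 ^ (2 * a + (K + 2 ^ ρ * K) + (4 * a + 1)) := by
    rw [pow_add 2 (2 * a + (K + 2 ^ ρ * K)), pow_add 2 (2 * a), pow_add 2 K,
      pow_mul 2 (2 ^ ρ) K, ← hK2]
  rw [e1]
  refine Nat.pow_lt_pow_right (by norm_num) ?_
  have h1 : 2 ^ ρ ≤ 2 ^ a := Nat.pow_le_pow_right (by norm_num) hρ
  have h3 : 2 ^ (3 * a + 2) = 4 * (2 ^ a * K) := by
    rw [hK]
    ring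
  have h4 : 2 ^ ρ * K ≤ 2 ^ a * K := Nat.mul_le_mul_right _ h1
  have h5 : 1 ≤ 2 ^ a := Nat.one_le_two_pow
  have h6 : K ≤ 2 ^ a * K := Nat.le_mul_of_pos_left _ h5
  have h7 : 1 + a * 7 ≤ 2 ^ a * K := by
    have h8 := one_add_mul_le_pow (R := ℤ) (a := 7) (by norm_num) a
    have h9 : ((1 : ℤ) + 7) ^ a = 2 ^ a * (2 ^ a * 2 ^ a) := by
      rw [← mul_pow, ← mul_pow]
      norm_num
    rw [h9] at h8
    rw [hK]
    exact_mod_cast h8
  omega

/-- The number of answers of a partial word. -/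
def nAns (m : ℕ) (P N : ℕ → Bool) : ℕ :=
  ((Finset.range (2 ^ m)).filter fun z => P z = true ∨ N z = true).card

/-- A word is consistent with a partial word. -/
def Cons (m : ℕ) (c P N : ℕ → Bool) : Prop :=
  ∀ z < 2 ^ m, (P z = true → c z = true) ∧ (N z = true → c z = false)

open Classical in
/-- A word such that every partial word consistent with it and with `2^q` given entries yields a
good table. -/
theorem exists_hardE {a K m as ps c l ρ q : ℕ} (D : List ℕ) (X : (ℕ → Bool) → Prop)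
    (hcongr : ∀ g g' : ℕ → Bool, (∀ i < K, g i = g' i) → X g → X g')
    (hX : ((Finset.univ : Finset (Fin K → Bool)).filter fun g => X (ext g)).card * 2 ≤ 2 ^ K)
    (_ha1 : 1 ≤ a) (hK : K = 2 ^ a * 2 ^ a)
    (hps : ps.Prime) (hps1 : 2 ^ as ≤ 2 * ps) (hps2 : ps ≤ 2 ^ as) (hl : l = as + as)
    (has : m + 1 + 4 * a + 2 ≤ as)
    (hD : ∀ i < K, ∀ k < K, i ≠ k → agD c l (D.getD i 0) (D.getD k 0) ≤ ρ)
    (hρ : ρ ≤ a) (hq : 3 * a + 3 ≤ q) :
    ∃ L : List Bool, L.length = 2 ^ m ∧ ∀ P N : List Bool, P.length = 2 ^ m →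
      N.length = 2 ^ m →
      Cons m (fun i => L.getD i false) (fun i => P.getD i false) (fun i => N.getD i false) →
      2 ^ q ≤ nAns m (fun i => P.getD i false) (fun i => N.getD i false) →
      ∃ s < 2 ^ (l * 2 ^ c), ¬ X (gM as ps c l D (P ++ N) s) := by
  have hcount := card_allbad (m := m + 1) D X hcongr hX _ha1 hK hps hps1 hps2 hl has hD hρ
  obtain ⟨𝓑, h𝓑⟩ : ∃ 𝓑 : Finset (List Bool), 𝓑 = (allL (2 ^ (m + 1))).filter fun B =>
    ∀ s < 2 ^ (l * 2 ^ c), X (gM as ps c l D B s) := ⟨_, rfl⟩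
  rw [← h𝓑] at hcount
  have hcount2 : 𝓑.card < 2 ^ 2 ^ (q - 1) := by
    refine lt_of_lt_of_le hcount ?_
    exact Nat.pow_le_pow_right (by norm_num) (Nat.pow_le_pow_right (by norm_num) (by omega))
  obtain ⟨M, hM⟩ : ∃ M, M = 2 ^ m := ⟨_, rfl⟩
  let pB : List Bool → ℕ → Bool := fun B i => B.getD i false
  let nB : List Bool → ℕ → Bool := fun B i => B.getD (M + i) false
  have hone : ∀ B ∈ 𝓑, ((Finset.univ : Finset (Fin M → Bool)).filter fun g =>
      Cons m (fun i => (List.ofFn g).getD i false) (pB B) (nB B) ∧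
        2 ^ q ≤ nAns m (pB B) (nB B)).card * 2 ^ 2 ^ (q - 1) ≤ 2 ^ M := by
    intro B _
    by_cases hs : 2 ^ q ≤ nAns m (pB B) (nB B)
    · obtain ⟨s, hs'⟩ : ∃ s, s = nAns m (pB B) (nB B) := ⟨_, rfl⟩
      rw [← hs'] at hs
      let v : ℕ → ℤ := fun i => if pB B i = true then -1 else if nB B i = true then 1 else 0
      have hv : ∑ i : Fin M, v i ^ 2 = s := by
        rw [Fin.sum_univ_eq_sum_range (fun i => v i ^ 2) M, hs', nAns, hM, Finset.card_filter]
        push_cast
        refine Finset.sum_congr rfl fun i _ => ?_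
        simp only [v]
        by_cases h1 : pB B i = true
        · simp [h1]
        · by_cases h2 : nB B i = true
          · simp [h1, h2]
          · simp [h1, h2]
      have h1 := hoeffding_nat (fun i : Fin M => v i) s s (2 ^ (q - 1))
        (lt_of_lt_of_le (by positivity) hs) hv.le ?_
      · rw [Fintype.card_fin] at h1
        refine le_trans (Nat.mul_le_mul_right _ (Finset.card_le_card ?_)) h1
        intro g hg
        rw [Finset.mem_filter] at hg ⊢
        refine ⟨hg.1, ?_⟩
        have hc := hg.2.1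
        have e1 : ∀ i : Fin M, sg (g i) * v i = v i ^ 2 := by
          intro i
          have h2 := hc i (by rw [← hM]; exact i.2)
          simp only [getD_ofFn] at h2
          simp only [v]
          by_cases h3 : pB B i = true
          · rw [h2.1 h3, if_pos h3]
            rfl
          · by_cases h4 : nB B i = true
            · rw [h2.2 h4, if_neg h3, if_pos h4]
              rfl
            · rw [if_neg h3, if_neg h4]
              simp
        simp only [e1]
        rw [hv]
      · have h2 : 2 ^ (q - 1) * 2 = 2 ^ q := by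
          rw [← pow_succ]
          congr 1
          omega
        calc 2 ^ (q - 1) * (2 * s) = (2 ^ (q - 1) * 2) * s := by ring
          _ = 2 ^ q * s := by rw [h2]
          _ ≤ s * s := Nat.mul_le_mul_right _ hs
          _ = s ^ 2 := by ring
    · have : ((Finset.univ : Finset (Fin M → Bool)).filter fun g =>
          Cons m (fun i => (List.ofFn g).getD i false) (pB B) (nB B) ∧
            2 ^ q ≤ nAns m (pB B) (nB B)) = ∅ := by
        refine Finset.filter_false_of_mem fun g _ h => hs h.2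
      rw [this]
      simp
  by_contra hno
  push Not at hno
  have hcover : (Finset.univ : Finset (Fin M → Bool)) ⊆ 𝓑.biUnion fun B =>
      (Finset.univ : Finset (Fin M → Bool)).filter fun g =>
        Cons m (fun i => (List.ofFn g).getD i false) (pB B) (nB B) ∧
          2 ^ q ≤ nAns m (pB B) (nB B) := by
    intro g _
    obtain ⟨P, N, hP, hN, hB2, hB3, hB4⟩ := hno (List.ofFn g) (by rw [List.length_ofFn, hM])
    have e1 : ∀ i < 2 ^ m, pB (P ++ N) i = P.getD i false := by
      intro i hi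
      simp only [pB, List.getD]
      rw [List.getElem?_append_left (by omega)]
    have e2 : ∀ i < 2 ^ m, nB (P ++ N) i = N.getD i false := by
      intro i hi
      simp only [nB, List.getD]
      rw [List.getElem?_append_right (by omega)]
      congr 2
      omega
    rw [Finset.mem_biUnion]
    refine ⟨P ++ N, ?_, ?_⟩
    · rw [h𝓑, Finset.mem_filter]
      refine ⟨mem_allL.2 ?_, hB4⟩
      rw [List.length_append, hP, hN, pow_succ]
      ring
    · rw [Finset.mem_filter]
      refine ⟨Finset.mem_univ _, ?_, ?_⟩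
      · intro z hz
        rw [e1 z hz, e2 z hz]
        exact hB2 z hz
      · refine le_of_le_of_eq hB3 ?_
        unfold nAns
        congr 1
        refine Finset.filter_congr fun z hz => ?_
        rw [Finset.mem_range] at hz
        rw [e1 z hz, e2 z hz]
  have h1 := (Finset.card_le_card hcover).trans Finset.card_biUnion_le
  have h2 : 2 ^ M * 2 ^ 2 ^ (q - 1) ≤ 𝓑.card * 2 ^ M := by
    calc 2 ^ M * 2 ^ 2 ^ (q - 1) =
        (Finset.univ : Finset (Fin M → Bool)).card * 2 ^ 2 ^ (q - 1) := by simp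
      _ ≤ (∑ B ∈ 𝓑, ((Finset.univ : Finset (Fin M → Bool)).filter fun g =>
        Cons m (fun i => (List.ofFn g).getD i false) (pB B) (nB B) ∧
          2 ^ q ≤ nAns m (pB B) (nB B)).card) * 2 ^ 2 ^ (q - 1) := Nat.mul_le_mul_right _ h1
      _ = ∑ B ∈ 𝓑, ((Finset.univ : Finset (Fin M → Bool)).filter fun g =>
        Cons m (fun i => (List.ofFn g).getD i false) (pB B) (nB B) ∧
          2 ^ q ≤ nAns m (pB B) (nB B)).card * 2 ^ 2 ^ (q - 1) := Finset.sum_mul _ _ _
      _ ≤ ∑ B ∈ 𝓑, 2 ^ M := Finset.sum_le_sum hone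
      _ = _ := by rw [Finset.sum_const, smul_eq_mul]
  have h3 : 𝓑.card * 2 ^ M < 2 ^ 2 ^ (q - 1) * 2 ^ M :=
    Nat.mul_lt_mul_of_pos_right hcount2 (by positivity)
  have h4 : 2 ^ M * 2 ^ 2 ^ (q - 1) = 2 ^ 2 ^ (q - 1) * 2 ^ M := Nat.mul_comm _ _
  omega

end Pool.Agent.H48.NE
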