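import Pool.Agent.H48.NE.Math

/-!
# Counting with the Nisan-Wigderson generator
-/

namespace Pool.Agent.H48.NE

set_option maxHeartbeats 400000

open Classical in
/-- Indicator of a set of strings. -/
noncomputable def dI {K : ℕ} (D : (Fin K → Bool) → Prop) (g : Fin K → Bool) : ℤ :=
  if D g then 1 else 0

/-- Flipping a coordinate. -/
lemma sum_update {K : ℕ} (k : Fin K) (φ : (Fin K → Bool) → ℤ) :
    2 * ∑ r : Fin K → Bool, φ r = ∑ r : Fin K → Bool,
      (φ (Function.update r k false) + φ (Function.update r k true)) := by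
  classical
  let fl : (Fin K → Bool) → (Fin K → Bool) := fun r => Function.update r k (!r k)
  have hfl : Function.Involutive fl := by
    intro r
    simp only [fl, Function.update_self, Bool.not_not, Function.update_idem,
      Function.update_eq_self]
  have h1 : ∑ r : Fin K → Bool, φ (fl r) = ∑ r : Fin K → Bool, φ r :=
    Equiv.sum_comp hfl.toPerm φ
  have h2 : ∀ r : Fin K → Bool, φ (Function.update r k false) + φ (Function.update r k true) =
      φ r + φ (fl r) := by
    intro r
    by_cases h : r k = true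
    · have e1 : Function.update r k true = r := by rw [← h, Function.update_eq_self]
      have e2 : fl r = Function.update r k false := by simp only [fl, h, Bool.not_true]
      rw [e1, e2]
      ring
    · rw [Bool.not_eq_true] at h
      have e1 : Function.update r k false = r := by rw [← h, Function.update_eq_self]
      have e2 : fl r = Function.update r k true := by simp only [fl, h, Bool.not_false]
      rw [e1, e2]
  rw [Finset.sum_congr rfl fun r _ => h2 r, Finset.sum_add_distrib, h1]
  ring

/-- The hybrid strings. -/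
def hyb {K : ℕ} (G : Fin K → Bool) (m : ℕ) (r : Fin K → Bool) : Fin K → Bool :=
  fun i => if (i : ℕ) < m then G i else r i

lemma hyb_succ {K : ℕ} (G : Fin K → Bool) (k : Fin K) (r : Fin K → Bool) :
    hyb G (k + 1) r = Function.update (hyb G k r) k (G k) := by
  funext i
  by_cases h : i = k
  · subst h
    simp [hyb]
  · rw [Function.update_of_ne h]
    unfold hyb
    have : (i : ℕ) ≠ k := fun e => h (Fin.ext e)
    by_cases h2 : (i : ℕ) < k
    · rw [if_pos h2, if_pos (by omega)]
    · rw [if_neg h2, if_neg (by omega)]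

lemma hyb_update {K : ℕ} (G : Fin K → Bool) (k : Fin K) (r : Fin K → Bool) (c : Bool) :
    hyb G k (Function.update r k c) = Function.update (hyb G k r) k c := by
  funext i
  by_cases h : i = k
  · subst h
    simp [hyb]
  · rw [Function.update_of_ne h]
    unfold hyb
    rw [Function.update_of_ne h]

open Classical in
/-- Distinguishing implies predicting. -/
theorem hybrid {S : Type} [Fintype S] {K : ℕ} (D : (Fin K → Bool) → Prop)
    (G : S → Fin K → Bool) (hG : ∀ s, D (G s)) (hS : 0 < Fintype.card S)
    (hD : (Finset.univ.filter fun g : Fin K → Bool => D g).card * 2 ≤ 2 ^ K) :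
    ∃ k : Fin K, (Fintype.card S : ℤ) * 2 ^ K ≤ K * ∑ s : S, ∑ r : Fin K → Bool,
      sg (G s k) * (dI D (Function.update (hyb (G s) k r) k false) -
        dI D (Function.update (hyb (G s) k r) k true)) := by
  let P : ℕ → ℤ := fun m => ∑ s : S, ∑ r : Fin K → Bool, dI D (hyb (G s) m r)
  have hPK : P K = Fintype.card S * 2 ^ K := by
    simp only [P]
    have e : ∀ (s : S) (r : Fin K → Bool), dI D (hyb (G s) K r) = 1 := by
      intro s r
      have : hyb (G s) K r = G s := by
        funext i
        simp [hyb, i.2]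
      rw [this]
      exact if_pos (hG s)
    simp only [e]
    simp
  have hP0 : 2 * P 0 ≤ Fintype.card S * 2 ^ K := by
    simp only [P]
    have e : ∀ (s : S), ∑ r : Fin K → Bool, dI D (hyb (G s) 0 r) =
        ((Finset.univ.filter fun g : Fin K → Bool => D g).card : ℤ) := by
      intro s
      have : ∀ r : Fin K → Bool, hyb (G s) 0 r = r := fun r => by
        funext i
        simp [hyb]
      simp only [this]
      unfold dI
      rw [Finset.sum_boole]
    simp only [e]
    rw [Finset.sum_const, nsmul_eq_mul, Finset.card_univ]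
    have h1 : ((Finset.univ.filter fun g : Fin K → Bool => D g).card : ℤ) * 2 ≤ 2 ^ K := by
      exact_mod_cast hD
    have h2 : (0 : ℤ) ≤ Fintype.card S := by positivity
    nlinarith
  have hstep : ∀ k : Fin K, 2 * (P (k + 1) - P k) = ∑ s : S, ∑ r : Fin K → Bool,
      sg (G s k) * (dI D (Function.update (hyb (G s) k r) k false) -
        dI D (Function.update (hyb (G s) k r) k true)) := by
    intro k
    simp only [P]
    rw [mul_sub, Finset.mul_sum, Finset.mul_sum, ← Finset.sum_sub_distrib]
    refine Finset.sum_congr rfl fun s _ => ?_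
    rw [sum_update k (fun r => dI D (hyb (G s) k r)), Finset.mul_sum, ← Finset.sum_sub_distrib]
    refine Finset.sum_congr rfl fun r _ => ?_
    rw [hyb_succ, hyb_update, hyb_update]
    cases G s k
    · simp only [sg, cond_false]
      ring
    · simp only [sg, cond_true]
      ring
  by_contra hno
  push Not at hno
  have htel : P K - P 0 = ∑ k ∈ Finset.range K, (P (k + 1) - P k) :=
    (Finset.sum_range_sub P K).symm
  rw [← Fin.sum_univ_eq_sum_range (fun k => P (k + 1) - P k) K] at htel
  have hS' : (0 : ℤ) < Fintype.card S := by exact_mod_cast hS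
  have hpos : (0 : ℤ) < Fintype.card S * 2 ^ K := by positivity
  rcases Nat.eq_zero_or_pos K with h0 | h0
  · subst h0
    simp only [Finset.univ_eq_empty, Finset.sum_empty] at htel
    rw [hPK] at htel
    linarith
  · have h1 : (K : ℤ) * (2 * (P K - P 0)) < K * (Fintype.card S * 2 ^ K) := by
      rw [htel, Finset.mul_sum, Finset.mul_sum]
      calc ∑ k : Fin K, (K : ℤ) * (2 * (P (k + 1) - P k)) <
          ∑ k : Fin K, (Fintype.card S : ℤ) * 2 ^ K := by
            have : (Finset.univ : Finset (Fin K)).Nonempty := ⟨⟨0, h0⟩, Finset.mem_univ _⟩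
            refine Finset.sum_lt_sum_of_nonempty this fun k _ => ?_
            rw [hstep k]
            exact hno k
        _ = _ := by simp
    have h2 : (0 : ℤ) < K := by exact_mod_cast h0
    have h3 := lt_of_mul_lt_mul_left h1 h2.le
    linarith

/-- Replacing the coordinates of the seed used by one output bit. -/
def mrg {l b : ℕ} (k : Fin l → Fin b) (s : Fin l → Fin b → Bool) (y : Fin l → Bool) :
    Fin l → Fin b → Bool := fun j v => if v = k j then y j else s j v

lemma sum_mrg {l b : ℕ} (k : Fin l → Fin b) (φ : (Fin l → Fin b → Bool) → ℤ) :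
    ∑ s : Fin l → Fin b → Bool, ∑ y : Fin l → Bool, φ (mrg k s y) =
      2 ^ l * ∑ s : Fin l → Fin b → Bool, φ s := by
  let e : (Fin l → Fin b → Bool) × (Fin l → Bool) → (Fin l → Fin b → Bool) × (Fin l → Bool) :=
    fun q => (mrg k q.1 q.2, fun j => q.1 j (k j))
  have he : Function.Involutive e := by
    rintro ⟨s, y⟩
    refine Prod.ext ?_ ?_
    · funext j v
      show (if v = k j then s j (k j) else (if v = k j then y j else s j v)) = s j v
      split_ifs with h
      · rw [h]
      · rfl
    · funext j
      show (if k j = k j then y j else s j (k j)) = y j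
      rw [if_pos rfl]
  have h1 := Equiv.sum_comp he.toPerm (fun q : (Fin l → Fin b → Bool) × (Fin l → Bool) => φ q.1)
  rw [Fintype.sum_prod_type, Fintype.sum_prod_type] at h1
  have h2 : ∀ s : Fin l → Fin b → Bool, ∀ y : Fin l → Bool,
      φ ((he.toPerm) (s, y)).1 = φ (mrg k s y) := fun s y => rfl
  simp only [h2] at h1
  rw [h1, Finset.mul_sum]
  refine Finset.sum_congr rfl fun s _ => ?_
  simp

open Classical in
/-- Functions depending only on some coordinates. -/
noncomputable def Dep {l : ℕ} (A : Finset (Fin l)) : Finset ((Fin l → Bool) → Bool) :=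
  Finset.univ.filter fun τ => ∀ x x' : Fin l → Bool, (∀ j ∈ A, x j = x' j) → τ x = τ x'

lemma mem_Dep {l : ℕ} {A : Finset (Fin l)} {τ : (Fin l → Bool) → Bool} :
    τ ∈ Dep A ↔ ∀ x x' : Fin l → Bool, (∀ j ∈ A, x j = x' j) → τ x = τ x' := by
  classical
  unfold Dep
  simp

lemma card_Dep_le {l : ℕ} (A : Finset (Fin l)) : (Dep A).card ≤ 2 ^ 2 ^ A.card := by
  classical
  let ex : (↥A → Bool) → (Fin l → Bool) := fun z j => if h : j ∈ A then z ⟨j, h⟩ else false
  have h1 : (Dep A).card ≤ (Finset.univ : Finset ((↥A → Bool) → Bool)).card := by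
    refine Finset.card_le_card_of_injOn (fun τ z => τ (ex z)) (fun τ _ => Finset.mem_univ _) ?_
    intro τ hτ τ' hτ' h
    rw [Finset.mem_coe, mem_Dep] at hτ hτ'
    funext x
    have h2 : ∀ j ∈ A, x j = ex (fun j => x j) j := by
      intro j hj
      simp only [ex, dif_pos hj]
    rw [hτ x _ h2, hτ' x _ h2]
    exact congrFun h (fun j => x j)
  refine h1.trans ?_
  rw [Finset.card_univ, Fintype.card_fun, Fintype.card_fun, Fintype.card_bool, Fintype.card_coe]

/-- Coordinates where two functions agree. -/
def agrS {l b : ℕ} (f g : Fin l → Fin b) : Finset (Fin l) := Finset.univ.filter fun j => f j = g j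

open Classical in
/-- The prediction function. -/
noncomputable def psi {K l : ℕ} (D : (Fin K → Bool) → Prop) (k : Fin K) (r : Fin K → Bool)
    (τ : Fin K → (Fin l → Bool) → Bool) (y : Fin l → Bool) : ℤ :=
  dI D (Function.update (hyb (fun i => τ i y) k r) k false) -
    dI D (Function.update (hyb (fun i => τ i y) k r) k true)

lemma psi_sq {K l : ℕ} (D : (Fin K → Bool) → Prop) (k : Fin K) (r : Fin K → Bool)
    (τ : Fin K → (Fin l → Bool) → Bool) (y : Fin l → Bool) :
    psi D k r τ y * psi D k r τ y ≤ 1 := by
  unfold psi dI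
  split_ifs <;> norm_num

open Classical in
/-- The prediction functions available when comparing with the output bit `k`. -/
noncomputable def tabs {K l b : ℕ} (f : Fin K → Fin l → Fin b) (k : Fin K) :
    Finset (Fin K → (Fin l → Bool) → Bool) :=
  Fintype.piFinset fun i => if i = k then {fun _ => false} else Dep (agrS (f i) (f k))

lemma card_tabs_le {K l b ρ : ℕ} (f : Fin K → Fin l → Fin b)
    (hf : ∀ i k, i ≠ k → (agrS (f i) (f k)).card ≤ ρ) (k : Fin K) :
    (tabs f k).card ≤ (2 ^ 2 ^ ρ) ^ K := by
  classical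
  unfold tabs
  rw [Fintype.card_piFinset]
  calc ∏ i : Fin K, (if i = k then {fun _ => false} else Dep (agrS (f i) (f k))).card ≤
      ∏ i : Fin K, 2 ^ 2 ^ ρ := by
        refine Finset.prod_le_prod' fun i _ => ?_
        split_ifs with h
        · rw [Finset.card_singleton]
          exact Nat.one_le_two_pow
        · refine (card_Dep_le _).trans ?_
          exact Nat.pow_le_pow_right (by norm_num) (Nat.pow_le_pow_right (by norm_num) (hf i k h))
    _ = _ := by simp

open Classical in
/-- If all outputs of the generator lie in a small set, then the code word is predictable. -/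
theorem nw_predict {K l b : ℕ} (f : Fin K → Fin l → Fin b)
    (D : (Fin K → Bool) → Prop)
    (hD : (Finset.univ.filter fun g : Fin K → Bool => D g).card * 2 ≤ 2 ^ K)
    (c : (Fin l → Bool) → Bool) (hc : ∀ s : Fin l → Fin b → Bool, D fun i => c fun j => s j (f i j)) :
    ∃ k : Fin K, ∃ r : Fin K → Bool, ∃ τ ∈ tabs f k,
      (2 : ℤ) ^ l ≤ K * ∑ y : Fin l → Bool, sg (c y) * psi D k r τ y := by
  obtain ⟨k, hk⟩ := hybrid D (fun (s : Fin l → Fin b → Bool) i => c fun j => s j (f i j)) hc
    Fintype.card_pos hD
  set G : (Fin l → Fin b → Bool) → Fin K → Bool := fun s i => c fun j => s j (f i j) with hG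
  set φ : (Fin l → Fin b → Bool) → (Fin K → Bool) → ℤ := fun s r =>
    sg (G s k) * (dI D (Function.update (hyb (G s) k r) k false) -
        dI D (Function.update (hyb (G s) k r) k true)) with hφ
  -- the tables
  let τ : (Fin l → Fin b → Bool) → Fin K → (Fin l → Bool) → Bool := fun s i y =>
    if i = k then false else c fun j => if f i j = f k j then y j else s j (f i j)
  have hτ : ∀ s, τ s ∈ tabs f k := by
    intro s
    unfold tabs
    rw [Fintype.mem_piFinset]
    intro i
    split_ifs with h
    · rw [Finset.mem_singleton]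
      funext y
      simp only [τ, if_pos h]
    · rw [mem_Dep]
      intro x x' hx
      simp only [τ, if_neg h]
      congr 1
      funext j
      split_ifs with h2
      · exact hx j (by unfold agrS; simp [h2])
      · rfl
  have hψ : ∀ s y r, φ (mrg (f k) s y) r = sg (c y) * psi D k r (τ s) y := by
    intro s y r
    simp only [hφ]
    have e1 : G (mrg (f k) s y) k = c y := by
      simp only [hG, mrg, if_true]
    rw [e1]
    unfold psi
    have e2 : hyb (G (mrg (f k) s y)) k r = hyb (fun i => τ s i y) k r := by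
      funext i
      unfold hyb
      split_ifs with h
      · have hik : i ≠ k := fun e => by rw [e] at h; omega
        simp only [hG, τ, if_neg hik, mrg]
      · rfl
    rw [e2]
  by_contra hno
  push Not at hno
  have h1 : ∑ s : Fin l → Fin b → Bool, ∑ r : Fin K → Bool,
      (K * ∑ y : Fin l → Bool, sg (c y) * psi D k r (τ s) y) <
      ∑ s : Fin l → Fin b → Bool, ∑ r : Fin K → Bool, (2 : ℤ) ^ l := by
    refine Finset.sum_lt_sum_of_nonempty Finset.univ_nonempty fun s _ => ?_
    refine Finset.sum_lt_sum_of_nonempty Finset.univ_nonempty fun r _ => ?_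
    exact hno k r (τ s) (hτ s)
  have h2 : ∑ s : Fin l → Fin b → Bool, ∑ r : Fin K → Bool,
      ((K : ℤ) * ∑ y : Fin l → Bool, sg (c y) * psi D k r (τ s) y) =
      K * (2 ^ l * ∑ s : Fin l → Fin b → Bool, ∑ r : Fin K → Bool, φ s r) := by
    rw [← sum_mrg (f k), Finset.mul_sum]
    refine Finset.sum_congr rfl fun s _ => ?_
    rw [Finset.sum_comm, ← Finset.mul_sum, ]
    congr 1
    refine Finset.sum_congr rfl fun r _ => Finset.sum_congr rfl fun y _ => ?_
    rw [hψ]
  rw [h2] at h1
  have h3 : ∑ s : Fin l → Fin b → Bool, ∑ r : Fin K → Bool, (2 : ℤ) ^ l =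
      2 ^ l * ((Fintype.card (Fin l → Fin b → Bool) : ℤ) * 2 ^ K) := by
    simp only [Finset.sum_const, Finset.card_univ, nsmul_eq_mul]
    simp
    ring
  rw [h3] at h1
  have h4 : (0 : ℤ) < 2 ^ l := by positivity
  have h5 := mul_le_mul_of_nonneg_left hk h4.le
  linarith

open Classical in
/-- The number of messages all of whose generator outputs lie in a small set. -/
theorem nw_count {K l b ρ ℓ : ℕ} (f : Fin K → Fin l → Fin b)
    (hf : ∀ i k, i ≠ k → (agrS (f i) (f k)).card ≤ ρ) (D : (Fin K → Bool) → Prop)
    (hD : (Finset.univ.filter fun g : Fin K → Bool => D g).card * 2 ≤ 2 ^ K)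
    (cB : List Bool → (Fin l → Bool) → Bool) (𝓑 : Finset (List Bool))
    (h𝓑 : ∀ B ∈ 𝓑, ∀ s : Fin l → Fin b → Bool, D fun i => cB B fun j => s j (f i j))
    (hlist : ∀ w : (Fin l → Bool) → ℤ, (∀ y, w y * w y ≤ 1) →
      (𝓑.filter fun B => (2 : ℤ) ^ l ≤ K * ∑ y : Fin l → Bool, sg (cB B y) * w y).card ≤ ℓ) :
    𝓑.card ≤ K * (2 ^ K * (2 ^ 2 ^ ρ) ^ K) * ℓ := by
  have hsub : 𝓑 ⊆ (Finset.univ : Finset (Fin K)).biUnion fun k =>
      ((Finset.univ : Finset (Fin K → Bool)) ×ˢ tabs f k).biUnion fun q =>
        𝓑.filter fun B => (2 : ℤ) ^ l ≤ K * ∑ y : Fin l → Bool, sg (cB B y) * psi D k q.1 q.2 y := by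
    intro B hB
    obtain ⟨k, r, τ, hτ, h⟩ := nw_predict f D hD (cB B) (h𝓑 B hB)
    rw [Finset.mem_biUnion]
    refine ⟨k, Finset.mem_univ _, ?_⟩
    rw [Finset.mem_biUnion]
    exact ⟨(r, τ), Finset.mem_product.2 ⟨Finset.mem_univ _, hτ⟩, Finset.mem_filter.2 ⟨hB, h⟩⟩
  calc 𝓑.card ≤ _ := Finset.card_le_card hsub
    _ ≤ ∑ k : Fin K, (((Finset.univ : Finset (Fin K → Bool)) ×ˢ tabs f k).biUnion fun q =>
        𝓑.filter fun B => (2 : ℤ) ^ l ≤ K * ∑ y : Fin l → Bool,
          sg (cB B y) * psi D k q.1 q.2 y).card := Finset.card_biUnion_le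
    _ ≤ ∑ k : Fin K, (2 ^ K * (2 ^ 2 ^ ρ) ^ K) * ℓ := by
        refine Finset.sum_le_sum fun k _ => ?_
        refine Finset.card_biUnion_le.trans ?_
        calc ∑ q ∈ (Finset.univ : Finset (Fin K → Bool)) ×ˢ tabs f k,
            (𝓑.filter fun B => (2 : ℤ) ^ l ≤ K * ∑ y : Fin l → Bool,
              sg (cB B y) * psi D k q.1 q.2 y).card ≤
            ∑ q ∈ (Finset.univ : Finset (Fin K → Bool)) ×ˢ tabs f k, ℓ :=
              Finset.sum_le_sum fun q _ => hlist _ (psi_sq D k q.1 q.2)
          _ = ((Finset.univ : Finset (Fin K → Bool)) ×ˢ tabs f k).card * ℓ := by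
              rw [Finset.sum_const, smul_eq_mul]
          _ ≤ _ := by
              refine Nat.mul_le_mul_right _ ?_
              rw [Finset.card_product]
              refine Nat.mul_le_mul (by simp) (card_tabs_le f hf k)
    _ = _ := by
        rw [Finset.sum_const, Finset.card_univ, Fintype.card_fin, smul_eq_mul]
        ring

end Pool.Agent.H48.NE
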