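import Pool.Agent.H48.NE.Hoef
import Pool.Agent.H48.NE.R2

/-!
# Random tables give list decodable codes
-/

namespace Pool.Agent.H48.NE

set_option maxHeartbeats 400000

/-- The codeword of `T` for the table `g`. -/
def tcw (a p : ℕ) (g : ℕ → Bool) (T : List Bool) (z : ℕ) : Bool := g (z * 2 ^ a + hv T (z % p) p)

/-- Extension of a finite table by `false`. -/
def ext {K : ℕ} (g : Fin K → Bool) (i : ℕ) : Bool := if h : i < K then g ⟨i, h⟩ else false

lemma ext_of_lt {K : ℕ} (g : Fin K → Bool) {i : ℕ} (h : i < K) : ext g i = g ⟨i, h⟩ := dif_pos h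

/-- A table is bad if some word has `t` codewords nearby. -/
def BadT (n a e t p : ℕ) (g : ℕ → Bool) : Prop := ∃ w : ℕ → Bool, ∃ Λ : Finset (List Bool),
  Λ.card = t ∧ ∀ T ∈ Λ, T.length = 2 ^ n ∧ 2 ^ a + 2 * 2 ^ (a - e) ≤ 2 * agw a (tcw a p g T) w

/-- All bit lists of length `m`. -/
def allL (m : ℕ) : Finset (List Bool) := (Finset.univ : Finset (Fin m → Bool)).image List.ofFn

lemma mem_allL {m : ℕ} {T : List Bool} : T ∈ allL m ↔ T.length = m := by
  unfold allL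
  rw [Finset.mem_image]
  constructor
  · rintro ⟨x, _, rfl⟩
    exact List.length_ofFn
  · rintro rfl
    exact ⟨T.get, Finset.mem_univ _, List.ofFn_get T⟩

lemma card_allL_le (m : ℕ) : (allL m).card ≤ 2 ^ m := by
  refine Finset.card_image_le.trans ?_
  simp

lemma agw_congr {m : ℕ} {c c' w w' : ℕ → Bool} (hc : ∀ z < 2 ^ m, c z = c' z)
    (hw : ∀ z < 2 ^ m, w z = w' z) : agw m c w = agw m c' w' := by
  unfold agw
  congr 1
  refine Finset.filter_congr fun z hz => ?_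
  rw [Finset.mem_range] at hz
  rw [hc z hz, hw z hz]

/-- The test vector. -/
noncomputable def tv (a p : ℕ) (w : ℕ → Bool) (Λ : Finset (List Bool)) (i : ℕ) : ℤ :=
  sg (w (i / 2 ^ a)) * ∑ T ∈ Λ, if hv T (i / 2 ^ a % p) p = i % 2 ^ a then 1 else 0

lemma tv_add (a p : ℕ) (w : ℕ → Bool) (Λ : Finset (List Bool)) {z u : ℕ} (hu : u < 2 ^ a) :
    tv a p w Λ (z * 2 ^ a + u) = sg (w z) * ∑ T ∈ Λ, if hv T (z % p) p = u then 1 else 0 := by
  have e3 : (z * 2 ^ a + u) / 2 ^ a = z := by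
    rw [Nat.add_comm, Nat.add_mul_div_right _ _ (by positivity), Nat.div_eq_of_lt hu, zero_add]
  have e4 : (z * 2 ^ a + u) % 2 ^ a = u := by
    rw [Nat.add_comm, Nat.add_mul_mod_self_right, Nat.mod_eq_of_lt hu]
  unfold tv
  rw [e3, e4]

lemma sum_tv (a p : ℕ) (hp : 0 < p) (hpa : p ≤ 2 ^ a) (w g : ℕ → Bool)
    (Λ : Finset (List Bool)) :
    ∑ i ∈ Finset.range (2 ^ a * 2 ^ a), sg (g i) * tv a p w Λ i =
      ∑ T ∈ Λ, ∑ z ∈ Finset.range (2 ^ a), sg (tcw a p g T z) * sg (w z) := by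
  rw [sum_range_mul, Finset.sum_comm (s := Λ)]
  refine Finset.sum_congr rfl fun z _ => ?_
  have e1 : ∀ u ∈ Finset.range (2 ^ a), sg (g (z * 2 ^ a + u)) * tv a p w Λ (z * 2 ^ a + u) =
      ∑ T ∈ Λ, if hv T (z % p) p = u then sg (g (z * 2 ^ a + u)) * sg (w z) else 0 := by
    intro u hu
    rw [Finset.mem_range] at hu
    rw [tv_add a p w Λ hu, ← mul_assoc, Finset.mul_sum]
    refine Finset.sum_congr rfl fun T _ => ?_
    split_ifs <;> simp
  rw [Finset.sum_congr rfl e1, Finset.sum_comm]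
  refine Finset.sum_congr rfl fun T _ => ?_
  rw [Finset.sum_ite_eq]
  have : hv T (z % p) p < 2 ^ a := lt_of_lt_of_le (hv_lt _ _ hp) hpa
  rw [if_pos (Finset.mem_range.2 this)]
  rfl

lemma sum_tv_sq {n a p : ℕ} (hp : p.Prime) (hpa : p ≤ 2 ^ a) (hpa' : 2 ^ a ≤ 2 * p)
    (w : ℕ → Bool) (Λ : Finset (List Bool)) (hΛ : ∀ T ∈ Λ, T.length = 2 ^ n) :
    ∑ i ∈ Finset.range (2 ^ a * 2 ^ a), (tv a p w Λ i) ^ 2 ≤
      (Λ.card : ℤ) * 2 ^ a + (Λ.card : ℤ) ^ 2 * (2 * 2 ^ n) := by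
  classical
  rw [sum_range_mul]
  have e1 : ∀ z ∈ Finset.range (2 ^ a), ∑ u ∈ Finset.range (2 ^ a),
      (tv a p w Λ (z * 2 ^ a + u)) ^ 2 =
      ∑ T ∈ Λ, ∑ T' ∈ Λ, if hv T (z % p) p = hv T' (z % p) p then (1 : ℤ) else 0 := by
    intro z _
    have e2 : ∀ u ∈ Finset.range (2 ^ a), (tv a p w Λ (z * 2 ^ a + u)) ^ 2 =
        ∑ T ∈ Λ, ∑ T' ∈ Λ, if hv T (z % p) p = u then
          (if hv T' (z % p) p = u then (1 : ℤ) else 0) else 0 := by
      intro u hu
      rw [Finset.mem_range] at hu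
      rw [tv_add a p w Λ hu, mul_pow]
      have : sg (w z) ^ 2 = 1 := by rw [sq, sg_sq]
      rw [this, one_mul, sq, Finset.sum_mul_sum]
      refine Finset.sum_congr rfl fun T _ => Finset.sum_congr rfl fun T' _ => ?_
      split_ifs <;> simp
    rw [Finset.sum_congr rfl e2, Finset.sum_comm]
    refine Finset.sum_congr rfl fun T _ => ?_
    rw [Finset.sum_comm]
    refine Finset.sum_congr rfl fun T' _ => ?_
    rw [Finset.sum_ite_eq]
    have : hv T (z % p) p < 2 ^ a := lt_of_lt_of_le (hv_lt _ _ hp.pos) hpa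
    rw [if_pos (Finset.mem_range.2 this)]
    by_cases h : hv T (z % p) p = hv T' (z % p) p
    · rw [if_pos h, if_pos h.symm]
    · rw [if_neg h, if_neg (Ne.symm h)]
  rw [Finset.sum_congr rfl e1, Finset.sum_comm]
  have e3 : ∀ T ∈ Λ, ∑ z ∈ Finset.range (2 ^ a), ∑ T' ∈ Λ,
      (if hv T (z % p) p = hv T' (z % p) p then (1 : ℤ) else 0) ≤
      2 ^ a + (Λ.card : ℤ) * (2 * 2 ^ n) := by
    intro T hT
    rw [Finset.sum_comm, ← Finset.add_sum_erase _ _ hT]
    refine add_le_add ?_ ?_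
    · simp
    · calc ∑ T' ∈ Λ.erase T, ∑ z ∈ Finset.range (2 ^ a),
          (if hv T (z % p) p = hv T' (z % p) p then (1 : ℤ) else 0) ≤
          ∑ T' ∈ Λ.erase T, (2 * 2 ^ n : ℤ) := by
            refine Finset.sum_le_sum fun T' hT' => ?_
            rw [Finset.mem_erase] at hT'
            rw [Finset.sum_boole]
            have h1 := card_coll_le (M := 2 ^ a) hpa' hp (T := T) (T' := T')
              (by rw [hΛ T hT, hΛ T' hT'.2]) (Ne.symm hT'.1)
            rw [hΛ T hT] at h1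
            exact_mod_cast h1
        _ = ((Λ.erase T).card : ℤ) * (2 * 2 ^ n) := by rw [Finset.sum_const, nsmul_eq_mul]
        _ ≤ _ := by
            refine mul_le_mul_of_nonneg_right ?_ (by positivity)
            exact_mod_cast Finset.card_le_card (Finset.erase_subset _ _)
  calc _ ≤ ∑ T ∈ Λ, (2 ^ a + (Λ.card : ℤ) * (2 * 2 ^ n)) := Finset.sum_le_sum e3
    _ = _ := by
      rw [Finset.sum_const, nsmul_eq_mul]
      ring

open Classical in
/-- At most half of all tables are bad. -/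
theorem card_badT {n a e p K t : ℕ} (hp : p.Prime) (hpa : p ≤ 2 ^ a) (hpa' : 2 ^ a ≤ 2 * p)
    (he : n + 2 * e + 3 ≤ a) (hK : K = 2 ^ a * 2 ^ a) (ht : t = 2 ^ (2 * e + 2)) :
    ((Finset.univ : Finset (Fin K → Bool)).filter fun g =>
      BadT n a e t p (ext g)).card * 2 ≤ 2 ^ K := by
  -- test vectors
  let I : Finset ((Fin (2 ^ a) → Bool) × Finset (List Bool)) :=
    Finset.univ ×ˢ (Finset.powersetCard t (allL (2 ^ n)))
  have hI : I.card ≤ 2 ^ (2 ^ a) * 2 ^ (2 ^ n * t) := by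
    simp only [I]
    rw [Finset.card_product, Finset.card_powersetCard]
    refine Nat.mul_le_mul (by simp) ?_
    calc (allL (2 ^ n)).card.choose t ≤ (allL (2 ^ n)).card ^ t := Nat.choose_le_pow _ _
      _ ≤ (2 ^ (2 ^ n)) ^ t := Nat.pow_le_pow_left (card_allL_le _) _
      _ = _ := by rw [← pow_mul]
  let lam := t * (2 * 2 ^ (a - e))
  have hone : ∀ q ∈ I, ((Finset.univ : Finset (Fin K → Bool)).filter fun g =>
      (lam : ℤ) ≤ ∑ i : Fin K, sg (g i) * tv a p (ext q.1) q.2 i).card * 2 ^ (4 * 2 ^ a) ≤ 2 ^ K := by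
    intro q hq
    simp only [I] at hq
    rw [Finset.mem_product, Finset.mem_powersetCard] at hq
    obtain ⟨-, hq1, hq2⟩ := hq
    have h1 := hoeffding_nat (fun i : Fin K => tv a p (ext q.1) q.2 i) lam (2 * t * 2 ^ a)
      (4 * 2 ^ a) (by rw [ht]; positivity) ?_ ?_
    · rw [Fintype.card_fin] at h1
      exact h1
    · rw [Fin.sum_univ_eq_sum_range (fun i => (tv a p (ext q.1) q.2 i) ^ 2) K, hK]
      refine (sum_tv_sq hp hpa hpa' (ext q.1) q.2 (fun T hT => mem_allL.1 (hq1 hT))).trans ?_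
      rw [hq2]
      have h2 : t * (2 * 2 ^ n) ≤ 2 ^ a := by
        rw [ht, ← pow_succ', ← pow_add]
        exact Nat.pow_le_pow_right (by norm_num) (by omega)
      have h3 : (t : ℤ) * (2 * 2 ^ n) ≤ 2 ^ a := by exact_mod_cast h2
      have h4 : (0 : ℤ) ≤ t := by positivity
      push_cast
      nlinarith
    · simp only [lam]
      obtain ⟨X, hX⟩ : ∃ X, X = 2 ^ (a - e) := ⟨_, rfl⟩
      have h2 : 2 ^ a = X * 2 ^ e := by
        rw [hX, ← pow_add]
        congr 1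
        omega
      have h3 : t = 4 * (2 ^ e * 2 ^ e) := by
        rw [ht]
        ring
      rw [← hX, h2, h3]
      refine le_of_eq ?_
      ring
  have hsub : ((Finset.univ : Finset (Fin K → Bool)).filter fun g => BadT n a e t p (ext g)) ⊆
      I.biUnion fun q => (Finset.univ : Finset (Fin K → Bool)).filter fun g =>
        (lam : ℤ) ≤ ∑ i, sg (g i) * tv a p (ext q.1) q.2 i := by
    intro g hg
    rw [Finset.mem_filter] at hg
    obtain ⟨-, w, Λ, hΛ1, hΛ2⟩ := hg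
    rw [Finset.mem_biUnion]
    refine ⟨(fun z => w z, Λ), ?_, ?_⟩
    · simp only [I]
      rw [Finset.mem_product, Finset.mem_powersetCard]
      exact ⟨Finset.mem_univ _, fun T hT => mem_allL.2 (hΛ2 T hT).1, hΛ1⟩
    · rw [Finset.mem_filter]
      refine ⟨Finset.mem_univ _, ?_⟩
      have e1 : ∑ i : Fin K, sg (g i) * tv a p (ext fun z : Fin (2 ^ a) => w z) Λ i =
          ∑ i ∈ Finset.range K, sg (ext g i) * tv a p (ext fun z : Fin (2 ^ a) => w z) Λ i := by
        rw [← Fin.sum_univ_eq_sum_range (fun i => sg (ext g i) *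
          tv a p (ext fun z : Fin (2 ^ a) => w z) Λ i) K]
        refine Finset.sum_congr rfl fun i _ => ?_
        rw [ext_of_lt g i.2]
      have e2 := sum_tv a p hp.pos hpa (ext fun z : Fin (2 ^ a) => w z) (ext g) Λ
      rw [← hK] at e2
      rw [e1, e2]
      have h2 : ∀ T ∈ Λ, (2 * 2 ^ (a - e) : ℤ) ≤ ∑ z ∈ Finset.range (2 ^ a),
          sg (tcw a p (ext g) T z) * sg (ext (fun z : Fin (2 ^ a) => w z) z) := by
        intro T hT
        have h3 := (hΛ2 T hT).2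
        have h4 : agw a (tcw a p (ext g) T) w =
            agw a (tcw a p (ext g) T) (ext fun z : Fin (2 ^ a) => w z) := by
          refine agw_congr (fun _ _ => rfl) fun z hz => ?_
          rw [ext_of_lt _ hz]
        rw [h4] at h3
        rw [sum_sg_eq]
        have h5 : ((2 : ℕ) ^ a : ℤ) + 2 * (2 : ℕ) ^ (a - e) ≤
          2 * (agw a (tcw a p (ext g) T) (ext fun z : Fin (2 ^ a) => w z) : ℕ) := by
          exact_mod_cast h3
        unfold agw at h5
        push_cast at h5 ⊢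
        linarith
      calc (lam : ℤ) = ∑ T ∈ Λ, (2 * 2 ^ (a - e) : ℤ) := by
            rw [Finset.sum_const, hΛ1, nsmul_eq_mul]
            simp only [lam]
            push_cast
            ring
        _ ≤ _ := Finset.sum_le_sum h2
  have h6 : ((Finset.univ : Finset (Fin K → Bool)).filter fun g =>
      BadT n a e t p (ext g)).card * 2 ^ (4 * 2 ^ a) ≤ 2 ^ (2 ^ a) * 2 ^ (2 ^ n * t) * 2 ^ K := by
    calc _ ≤ (∑ q ∈ I, ((Finset.univ : Finset (Fin K → Bool)).filter fun g =>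
        (lam : ℤ) ≤ ∑ i : Fin K, sg (g i) * tv a p (ext q.1) q.2 i).card) * 2 ^ (4 * 2 ^ a) :=
          Nat.mul_le_mul_right _ ((Finset.card_le_card hsub).trans Finset.card_biUnion_le)
      _ = ∑ q ∈ I, ((Finset.univ : Finset (Fin K → Bool)).filter fun g =>
        (lam : ℤ) ≤ ∑ i : Fin K, sg (g i) * tv a p (ext q.1) q.2 i).card * 2 ^ (4 * 2 ^ a) :=
          Finset.sum_mul _ _ _
      _ ≤ ∑ q ∈ I, 2 ^ K := Finset.sum_le_sum hone
      _ = I.card * 2 ^ K := by rw [Finset.sum_const, smul_eq_mul]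
      _ ≤ _ := Nat.mul_le_mul_right _ hI
  have h7 : 2 ^ n * t ≤ 2 ^ a := by
    rw [ht, ← pow_add]
    exact Nat.pow_le_pow_right (by norm_num) (by omega)
  have h8 : 1 ≤ 2 ^ a := Nat.one_le_two_pow
  have h9 : 2 ^ (2 ^ a) * 2 ^ (2 ^ n * t) * 2 ≤ 2 ^ (4 * 2 ^ a) := by
    rw [← pow_add, ← pow_succ]
    exact Nat.pow_le_pow_right (by norm_num) (by omega)
  have h10 : (((Finset.univ : Finset (Fin K → Bool)).filter fun g =>
      BadT n a e t p (ext g)).card * 2) * 2 ^ (4 * 2 ^ a) ≤ 2 ^ K * 2 ^ (4 * 2 ^ a) := by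
    calc _ = (((Finset.univ : Finset (Fin K → Bool)).filter fun g =>
      BadT n a e t p (ext g)).card * 2 ^ (4 * 2 ^ a)) * 2 := by ring
      _ ≤ (2 ^ (2 ^ a) * 2 ^ (2 ^ n * t) * 2 ^ K) * 2 := Nat.mul_le_mul_right _ h6
      _ = 2 ^ K * (2 ^ (2 ^ a) * 2 ^ (2 ^ n * t) * 2) := by ring
      _ ≤ _ := Nat.mul_le_mul_left _ h9
  exact Nat.le_of_mul_le_mul_right h10 (by positivity)

end Pool.Agent.H48.NE
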