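import Pool.Agent.H48.NE.Des
import Pool.Agent.H48.NE.NW
import Pool.Agent.H48.NE.RandCode

/-!
# A language from whose approximations one can extract good tables
-/

namespace Pool.Agent.H48.NE

set_option maxHeartbeats 400000

lemma bit_val (L : List Bool) : ∀ i, decide (val L / 2 ^ i % 2 = 1) = L.getD i false := by
  induction L with
  | nil => intro i; simp [val]
  | cons b L ih =>
    intro i
    cases i with
    | zero =>
      simp only [val, pow_zero, Nat.div_one, List.getD_cons_zero]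
      cases b <;> simp
    | succ i =>
      have e : val (b :: L) / 2 ^ (i + 1) = val L / 2 ^ i := by
        rw [pow_succ', ← Nat.div_div_eq_div_mul]
        congr 1
        simp only [val]
        cases b <;> simp <;> omega
      rw [e, ih, List.getD_cons_succ]

/-- The number selected by the seed bits. -/
def selM (c l s x : ℕ) : ℕ :=
  val ((List.range l).map fun j => decide (s / 2 ^ (j * 2 ^ c + dig c j x) % 2 = 1))

/-- The generated table. -/
def gM (as ps c l : ℕ) (D : List ℕ) (B : List Bool) (s i : ℕ) : Bool :=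
  hc as ps B (selM c l s (D.getD i 0))

lemma badT_congr {n a e t p : ℕ} (hp : 0 < p) (hpa : p ≤ 2 ^ a) {g g' : ℕ → Bool}
    (h : ∀ i < 2 ^ a * 2 ^ a, g i = g' i) (hb : BadT n a e t p g) : BadT n a e t p g' := by
  obtain ⟨w, Λ, h1, h2⟩ := hb
  refine ⟨w, Λ, h1, fun T hT => ⟨(h2 T hT).1, ?_⟩⟩
  rw [agw_congr (c := tcw a p g' T) (c' := tcw a p g T) (w := w) (w' := w) ?_ (fun _ _ => rfl)]
  · exact (h2 T hT).2
  · intro z hz
    unfold tcw
    refine (h _ ?_).symm
    have h3 : hv T (z % p) p < 2 ^ a := lt_of_lt_of_le (hv_lt _ _ hp) hpa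
    calc z * 2 ^ a + hv T (z % p) p < z * 2 ^ a + 2 ^ a := by omega
      _ = (z + 1) * 2 ^ a := by ring
      _ ≤ _ := Nat.mul_le_mul_right _ hz

lemma val_ofFn_lt {l : ℕ} (y : Fin l → Bool) : val (List.ofFn y) < 2 ^ l := by
  have := val_lt (List.ofFn y)
  rwa [List.length_ofFn] at this

lemma getD_ofFn {l : ℕ} (y : Fin l → Bool) (j : Fin l) : (List.ofFn y).getD j false = y j := by
  simp [List.getD]

lemma bit_val_ofFn {l : ℕ} (y : Fin l → Bool) (j : Fin l) :
    decide (val (List.ofFn y) / 2 ^ (j : ℕ) % 2 = 1) = y j := by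
  rw [bit_val, getD_ofFn]

lemma sum_ofFn {l : ℕ} (φ : ℕ → ℤ) :
    ∑ y : Fin l → Bool, φ (val (List.ofFn y)) = ∑ i ∈ Finset.range (2 ^ l), φ i := by
  classical
  have hinj : Function.Injective fun y : Fin l → Bool => val (List.ofFn y) := by
    intro y y' h
    funext j
    have h1 := bit_val_ofFn y j
    have h2 := bit_val_ofFn y' j
    simp only at h
    rw [h] at h1
    exact h1.symm.trans h2
  have himg : (Finset.univ.image fun y : Fin l → Bool => val (List.ofFn y)) =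
      Finset.range (2 ^ l) := by
    refine Finset.eq_of_subset_of_card_le ?_ ?_
    · intro i hi
      rw [Finset.mem_image] at hi
      obtain ⟨y, -, rfl⟩ := hi
      exact Finset.mem_range.2 (val_ofFn_lt y)
    · rw [Finset.card_image_of_injective _ hinj, Finset.card_range]
      simp
  rw [← himg, Finset.sum_image fun y _ y' _ h => hinj h]

/-- The list bound in the form needed for the counting argument. -/
lemma nw_list {a m as ps l K : ℕ} (hp : ps.Prime) (h1 : 2 ^ as ≤ 2 * ps) (h2 : ps ≤ 2 ^ as)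
    (hl : l = as + as) (hK : K = 2 ^ (2 * a)) (has : m + 4 * a + 2 ≤ as)
    (w : (Fin l → Bool) → ℤ) (hw : ∀ y, w y * w y ≤ 1) (Λ : Finset (List Bool))
    (hΛ : ∀ B ∈ Λ, B.length = 2 ^ m ∧
      (2 : ℤ) ^ l ≤ K * ∑ y : Fin l → Bool, sg (hc as ps B (val (List.ofFn y))) * w y) :
    Λ.card ≤ 2 ^ (4 * a + 1) := by
  let w' : ℕ → ℤ := fun i => w fun j : Fin l => decide (i / 2 ^ (j : ℕ) % 2 = 1)
  have e1 : ∀ y : Fin l → Bool, w' (val (List.ofFn y)) = w y := by
    intro y
    simp only [w']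
    congr 1
    funext j
    exact bit_val_ofFn y j
  have e2 : ∀ B : List Bool, ∑ y : Fin l → Bool, sg (hc as ps B (val (List.ofFn y))) * w y =
      ∑ i ∈ Finset.range (2 ^ as * 2 ^ as), sg (hc as ps B i) * w' i := by
    intro B
    rw [← pow_add, ← hl, ← sum_ofFn (l := l) (fun i => sg (hc as ps B i) * w' i)]
    refine Finset.sum_congr rfl fun y _ => ?_
    rw [e1]
  obtain ⟨X, hX⟩ : ∃ X : ℤ, X = 2 ^ (l - 2 * a) := ⟨_, rfl⟩
  have hXpos : 0 < X := by rw [hX]; positivity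
  have hXl : (2 : ℤ) ^ (2 * a) * X = 2 ^ l := by
    rw [hX, ← pow_add]
    congr 1
    omega
  have h3 := hc_list (a := as) (p := ps) (k := 2 ^ m) hp h1 h2 w' (fun i => hw _) X hXpos.le ?_ Λ ?_
  · have h4 : (2 : ℤ) ^ as * 2 ^ as = 2 ^ l := by rw [← pow_add, hl]
    rw [h4, ← hXl] at h3
    have h5 : X ^ 2 * (Λ.card : ℤ) ≤ X ^ 2 * (2 * (2 ^ (2 * a)) ^ 2) := by nlinarith
    have h6 := le_of_mul_le_mul_left h5 (by positivity)
    have h7 : (2 : ℤ) * (2 ^ (2 * a)) ^ 2 = 2 ^ (4 * a + 1) := by ring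
    rw [h7] at h6
    exact_mod_cast h6
  · have h4 : (2 : ℤ) * (2 ^ as * 2 ^ as) * (2 * (2 ^ m : ℕ) * 2 ^ as) =
        2 ^ (as + as + as + m + 2) := by
      push_cast
      ring
    have h5 : X ^ 2 = 2 ^ ((l - 2 * a) + (l - 2 * a)) := by
      rw [hX]
      ring
    rw [h4, h5]
    exact pow_le_pow_right₀ (by norm_num) (by omega)
  · intro B hB
    obtain ⟨h4, h5⟩ := hΛ B hB
    refine ⟨h4, ?_⟩
    rw [e2, hK, ← hXl] at h5
    push_cast at h5
    exact le_of_mul_le_mul_left h5 (by positivity)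

open Classical in
/-- A word such that every word close to it yields a good table. -/
theorem exists_hard {n a e t p K m es as ps c l ρ : ℕ} (D : List ℕ) (hp : p.Prime)
    (hpa : p ≤ 2 ^ a) (hpa' : 2 ^ a ≤ 2 * p) (he : n + 2 * e + 3 ≤ a)
    (hK : K = 2 ^ a * 2 ^ a) (ht : t = 2 ^ (2 * e + 2))
    (hps : ps.Prime) (hps1 : 2 ^ as ≤ 2 * ps) (hps2 : ps ≤ 2 ^ as) (hl : l = as + as)
    (has : m + 4 * a + 2 ≤ as)
    (hD : ∀ i < K, ∀ k < K, i ≠ k → agD c l (D.getD i 0) (D.getD k 0) ≤ ρ)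
    (hρ : ρ ≤ a) (hm : 3 * a + 2 + 2 * es ≤ m) :
    ∃ L : List Bool, L.length = 2 ^ m ∧ ∀ B : List Bool, B.length = 2 ^ m →
      2 ^ m + 2 * 2 ^ (m - es) ≤ 2 * agw m (fun i => L.getD i false) (fun i => B.getD i false) →
      ∃ s < 2 ^ (l * 2 ^ c), ¬ BadT n a e t p (gM as ps c l D B s) := by
  have hK2 : K = 2 ^ (2 * a) := by rw [hK, ← pow_add]; congr 1; ring
  have ha1 : 1 ≤ a := by omega
  let 𝓑 : Finset (List Bool) := (allL (2 ^ m)).filter fun B =>
    ∀ s < 2 ^ (l * 2 ^ c), BadT n a e t p (gM as ps c l D B s)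
  let f : Fin K → Fin l → Fin (2 ^ c) := fun i j =>
    ⟨dig c j (D.getD i 0), Nat.mod_lt _ (by positivity)⟩
  have hf : ∀ i k, i ≠ k → (agrS (f i) (f k)).card ≤ ρ := by
    intro i k hik
    refine le_trans ?_ (hD i i.2 k k.2 (fun h => hik (Fin.ext h)))
    unfold agrS agD
    refine Finset.card_le_card_of_injOn (fun j => (j : ℕ)) ?_ ?_
    · intro j hj
      rw [Finset.mem_coe, Finset.mem_filter] at hj
      rw [Finset.mem_coe, Finset.mem_filter, Finset.mem_range]
      refine ⟨j.2, ?_⟩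
      exact congrArg Fin.val hj.2
    · intro j _ j' _ h
      exact Fin.ext h
  have hcount : 𝓑.card ≤ K * (2 ^ K * (2 ^ 2 ^ ρ) ^ K) * 2 ^ (4 * a + 1) := by
    refine nw_count f hf (fun g => BadT n a e t p (ext g))
      (card_badT hp hpa hpa' he hK ht)
      (fun B y => hc as ps B (val (List.ofFn y))) 𝓑 ?_ ?_
    · intro B hB S
      simp only [𝓑] at hB
      rw [Finset.mem_filter] at hB
      -- the seed as a number
      let bits : List Bool := List.ofFn fun x : Fin (l * 2 ^ c) =>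
        if h : (x : ℕ) / 2 ^ c < l then S ⟨x / 2 ^ c, h⟩ ⟨x % 2 ^ c, Nat.mod_lt _ (by positivity)⟩
        else false
      have hs : val bits < 2 ^ (l * 2 ^ c) := val_ofFn_lt _
      refine badT_congr hp.pos hpa ?_ (hB.2 _ hs)
      intro i hi
      rw [← hK] at hi
      rw [ext_of_lt _ hi]
      unfold gM selM
      congr 2
      refine List.ext_getElem (by simp) fun j hj hj' => ?_
      simp only [List.length_map, List.length_range] at hj
      rw [List.getElem_map, List.getElem_range, List.getElem_ofFn, bit_val]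
      have h1 : j * 2 ^ c + dig c j (D.getD i 0) < l * 2 ^ c := by
        have h2 : dig c j (D.getD i 0) < 2 ^ c := Nat.mod_lt _ (by positivity)
        calc j * 2 ^ c + dig c j (D.getD i 0) < j * 2 ^ c + 2 ^ c := by omega
          _ = (j + 1) * 2 ^ c := by ring
          _ ≤ _ := Nat.mul_le_mul_right _ hj
      have h2 := getD_ofFn (fun x : Fin (l * 2 ^ c) => if h : (x : ℕ) / 2 ^ c < l then
        S ⟨x / 2 ^ c, h⟩ ⟨x % 2 ^ c, Nat.mod_lt _ (by positivity)⟩ else false) ⟨_, h1⟩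
      simp only at h2
      rw [h2]
      have h3 : dig c j (D.getD i 0) < 2 ^ c := Nat.mod_lt _ (by positivity)
      have e3 : (j * 2 ^ c + dig c j (D.getD i 0)) / 2 ^ c = j := by
        rw [Nat.add_comm, Nat.add_mul_div_right _ _ (by positivity), Nat.div_eq_of_lt h3,
          zero_add]
      have e4 : (j * 2 ^ c + dig c j (D.getD i 0)) % 2 ^ c = dig c j (D.getD i 0) := by
        rw [Nat.add_comm, Nat.add_mul_mod_self_right, Nat.mod_eq_of_lt h3]
      rw [dif_pos (by rw [e3]; exact hj)]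
      congr 1
      · congr 1
      · exact Fin.ext e4
    · intro w hw
      refine nw_list hps hps1 hps2 hl hK2 has w hw _ fun B hB => ?_
      simp only [𝓑] at hB
      rw [Finset.mem_filter, Finset.mem_filter] at hB
      exact ⟨mem_allL.1 hB.1.1, hB.2⟩
  have hcount2 : 𝓑.card < 2 ^ (2 * 2 ^ (m - 2 * es)) := by
    refine lt_of_le_of_lt hcount ?_
    have e1 : K * (2 ^ K * (2 ^ 2 ^ ρ) ^ K) * 2 ^ (4 * a + 1) =
        2 ^ (2 * a + (K + 2 ^ ρ * K) + (4 * a + 1)) := by
      rw [pow_add 2 (2 * a + (K + 2 ^ ρ * K)), pow_add 2 (2 * a), pow_add 2 K,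
        pow_mul 2 (2 ^ ρ) K, ← hK2]
    rw [e1]
    refine Nat.pow_lt_pow_right (by norm_num) ?_
    have h1 : 2 ^ ρ ≤ 2 ^ a := Nat.pow_le_pow_right (by norm_num) hρ
    have h2 : 2 ^ (3 * a + 2) ≤ 2 ^ (m - 2 * es) :=
      Nat.pow_le_pow_right (by norm_num) (by omega)
    have h3 : 2 ^ (3 * a + 2) = 4 * (2 ^ a * K) := by
      rw [hK]
      ring
    have h4 : 2 ^ ρ * K ≤ 2 ^ a * K := Nat.mul_le_mul_right _ h1
    have h5 : 1 ≤ 2 ^ a := Nat.one_le_two_pow
    have h6 : K ≤ 2 ^ a * K := Nat.le_mul_of_pos_left _ h5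
    have h7 : 1 + a * 7 ≤ 2 ^ a * K := by
      have h8 := one_add_mul_le_pow (R := ℤ) (a := 7) (by norm_num) a
      have h9 : ((1 : ℤ) + 7) ^ a = 2 ^ a * (2 ^ a * 2 ^ a) := by
        rw [← mul_pow, ← mul_pow]
        norm_num
      rw [h9] at h8
      rw [hK]
      exact_mod_cast h8
    omega
  -- random word
  obtain ⟨M, hM⟩ : ∃ M, M = 2 ^ m := ⟨_, rfl⟩
  have hone : ∀ B ∈ 𝓑, ((Finset.univ : Finset (Fin M → Bool)).filter fun g =>
      ((2 * 2 ^ (m - es) : ℕ) : ℤ) ≤ ∑ i : Fin M, sg (g i) * sg (B.getD i false)).card *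
        2 ^ (2 * 2 ^ (m - 2 * es)) ≤ 2 ^ M := by
    intro B _
    have h1 := hoeffding_nat (fun i : Fin M => sg (B.getD i false)) (2 * 2 ^ (m - es))
      M (2 * 2 ^ (m - 2 * es)) (by rw [hM]; positivity) ?_ ?_
    · rw [Fintype.card_fin] at h1
      exact h1
    · have e1 : ∀ i : Fin M, sg (B.getD i false) ^ 2 = 1 := fun i => by rw [sq, sg_sq]
      simp only [e1]
      simp
    · obtain ⟨X, hX⟩ : ∃ X, X = 2 ^ (m - 2 * es) := ⟨_, rfl⟩
      have h2 : M = X * (2 ^ es * 2 ^ es) := by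
        rw [hM, hX, ← pow_add, ← pow_add]
        congr 1
        omega
      have h3 : 2 ^ (m - es) = X * 2 ^ es := by
        rw [hX, ← pow_add]
        congr 1
        omega
      rw [← hX, h2, h3]
      refine le_of_eq ?_
      ring
  by_contra hno
  push Not at hno
  have hcover : (Finset.univ : Finset (Fin M → Bool)) ⊆ 𝓑.biUnion fun B =>
      (Finset.univ : Finset (Fin M → Bool)).filter fun g =>
        ((2 * 2 ^ (m - es) : ℕ) : ℤ) ≤ ∑ i : Fin M, sg (g i) * sg (B.getD i false) := by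
    intro g _
    obtain ⟨B, hB1, hB2, hB3⟩ := hno (List.ofFn g) (by rw [List.length_ofFn, hM])
    rw [Finset.mem_biUnion]
    refine ⟨B, ?_, ?_⟩
    · simp only [𝓑]
      rw [Finset.mem_filter]
      exact ⟨mem_allL.2 hB1, hB3⟩
    · rw [Finset.mem_filter]
      refine ⟨Finset.mem_univ _, ?_⟩
      have e1 : ∑ i : Fin M, sg (g i) * sg (B.getD i false) =
          ∑ i ∈ Finset.range M, sg ((List.ofFn g).getD i false) * sg (B.getD i false) := by
        rw [← Fin.sum_univ_eq_sum_range (fun i => sg ((List.ofFn g).getD i false) *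
          sg (B.getD i false)) M]
        refine Finset.sum_congr rfl fun i _ => ?_
        rw [getD_ofFn]
      rw [e1, sum_sg_eq M (fun i => (List.ofFn g).getD i false) (fun i => B.getD i false)]
      have h5 : ((2 : ℕ) ^ m : ℤ) + 2 * (2 : ℕ) ^ (m - es) ≤
          2 * (agw m (fun i => (List.ofFn g).getD i false) (fun i => B.getD i false) : ℕ) := by
        exact_mod_cast hB2
      unfold agw at h5
      rw [← hM] at h5
      have h6 : (M : ℤ) = (2 : ℕ) ^ m := by rw [hM]; push_cast; rfl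
      push_cast at h5 h6 ⊢
      linarith
  have h1 := (Finset.card_le_card hcover).trans Finset.card_biUnion_le
  have h2 : 2 ^ M * 2 ^ (2 * 2 ^ (m - 2 * es)) ≤ 𝓑.card * 2 ^ M := by
    calc 2 ^ M * 2 ^ (2 * 2 ^ (m - 2 * es)) =
        (Finset.univ : Finset (Fin M → Bool)).card * 2 ^ (2 * 2 ^ (m - 2 * es)) := by simp
      _ ≤ (∑ B ∈ 𝓑, ((Finset.univ : Finset (Fin M → Bool)).filter fun g =>
        ((2 * 2 ^ (m - es) : ℕ) : ℤ) ≤ ∑ i : Fin M, sg (g i) * sg (B.getD i false)).card) *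
          2 ^ (2 * 2 ^ (m - 2 * es)) := Nat.mul_le_mul_right _ h1
      _ = ∑ B ∈ 𝓑, ((Finset.univ : Finset (Fin M → Bool)).filter fun g =>
        ((2 * 2 ^ (m - es) : ℕ) : ℤ) ≤ ∑ i : Fin M, sg (g i) * sg (B.getD i false)).card *
          2 ^ (2 * 2 ^ (m - 2 * es)) := Finset.sum_mul _ _ _
      _ ≤ ∑ B ∈ 𝓑, 2 ^ M := Finset.sum_le_sum hone
      _ = _ := by rw [Finset.sum_const, smul_eq_mul]
  have h3 : 𝓑.card * 2 ^ M < 2 ^ (2 * 2 ^ (m - 2 * es)) * 2 ^ M :=
    Nat.mul_lt_mul_of_pos_right hcount2 (by positivity)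
  have h4 : 2 ^ (2 * 2 ^ (m - 2 * es)) * 2 ^ M = 2 ^ M * 2 ^ (2 * 2 ^ (m - 2 * es)) :=
    Nat.mul_comm _ _
  omega

end Pool.Agent.H48.NE
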