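import Pool.Agent.H48.NE.Math

/-!
# Exponential moment bound for random signs
-/

namespace Pool.Agent.H48.NE

theorem hoeffding {ι : Type} [Fintype ι] [DecidableEq ι] (v : ι → ℤ) (lam V : ℝ) (hV : 0 < V)
    (hv : ∑ i, (v i : ℝ) ^ 2 ≤ V) (hlam : 0 ≤ lam) :
    (((Finset.univ : Finset (ι → Bool)).filter fun g =>
      lam ≤ ∑ i, (sg (g i) : ℝ) * (v i : ℝ)).card : ℝ) * Real.exp (lam ^ 2 / (2 * V)) ≤
      2 ^ Fintype.card ι := by
  set θ : ℝ := lam / V with hθ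
  have hθ0 : 0 ≤ θ := div_nonneg hlam hV.le
  have h1 : ∑ g : ι → Bool, Real.exp (θ * ∑ i, (sg (g i) : ℝ) * (v i : ℝ)) =
      ∏ i, ∑ b : Bool, Real.exp (θ * ((sg b : ℝ) * (v i : ℝ))) := by
    rw [Finset.prod_univ_sum, Fintype.piFinset_univ]
    refine Finset.sum_congr rfl fun g _ => ?_
    rw [Finset.mul_sum, Real.exp_sum]
  have h2 : ∀ i, ∑ b : Bool, Real.exp (θ * ((sg b : ℝ) * (v i : ℝ))) ≤
      2 * Real.exp ((θ ^ 2 / 2) * (v i : ℝ) ^ 2) := by
    intro i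
    have e : ∑ b : Bool, Real.exp (θ * ((sg b : ℝ) * (v i : ℝ))) = 2 * Real.cosh (θ * v i) := by
      rw [Fintype.sum_bool, Real.cosh_eq]
      simp only [sg, cond_true, cond_false]
      push_cast
      rw [show θ * (-1 * (v i : ℝ)) = -(θ * v i) by ring, show θ * (1 * (v i : ℝ)) = θ * v i by ring]
      ring
    rw [e]
    have h3 := Real.cosh_le_exp_half_sq (θ * v i)
    rw [show (θ * (v i : ℝ)) ^ 2 / 2 = (θ ^ 2 / 2) * (v i : ℝ) ^ 2 by ring] at h3
    linarith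
  have h3 : ∏ i, ∑ b : Bool, Real.exp (θ * ((sg b : ℝ) * (v i : ℝ))) ≤
      2 ^ Fintype.card ι * Real.exp (θ ^ 2 / 2 * V) := by
    calc ∏ i, ∑ b : Bool, Real.exp (θ * ((sg b : ℝ) * (v i : ℝ))) ≤
        ∏ i, (2 * Real.exp ((θ ^ 2 / 2) * (v i : ℝ) ^ 2)) := by
          refine Finset.prod_le_prod (fun i _ => ?_) (fun i _ => h2 i)
          exact Finset.sum_nonneg fun b _ => (Real.exp_pos _).le
      _ = 2 ^ Fintype.card ι * Real.exp ((θ ^ 2 / 2) * ∑ i, (v i : ℝ) ^ 2) := by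
          rw [Finset.prod_mul_distrib, Finset.prod_const, Finset.card_univ, Finset.mul_sum,
            Real.exp_sum]
      _ ≤ _ := by
          refine mul_le_mul_of_nonneg_left ?_ (by positivity)
          exact Real.exp_le_exp.2 (mul_le_mul_of_nonneg_left hv (by positivity))
  set S := (Finset.univ : Finset (ι → Bool)).filter fun g =>
      lam ≤ ∑ i, (sg (g i) : ℝ) * (v i : ℝ) with hS
  have h4 : (S.card : ℝ) * Real.exp (θ * lam) ≤
      ∑ g : ι → Bool, Real.exp (θ * ∑ i, (sg (g i) : ℝ) * (v i : ℝ)) := by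
    calc (S.card : ℝ) * Real.exp (θ * lam) = ∑ g ∈ S, Real.exp (θ * lam) := by
          rw [Finset.sum_const, nsmul_eq_mul]
      _ ≤ ∑ g ∈ S, Real.exp (θ * ∑ i, (sg (g i) : ℝ) * (v i : ℝ)) := by
          refine Finset.sum_le_sum fun g hg => ?_
          rw [hS, Finset.mem_filter] at hg
          exact Real.exp_le_exp.2 (mul_le_mul_of_nonneg_left hg.2 hθ0)
      _ ≤ _ := Finset.sum_le_sum_of_subset_of_nonneg (Finset.subset_univ _)
          fun g _ _ => (Real.exp_pos _).le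
  have h5 : (S.card : ℝ) * Real.exp (θ * lam) ≤
      2 ^ Fintype.card ι * Real.exp (θ ^ 2 / 2 * V) := h4.trans (h1 ▸ h3)
  have e1 : θ * lam = lam ^ 2 / (2 * V) + lam ^ 2 / (2 * V) := by
    rw [hθ]; field_simp; ring
  have e2 : θ ^ 2 / 2 * V = lam ^ 2 / (2 * V) := by
    rw [hθ]; field_simp
  rw [e1, e2, Real.exp_add, ← mul_assoc] at h5
  exact le_of_mul_le_mul_right h5 (Real.exp_pos _)

/-- Integer form. -/
theorem hoeffding_nat {ι : Type} [Fintype ι] [DecidableEq ι] (v : ι → ℤ) (lam V k : ℕ)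
    (hV : 0 < V) (hv : ∑ i, (v i) ^ 2 ≤ (V : ℤ)) (hk : k * (2 * V) ≤ lam ^ 2) :
    ((Finset.univ : Finset (ι → Bool)).filter fun g =>
      (lam : ℤ) ≤ ∑ i, sg (g i) * v i).card * 2 ^ k ≤ 2 ^ Fintype.card ι := by
  have hV' : (0 : ℝ) < V := by exact_mod_cast hV
  have h1 := hoeffding v lam V hV' (by exact_mod_cast hv) (by positivity)
  have h2 : (2 : ℝ) ^ k ≤ Real.exp ((lam : ℝ) ^ 2 / (2 * V)) := by
    have h3 : (k : ℝ) ≤ (lam : ℝ) ^ 2 / (2 * V) := by
      rw [le_div_iff₀ (by positivity)]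
      exact_mod_cast hk
    have h4 : (2 : ℝ) ≤ Real.exp 1 := by
      have := Real.add_one_le_exp 1
      linarith
    calc (2 : ℝ) ^ k ≤ Real.exp 1 ^ k := pow_le_pow_left₀ (by norm_num) h4 _
      _ = Real.exp k := by rw [← Real.exp_nat_mul, mul_one]
      _ ≤ _ := Real.exp_le_exp.2 h3
  have e : ((Finset.univ : Finset (ι → Bool)).filter fun g =>
      (lam : ℤ) ≤ ∑ i, sg (g i) * v i) = ((Finset.univ : Finset (ι → Bool)).filter fun g =>
      (lam : ℝ) ≤ ∑ i, (sg (g i) : ℝ) * (v i : ℝ)) := by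
    refine Finset.filter_congr fun g _ => ?_
    rw [← Int.cast_le (R := ℝ)]
    push_cast
    rfl
  rw [e]
  have h5 : (((Finset.univ : Finset (ι → Bool)).filter fun g =>
      (lam : ℝ) ≤ ∑ i, (sg (g i) : ℝ) * (v i : ℝ)).card : ℝ) * 2 ^ k ≤ 2 ^ Fintype.card ι := by
    refine le_trans (mul_le_mul_of_nonneg_left h2 (by positivity)) h1
  exact_mod_cast h5

end Pool.Agent.H48.NE
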