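import Pool.Agent.H48.NE.Conv

/-!
# Predicates decided in polynomial space, and bounded quantifiers
-/

namespace Pool.Agent.H48.NE

open TMLib Polynomial

variable {α β γ δ σ τ : Type} [Enc α] [Enc β] [Enc γ] [Enc δ] [Enc σ] [Enc τ]

/-! ### Enumeration of the bit strings -/

/-- The next bit string (by length, then by value). -/
def nxt : List Bool → List Bool
  | [] => [false]
  | false :: l => true :: l
  | true :: l => false :: nxt l

/-- The rank of a bit string in the enumeration. -/
def rk : List Bool → ℕ
  | [] => 0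
  | false :: l => 2 * rk l + 1
  | true :: l => 2 * rk l + 2

lemma rk_nxt (l : List Bool) : rk (nxt l) = rk l + 1 := by
  induction l with
  | nil => rfl
  | cons b l ih => cases b <;> simp [nxt, rk, ih]; omega

lemma rk_inj {l l' : List Bool} (h : rk l = rk l') : l = l' := by
  induction l generalizing l' with
  | nil =>
    cases l' with
    | nil => rfl
    | cons b l' => cases b <;> simp [rk] at h
  | cons b l ih =>
    cases l' with
    | nil => cases b <;> simp [rk] at h
    | cons b' l' =>
      cases b <;> cases b' <;> simp only [rk] at h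
      · rw [ih (by omega : rk l = rk l')]
      · omega
      · omega
      · rw [ih (by omega : rk l = rk l')]

lemma rk_lt (l : List Bool) : rk l + 2 ≤ 2 ^ (l.length + 1) := by
  induction l with
  | nil => simp [rk]
  | cons b l ih =>
    cases b
    · simp only [rk, List.length_cons]
      rw [pow_succ]
      omega
    · simp only [rk, List.length_cons]
      rw [pow_succ]
      omega

lemma le_rk (l : List Bool) : 2 ^ l.length ≤ rk l + 1 := by
  induction l with
  | nil => simp [rk]
  | cons b l ih =>
    cases b
    · simp only [rk, List.length_cons]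
      rw [pow_succ]
      omega
    · simp only [rk, List.length_cons]
      rw [pow_succ]
      omega

lemma length_le_iff (l : List Bool) (n : ℕ) : l.length ≤ n ↔ rk l + 2 ≤ 2 ^ (n + 1) := by
  constructor
  · intro h
    exact (rk_lt l).trans (Nat.pow_le_pow_right (by norm_num) (by omega))
  · intro h
    by_contra hn
    have h1 : 2 ^ (n + 1) ≤ 2 ^ l.length := Nat.pow_le_pow_right (by norm_num) (by omega)
    have := le_rk l
    omega

lemma nxt_eq (l : List Bool) : nxt l =
    (List.replicate (l.takeWhile id).length false) ++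
      (List.casesOn (motive := fun _ => List Bool) (l.drop (l.takeWhile id).length) [false]
        (fun _ t => true :: t)) := by
  induction l with
  | nil => rfl
  | cons b l ih =>
    cases b
    · simp [nxt]
    · simp [nxt, ih, List.replicate_succ]

/-- the length of the initial block of `true` -/
def tw (l : List Bool) : ℕ :=
  ((List.range l.length).filter fun i => (l.take (i + 1)).all id).length

lemma tw_eq (l : List Bool) : tw l = (l.takeWhile id).length := by
  induction l with
  | nil => rfl
  | cons b l ih =>
    cases b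
    · simp [tw]
    · have h : tw (true :: l) = tw l + 1 := by
        unfold tw
        rw [List.length_cons, List.range_succ_eq_map, List.filter_cons]
        simp only [zero_add, List.take_succ_cons, List.take_zero, List.all_cons, id,
          List.all_nil, Bool.and_self, if_true, List.length_cons, List.filter_map,
          List.length_map]
        congr 2
      rw [h, ih]
      simp

lemma ptime_nxt {f : α → List Bool} (hf : PTime f) : PTime (fun x => nxt (f x)) := by
  refine PTime.comp (g := nxt) ?_ hf
  have htw : PTime tw := by unfold tw; fun_prop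
  refine PTime.congr (f := fun l : List Bool => (List.replicate (tw l) false) ++
      (List.casesOn (motive := fun _ => List Bool) (l.drop (tw l)) [false]
        (fun _ t => true :: t))) ?_ (fun l => by rw [nxt_eq, tw_eq])
  refine PTime.append (by fun_prop) ?_
  exact PTime.listCases (by fun_prop) (by fun_prop) (by fun_prop)

/-! ### Bounded search -/

/-- Bounded existential quantification over bit strings. -/
theorem PSpF.exists_bits {R : α × List Bool → Bool} (hR : PSpF R) {q : α → ℕ} (hq : PTime q) :
    ∃ f : α → Bool, PSpF f ∧ ∀ a, f a = true ↔ ∃ w : List Bool, w.length ≤ q a ∧ R (a, w) = true := by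
  classical
  obtain ⟨σ, hσ, init, G, fin, P, h1, h2, h3, h4⟩ := hR
  obtain ⟨Q, hQ⟩ := hq.exists_size_le
  let K : α × List Bool × σ → Bool × (α × List Bool × σ) := fun s =>
    bif (G s.2.2).1 then (true, (s.1, s.2.1, (G s.2.2).2)) else
      bif fin (G s.2.2).2 then (false, (s.1, s.2.1, (G s.2.2).2)) else
        bif decide ((nxt s.2.1).length ≤ q s.1) then (true, (s.1, nxt s.2.1, init (s.1, nxt s.2.1)))
        else (false, (s.1, s.2.1, (G s.2.2).2))
  have hK : PTime K := by
    have hG : PTime (fun s : α × List Bool × σ => G s.2.2) :=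
      h2.comp (PTime.snd (PTime.snd PTime.id))
    have hn : PTime (fun s : α × List Bool × σ => nxt s.2.1) :=
      ptime_nxt (PTime.fst (PTime.snd PTime.id))
    have h0 : PTime (fun s : α × List Bool × σ => (s.1, s.2.1, (G s.2.2).2)) :=
      PTime.pair (PTime.fst PTime.id) (PTime.pair (PTime.fst (PTime.snd PTime.id)) (PTime.snd hG))
    refine PTime.cond (PTime.fst hG) (PTime.pair (PTime.const true) h0) ?_
    refine PTime.cond (h3.comp (PTime.snd hG)) (PTime.pair (PTime.const false) h0) ?_
    refine PTime.cond (PTime.le (PTime.length hn) (hq.comp (PTime.fst PTime.id))) ?_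
      (PTime.pair (PTime.const false) h0)
    exact PTime.pair (PTime.const true) (PTime.pair (PTime.fst PTime.id) (PTime.pair hn
      (h1.comp (PTime.pair (PTime.fst PTime.id) hn))))
  -- the size bound
  let W : ℕ[X] := 1 + Q * 4
  let S : ℕ[X] := P.comp (1 + X + W)
  let BB : ℕ[X] := 2 + X + W + S
  have hW : ∀ a (w : List Bool), w.length ≤ q a → sz w ≤ W.eval (sz a) := by
    intro a w hw
    have e1 := sz_list_le w (q a) 3 hw (fun b _ => sz_bool_le b)
    have e2 := hQ a
    simp only [sz_nat] at e2
    have e3 : W.eval (sz a) = 1 + Q.eval (sz a) * 4 := by simp [W]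
    rw [e3]
    omega
  have hmain : ∀ (a : α) (N : ℕ) (w : List Bool), w.length ≤ q a → 2 ^ (q a + 1) - rk w ≤ N →
      ∃ t, Conv K (BB.eval (sz a)) (a, w, init (a, w)) t ∧ (fin t.2.2 = true ↔
        ∃ w' : List Bool, rk w ≤ rk w' ∧ w'.length ≤ q a ∧ R (a, w') = true) := by
    intro a N
    induction N with
    | zero =>
      intro w hw hN
      have := (length_le_iff w (q a)).1 hw
      omega
    | succ N ih =>
      intro w hw hN
      obtain ⟨t, ht, ht'⟩ := h4 (a, w)
      have hsw := hW a w hw
      have hb : P.eval (sz (a, w)) ≤ S.eval (sz a) := by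
        have e1 : S.eval (sz a) = P.eval (1 + sz a + W.eval (sz a)) := by simp [S]
        rw [e1]
        apply eval_mono
        rw [sz_pair]
        simp only
        omega
      have hBB : BB.eval (sz a) = 2 + sz a + W.eval (sz a) + S.eval (sz a) := by
        simp [BB]
      have hszs : ∀ s : σ, sz s ≤ P.eval (sz (a, w)) → sz (a, w, s) ≤ BB.eval (sz a) := by
        intro s hs
        rw [sz_pair, sz_pair, hBB]
        simp only
        omega
      -- run the inner machine
      have inner : ∀ (s t : σ), Conv G (P.eval (sz (a, w))) s t →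
          ∃ s₀ : σ, t = (G s₀).2 ∧ (G s₀).1 = false ∧ sz s₀ ≤ P.eval (sz (a, w)) ∧
            sz (G s₀).2 ≤ P.eval (sz (a, w)) ∧
            ∀ u, Conv K (BB.eval (sz a)) (a, w, s₀) u → Conv K (BB.eval (sz a)) (a, w, s) u := by
        intro s t hc
        induction hc with
        | @stop s b1 b2 b3 => exact ⟨s, rfl, b2, b1, b3, fun u hu => hu⟩
        | @step s t b1 b2 _ ih =>
          obtain ⟨s₀, c1, c2, c3, c4, c5⟩ := ih
          refine ⟨s₀, c1, c2, c3, c4, fun u hu => ?_⟩
          have e : K (a, w, s) = (true, (a, w, (G s).2)) := by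
            simp only [K, b2, cond_true]
          refine Conv.step (hszs s b1) (by rw [e]) ?_
          rw [e]
          exact c5 u hu
      obtain ⟨s₀, c1, c2, c3, c4, c5⟩ := inner _ _ ht
      have hfin : fin (G s₀).2 = R (a, w) := by rw [← c1]; exact ht'
      by_cases hRw : R (a, w) = true
      · -- accept
        have e : K (a, w, s₀) = (false, (a, w, (G s₀).2)) := by
          simp only [K, c2, hfin, hRw, cond_false, cond_true]
        refine ⟨(a, w, (G s₀).2), c5 _ ?_, ?_⟩
        · have hst := Conv.stop (G := K) (B := BB.eval (sz a)) (s := (a, w, s₀)) (hszs _ c3)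
            (by rw [e]) (by rw [e]; exact hszs _ c4)
          rw [e] at hst
          exact hst
        · simp only [hfin, hRw, true_iff]
          exact ⟨w, le_rfl, hw, hRw⟩
      · have hRw' : R (a, w) = false := by simpa using hRw
        by_cases hn : (nxt w).length ≤ q a
        · -- go on
          have e : K (a, w, s₀) = (true, (a, nxt w, init (a, nxt w))) := by
            simp only [K, c2, hfin, hRw', cond_false, hn, decide_true, cond_true]
          have hrk := rk_nxt w
          obtain ⟨t₁, d1, d2⟩ := ih (nxt w) hn (by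
            have := (length_le_iff (nxt w) (q a)).1 hn
            omega)
          refine ⟨t₁, c5 _ (Conv.step (hszs _ c3) (by rw [e]) (by rw [e]; exact d1)), ?_⟩
          rw [d2]
          constructor
          · rintro ⟨w', e1, e2, e3⟩
            exact ⟨w', by omega, e2, e3⟩
          · rintro ⟨w', e1, e2, e3⟩
            refine ⟨w', ?_, e2, e3⟩
            rcases Nat.lt_or_ge (rk w) (rk w') with h | h
            · omega
            · exfalso
              have := rk_inj (le_antisymm e1 h)
              rw [← this, hRw'] at e3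
              exact absurd e3 (by simp)
        · have e : K (a, w, s₀) = (false, (a, w, (G s₀).2)) := by
            simp only [K, c2, hfin, hRw', cond_false, hn, decide_false]
          refine ⟨(a, w, (G s₀).2), c5 _ ?_, ?_⟩
          · have hst := Conv.stop (G := K) (B := BB.eval (sz a)) (s := (a, w, s₀)) (hszs _ c3)
              (by rw [e]) (by rw [e]; exact hszs _ c4)
            rw [e] at hst
            exact hst
          · simp only [hfin, hRw', Bool.false_eq_true, false_iff]
            rintro ⟨w', e1, e2, e3⟩
            rcases Nat.lt_or_ge (rk w) (rk w') with h | h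
            · apply hn
              rw [length_le_iff, rk_nxt]
              have := (length_le_iff w' (q a)).1 e2
              omega
            · have := rk_inj (le_antisymm e1 h)
              rw [← this, hRw'] at e3
              exact absurd e3 (by simp)
  have hall : ∀ a, ∃ t, Conv K (BB.eval (sz a)) (a, [], init (a, [])) t ∧ (fin t.2.2 = true ↔
      ∃ w' : List Bool, w'.length ≤ q a ∧ R (a, w') = true) := by
    intro a
    obtain ⟨t, ht, ht'⟩ := hmain a _ [] (by simp) le_rfl
    refine ⟨t, ht, ht'.trans ⟨?_, ?_⟩⟩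
    · rintro ⟨w', _, e2, e3⟩
      exact ⟨w', e2, e3⟩
    · rintro ⟨w', e2, e3⟩
      exact ⟨w', by simp [rk], e2, e3⟩
  choose t ht ht' using hall
  refine ⟨fun a => fin (t a).2.2, ⟨α × List Bool × σ, inferInstance,
    fun a => (a, [], init (a, [])), K, fun s => fin s.2.2, BB, ?_, hK,
    h3.comp (PTime.snd (PTime.snd PTime.id)), fun a => ⟨t a, ht a, rfl⟩⟩, ht'⟩
  exact PTime.pair PTime.id (PTime.pair (PTime.const []) (h1.comp (PTime.pair PTime.id
    (PTime.const []))))

/-- Predicates decided in polynomial space. -/
def PSp (P : α → Prop) : Prop := ∃ f : α → Bool, PSpF f ∧ ∀ a, f a = true ↔ P a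

namespace PSp

lemma congr {P Q : α → Prop} (h : PSp P) (hPQ : ∀ a, Q a ↔ P a) : PSp Q := by
  obtain ⟨f, hf, hf'⟩ := h
  exact ⟨f, hf, fun a => (hf' a).trans (hPQ a).symm⟩

lemma of_ptime {P : α → Prop} [∀ a, Decidable (P a)] (h : PTime fun a => decide (P a)) : PSp P :=
  ⟨_, PSpF.of_ptime h, fun a => by simp⟩

lemma not {P : α → Prop} (h : PSp P) : PSp fun a => ¬ P a := by
  obtain ⟨f, hf, hf'⟩ := h
  refine ⟨fun a => !f a, PSpF.comp (g := fun b : Bool => !b) (PSpF.of_ptime (by fun_prop)) hf,
    fun a => ?_⟩
  beta_reduce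
  rw [← hf']
  cases f a <;> simp

lemma and {P Q : α → Prop} (h : PSp P) (h' : PSp Q) : PSp fun a => P a ∧ Q a := by
  obtain ⟨f, hf, hf'⟩ := h
  obtain ⟨g, hg, hg'⟩ := h'
  refine ⟨fun a => f a && g a, PSpF.comp (g := fun b : Bool × Bool => b.1 && b.2)
    (PSpF.of_ptime (by fun_prop)) (PSpF.pair hf hg), fun a => ?_⟩
  beta_reduce
  rw [← hf', ← hg']
  simp

lemma or {P Q : α → Prop} (h : PSp P) (h' : PSp Q) : PSp fun a => P a ∨ Q a :=
  ((h.not.and h'.not).not).congr fun a => by tauto

lemma imp {P Q : α → Prop} (h : PSp P) (h' : PSp Q) : PSp fun a => P a → Q a :=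
  (h.not.or h').congr fun a => by tauto

lemma iff {P Q : α → Prop} (h : PSp P) (h' : PSp Q) : PSp fun a => (P a ↔ Q a) :=
  ((h.imp h').and (h'.imp h)).congr fun a => by tauto

lemma comp {P : β → Prop} (h : PSp P) {g : α → β} (hg : PTime g) : PSp fun a => P (g a) := by
  obtain ⟨f, hf, hf'⟩ := h
  exact ⟨fun a => f (g a), PSpF.comp hf (PSpF.of_ptime hg), fun a => hf' (g a)⟩

/-- Bounded existential quantifier. -/
lemma exists_le [TMLib.Fix β] {R : α → β → Prop} (hR : PSp fun p : α × β => R p.1 p.2) {q : α → ℕ}
    (hq : PTime q) : PSp fun a => ∃ b : β, sz b ≤ q a ∧ R a b := by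
  have h1 : PSp fun p : α × List Bool => sz (TMLib.Fix.fix (parse p.2) : β) ≤ q p.1 ∧
      R p.1 (TMLib.Fix.fix (parse p.2)) := by
    refine PSp.and (of_ptime ?_) ?_
    · have e1 : PTime fun p : α × List Bool => sz (TMLib.Fix.fix (parse p.2) : β) := by fun_prop
      exact PTime.le e1 (hq.comp (PTime.fst PTime.id))
    · exact hR.comp (g := fun p : α × List Bool => (p.1, (TMLib.Fix.fix (parse p.2) : β))) (by fun_prop)
  obtain ⟨f, hf, hf'⟩ := h1
  obtain ⟨g, hg, hg'⟩ := PSpF.exists_bits hf hq
  refine ⟨g, hg, fun a => (hg' a).trans ⟨?_, ?_⟩⟩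
  · rintro ⟨w, -, hw⟩
    exact ⟨_, (hf' (a, w)).1 hw⟩
  · rintro ⟨b, hb, hb'⟩
    refine ⟨(enc b).code, by rw [D.length_code]; exact hb, (hf' (a, _)).2 ?_⟩
    simp only [parse_code, TMLib.Fix.fix_enc]
    exact ⟨hb, hb'⟩

/-- Bounded universal quantifier. -/
lemma forall_le [TMLib.Fix β] {R : α → β → Prop} (hR : PSp fun p : α × β => R p.1 p.2) {q : α → ℕ}
    (hq : PTime q) : PSp fun a => ∀ b : β, sz b ≤ q a → R a b :=
  (exists_le (R := fun a b => ¬ R a b) hR.not hq).not.congr fun a => by push Not; rfl

/-- Quantification over the elements of a list. -/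
lemma exists_mem [TMLib.Fix β] [EncInj β] {R : α → β → Prop} (hR : PSp fun p : α × β => R p.1 p.2)
    {l : α → List β} (hl : PTime l) : PSp fun a => ∃ b ∈ l a, R a b := by
  classical
  refine (exists_le (R := fun a b => b ∈ l a ∧ R a b) ?_ (q := fun a => sz (l a))
    (PTime.sz' hl)).congr fun a => ⟨?_, ?_⟩
  · exact (of_ptime (P := fun p : α × β => p.2 ∈ l p.1) (PTime.mem (PTime.snd PTime.id)
      (hl.comp (PTime.fst PTime.id)))).and hR
  · rintro ⟨b, hb, hb'⟩
    exact ⟨b, (sz_le_of_mem hb).le, hb, hb'⟩
  · rintro ⟨b, -, hb, hb'⟩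
    exact ⟨b, hb, hb'⟩

lemma forall_mem [TMLib.Fix β] [EncInj β] {R : α → β → Prop} (hR : PSp fun p : α × β => R p.1 p.2)
    {l : α → List β} (hl : PTime l) : PSp fun a => ∀ b ∈ l a, R a b :=
  (exists_mem (R := fun a b => ¬ R a b) hR.not hl).not.congr fun a => by push Not; rfl

end PSp

end Pool.Agent.H48.NE
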