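import Pool.Agent.H48.NE.Form

/-!
# Dense `NEXPTIME` subsets of `EXPSPACE` languages
-/

namespace Pool.Agent.H48.NE

open TMLib Polynomial

set_option maxHeartbeats 4000000

lemma powB_le_one {N e : ℕ} : powB N e ≤ N := min_le_left _ _

/-- If every language in `EXPSPACE` has a subset in `NEXPTIME` with at least the `κ`-th power of
the number of elements of each large length, then `EXPSPACE ⊆ NEXPTIME`. -/
theorem subset_of_dense {κ : ℝ} (hκ : 0 < κ)
    (H : ∀ L ∈ EXPSPACE, ∃ A ∈ NEXPTIME, A ⊆ L ∧ ∃ n₀ : ℕ, ∀ n ≥ n₀,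
      ({x | x ∈ L ∧ x.length = n}.ncard : ℝ) ^ κ ≤ {x | x ∈ A ∧ x.length = n}.ncard) :
    EXPSPACE ⊆ NEXPTIME := by
  classical
  obtain ⟨K₀, hK₀⟩ := exists_nat_ge (1 / κ)
  obtain ⟨K, hK1, hK⟩ : ∃ K : ℕ, 1 ≤ K ∧ 1 ≤ κ * K := by
    refine ⟨K₀ + 1, by omega, ?_⟩
    have h1 : 1 / κ ≤ (K₀ : ℝ) + 1 := by linarith
    rw [div_le_iff₀ hκ] at h1
    push_cast
    linarith
  intro L₀ hL₀
  set R₀ : ℕ → ℕ → Prop := fun n k => bitsOf n k ∈ L₀ with hR₀
  obtain ⟨c₀, P₀, hP₀, h₀⟩ := esn_of_mem hL₀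
  -- the code language
  let R' : ℕ → ℕ → Prop := fun m y => ∃ n, m = 2 * (K * (n + 1) + 1) ∧
    y / 2 ^ (K * (n + 1) + 1) < prm (2 ^ (K * (n + 1))) ∧
    y % 2 ^ (K * (n + 1) + 1) = hv (tab R₀ n) (y / 2 ^ (K * (n + 1) + 1)) (prm (2 ^ (K * (n + 1))))
  have hR' : ESn R' := by
    refine ⟨c₀ + 1, fun q => ∃ n ∈ List.range (q.1 + 1), q.1 = 2 * (K * (n + 1) + 1) ∧
      ∃ T : List Bool, sz T ≤ 1 + 4 * q.2.2 ∧ (IsTab P₀ T n q.2.2 ∧
        q.2.1 / powB q.2.2 (K * (n + 1) + 1) < prm (powB q.2.2 (K * (n + 1))) ∧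
        q.2.1 % powB q.2.2 (K * (n + 1) + 1) = hv T (q.2.1 / powB q.2.2 (K * (n + 1) + 1))
          (prm (powB q.2.2 (K * (n + 1))))), ?_, ?_⟩
    · refine PSp.exists_mem (R := fun (q : ℕ × ℕ × ℕ) n => q.1 = 2 * (K * (n + 1) + 1) ∧
        ∃ T : List Bool, sz T ≤ 1 + 4 * q.2.2 ∧ (IsTab P₀ T n q.2.2 ∧
        q.2.1 / powB q.2.2 (K * (n + 1) + 1) < prm (powB q.2.2 (K * (n + 1))) ∧
        q.2.1 % powB q.2.2 (K * (n + 1) + 1) = hv T (q.2.1 / powB q.2.2 (K * (n + 1) + 1))
          (prm (powB q.2.2 (K * (n + 1)))))) ?_ (by fun_prop)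
      refine PSp.and (PSp.of_ptime (by fun_prop)) ?_
      refine PSp.exists_le (R := fun (s : (ℕ × ℕ × ℕ) × ℕ) (T : List Bool) =>
        IsTab P₀ T s.2 s.1.2.2 ∧
        s.1.2.1 / powB s.1.2.2 (K * (s.2 + 1) + 1) < prm (powB s.1.2.2 (K * (s.2 + 1))) ∧
        s.1.2.1 % powB s.1.2.2 (K * (s.2 + 1) + 1) =
          hv T (s.1.2.1 / powB s.1.2.2 (K * (s.2 + 1) + 1))
          (prm (powB s.1.2.2 (K * (s.2 + 1))))) ?_ (by fun_prop)
      refine PSp.and (psp_isTab hP₀ (by fun_prop) (by fun_prop) (by fun_prop)) ?_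
      refine PSp.of_ptime ?_
      have e1 : PTime (fun x : ((ℕ × ℕ × ℕ) × ℕ) × List Bool =>
          x.1.1.2.1 / powB x.1.1.2.2 (K * (x.1.2 + 1) + 1)) :=
        PTime.div (by fun_prop) (by fun_prop)
      have e2 : PTime (fun x : ((ℕ × ℕ × ℕ) × ℕ) × List Bool =>
          x.1.1.2.1 % powB x.1.1.2.2 (K * (x.1.2 + 1) + 1)) :=
        PTime.mod (by fun_prop) (by fun_prop)
      fun_prop
    · intro m y N hy hN
      have hm : 2 ^ m ≤ N := (two_pow_le_exp (c := c₀ + 1) (by omega) m).trans hN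
      show (∃ n ∈ List.range (m + 1), _) ↔ _
      constructor
      · rintro ⟨n, hn, hmn, T, hT, hT1, hT2, hT3⟩
        simp only at hmn hT hT1 hT2 hT3
        have hnm : K * (n + 1) + 1 ≤ m := by omega
        have hnn : n + 1 ≤ m := by nlinarith
        have b1 : 2 ^ (K * (n + 1) + 1) ≤ N :=
          (Nat.pow_le_pow_right (by norm_num) hnm).trans hm
        have b2 : 2 ^ (K * (n + 1)) ≤ N := (Nat.pow_le_pow_right (by norm_num) (by omega)).trans hm
        have b3 : 2 ^ n ≤ N := (Nat.pow_le_pow_right (by norm_num) (by omega)).trans hm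
        have b4 : 2 ^ (c₀ * (n + 1)) ≤ N := by
          refine le_trans (Nat.pow_le_pow_right (by norm_num) ?_) hN
          nlinarith
        rw [powB_eq b1, powB_eq b2] at hT2 hT3
        rw [isTab_iff h₀ b4 b3] at hT1
        refine ⟨n, hmn, hT2, ?_⟩
        rw [hT3, hT1]
      · rintro ⟨n, hmn, hT2, hT3⟩
        have hnm : K * (n + 1) + 1 ≤ m := by omega
        have hnn : n + 1 ≤ m := by nlinarith
        have b1 : 2 ^ (K * (n + 1) + 1) ≤ N :=
          (Nat.pow_le_pow_right (by norm_num) hnm).trans hm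
        have b2 : 2 ^ (K * (n + 1)) ≤ N := (Nat.pow_le_pow_right (by norm_num) (by omega)).trans hm
        have b3 : 2 ^ n ≤ N := (Nat.pow_le_pow_right (by norm_num) (by omega)).trans hm
        have b4 : 2 ^ (c₀ * (n + 1)) ≤ N := by
          refine le_trans (Nat.pow_le_pow_right (by norm_num) ?_) hN
          nlinarith
        refine ⟨n, List.mem_range.2 (by omega), hmn, tab R₀ n, ?_, ?_, ?_, ?_⟩
        · have := sz_bits_le (tab R₀ n)
          rw [length_tab] at this
          simp only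
          omega
        · rw [isTab_iff h₀ b4 b3]
        · simp only
          rw [powB_eq b1, powB_eq b2]
          exact hT2
        · simp only
          rw [powB_eq b1, powB_eq b2]
          exact hT3
  obtain ⟨A, hA, hAL, n₀, hn₀⟩ := H _ (mem_of_esn hR')
  obtain ⟨c₁, P₁, hP₁, h₁⟩ := nen_of_mem hA
  rw [mem_NEXPTIME_iff]
  -- the nondeterministic predicate
  let Q : ℕ × ℕ × ℕ → Prop := fun q => ∃ T : List Bool, sz T ≤ 1 + 4 * q.2.2 ∧
    ∃ B : List Bool, sz B ≤ 1 + 4 * q.2.2 ∧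
      ((T.length = powB q.2.2 q.1 ∧ powB q.2.2 q.1 ≤
        ((List.range (powB q.2.2 (2 * (K * (q.1 + 1) + 1)))).filter
          fun y => B.getD y false).length ∧ T.getD q.2.1 false = true) ∧
      ∀ y ∈ List.range (powB q.2.2 (2 * (K * (q.1 + 1) + 1))), (B.getD y false = false ∨
        (y % powB q.2.2 (K * (q.1 + 1) + 1) = hv T (y / powB q.2.2 (K * (q.1 + 1) + 1))
          (prm (powB q.2.2 (K * (q.1 + 1)))) ∧ P₁ (2 * (K * (q.1 + 1) + 1), y, q.2.2))))
  have hQ : NPp Q := by
    refine NPp.exists_le (R := fun (q : ℕ × ℕ × ℕ) (T : List Bool) =>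
      ∃ B : List Bool, sz B ≤ 1 + 4 * q.2.2 ∧
      ((T.length = powB q.2.2 q.1 ∧ powB q.2.2 q.1 ≤
        ((List.range (powB q.2.2 (2 * (K * (q.1 + 1) + 1)))).filter
          fun y => B.getD y false).length ∧ T.getD q.2.1 false = true) ∧
      ∀ y ∈ List.range (powB q.2.2 (2 * (K * (q.1 + 1) + 1))), (B.getD y false = false ∨
        (y % powB q.2.2 (K * (q.1 + 1) + 1) = hv T (y / powB q.2.2 (K * (q.1 + 1) + 1))
          (prm (powB q.2.2 (K * (q.1 + 1)))) ∧ P₁ (2 * (K * (q.1 + 1) + 1), y, q.2.2)))))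
      ?_ (by fun_prop)
    refine NPp.exists_le (R := fun (s : (ℕ × ℕ × ℕ) × List Bool) (B : List Bool) =>
      ((s.2.length = powB s.1.2.2 s.1.1 ∧ powB s.1.2.2 s.1.1 ≤
        ((List.range (powB s.1.2.2 (2 * (K * (s.1.1 + 1) + 1)))).filter
          fun y => B.getD y false).length ∧ s.2.getD s.1.2.1 false = true) ∧
      ∀ y ∈ List.range (powB s.1.2.2 (2 * (K * (s.1.1 + 1) + 1))), (B.getD y false = false ∨
        (y % powB s.1.2.2 (K * (s.1.1 + 1) + 1) = hv s.2 (y / powB s.1.2.2 (K * (s.1.1 + 1) + 1))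
          (prm (powB s.1.2.2 (K * (s.1.1 + 1)))) ∧
            P₁ (2 * (K * (s.1.1 + 1) + 1), y, s.1.2.2)))))
      ?_ (by fun_prop)
    refine NPp.and (NPp.of_ptime ?_) ?_
    · fun_prop
    · refine NPp.forall_mem (R := fun (s : ((ℕ × ℕ × ℕ) × List Bool) × List Bool) (y : ℕ) =>
        (s.2.getD y false = false ∨
        (y % powB s.1.1.2.2 (K * (s.1.1.1 + 1) + 1) =
          hv s.1.2 (y / powB s.1.1.2.2 (K * (s.1.1.1 + 1) + 1))
          (prm (powB s.1.1.2.2 (K * (s.1.1.1 + 1)))) ∧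
            P₁ (2 * (K * (s.1.1.1 + 1) + 1), y, s.1.1.2.2)))) ?_ (by fun_prop)
      refine NPp.or (NPp.of_ptime (by fun_prop)) (NPp.and (NPp.of_ptime ?_) ?_)
      · have e1 : PTime (fun x : (((ℕ × ℕ × ℕ) × List Bool) × List Bool) × ℕ =>
            x.2 / powB x.1.1.1.2.2 (K * (x.1.1.1.1 + 1) + 1)) :=
          PTime.div (by fun_prop) (by fun_prop)
        have e2 : PTime (fun x : (((ℕ × ℕ × ℕ) × List Bool) × List Bool) × ℕ =>
            x.2 % powB x.1.1.1.2.2 (K * (x.1.1.1.1 + 1) + 1)) :=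
          PTime.mod (by fun_prop) (by fun_prop)
        fun_prop
      · exact hP₁.comp (g := fun x : (((ℕ × ℕ × ℕ) × List Bool) × List Bool) × ℕ =>
          (2 * (K * (x.1.1.1.1 + 1) + 1), x.2, x.1.1.1.2.2)) (by fun_prop)
  refine NEn.of_eventually (c := (c₁ + 1) * (2 * K + 3)) (n₀ := n₀) hQ ?_
  intro n k N hn hk hN
  set m := 2 * (K * (n + 1) + 1) with hm
  have hmn : m + 1 ≤ (2 * K + 3) * (n + 1) := by
    rw [hm]
    nlinarith
  have b0 : 2 ^ m ≤ N := by
    refine le_trans (Nat.pow_le_pow_right (by norm_num) ?_) hN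
    calc m ≤ 1 * ((2 * K + 3) * (n + 1)) := by omega
      _ ≤ (c₁ + 1) * ((2 * K + 3) * (n + 1)) := Nat.mul_le_mul_right _ (by omega)
      _ = _ := by ring
  have b1 : 2 ^ (K * (n + 1) + 1) ≤ N := (Nat.pow_le_pow_right (by norm_num) (by omega)).trans b0
  have b2 : 2 ^ (K * (n + 1)) ≤ N := (Nat.pow_le_pow_right (by norm_num) (by omega)).trans b0
  have hnK : n + 1 ≤ K * (n + 1) := Nat.le_mul_of_pos_left _ (by omega)
  have b3 : 2 ^ n ≤ N := (Nat.pow_le_pow_right (by norm_num) (by omega)).trans b0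
  have b4 : 2 ^ (c₁ * (m + 1)) ≤ N := by
    refine le_trans (Nat.pow_le_pow_right (by norm_num) ?_) hN
    calc c₁ * (m + 1) ≤ c₁ * ((2 * K + 3) * (n + 1)) := Nat.mul_le_mul_left _ hmn
      _ ≤ (c₁ + 1) * ((2 * K + 3) * (n + 1)) := Nat.mul_le_mul_right _ (by omega)
      _ = _ := by ring
  obtain ⟨hp, hp1, hp2⟩ := prm_spec (B := 2 ^ (K * (n + 1))) (by positivity)
  set p := prm (2 ^ (K * (n + 1))) with hpdef
  have hpa : p ≤ 2 ^ (K * (n + 1) + 1) := by rw [pow_succ]; omega
  have h2m : 2 ^ m = 2 ^ (K * (n + 1) + 1) * 2 ^ (K * (n + 1) + 1) := by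
    rw [hm, two_mul, pow_add]
  -- elements of A
  have hAR : ∀ y, y < 2 ^ m → bitsOf m y ∈ A → y / 2 ^ (K * (n + 1) + 1) < p ∧
      y % 2 ^ (K * (n + 1) + 1) = hv (tab R₀ n) (y / 2 ^ (K * (n + 1) + 1)) p := by
    intro y hy hyA
    have h1 : R' (bitsOf m y).length (val (bitsOf m y)) := hAL hyA
    rw [length_bitsOf, val_bitsOf hy] at h1
    obtain ⟨n', hn', h2, h3⟩ := h1
    have hnn : n' = n := by
      have h4 : K * (n' + 1) = K * (n + 1) := by omega
      have := Nat.eq_of_mul_eq_mul_left (by omega : 0 < K) h4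
      omega
    subst hnn
    exact ⟨h2, h3⟩
  -- size of A
  have hcard : 2 ^ n ≤ ((Finset.range (2 ^ m)).filter fun y => bitsOf m y ∈ A).card := by
    have h1 : p ≤ ((Finset.range (2 ^ m)).filter fun y => bitsOf m y ∈ lang R').card := by
      have h2 : (Finset.range p).card ≤
          ((Finset.range (2 ^ m)).filter fun y => bitsOf m y ∈ lang R').card := by
        refine Finset.card_le_card_of_injOn
          (fun z => z * 2 ^ (K * (n + 1) + 1) + hv (tab R₀ n) z p) ?_ ?_
        · intro z hz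
          simp only [Finset.coe_range, Set.mem_Iio] at hz
          have h3 : hv (tab R₀ n) z p < 2 ^ (K * (n + 1) + 1) :=
            lt_of_lt_of_le (hv_lt _ _ hp.pos) hpa
          have h4 : z * 2 ^ (K * (n + 1) + 1) + hv (tab R₀ n) z p < 2 ^ m := by
            rw [h2m]
            calc z * 2 ^ (K * (n + 1) + 1) + hv (tab R₀ n) z p <
                  z * 2 ^ (K * (n + 1) + 1) + 2 ^ (K * (n + 1) + 1) := by omega
              _ = (z + 1) * 2 ^ (K * (n + 1) + 1) := by ring
              _ ≤ _ := Nat.mul_le_mul_right _ (by omega)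
          have h5 : (z * 2 ^ (K * (n + 1) + 1) + hv (tab R₀ n) z p) / 2 ^ (K * (n + 1) + 1) = z := by
            rw [Nat.add_comm, Nat.add_mul_div_right _ _ (by positivity), Nat.div_eq_of_lt h3,
              zero_add]
          have h6 : (z * 2 ^ (K * (n + 1) + 1) + hv (tab R₀ n) z p) % 2 ^ (K * (n + 1) + 1) =
              hv (tab R₀ n) z p := by
            rw [Nat.add_comm, Nat.add_mul_mod_self_right, Nat.mod_eq_of_lt h3]
          simp only [Finset.coe_filter, Finset.mem_range, Set.mem_ofPred_eq]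
          refine ⟨h4, ?_⟩
          show R' (bitsOf m _).length (val (bitsOf m _))
          rw [length_bitsOf, val_bitsOf h4]
          refine ⟨n, rfl, ?_, ?_⟩
          · rw [h5]
            exact hz
          · rw [h5, h6]
        · intro z hz z' hz' h
          simp only [Finset.coe_range, Set.mem_Iio] at hz hz'
          have h3 : hv (tab R₀ n) z p < 2 ^ (K * (n + 1) + 1) :=
            lt_of_lt_of_le (hv_lt _ _ hp.pos) hpa
          have h3' : hv (tab R₀ n) z' p < 2 ^ (K * (n + 1) + 1) :=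
            lt_of_lt_of_le (hv_lt _ _ hp.pos) hpa
          have h5 : (z * 2 ^ (K * (n + 1) + 1) + hv (tab R₀ n) z p) / 2 ^ (K * (n + 1) + 1) = z := by
            rw [Nat.add_comm, Nat.add_mul_div_right _ _ (by positivity), Nat.div_eq_of_lt h3,
              zero_add]
          have h5' : (z' * 2 ^ (K * (n + 1) + 1) + hv (tab R₀ n) z' p) / 2 ^ (K * (n + 1) + 1) =
              z' := by
            rw [Nat.add_comm, Nat.add_mul_div_right _ _ (by positivity), Nat.div_eq_of_lt h3',
              zero_add]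
          simp only at h
          rw [← h5, h, h5']
      simpa using h2
    have h2 := hn₀ m (by omega)
    rw [ncard_eq, ncard_eq] at h2
    have h3 : ((2 : ℝ) ^ (K * (n + 1))) ≤
        (((Finset.range (2 ^ m)).filter fun y => bitsOf m y ∈ lang R').card : ℝ) := by
      have h4 : 2 ^ (K * (n + 1)) ≤
        ((Finset.range (2 ^ m)).filter fun y => bitsOf m y ∈ lang R').card := by omega
      exact_mod_cast h4
    have h4 : (2 : ℝ) ^ n ≤ ((2 : ℝ) ^ (K * (n + 1))) ^ κ := by
      rw [← Real.rpow_natCast, ← Real.rpow_natCast, ← Real.rpow_mul (by norm_num)]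
      refine Real.rpow_le_rpow_of_exponent_le (by norm_num) ?_
      push_cast
      have h5 : (0 : ℝ) ≤ n := Nat.cast_nonneg n
      nlinarith
    have h5 : ((2 : ℝ) ^ (K * (n + 1))) ^ κ ≤
        (((Finset.range (2 ^ m)).filter fun y => bitsOf m y ∈ lang R').card : ℝ) ^ κ :=
      Real.rpow_le_rpow (by positivity) h3 hκ.le
    have h6 := (h4.trans h5).trans h2
    exact_mod_cast h6
  -- correctness
  have hfilter : ∀ f : ℕ → Bool, ((List.range (powB N m)).filter f).length =
      ((Finset.range (2 ^ m)).filter fun y => f y = true).card := by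
    intro f
    rw [powB_eq b0, length_filter_range]
  constructor
  · rintro ⟨T, -, B, -, ⟨hT1, hT2, hT3⟩, hT4⟩
    simp only at hT1 hT2 hT3 hT4
    rw [hfilter, powB_eq b3] at hT2
    rw [powB_eq b3] at hT1
    rw [powB_eq b0, powB_eq b1, powB_eq b2] at hT4
    have hTT : T = tab R₀ n := by
      by_contra hne
      have h1 := card_hv_eq_lt hp (T := T) (T' := tab R₀ n) (by rw [hT1, length_tab]) hne
      rw [hT1] at h1
      have h2 : ((Finset.range (2 ^ m)).filter fun y => B.getD y false = true).card ≤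
          ((Finset.range p).filter fun z => hv T z p = hv (tab R₀ n) z p).card := by
        have hkey : ∀ y, y < 2 ^ m → B.getD y false = true →
            y / 2 ^ (K * (n + 1) + 1) < p ∧
            y % 2 ^ (K * (n + 1) + 1) = hv (tab R₀ n) (y / 2 ^ (K * (n + 1) + 1)) p ∧
            y % 2 ^ (K * (n + 1) + 1) = hv T (y / 2 ^ (K * (n + 1) + 1)) p := by
          intro y hy hBy
          rcases hT4 y (List.mem_range.2 hy) with h3 | ⟨h3, h4⟩
          · rw [hBy] at h3
            exact absurd h3 (by simp)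
          · have h5 : bitsOf m y ∈ A := (h₁ m y N hy b4).1 h4
            obtain ⟨h6, h7⟩ := hAR y hy h5
            exact ⟨h6, h7, h3⟩
        refine Finset.card_le_card_of_injOn (fun y => y / 2 ^ (K * (n + 1) + 1)) ?_ ?_
        · intro y hy
          simp only [Finset.coe_filter, Finset.mem_range, Set.mem_ofPred_eq] at hy ⊢
          obtain ⟨h3, h4, h5⟩ := hkey y hy.1 hy.2
          exact ⟨h3, by rw [← h5, ← h4]⟩
        · intro y hy y' hy' h
          simp only [Finset.coe_filter, Finset.mem_range, Set.mem_ofPred_eq] at hy hy'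
          simp only at h
          obtain ⟨h3, h4, h5⟩ := hkey y hy.1 hy.2
          obtain ⟨h3', h4', h5'⟩ := hkey y' hy'.1 hy'.2
          have e1 := Nat.div_add_mod y (2 ^ (K * (n + 1) + 1))
          have e2 := Nat.div_add_mod y' (2 ^ (K * (n + 1) + 1))
          rw [h4, h] at e1
          rw [h4'] at e2
          exact e1.symm.trans e2
      omega
    rw [hTT] at hT3
    exact (getD_tab hk).1 hT3
  · intro hR
    let B : List Bool := (List.range (2 ^ m)).map fun y => decide (bitsOf m y ∈ A)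
    have hB : ∀ y, y < 2 ^ m → (B.getD y false = true ↔ bitsOf m y ∈ A) := by
      intro y hy
      simp [B, List.getD, hy]
    refine ⟨tab R₀ n, ?_, B, ?_, ⟨?_, ?_, ?_⟩, ?_⟩
    · have := sz_bits_le (tab R₀ n)
      rw [length_tab] at this
      simp only
      omega
    · have := sz_bits_le B
      have h1 : B.length = 2 ^ m := by simp [B]
      rw [h1] at this
      simp only
      omega
    · simp only
      rw [length_tab, powB_eq b3]
    · simp only
      rw [hfilter, powB_eq b3]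
      refine hcard.trans (Finset.card_le_card ?_)
      intro y hy
      simp only [Finset.mem_filter, Finset.mem_range] at hy ⊢
      exact ⟨hy.1, (hB y hy.1).2 hy.2⟩
    · simp only
      exact (getD_tab hk).2 hR
    · intro y hy
      simp only at hy ⊢
      rw [powB_eq b0, List.mem_range] at hy
      rw [powB_eq b1, powB_eq b2]
      by_cases hyB : B.getD y false = true
      · right
        have h5 := (hB y hy).1 hyB
        exact ⟨(hAR y hy h5).2, (h₁ m y N hy b4).2 h5⟩
      · left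
        simpa using hyB

end Pool.Agent.H48.NE
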