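import Pool.Agent.H48.NE.Decode

/-!
# Certificates for truth tables from short lists of candidates
-/

namespace Pool.Agent.H48.NE

open TMLib Polynomial Filter

set_option maxHeartbeats 4000000

variable {α β γ δ : Type} [Enc α] [Enc β] [Enc γ] [Enc δ]

theorem nef_sep [TMLib.Fix β] {T0 : ℕ → ℕ → Prop} (hT0 : ESn T0) (Hm : MajH)
    {W : ℕ → β} (hWe : ESf W) (hWn : NEf W) {Cl : ℕ → List Bool → Prop}
    {V : (ℕ × β × ℕ) × List Bool → Bool} (hV : PTime V)
    (hVC : ∀ᶠ q in big ⊤, ∀ T : List Bool, T.length = 2 ^ q.1 →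
      (V ((q.1, W q.1, q.2), T) = true ↔ Cl q.1 T)) (L : ℕ)
    (hlist : ∀ᶠ n in pows, ∀ Λ : Finset (List Bool),
      (∀ T ∈ Λ, T.length = 2 ^ n ∧ Cl n T) → Λ.card ≤ 2 ^ (L * n))
    (hmem : ∀ᶠ n in pows, Cl n (tab T0 n)) : NEf fun n => tab T0 n := by
  classical
  have hTe : ESf fun n => tab T0 n := by
    have := esf_tab hT0 1
    simpa using this
  -- the separating point
  let A := L + 1
  let G : ℕ → ℕ → Prop := fun n z => z < prm (2 ^ (A * n)) ∧ ∀ T : List Bool,
    T.length = 2 ^ n → Cl n T → T ≠ tab T0 n →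
    hv T z (prm (2 ^ (A * n))) ≠ hv (tab T0 n) z (prm (2 ^ (A * n)))
  have hBd : ESf fun n => 2 ^ ((A + 1) * n) := by
    refine esf_of_ptime (G := fun q : ℕ × ℕ => powB q.2 ((A + 1) * q.1)) (by fun_prop) ?_
    filter_upwards [eventually_two_pow_le ⊤ (A + 1)] with q hq
    exact powB_eq hq
  have hz : ESf (leastN (fun n => 2 ^ ((A + 1) * n)) G) := by
    refine esf_least (W := fun n => (W n, tab T0 n)) (hWe.prod hTe)
      (fun n => by positivity) hBd
      (Gd := fun x => (x.2 < prm (powB x.1.2.2 (A * x.1.1))) ∧ ∀ T : List Bool,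
        sz T ≤ 1 + 4 * x.1.2.2 → ((T.length = powB x.1.2.2 x.1.1 ∧
        V ((x.1.1, x.1.2.1.1, x.1.2.2), T) = true ∧ T ≠ x.1.2.1.2) →
        hv T x.2 (prm (powB x.1.2.2 (A * x.1.1))) ≠
          hv x.1.2.1.2 x.2 (prm (powB x.1.2.2 (A * x.1.1))))) ?_ ?_
    · refine PSp.and (PSp.of_ptime (by fun_prop)) ?_
      refine PSp.forall_le (R := fun (x : (ℕ × (β × List Bool) × ℕ) × ℕ)
        (T : List Bool) => ((T.length = powB x.1.2.2 x.1.1 ∧
        V ((x.1.1, x.1.2.1.1, x.1.2.2), T) = true ∧ T ≠ x.1.2.1.2) →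
        hv T x.2 (prm (powB x.1.2.2 (A * x.1.1))) ≠
          hv x.1.2.1.2 x.2 (prm (powB x.1.2.2 (A * x.1.1))))) ?_ (by fun_prop)
      refine PSp.imp (PSp.and (PSp.of_ptime (by fun_prop)) (PSp.and (PSp.of_ptime ?_)
        (PSp.of_ptime (by fun_prop)))) (PSp.of_ptime (by fun_prop))
      exact PTime.decide_true' (hV.comp (f := fun x : ((ℕ × (β × List Bool) × ℕ) × ℕ)
        × List Bool => ((x.1.1.1, x.1.1.2.1.1, x.1.1.2.2), x.2)) (by fun_prop))
    · have h0 : ∀ᶠ q in big ⊤, 2 ^ (A * q.1) ≤ q.2 ∧ 2 ^ (1 * q.1) ≤ q.2 :=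
        (eventually_two_pow_le _ _).and (eventually_two_pow_le _ _)
      filter_upwards [h0, hVC] with q h1 h2 z hz
      obtain ⟨h3, h5⟩ := h1
      rw [one_mul] at h5
      rw [powB_eq h3, powB_eq h5]
      refine and_congr_right fun _ => ?_
      constructor
      · rintro h7 T h8 h9 h10
        refine h7 T ?_ ⟨h8, ?_, h10⟩
        · have := sz_bits_le T
          omega
        · exact (h2 T h8).2 h9
      · rintro h7 T - ⟨h8, h9, h10⟩
        exact h7 T h8 ((h2 T h8).1 h9) h10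
  set zs := leastN (fun n => 2 ^ ((A + 1) * n)) G with hzs
  have hu : ESf fun n => hv (tab T0 n) (zs n) (prm (2 ^ (A * n))) := by
    refine (hTe.prod hz).map (G := fun x : ℕ × (List Bool × ℕ) × ℕ =>
      hv x.2.1.1 x.2.1.2 (prm (powB x.2.2 (A * x.1)))) (by fun_prop) ?_
    filter_upwards [eventually_two_pow_le ⊤ A] with q hq
    rw [powB_eq hq]
  have hprm : ∀ n, (prm (2 ^ (A * n))).Prime ∧ 2 ^ (A * n) < prm (2 ^ (A * n)) ∧
      prm (2 ^ (A * n)) ≤ 2 * 2 ^ (A * n) := fun n => prm_spec (by positivity)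
  have hprm2 : ∀ n ≥ 1, prm (2 ^ (A * n)) ≤ 2 ^ ((A + 1) * n) := by
    intro n hn
    refine (hprm n).2.2.trans ?_
    rw [← pow_succ']
    refine Nat.pow_le_pow_right (by norm_num) ?_
    nlinarith
  have hzn : NEf zs := by
    refine nef_of_esf Hm hz (K := A + 1) (by omega) (Eventually.of_forall fun n => ?_)
    exact leastN_lt (B := fun n => 2 ^ ((A + 1) * n)) (by positivity)
  have hun : NEf fun n => hv (tab T0 n) (zs n) (prm (2 ^ (A * n))) := by
    refine nef_of_esf Hm hu (K := A + 1) (by omega) ?_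
    filter_upwards [eventually_pows_ge 1] with n hn
    exact lt_of_lt_of_le (hv_lt _ _ (hprm n).1.pos) (hprm2 n hn)
  -- the separating point works
  have hsep : ∀ᶠ n in pows, ∀ T : List Bool, T.length = 2 ^ n → Cl n T → T ≠ tab T0 n →
      hv T (zs n) (prm (2 ^ (A * n))) ≠ hv (tab T0 n) (zs n) (prm (2 ^ (A * n))) := by
    filter_upwards [hlist, eventually_pows_ge 1] with n h1 h2
    obtain ⟨hp, hp1, hp2⟩ := hprm n
    set p := prm (2 ^ (A * n)) with hpdef
    have hfin : {T : List Bool | T.length = 2 ^ n ∧ Cl n T}.Finite :=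
      (List.finite_length_eq Bool (2 ^ n)).subset fun T hT => hT.1
    have hcard := h1 hfin.toFinset (fun T hT => by
      rw [Set.Finite.mem_toFinset] at hT
      exact hT)
    have hbad : ((Finset.range p).filter fun z => ∃ T ∈ hfin.toFinset, T ≠ tab T0 n ∧
        hv T z p = hv (tab T0 n) z p).card < p := by
      have h3 : ((Finset.range p).filter fun z => ∃ T ∈ hfin.toFinset, T ≠ tab T0 n ∧
          hv T z p = hv (tab T0 n) z p) ⊆ (hfin.toFinset.erase (tab T0 n)).biUnion fun T =>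
            (Finset.range p).filter fun z => hv T z p = hv (tab T0 n) z p := by
        intro z hz
        rw [Finset.mem_filter] at hz
        obtain ⟨hz1, T, hT1, hT2, hT3⟩ := hz
        rw [Finset.mem_biUnion]
        exact ⟨T, Finset.mem_erase.2 ⟨hT2, hT1⟩, Finset.mem_filter.2 ⟨hz1, hT3⟩⟩
      refine lt_of_le_of_lt (Finset.card_le_card h3) ?_
      refine lt_of_le_of_lt Finset.card_biUnion_le ?_
      have h4 : ∑ T ∈ hfin.toFinset.erase (tab T0 n), ((Finset.range p).filter fun z =>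
          hv T z p = hv (tab T0 n) z p).card ≤
          ∑ T ∈ hfin.toFinset.erase (tab T0 n), 2 ^ n := by
        refine Finset.sum_le_sum fun T hT => ?_
        rw [Finset.mem_erase, Set.Finite.mem_toFinset] at hT
        have h5 := card_hv_eq_lt hp (T := T) (T' := tab T0 n)
          (by rw [length_tab]; exact hT.2.1) hT.1
        rw [hT.2.1] at h5
        exact h5.le
      rw [Finset.sum_const, smul_eq_mul] at h4
      have h5 : (hfin.toFinset.erase (tab T0 n)).card ≤ 2 ^ (L * n) :=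
        (Finset.card_le_card (Finset.erase_subset _ _)).trans hcard
      have h6 : 2 ^ (L * n) * 2 ^ n = 2 ^ (A * n) := by
        rw [← pow_add]
        congr 1
        simp only [A]
        ring
      calc _ ≤ _ := h4
        _ ≤ 2 ^ (L * n) * 2 ^ n := Nat.mul_le_mul_right _ h5
        _ < p := by rw [h6]; exact hp1
    have hex : ∃ z, z < 2 ^ ((A + 1) * n) ∧ G n z := by
      by_contra hno
      push Not at hno
      refine absurd hbad (not_lt.2 ?_)
      rw [Finset.filter_true_of_mem, Finset.card_range]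
      intro z hz
      rw [Finset.mem_range] at hz
      have h3 := hno z (lt_of_lt_of_le hz (hprm2 n h2))
      simp only [G] at h3
      rw [← hpdef] at h3
      push Not at h3
      obtain ⟨T, h4, h5, h6, h7⟩ := h3 hz
      exact ⟨T, by rw [Set.Finite.mem_toFinset]; exact ⟨h4, h5⟩, h6, h7⟩
    exact (leastN_spec (B := fun n => 2 ^ ((A + 1) * n)) hex).2.2
  obtain ⟨P, hP, hP'⟩ := hWn.prod (hzn.prod hun)
  refine ⟨fun x => ∃ d : β × (ℕ × ℕ), sz d ≤ x.2.2 ∧ (P (x.1, d, x.2.2) ∧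
    (x.2.1.length = powB x.2.2 x.1 ∧ V ((x.1, d.1, x.2.2), x.2.1) = true ∧
    hv x.2.1 d.2.1 (prm (powB x.2.2 (A * x.1))) = d.2.2)), ?_, ?_⟩
  · refine NPp.exists_le (R := fun (x : ℕ × List Bool × ℕ) (d : β × (ℕ × ℕ)) =>
      P (x.1, d, x.2.2) ∧
      (x.2.1.length = powB x.2.2 x.1 ∧ V ((x.1, d.1, x.2.2), x.2.1) = true ∧
      hv x.2.1 d.2.1 (prm (powB x.2.2 (A * x.1))) = d.2.2)) ?_ (by fun_prop)
    refine NPp.and ?_ (NPp.and (NPp.of_ptime (by fun_prop)) (NPp.and (NPp.of_ptime ?_)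
      (NPp.of_ptime (by fun_prop))))
    · exact hP.comp (g := fun x : (ℕ × List Bool × ℕ) × (β × (ℕ × ℕ)) =>
        (x.1.1, x.2, x.1.2.2)) (by fun_prop)
    · exact PTime.decide_true' (hV.comp (f := fun x : (ℕ × List Bool × ℕ) ×
        (β × (ℕ × ℕ)) => ((x.1.1, x.2.1, x.1.2.2), x.1.2.1)) (by fun_prop))
  · have h0 : ∀ᶠ q in big pows, 2 ^ (A * q.1) ≤ q.2 ∧ 2 ^ (1 * q.1) ≤ q.2 :=
      (eventually_two_pow_le _ _).and (eventually_two_pow_le _ _)
    have h00 : ∀ᶠ q in big pows, sz (tab T0 (1 * q.1)) ≤ q.2 := eventually_sz_tab pows T0 1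
    filter_upwards [h0, h00, hP', hVC.filter_mono (big_le_top _), eventually_fst hsep,
      eventually_fst hmem] with q h1 h1' h2 h3 h4 h5
    obtain ⟨h6, h8⟩ := h1
    rw [one_mul] at h8 h1'
    refine ⟨h1', fun T => ?_⟩
    rw [powB_eq h6, powB_eq h8]
    simp only [h2.2]
    constructor
    · rintro ⟨d, -, rfl, h10, h11, h12⟩
      simp only at h11 h12
      rw [h3 T h10] at h11
      by_contra hne
      exact h4 T h10 h11 hne h12
    · rintro rfl
      refine ⟨_, h2.1, rfl, length_tab _ _, ?_, rfl⟩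
      simp only
      rw [h3 _ (length_tab _ _)]
      exact h5

end Pool.Agent.H48.NE
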