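import Pool.Agent.H48.NE.HardE
import Pool.Agent.H48.NE.Sep

/-!
# Errorless heuristics
-/

namespace Pool.Agent.H48.NE

open TMLib Polynomial Filter

set_option maxHeartbeats 1000000

/-! ### Computable forms -/

/-- The codeword bit for a table. -/
def cbT (C : ℕ) (x : (((ℕ × ℕ) × List Bool) × List Bool) × ℕ) : Bool :=
  x.1.1.2.getD (x.2 * powB x.1.1.1.2 (C * x.1.1.1.1) +
    hv x.1.2 (x.2 % prm (powB x.1.1.1.2 (C * x.1.1.1.1 - 1)))
      (prm (powB x.1.1.1.2 (C * x.1.1.1.1 - 1)))) false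

lemma ptime_cbT (C : ℕ) : PTime (cbT C) := by
  unfold cbT
  have h1 : PTime fun p : (((ℕ × ℕ) × List Bool) × List Bool) × ℕ =>
      prm (powB p.1.1.1.2 (C * p.1.1.1.1 - 1)) := by fun_prop
  have h2 : PTime fun p : (((ℕ × ℕ) × List Bool) × List Bool) × ℕ =>
      p.2 % prm (powB p.1.1.1.2 (C * p.1.1.1.1 - 1)) := PTime.mod (by fun_prop) h1
  have h3 : PTime fun p : (((ℕ × ℕ) × List Bool) × List Bool) × ℕ =>
      hv p.1.2 (p.2 % prm (powB p.1.1.1.2 (C * p.1.1.1.1 - 1)))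
        (prm (powB p.1.1.1.2 (C * p.1.1.1.1 - 1))) := ptime_hv (by fun_prop) h2 h1
  have h4 : PTime fun p : (((ℕ × ℕ) × List Bool) × List Bool) × ℕ =>
      p.2 * powB p.1.1.1.2 (C * p.1.1.1.1) + hv p.1.2
        (p.2 % prm (powB p.1.1.1.2 (C * p.1.1.1.1 - 1)))
        (prm (powB p.1.1.1.2 (C * p.1.1.1.1 - 1))) := PTime.add (by fun_prop) h3
  exact PTime.listGetD (by fun_prop) h4 (by fun_prop)

lemma cbT_eq {C n N : ℕ} (h : 2 ^ (C * n) ≤ N) (g T : List Bool) (z : ℕ) :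
    cbT C ((((n, N), g), T), z) =
      tcw (C * n) (prm (2 ^ (C * n - 1))) (fun i => g.getD i false) T z := by
  have h1 : 2 ^ (C * n - 1) ≤ N := le_trans (Nat.pow_le_pow_right (by norm_num) (by omega)) h
  unfold cbT tcw
  simp only
  rw [powB_eq h, powB_eq h1]

/-- Consistency of a codeword with a partial word. -/
def coT (C : ℕ) (x : (((ℕ × ℕ) × List Bool) × List Bool) × (List Bool × List Bool)) : Bool :=
  (List.range (powB x.1.1.1.2 (C * x.1.1.1.1))).all fun z =>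
    (!(x.2.1.getD z false) || cbT C (x.1, z)) && (!(x.2.2.getD z false) || !(cbT C (x.1, z)))

lemma ptime_coT (C : ℕ) : PTime (coT C) := by
  unfold coT
  refine PTime.all (g := fun (x : (((ℕ × ℕ) × List Bool) × List Bool) × (List Bool × List Bool)) z =>
    (!(x.2.1.getD z false) || cbT C (x.1, z)) && (!(x.2.2.getD z false) || !(cbT C (x.1, z))))
    (by fun_prop) ?_
  have h1 : PTime fun p : ((((ℕ × ℕ) × List Bool) × List Bool) × (List Bool × List Bool)) × ℕ =>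
      cbT C (p.1.1, p.2) := (ptime_cbT C).comp (by fun_prop)
  have h2 : PTime fun p : ((((ℕ × ℕ) × List Bool) × List Bool) × (List Bool × List Bool)) × ℕ =>
      !(cbT C (p.1.1, p.2)) := PTime.not h1
  exact PTime.and (PTime.or (by fun_prop) h1) (PTime.or (by fun_prop) h2)

lemma coT_iff {C n N : ℕ} (h : 2 ^ (C * n) ≤ N) (g T P M : List Bool) :
    coT C ((((n, N), g), T), (P, M)) = true ↔ Cons (C * n)
      (tcw (C * n) (prm (2 ^ (C * n - 1))) (fun i => g.getD i false) T)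
      (fun z => P.getD z false) (fun z => M.getD z false) := by
  unfold coT Cons
  simp only
  rw [powB_eq h, List.all_eq_true]
  simp only [List.mem_range]
  refine forall_congr' fun z => imp_congr_right fun _ => ?_
  rw [cbT_eq h]
  cases P.getD z false <;> cases M.getD z false <;>
    cases tcw (C * n) (prm (2 ^ (C * n - 1))) (fun i => g.getD i false) T z <;> simp

/-- The number of answers of a partial word, as a computable function. -/
def naT (C : ℕ) (x : (ℕ × ℕ) × (List Bool × List Bool)) : ℕ :=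
  ((List.range (powB x.1.2 (C * x.1.1))).filter fun z =>
    (x.2.1.getD z false || x.2.2.getD z false)).length

lemma ptime_naT (C : ℕ) : PTime (naT C) := by
  unfold naT
  exact PTime.length (PTime.filter (g := fun (x : (ℕ × ℕ) × (List Bool × List Bool)) z =>
    (x.2.1.getD z false || x.2.2.getD z false)) (by fun_prop) (by fun_prop))

lemma naT_eq {C n N : ℕ} (h : 2 ^ (C * n) ≤ N) (P M : List Bool) :
    naT C ((n, N), (P, M)) = nAns (C * n) (fun z => P.getD z false) (fun z => M.getD z false) := by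
  unfold naT nAns
  simp only
  rw [powB_eq h, length_filter_range]
  simp only [Bool.or_eq_true]

/-- Computable form of badness. -/
def BadEP (C Q : ℕ) (x : (ℕ × ℕ) × List Bool) : Prop :=
  ∃ W : List Bool × List Bool, sz W ≤ 3 + 8 * x.1.2 ∧ ∃ Λ : List (List Bool),
    sz Λ ≤ 1 + x.1.2 * (2 + 4 * x.1.2) ∧ (((powB x.1.2 (Q * x.1.1) ≤ naT C (x.1, W) ∧
      Λ.length = powB x.1.2 x.1.1) ∧ ndp Λ = true) ∧ ∀ T ∈ Λ, (T.length = powB x.1.2 x.1.1 ∧
        coT C ((x, T), W) = true))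

lemma psp_badEP (C Q : ℕ) : PSp (BadEP C Q) := by
  unfold BadEP
  refine PSp.exists_le (R := fun (x : (ℕ × ℕ) × List Bool) (W : List Bool × List Bool) =>
    ∃ Λ : List (List Bool),
    sz Λ ≤ 1 + x.1.2 * (2 + 4 * x.1.2) ∧ (((powB x.1.2 (Q * x.1.1) ≤ naT C (x.1, W) ∧
      Λ.length = powB x.1.2 x.1.1) ∧ ndp Λ = true) ∧ ∀ T ∈ Λ, (T.length = powB x.1.2 x.1.1 ∧
        coT C ((x, T), W) = true))) ?_ (by fun_prop)
  refine PSp.exists_le (R := fun (y : ((ℕ × ℕ) × List Bool) × (List Bool × List Bool))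
      (Λ : List (List Bool)) =>
      (((powB y.1.1.2 (Q * y.1.1.1) ≤ naT C (y.1.1, y.2) ∧
      Λ.length = powB y.1.1.2 y.1.1.1) ∧ ndp Λ = true) ∧ ∀ T ∈ Λ,
      (T.length = powB y.1.1.2 y.1.1.1 ∧ coT C ((y.1, T), y.2) = true))) ?_ (by fun_prop)
  refine PSp.and (PSp.and (PSp.and (PSp.of_ptime ?_) (PSp.of_ptime (by fun_prop)))
    (PSp.of_ptime (by fun_prop))) ?_
  · exact PTime.le (by fun_prop) ((ptime_naT C).comp (by fun_prop))
  refine PSp.forall_mem (R := fun (z : (((ℕ × ℕ) × List Bool) × (List Bool × List Bool)) ×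
      List (List Bool)) (T : List Bool) => (T.length = powB z.1.1.1.2 z.1.1.1.1 ∧
      coT C ((z.1.1, T), z.1.2) = true)) ?_ (by fun_prop)
  refine PSp.and (PSp.of_ptime (by fun_prop)) (PSp.of_ptime ?_)
  exact PTime.decide_true' ((ptime_coT C).comp (by fun_prop))

lemma sz_pair_bits {m : ℕ} {P M : List Bool} (hP : P.length ≤ m) (hM : M.length ≤ m) :
    sz (P, M) ≤ 3 + 8 * m := by
  rw [sz_pair]
  have h1 := sz_bits_le P
  have h2 := sz_bits_le M
  simp only
  omega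

lemma badEP_iff {C Q n N : ℕ} (h1 : 2 ^ (C * n) ≤ N) (h2 : 2 ^ (Q * n) ≤ N)
    (h3 : 2 ^ n ≤ N) (g : List Bool) : BadEP C Q ((n, N), g) ↔
      BadE n (C * n) (Q * n) (2 ^ n) (prm (2 ^ (C * n - 1))) (fun i => g.getD i false) := by
  classical
  unfold BadEP BadE
  simp only
  rw [powB_eq h2, powB_eq h3]
  constructor
  · rintro ⟨⟨P, M⟩, -, Λ, -, ⟨⟨h4, h5⟩, h6⟩, h7⟩
    rw [ndp_iff] at h6
    rw [naT_eq h1] at h4
    refine ⟨fun z => P.getD z false, fun z => M.getD z false, Λ.toFinset, h4, ?_, fun T hT => ?_⟩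
    · rw [List.toFinset_card_of_nodup h6, h5]
    · obtain ⟨h8, h9⟩ := h7 T (List.mem_toFinset.1 hT)
      rw [coT_iff h1] at h9
      exact ⟨h8, h9⟩
  · rintro ⟨P, M, Λ, h4, h5, h6⟩
    have e1 : ∀ z < 2 ^ (C * n), ((List.range (2 ^ (C * n))).map P).getD z false = P z := by
      intro z hz
      simp [List.getD, hz]
    have e2 : ∀ z < 2 ^ (C * n), ((List.range (2 ^ (C * n))).map M).getD z false = M z := by
      intro z hz
      simp [List.getD, hz]
    refine ⟨((List.range (2 ^ (C * n))).map P, (List.range (2 ^ (C * n))).map M), ?_, Λ.toList, ?_,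
      ⟨⟨?_, ?_⟩, ?_⟩, fun T hT => ?_⟩
    · refine (sz_pair_bits (m := 2 ^ (C * n)) (by simp) (by simp)).trans ?_
      omega
    · have h7 := sz_list_le Λ.toList (2 ^ n) (1 + 4 * 2 ^ n)
        (by rw [Finset.length_toList, h5]) (fun T hT => by
          have h8 := sz_bits_le T
          rwa [(h6 T (Finset.mem_toList.1 hT)).1] at h8)
      refine h7.trans ?_
      have h8 : 1 + (1 + 4 * 2 ^ n) ≤ 2 + 4 * N := by omega
      exact Nat.add_le_add_left (Nat.mul_le_mul h3 h8) _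
    · rw [naT_eq h1]
      refine le_of_le_of_eq h4 ?_
      unfold nAns
      congr 1
      refine Finset.filter_congr fun z hz => ?_
      rw [Finset.mem_range] at hz
      beta_reduce
      rw [e1 z hz, e2 z hz]
    · rw [Finset.length_toList, h5]
    · rw [ndp_iff]
      exact Finset.nodup_toList _
    · obtain ⟨h8, h9⟩ := h6 T (Finset.mem_toList.1 hT)
      refine ⟨h8, ?_⟩
      rw [coT_iff h1]
      intro z hz
      beta_reduce
      rw [e1 z hz, e2 z hz]
      exact h9 z hz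

/-- Badness of the generated table. -/
def BadLE (C Q C₃ c n : ℕ) (B : List Bool) (s : ℕ) : Prop :=
  BadE n (C * n) (Q * n) (2 ^ n) (prm (2 ^ (C * n - 1)))
    (fun i => (gL C C₃ c n B s).getD i false)

/-- The property of the hard word. -/
def HdE (C Q C₂ Q₂ C₃ c n : ℕ) (L : List Bool) : Prop :=
  ∀ P M : List Bool, P.length = 2 ^ (C₂ * n) → M.length = 2 ^ (C₂ * n) →
    Cons (C₂ * n) (fun i => L.getD i false) (fun i => P.getD i false) (fun i => M.getD i false) →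
    2 ^ (Q₂ * n) ≤ nAns (C₂ * n) (fun i => P.getD i false) (fun i => M.getD i false) →
    ∃ s < 2 ^ (2 * (C₃ * n) * 2 ^ c), ¬ BadLE C Q C₃ c n (P ++ M) s

lemma badE_congr {n a q t p : ℕ} (hp : 0 < p) (hpa : p ≤ 2 ^ a) {g g' : ℕ → Bool}
    (h : ∀ i < 2 ^ a * 2 ^ a, g i = g' i) (hb : BadE n a q t p g) : BadE n a q t p g' := by
  obtain ⟨P, M, Λ, h1, h2, h3⟩ := hb
  refine ⟨P, M, Λ, h1, h2, fun T hT => ⟨(h3 T hT).1, fun z hz => ?_⟩⟩
  have e : tcw a p g' T z = tcw a p g T z := by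
    unfold tcw
    refine (h _ ?_).symm
    have h3 : hv T (z % p) p < 2 ^ a := lt_of_lt_of_le (hv_lt _ _ hp) hpa
    calc z * 2 ^ a + hv T (z % p) p < z * 2 ^ a + 2 ^ a := by omega
      _ = (z + 1) * 2 ^ a := by ring
      _ ≤ _ := Nat.mul_le_mul_right _ hz
  rw [e]
  exact (h3 T hT).2 z hz

lemma exists_HdE {C C₂ C₃ c n : ℕ} (hC : 1 ≤ C)
    (hC₃ : C₂ + 4 * C + 3 ≤ C₃) (hc : 2 * C₃ + 2 ≤ c) (hn : 1 ≤ n) (hn2 : 8 * (C * n + 2) ≤ 2 ^ n) :
    ∃ L : List Bool, L.length = 2 ^ (C₂ * n) ∧ HdE C 5 C₂ (3 * C + 3) C₃ c n L := by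
  have hCn : n ≤ C * n := Nat.le_mul_of_pos_left _ hC
  have e2 : 3 * (C * n) + 3 ≤ (3 * C + 3) * n := by nlinarith
  have e3 : C₂ * n + 1 + 4 * (C * n) + 2 ≤ C₃ * n := by
    calc C₂ * n + 1 + 4 * (C * n) + 2 ≤ (C₂ + 4 * C + 3) * n := by nlinarith
      _ ≤ _ := Nat.mul_le_mul_right _ hC₃
  obtain ⟨hp, hp1, hp2⟩ := prm_spec (B := 2 ^ (C * n - 1)) (by positivity)
  obtain ⟨hps, hps1, hps2⟩ := prm_spec (B := 2 ^ (C₃ * n - 1)) (by positivity)
  have e4 : 2 * 2 ^ (C * n - 1) = 2 ^ (C * n) := by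
    rw [← pow_succ']
    congr 1
    omega
  have e5 : 2 * 2 ^ (C₃ * n - 1) = 2 ^ (C₃ * n) := by
    rw [← pow_succ']
    congr 1
    omega
  have hlen : 2 ^ (C * n) * 2 ^ (C * n) ≤ (desM c (2 * (C₃ * n)) (C * n)).length := by
    have h1 := le_length_desM (c := c) (l := 2 * (C₃ * n)) (ρ := C * n) (by omega)
    have h2 : 2 ^ (C * n) * 2 ^ (C * n) * 2 ^ (2 * (C₃ * n)) ≤ 2 ^ (c * (C * n + 1)) := by
      rw [← pow_add, ← pow_add]
      refine Nat.pow_le_pow_right (by norm_num) ?_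
      calc C * n + C * n + 2 * (C₃ * n) ≤ (2 * C₃ + 2) * (C * n) := by
            have : C₃ * n ≤ C₃ * (C * n) := Nat.mul_le_mul_left _ (by nlinarith)
            nlinarith
        _ ≤ c * (C * n + 1) := Nat.mul_le_mul hc (by omega)
    exact Nat.le_of_mul_le_mul_right (h2.trans h1) (by positivity)
  have hD : ∀ i < 2 ^ (C * n) * 2 ^ (C * n), ∀ k < 2 ^ (C * n) * 2 ^ (C * n), i ≠ k →
      agD c (2 * (C₃ * n)) ((desM c (2 * (C₃ * n)) (C * n)).getD i 0)
        ((desM c (2 * (C₃ * n)) (C * n)).getD k 0) ≤ C * n := fun i hi k hk hik =>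
    desM_pairwise c _ _ (lt_of_lt_of_le hi hlen) (lt_of_lt_of_le hk hlen) hik
  obtain ⟨L, hL, hL'⟩ := exists_hardE (a := C * n) (K := 2 ^ (C * n) * 2 ^ (C * n))
    (m := C₂ * n) (as := C₃ * n) (ps := prm (2 ^ (C₃ * n - 1))) (c := c)
    (l := 2 * (C₃ * n)) (ρ := C * n) (q := (3 * C + 3) * n) (desM c (2 * (C₃ * n)) (C * n))
    (BadE n (C * n) (5 * n) (2 ^ n) (prm (2 ^ (C * n - 1))))
    (fun g g' h => badE_congr hp.pos (by omega) h)
    (card_badE hp (by omega) (by omega) hn2 (by omega) rfl) (by omega)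
    rfl hps (by omega) (by omega) (by ring) e3 hD le_rfl e2
  refine ⟨L, hL, fun P M hP hM hcons hans => ?_⟩
  obtain ⟨s, hs, hbad⟩ := hL' P M hP hM hcons hans
  refine ⟨s, hs, fun h => hbad ?_⟩
  refine badE_congr hp.pos (by omega) ?_ h
  intro i hi
  have hi' : i < 2 ^ (2 * (C * n)) := by
    rw [← pow_add] at hi
    rwa [show 2 * (C * n) = C * n + C * n by ring]
  unfold gL
  simp [List.getD, hi']

lemma bad_bridgeE (C Q C₃ c : ℕ) : ∀ᶠ q in big ⊤, ∀ (B : List Bool) (s : ℕ),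
    (BadEP C Q ((q.1, q.2), gT C C₃ c (((q.1, q.2), B), s)) ↔ BadLE C Q C₃ c q.1 B s) := by
  have h1 := eventually_le_two_pow ⊤ (c := c * (2 * C₃)) (fun n => c * (2 * (C₃ * n)))
    (fun n => by nlinarith [Nat.zero_le (c * (2 * C₃))])
  have h2 := eventually_le_two_pow ⊤ (c := 2 * C₃ * 2 ^ c) (fun n => 2 * (C₃ * n) * 2 ^ c)
    (fun n => by nlinarith [Nat.zero_le (2 * C₃ * 2 ^ c)])
  have h3 := eventually_le_two_pow ⊤ (c := 2 * C₃) (fun n => 2 * (C₃ * n)) (fun n => by nlinarith)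
  have h4 := eventually_le_two_pow ⊤ (c := 2 * C) (fun n => 2 * (C * n)) (fun n => by nlinarith)
  have h5 := eventually_two_pow_le ⊤ Q
  have h6 := eventually_two_pow_le ⊤ 1
  have h7 := eventually_two_pow_le ⊤ C
  filter_upwards [h1, h2, h3, h4, h5, h6, h7] with q h1 h2 h3 h4 h5 h6 h7 B s
  rw [one_mul] at h6
  rw [gT_eq h1 h2 h3 h4, badEP_iff h7 h5 h6]
  rfl

/-- The computable form of the property of the hard word. -/
def HdEP (C Q C₂ Q₂ C₃ c : ℕ) (x : (ℕ × ℕ) × List Bool) : Prop :=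
  ∀ W : List Bool × List Bool, sz W ≤ 3 + 8 * x.1.2 →
    ((((W.1.length = powB x.1.2 (C₂ * x.1.1) ∧ W.2.length = powB x.1.2 (C₂ * x.1.1)) ∧
    ((List.range (powB x.1.2 (C₂ * x.1.1))).all fun z =>
      (!(W.1.getD z false) || x.2.getD z false) && (!(W.2.getD z false) || !(x.2.getD z false)))
      = true) ∧ powB x.1.2 (Q₂ * x.1.1) ≤ naT C₂ (x.1, W)) →
    ∃ s ∈ List.range (powB x.1.2 (2 * (C₃ * x.1.1) * 2 ^ c)),
      ¬ BadEP C Q ((x.1.1, x.1.2), gT C C₃ c (((x.1.1, x.1.2), W.1 ++ W.2), s)))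

lemma psp_HdEP (C Q C₂ Q₂ C₃ c : ℕ) : PSp (HdEP C Q C₂ Q₂ C₃ c) := by
  unfold HdEP
  refine PSp.forall_le (R := fun (x : (ℕ × ℕ) × List Bool) (W : List Bool × List Bool) =>
    ((((W.1.length = powB x.1.2 (C₂ * x.1.1) ∧ W.2.length = powB x.1.2 (C₂ * x.1.1)) ∧
    ((List.range (powB x.1.2 (C₂ * x.1.1))).all fun z =>
      (!(W.1.getD z false) || x.2.getD z false) && (!(W.2.getD z false) || !(x.2.getD z false)))
      = true) ∧ powB x.1.2 (Q₂ * x.1.1) ≤ naT C₂ (x.1, W)) →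
    ∃ s ∈ List.range (powB x.1.2 (2 * (C₃ * x.1.1) * 2 ^ c)),
      ¬ BadEP C Q ((x.1.1, x.1.2), gT C C₃ c (((x.1.1, x.1.2), W.1 ++ W.2), s)))) ?_ (by fun_prop)
  refine PSp.imp (PSp.and (PSp.and (PSp.and (PSp.of_ptime (by fun_prop))
    (PSp.of_ptime (by fun_prop))) (PSp.of_ptime ?_)) (PSp.of_ptime ?_)) ?_
  · refine PTime.decide_true' (PTime.all (g := fun (x : ((ℕ × ℕ) × List Bool) ×
      (List Bool × List Bool)) z => (!(x.2.1.getD z false) || x.1.2.getD z false) &&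
        (!(x.2.2.getD z false) || !(x.1.2.getD z false))) (by fun_prop) (by fun_prop))
  · exact PTime.le (by fun_prop) ((ptime_naT C₂).comp (by fun_prop))
  · refine PSp.exists_mem (R := fun (y : ((ℕ × ℕ) × List Bool) × (List Bool × List Bool))
      (s : ℕ) => ¬ BadEP C Q ((y.1.1.1, y.1.1.2),
        gT C C₃ c (((y.1.1.1, y.1.1.2), y.2.1 ++ y.2.2), s))) (PSp.not ?_) (by fun_prop)
    refine (psp_badEP C Q).comp (g := fun z : (((ℕ × ℕ) × List Bool) ×
      (List Bool × List Bool)) × ℕ => ((z.1.1.1.1, z.1.1.1.2),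
        gT C C₃ c (((z.1.1.1.1, z.1.1.1.2), z.1.2.1 ++ z.1.2.2), z.2))) ?_
    exact PTime.pair (by fun_prop) ((ptime_gT C C₃ c).comp (by fun_prop))

lemma HdEP_iff (C Q C₂ Q₂ C₃ c : ℕ) : ∀ᶠ q in big ⊤, ∀ L : List Bool,
    L.length = 2 ^ (C₂ * q.1) →
      (HdEP C Q C₂ Q₂ C₃ c ((q.1, q.2), L) ↔ HdE C Q C₂ Q₂ C₃ c q.1 L) := by
  have h2 := eventually_le_two_pow ⊤ (c := 2 * C₃ * 2 ^ c) (fun n => 2 * (C₃ * n) * 2 ^ c)
    (fun n => by nlinarith [Nat.zero_le (2 * C₃ * 2 ^ c)])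
  filter_upwards [bad_bridgeE C Q C₃ c, h2, eventually_two_pow_le ⊤ C₂,
    eventually_two_pow_le ⊤ Q₂] with q h1 h2 h3 h4 L _
  have key : ∀ P M : List Bool, (((List.range (2 ^ (C₂ * q.1))).all fun z =>
      (!(P.getD z false) || L.getD z false) && (!(M.getD z false) || !(L.getD z false))) = true ↔
      Cons (C₂ * q.1) (fun i => L.getD i false) (fun i => P.getD i false)
        (fun i => M.getD i false)) := by
    intro P M
    unfold Cons
    rw [List.all_eq_true]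
    simp only [List.mem_range]
    refine forall_congr' fun z => imp_congr_right fun _ => ?_
    cases P.getD z false <;> cases M.getD z false <;> cases L.getD z false <;> simp
  unfold HdEP HdE
  simp only
  rw [powB_eq h2, powB_eq h3, powB_eq h4]
  simp only [h1, List.mem_range]
  constructor
  · intro h P M hP hM hcons hans
    refine h (P, M) ((sz_pair_bits hP.le hM.le).trans (by omega)) ⟨⟨⟨hP, hM⟩, ?_⟩, ?_⟩
    · rw [key]
      exact hcons
    · rw [naT_eq h3]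
      exact hans
  · rintro h ⟨P, M⟩ - ⟨⟨⟨hP, hM⟩, hcons⟩, hans⟩
    simp only at hP hM hcons hans ⊢
    rw [key] at hcons
    rw [naT_eq h3] at hans
    exact h P M hP hM hcons hans

/-! ### The hypothesis -/

open Classical in
/-- The number of strings of length `n` on which one of two predicates holds. -/
noncomputable def cnt2 (n : ℕ) (P M : ℕ → ℕ → Prop) : ℕ :=
  ((Finset.range (2 ^ n)).filter fun k => P n k ∨ M n k).card

/-- Errorless heuristics with `2^(Q n)` answers at length `C n`. -/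
def AnsH (C Q : ℕ) : Prop := ∀ R, ESn R → ∃ P M, NEn P ∧ NEn M ∧
  (∀ n k, k < 2 ^ n → (P n k → R n k) ∧ (M n k → ¬ R n k)) ∧
  ∃ n₀, ∀ n ≥ n₀, 2 ^ (Q * n) ≤ cnt2 (C * n) P M

lemma nAns_tab (n : ℕ) (P M : ℕ → ℕ → Prop) :
    nAns n (fun z => (tab P n).getD z false) (fun z => (tab M n).getD z false) = cnt2 n P M := by
  classical
  unfold nAns cnt2
  congr 1
  refine Finset.filter_congr fun z hz => ?_
  rw [Finset.mem_range] at hz
  rw [getD_tab hz, getD_tab hz]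

theorem nen_of_ans {C C₂ : ℕ} (hC : 1 ≤ C) (hC₂ : 1 ≤ C₂)
    (H : AnsH C 5) (H₂ : AnsH C₂ (3 * C + 3)) (Hm : MajH) {R : ℕ → ℕ → Prop} (hR : ESn R) :
    NEn R := by
  classical
  obtain ⟨C₃, hC₃⟩ : ∃ C₃, C₃ = C₂ + 4 * C + 3 := ⟨_, rfl⟩
  obtain ⟨c, hc⟩ : ∃ c, c = 2 * C₃ + 2 := ⟨_, rfl⟩
  -- the hard language
  set LH : ℕ → List Bool := leastL C₂ (HdE C 5 C₂ (3 * C + 3) C₃ c) with hLH
  have hLHe : ESf LH := esf_leastL (psp_HdEP C 5 C₂ (3 * C + 3) C₃ c)
    (HdEP_iff C 5 C₂ (3 * C + 3) C₃ c)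
  have hLHs : ∀ᶠ n in pows, (LH n).length = 2 ^ (C₂ * n) ∧
      HdE C 5 C₂ (3 * C + 3) C₃ c n (LH n) := by
    have hbig : ∀ᶠ n in pows, 8 * (C * n + 2) ≤ 2 ^ n := by
      refine eventually_pows.2 ⟨8 * (C + 2), fun j hj => ?_⟩
      have h1 : 2 * j ≤ 2 ^ j := by
        rcases Nat.eq_zero_or_pos j with rfl | h0
        · simp
        · have h2 : j - 1 < 2 ^ (j - 1) := Nat.lt_two_pow_self
          have h3 : 2 ^ j = 2 * 2 ^ (j - 1) := by
            rw [← pow_succ']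
            congr 1
            omega
          omega
      have h4 : 2 ^ j * 2 ^ j ≤ 2 ^ 2 ^ j := by
        rw [← pow_add]
        exact Nat.pow_le_pow_right (by norm_num) (by omega)
      have h5 : 1 ≤ 2 ^ j := Nat.one_le_two_pow
      refine le_trans ?_ h4
      nlinarith
    filter_upwards [eventually_pows_ge 1, hbig] with n hn hn2
    obtain ⟨h1, h2, -⟩ := leastL_spec (exists_HdE hC hC₃.ge hc.ge hn hn2)
    exact ⟨h1, h2⟩
  have hRs : ESn fun m z => ∃ n, m = C₂ * n ∧ (LH n).getD z false = true := by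
    refine esn_scaled hLHe (by omega)
      (V := fun x : (ℕ × List Bool × ℕ) × ℕ => x.1.2.1.getD x.2 false) (by fun_prop) ?_
    exact Eventually.of_forall fun q z _ => Iff.rfl
  obtain ⟨P, M, hP, hM, hPM, n₀, hn₀⟩ := H₂ _ hRs
  have hPe := esn_of_nen hP
  have hMe := esn_of_nen hM
  have hBe : ESf fun n => (tab P (C₂ * n), tab M (C₂ * n)) :=
    (esf_tab hPe C₂).prod (esf_tab hMe C₂)
  have hBn : NEf fun n => (tab P (C₂ * n), tab M (C₂ * n)) :=
    (nef_tab Hm hP hPe (by omega)).prod (nef_tab Hm hM hMe (by omega))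
  have hcons : ∀ n, Cons (C₂ * n) (fun z => (LH n).getD z false)
      (fun z => (tab P (C₂ * n)).getD z false) (fun z => (tab M (C₂ * n)).getD z false) := by
    intro n z hz
    have h1 : (∃ n', C₂ * n = C₂ * n' ∧ (LH n').getD z false = true) ↔
        (LH n).getD z false = true := by
      constructor
      · rintro ⟨n', h1, h2⟩
        rwa [Nat.eq_of_mul_eq_mul_left (by omega) h1]
      · intro h
        exact ⟨n, rfl, h⟩
    have h2 := hPM (C₂ * n) z hz
    beta_reduce at h2 ⊢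
    rw [h1] at h2
    rw [getD_tab hz, getD_tab hz]
    refine ⟨h2.1, fun h => ?_⟩
    have := h2.2 h
    simpa using this
  -- the seed
  have hBd : ESf fun n => 2 ^ (2 * (C₃ * n) * 2 ^ c) := by
    refine esf_of_ptime (G := fun q : ℕ × ℕ => powB q.2 (2 * (C₃ * q.1) * 2 ^ c)) (by fun_prop) ?_
    have h2 := eventually_le_two_pow ⊤ (c := 2 * C₃ * 2 ^ c) (fun n => 2 * (C₃ * n) * 2 ^ c)
      (fun n => by nlinarith [Nat.zero_le (2 * C₃ * 2 ^ c)])
    filter_upwards [h2] with q hq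
    exact powB_eq hq
  set sd : ℕ → ℕ := leastN (fun n => 2 ^ (2 * (C₃ * n) * 2 ^ c))
    (fun n s => ¬ BadLE C 5 C₃ c n (tab P (C₂ * n) ++ tab M (C₂ * n)) s) with hsd
  have hsde : ESf sd := by
    refine esf_least hBe (fun n => by positivity) hBd
      (Gd := fun x => ¬ BadEP C 5 ((x.1.1, x.1.2.2),
        gT C C₃ c (((x.1.1, x.1.2.2), x.1.2.1.1 ++ x.1.2.1.2), x.2))) (PSp.not ?_) ?_
    · refine (psp_badEP C 5).comp (g := fun x : (ℕ × (List Bool × List Bool) × ℕ) × ℕ =>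
        ((x.1.1, x.1.2.2), gT C C₃ c (((x.1.1, x.1.2.2), x.1.2.1.1 ++ x.1.2.1.2), x.2))) ?_
      exact PTime.pair (by fun_prop) ((ptime_gT C C₃ c).comp
        (f := fun x : (ℕ × (List Bool × List Bool) × ℕ) × ℕ =>
          (((x.1.1, x.1.2.2), x.1.2.1.1 ++ x.1.2.1.2), x.2)) (by fun_prop))
    · filter_upwards [bad_bridgeE C 5 C₃ c] with q h1 s _
      exact not_congr (h1 _ _)
  have hsdn : NEf sd := by
    refine nef_of_esf Hm hsde (K := 2 * C₃ * 2 ^ c)
      (Nat.mul_pos (by omega) (by positivity)) (Eventually.of_forall fun n => ?_)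
    have h1 := leastN_lt (B := fun n => 2 ^ (2 * (C₃ * n) * 2 ^ c))
      (Gd := fun n s => ¬ BadLE C 5 C₃ c n (tab P (C₂ * n) ++ tab M (C₂ * n)) s) (n := n)
      (by positivity)
    rwa [show 2 * C₃ * 2 ^ c * n = 2 * (C₃ * n) * 2 ^ c by ring]
  -- the table
  set F : ℕ → List Bool := fun n => gL C C₃ c n (tab P (C₂ * n) ++ tab M (C₂ * n)) (sd n) with hF
  have hG : PTime fun x : ℕ × ((List Bool × List Bool) × ℕ) × ℕ =>
      gT C C₃ c (((x.1, x.2.2), x.2.1.1.1 ++ x.2.1.1.2), x.2.1.2) :=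
    (ptime_gT C C₃ c).comp (f := fun x : ℕ × ((List Bool × List Bool) × ℕ) × ℕ =>
      (((x.1, x.2.2), x.2.1.1.1 ++ x.2.1.1.2), x.2.1.2)) (by fun_prop)
  have hGF : ∀ᶠ q in big ⊤, gT C C₃ c (((q.1, q.2),
      tab P (C₂ * q.1) ++ tab M (C₂ * q.1)), sd q.1) = F q.1 := by
    have h1 := eventually_le_two_pow ⊤ (c := c * (2 * C₃)) (fun n => c * (2 * (C₃ * n)))
      (fun n => by nlinarith [Nat.zero_le (c * (2 * C₃))])
    have h2 := eventually_le_two_pow ⊤ (c := 2 * C₃ * 2 ^ c) (fun n => 2 * (C₃ * n) * 2 ^ c)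
      (fun n => by nlinarith [Nat.zero_le (2 * C₃ * 2 ^ c)])
    have h3 := eventually_le_two_pow ⊤ (c := 2 * C₃) (fun n => 2 * (C₃ * n))
      (fun n => by nlinarith)
    have h4 := eventually_le_two_pow ⊤ (c := 2 * C) (fun n => 2 * (C * n)) (fun n => by nlinarith)
    filter_upwards [h1, h2, h3, h4] with q h1 h2 h3 h4
    rw [gT_eq h1 h2 h3 h4]
    rfl
  have hFe : ESf F := (hBe.prod hsde).map hG hGF
  have hFn : NEf F := (hBn.prod hsdn).map hG (hGF.filter_mono (big_le_top _))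
  have hgood : ∀ᶠ n in pows, ¬ BadLE C 5 C₃ c n (tab P (C₂ * n) ++ tab M (C₂ * n)) (sd n) := by
    filter_upwards [hLHs, eventually_pows_ge n₀] with n h1 h2
    obtain ⟨h3, h4⟩ := h1
    have h5 := hn₀ n h2
    rw [← nAns_tab] at h5
    obtain ⟨s, hs, hbad⟩ := h4 _ _ (length_tab _ _) (length_tab _ _) (hcons n) h5
    exact (leastN_spec (B := fun n => 2 ^ (2 * (C₃ * n) * 2 ^ c))
      (Gd := fun n s => ¬ BadLE C 5 C₃ c n (tab P (C₂ * n) ++ tab M (C₂ * n)) s)
      ⟨s, hs, hbad⟩).2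
  -- the code language
  refine nen_of_nef_tab ?_
  have hT0 := esn_padR hR
  have hTe : ESf fun n => tab (padR R) n := by
    have := esf_tab hT0 1
    simpa using this
  let cw : ℕ → List Bool → ℕ → Bool := fun n T z =>
    tcw (C * n) (prm (2 ^ (C * n - 1))) (fun i => (F n).getD i false) T z
  have hRc : ESn fun m z => ∃ n, m = C * n ∧ cw n (tab (padR R) n) z = true := by
    refine esn_scaled (hFe.prod hTe) hC
      (V := fun x : (ℕ × (List Bool × List Bool) × ℕ) × ℕ =>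
        cbT C ((((x.1.1, x.1.2.2), x.1.2.1.1), x.1.2.1.2), x.2)) ?_ ?_
    · exact (ptime_cbT C).comp (by fun_prop)
    · filter_upwards [eventually_two_pow_le ⊤ C] with q hq z hz
      rw [cbT_eq hq]
  obtain ⟨P', M', hP', hM', hPM', n₁, hn₁⟩ := H _ hRc
  have hPe' := esn_of_nen hP'
  have hMe' := esn_of_nen hM'
  have hcons' : ∀ n, Cons (C * n) (cw n (tab (padR R) n))
      (fun z => (tab P' (C * n)).getD z false) (fun z => (tab M' (C * n)).getD z false) := by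
    intro n z hz
    have h1 : (∃ n', C * n = C * n' ∧ cw n' (tab (padR R) n') z = true) ↔
        cw n (tab (padR R) n) z = true := by
      constructor
      · rintro ⟨n', h1, h2⟩
        rwa [Nat.eq_of_mul_eq_mul_left (by omega) h1]
      · intro h
        exact ⟨n, rfl, h⟩
    have h2 := hPM' (C * n) z hz
    beta_reduce at h2 ⊢
    rw [h1] at h2
    rw [getD_tab hz, getD_tab hz]
    refine ⟨h2.1, fun h => ?_⟩
    have := h2.2 h
    simpa using this
  refine nef_sep hT0 Hm (W := fun n => (F n, (tab P' (C * n), tab M' (C * n))))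
    (hFe.prod ((esf_tab hPe' C).prod (esf_tab hMe' C)))
    (hFn.prod ((nef_tab Hm hP' hPe' (by omega)).prod (nef_tab Hm hM' hMe' (by omega))))
    (Cl := fun n T => Cons (C * n) (cw n T)
      (fun z => (tab P' (C * n)).getD z false) (fun z => (tab M' (C * n)).getD z false))
    (V := fun x => coT C ((((x.1.1, x.1.2.2), x.1.2.1.1), x.2), x.1.2.1.2)) ?_ ?_ 1 ?_ ?_
  · exact (ptime_coT C).comp (by fun_prop)
  · filter_upwards [eventually_two_pow_le ⊤ C] with q hq T hT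
    rw [coT_iff hq]
  · filter_upwards [hgood, eventually_pows_ge n₁] with n h1 h2 Λ hΛ
    by_contra hno
    push Not at hno
    rw [one_mul] at hno
    obtain ⟨Λ', hΛ', hcard⟩ := Finset.exists_subset_card_eq hno.le
    have h5 := hn₁ n h2
    rw [← nAns_tab] at h5
    exact h1 ⟨_, _, Λ', h5, hcard, fun T hT => hΛ T (hΛ' hT)⟩
  · exact Eventually.of_forall fun n => hcons' n

end Pool.Agent.H48.NE
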