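import Pool.Agent.H48.NE.R11

/-!
# Errorless heuristics: the equivalence
-/

namespace Pool.Agent.H48.NE

open TMLib Polynomial Filter

set_option maxHeartbeats 1000000

/-- Every language in `EXPSPACE` has an errorless `NEXPTIME` heuristic with `2^(κ n)` answers. -/
def AnsR (κ : ℝ) : Prop := ∀ L ∈ EXPSPACE, ∃ A ∈ NEXPTIME, ∃ B ∈ NEXPTIME,
  A ⊆ L ∧ B ⊆ Lᶜ ∧ ∃ n₀ : ℕ, ∀ n ≥ n₀,
    (2 : ℝ) ^ (κ * n) ≤ {x : List Bool | (x ∈ A ∨ x ∈ B) ∧ x.length = n}.ncard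

lemma compl_mem {L : Set (List Bool)} (hL : L ∈ EXPSPACE) : Lᶜ ∈ EXPSPACE := by
  rw [mem_EXPSPACE_iff] at hL ⊢
  obtain ⟨c, P, hP, h⟩ := hL
  refine ⟨c, fun q => ¬ P q, PSp.not hP, fun n k N hk hN => ?_⟩
  exact not_congr (h n k N hk hN)

lemma ncard_lists (n : ℕ) : {x : List Bool | x.length = n}.ncard = 2 ^ n := by
  classical
  have h := ncard_eq Set.univ n
  simp only [Set.mem_univ, true_and] at h
  rw [h, Finset.filter_true_of_mem (fun _ _ => trivial), Finset.card_range]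

theorem ansR_of_eq {κ : ℝ} (h1 : κ ≤ 1) (h : NEXPTIME = EXPSPACE) : AnsR κ := by
  intro L hL
  refine ⟨L, h ▸ hL, Lᶜ, h ▸ compl_mem hL, subset_rfl, subset_rfl, 0, fun n _ => ?_⟩
  have e : {x : List Bool | (x ∈ L ∨ x ∈ Lᶜ) ∧ x.length = n} = {x | x.length = n} := by
    ext x
    simp [em]
  rw [e, ncard_lists]
  push_cast
  rw [← Real.rpow_natCast 2 n]
  refine Real.rpow_le_rpow_of_exponent_le (by norm_num) ?_
  have h3 : (0 : ℝ) ≤ n := Nat.cast_nonneg n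
  nlinarith

lemma ncard_cnt2 (A B : Set (List Bool)) (n : ℕ) :
    {x : List Bool | (x ∈ A ∨ x ∈ B) ∧ x.length = n}.ncard =
      cnt2 n (fun n k => bitsOf n k ∈ A) (fun n k => bitsOf n k ∈ B) := by
  classical
  have h := ncard_eq (A ∪ B) n
  simp only [Set.mem_union] at h
  rw [h]
  unfold cnt2
  rfl

lemma bitsOf_lang {R : ℕ → ℕ → Prop} {n k : ℕ} (hk : k < 2 ^ n) :
    bitsOf n k ∈ lang R ↔ R n k := by
  show R (bitsOf n k).length (val (bitsOf n k)) ↔ R n k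
  rw [length_bitsOf, val_bitsOf hk]

lemma ansH_of_ansR {κ : ℝ} (H : AnsR κ) {C Q : ℕ} (hC : 1 ≤ C) (hQ : (Q : ℝ) ≤ κ * C) :
    AnsH C Q := by
  intro R hR
  obtain ⟨A, hA, B, hB, hAL, hBL, n₀, hn₀⟩ := H _ (mem_of_esn hR)
  refine ⟨_, _, nen_of_mem hA, nen_of_mem hB, fun n k hk => ⟨fun h => ?_, fun h => ?_⟩,
    n₀, fun n hn => ?_⟩
  · exact (bitsOf_lang hk).1 (hAL h)
  · exact fun h2 => hBL h ((bitsOf_lang hk).2 h2)
  · have hn1 : n ≤ C * n := Nat.le_mul_of_pos_left _ hC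
    have h1 := hn₀ (C * n) (by omega)
    rw [ncard_cnt2] at h1
    have h2 : (2 : ℝ) ^ (Q * n) ≤ (2 : ℝ) ^ (κ * (C * n : ℕ)) := by
      rw [← Real.rpow_natCast 2 (Q * n)]
      refine Real.rpow_le_rpow_of_exponent_le (by norm_num) ?_
      push_cast
      have h3 : (0 : ℝ) ≤ n := Nat.cast_nonneg n
      nlinarith
    have h3 := h2.trans h1
    exact_mod_cast h3

lemma agr_full {n : ℕ} {R S : ℕ → ℕ → Prop} (h : ∀ k, S n k ↔ R n k) : agr n R S = 2 ^ n := by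
  classical
  unfold agr
  rw [Finset.filter_true_of_mem (fun k _ => h k), Finset.card_range]

lemma majH_of_ansR {κ : ℝ} (H : AnsR κ) : MajH := by
  classical
  intro R hR hall
  obtain ⟨A, hA, B, hB, hAL, hBL, n₀, hn₀⟩ := H _ (mem_of_esn hR)
  obtain ⟨c, P, hP, h⟩ := nen_of_mem hA
  refine ⟨fun n _ => ∃ z < 2 ^ n, bitsOf n z ∈ A, ⟨c + 1, fun q =>
    ∃ z ∈ List.range (powB q.2.2 q.1), P (q.1, z, q.2.2), ?_, ?_⟩, n₀, fun n hn => ?_⟩
  · refine NPp.exists_mem (R := fun (q : ℕ × ℕ × ℕ) z => P (q.1, z, q.2.2)) ?_ (by fun_prop)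
    exact hP.comp (g := fun x : (ℕ × ℕ × ℕ) × ℕ => (x.1.1, x.2, x.1.2.2)) (by fun_prop)
  · intro n k N _ hN
    have h1 : 2 ^ n ≤ N := le_trans (two_pow_le_exp (by omega) _) hN
    have h2 : 2 ^ (c * (n + 1)) ≤ N := le_trans (pow_mono_exp (by omega) _) hN
    simp only
    rw [powB_eq h1]
    constructor
    · rintro ⟨z, hz, hz2⟩
      rw [List.mem_range] at hz
      exact ⟨z, hz, (h n z N hz h2).1 hz2⟩
    · rintro ⟨z, hz, hz2⟩
      exact ⟨z, List.mem_range.2 hz, (h n z N hz h2).2 hz2⟩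
  · have h1 := hn₀ n hn
    have h2 : (0 : ℝ) < (2 : ℝ) ^ (κ * n) := Real.rpow_pos_of_pos (by norm_num) _
    have h3 : 0 < {x : List Bool | (x ∈ A ∨ x ∈ B) ∧ x.length = n}.ncard := by
      have := h2.trans_le h1
      exact_mod_cast this
    have h4 : {x : List Bool | (x ∈ A ∨ x ∈ B) ∧ x.length = n}.Nonempty := by
      rw [Set.nonempty_iff_ne_empty]
      intro h5
      rw [h5] at h3
      simp at h3
    have h5 : ∀ k, (∃ z < 2 ^ n, bitsOf n z ∈ A) ↔ R n k := by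
      intro k
      constructor
      · rintro ⟨z, hz, hz2⟩
        exact (hall n z k).1 ((bitsOf_lang hz).1 (hAL hz2))
      · intro hk
        obtain ⟨x, hx1, hx2⟩ := h4
        have hv : val x < 2 ^ n := by
          have := val_lt x
          rwa [hx2] at this
        have hb : bitsOf n (val x) = x := by
          have := bitsOf_val x
          rwa [hx2] at this
        have hR' : x ∈ lang R := by
          rw [← hb]
          exact (bitsOf_lang hv).2 ((hall n k _).1 hk)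
        rcases hx1 with h6 | h6
        · exact ⟨val x, hv, by rwa [hb]⟩
        · exact absurd hR' (hBL h6)
    have h6 : agr n R (fun n _ => ∃ z < 2 ^ n, bitsOf n z ∈ A) = 2 ^ n := by
      exact agr_full h5
    rw [h6]
    have h7 : 0 < 2 ^ n := by positivity
    omega

theorem subset_of_ansR {κ : ℝ} (h0 : 0 < κ) (H : AnsR κ) : EXPSPACE ⊆ NEXPTIME := by
  obtain ⟨C, hC⟩ := exists_nat_ge (5 / κ + 1)
  have h2 : 0 < 5 / κ := by positivity
  have hC1 : 1 ≤ C := by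
    have : (1 : ℝ) ≤ C := by linarith
    exact_mod_cast this
  have hC2 : ((5 : ℕ) : ℝ) ≤ κ * C := by
    have h3 : 5 / κ ≤ C := by linarith
    rw [div_le_iff₀ h0] at h3
    push_cast
    linarith
  obtain ⟨C₂, hC₂⟩ := exists_nat_ge ((3 * C + 3) / κ + 1)
  have h3 : 0 < (3 * C + 3) / κ := by positivity
  have hC₂1 : 1 ≤ C₂ := by
    have : (1 : ℝ) ≤ C₂ := by linarith
    exact_mod_cast this
  have hC₂2 : ((3 * C + 3 : ℕ) : ℝ) ≤ κ * C₂ := by
    have h4 : (3 * C + 3) / κ ≤ C₂ := by linarith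
    rw [div_le_iff₀ h0] at h4
    push_cast
    linarith
  intro L hL
  rw [mem_NEXPTIME_iff]
  exact nen_of_ans hC1 hC₂1 (ansH_of_ansR H hC1 hC2) (ansH_of_ansR H hC₂1 hC₂2)
    (majH_of_ansR H) (esn_of_mem hL)

end Pool.Agent.H48.NE
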