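import Pool.Agent.H48.NE.R2

/-!
# Approximation with advantage `2^(-δ n)`, `δ < 1/4`
-/

namespace Pool.Agent.H48.NE

open TMLib Polynomial Filter

theorem appR_of_eq {δ : ℝ} (h0 : 0 < δ) (h : NEXPTIME = EXPSPACE) : AppR δ := by
  intro L hL
  refine ⟨L, h ▸ hL, ⌈1 / δ⌉₊, fun n hn => ?_⟩
  have e : {x : List Bool | x.length = n ∧ (x ∈ L ↔ x ∈ L)}.ncard = 2 ^ n := by
    rw [ncard_agr]
    unfold agr
    simp
  rw [e]
  have h1 : 1 / δ ≤ n := (Nat.le_ceil _).trans (by exact_mod_cast hn)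
  have h2 : 1 ≤ δ * n := by
    rw [div_le_iff₀ h0] at h1
    linarith
  have h3 : (2 : ℝ) ^ (-(δ * n)) ≤ 1 / 2 := by
    calc (2 : ℝ) ^ (-(δ * n)) ≤ (2 : ℝ) ^ (-1 : ℝ) :=
          Real.rpow_le_rpow_of_exponent_le (by norm_num) (by linarith)
      _ = 1 / 2 := by rw [Real.rpow_neg_one]; norm_num
  push_cast
  have h4 : (0 : ℝ) < 2 ^ n := by positivity
  nlinarith

theorem subset_of_appR4 {δ : ℝ} (h0 : 0 < δ) (h1 : δ < 1 / 4) (H : AppR δ) :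
    EXPSPACE ⊆ NEXPTIME := by
  obtain ⟨C, hC⟩ := exists_nat_ge (3 / (1 - 4 * δ) + 1)
  have h2 : 0 < 1 - 4 * δ := by linarith
  have hC1 : (1 : ℝ) ≤ C := by
    have : 0 < 3 / (1 - 4 * δ) := by positivity
    linarith
  have hC3 : 3 ≤ (C : ℝ) * (1 - 4 * δ) := by
    have h3 : 3 / (1 - 4 * δ) ≤ C := by linarith
    rwa [div_le_iff₀ h2] at h3
  set E := ⌈δ * (2 * C)⌉₊ with hE
  have hE1 : δ * (2 * C) ≤ E := Nat.le_ceil _
  have hE2 : (E : ℝ) < δ * (2 * C) + 1 := Nat.ceil_lt_add_one (by positivity)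
  have h5 : (2 * E + 1 : ℝ) ≤ C := by nlinarith
  have h6 : 2 * E + 1 ≤ C := by exact_mod_cast h5
  intro L hL
  rw [mem_NEXPTIME_iff]
  refine nen_of_app4 h6 (appH_of_appR H (by omega) ?_ (by omega)) (majH_of_appR H)
    (esn_of_mem hL)
  push_cast
  linarith

end Pool.Agent.H48.NE
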