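import Pool.Agent.H48.NE.Ext
import Pool.Agent.H48.NE.R2main

/-!
# Approximation with advantage `2^(-δ n)`, `δ < 1/2`
-/

namespace Pool.Agent.H48.NE

open TMLib Polynomial Filter

set_option maxHeartbeats 1000000

/-- The generated table. -/
def gL (C C₃ c n : ℕ) (B : List Bool) (s : ℕ) : List Bool :=
  (List.range (2 ^ (2 * (C * n)))).map
    (gM (C₃ * n) (prm (2 ^ (C₃ * n - 1))) c (2 * (C₃ * n)) (desM c (2 * (C₃ * n)) (C * n)) B s)

/-- Badness of the generated table. -/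
def BadL (C E C₃ c n : ℕ) (B : List Bool) (s : ℕ) : Prop :=
  BadT n (C * n) (E * n) (2 ^ (2 * (E * n) + 2)) (prm (2 ^ (C * n - 1)))
    (fun i => (gL C C₃ c n B s).getD i false)

/-- The property of the hard word. -/
def Hd (C E C₂ E₂ C₃ c n : ℕ) (L : List Bool) : Prop :=
  ∀ B : List Bool, B.length = 2 ^ (C₂ * n) → 2 ^ (C₂ * n) + 2 * 2 ^ (C₂ * n - E₂ * n) ≤
    2 * agw (C₂ * n) (fun i => L.getD i false) (fun i => B.getD i false) →
    ∃ s < 2 ^ (2 * (C₃ * n) * 2 ^ c), ¬ BadL C E C₃ c n B s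

lemma exists_Hd {C E C₂ E₂ C₃ c n : ℕ} (hC : 2 * E + 4 ≤ C) (hC₂ : 2 * E₂ + 3 * C + 2 ≤ C₂)
    (hC₃ : C₂ + 4 * C + 2 ≤ C₃) (hc : 2 * C₃ + 2 ≤ c) (hn : 1 ≤ n) :
    ∃ L : List Bool, L.length = 2 ^ (C₂ * n) ∧ Hd C E C₂ E₂ C₃ c n L := by
  have e1 : n + 2 * (E * n) + 3 ≤ C * n := by
    calc n + 2 * (E * n) + 3 ≤ (2 * E + 4) * n := by nlinarith
      _ ≤ _ := Nat.mul_le_mul_right _ hC
  have e2 : 3 * (C * n) + 2 + 2 * (E₂ * n) ≤ C₂ * n := by
    calc 3 * (C * n) + 2 + 2 * (E₂ * n) ≤ (2 * E₂ + 3 * C + 2) * n := by nlinarith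
      _ ≤ _ := Nat.mul_le_mul_right _ hC₂
  have e3 : C₂ * n + 4 * (C * n) + 2 ≤ C₃ * n := by
    calc C₂ * n + 4 * (C * n) + 2 ≤ (C₂ + 4 * C + 2) * n := by nlinarith
      _ ≤ _ := Nat.mul_le_mul_right _ hC₃
  obtain ⟨hp, hp1, hp2⟩ := prm_spec (B := 2 ^ (C * n - 1)) (by positivity)
  obtain ⟨hps, hps1, hps2⟩ := prm_spec (B := 2 ^ (C₃ * n - 1)) (by positivity)
  have e4 : 2 * 2 ^ (C * n - 1) = 2 ^ (C * n) := by
    rw [← pow_succ']
    congr 1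
    omega
  have e5 : 2 * 2 ^ (C₃ * n - 1) = 2 ^ (C₃ * n) := by
    rw [← pow_succ']
    congr 1
    omega
  have hlen : 2 ^ (C * n) * 2 ^ (C * n) ≤ (desM c (2 * (C₃ * n)) (C * n)).length := by
    have h1 := le_length_desM (c := c) (l := 2 * (C₃ * n)) (ρ := C * n) (by omega)
    have h2 : 2 ^ (C * n) * 2 ^ (C * n) * 2 ^ (2 * (C₃ * n)) ≤ 2 ^ (c * (C * n + 1)) := by
      rw [← pow_add, ← pow_add]
      refine Nat.pow_le_pow_right (by norm_num) ?_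
      calc C * n + C * n + 2 * (C₃ * n) ≤ (2 * C₃ + 2) * (C * n) := by
            have : C₃ * n ≤ C₃ * (C * n) := Nat.mul_le_mul_left _ (by nlinarith)
            nlinarith
        _ ≤ c * (C * n + 1) := Nat.mul_le_mul hc (by omega)
    exact Nat.le_of_mul_le_mul_right (h2.trans h1) (by positivity)
  have hD : ∀ i < 2 ^ (C * n) * 2 ^ (C * n), ∀ k < 2 ^ (C * n) * 2 ^ (C * n), i ≠ k →
      agD c (2 * (C₃ * n)) ((desM c (2 * (C₃ * n)) (C * n)).getD i 0)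
        ((desM c (2 * (C₃ * n)) (C * n)).getD k 0) ≤ C * n := fun i hi k hk hik =>
    desM_pairwise c _ _ (lt_of_lt_of_le hi hlen) (lt_of_lt_of_le hk hlen) hik
  obtain ⟨L, hL, hL'⟩ := exists_hard (n := n) (a := C * n) (e := E * n)
    (t := 2 ^ (2 * (E * n) + 2)) (p := prm (2 ^ (C * n - 1))) (K := 2 ^ (C * n) * 2 ^ (C * n))
    (m := C₂ * n) (es := E₂ * n) (as := C₃ * n) (ps := prm (2 ^ (C₃ * n - 1))) (c := c)
    (l := 2 * (C₃ * n)) (ρ := C * n) (desM c (2 * (C₃ * n)) (C * n)) hp (by omega) (by omega) e1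
    rfl rfl hps (by omega) (by omega) (by ring) e3 hD le_rfl e2
  refine ⟨L, hL, fun B hB hagr => ?_⟩
  obtain ⟨s, hs, hbad⟩ := hL' B hB hagr
  refine ⟨s, hs, fun h => hbad ?_⟩
  refine badT_congr hp.pos (by omega) ?_ h
  intro i hi
  have hi' : i < 2 ^ (2 * (C * n)) := by
    rw [← pow_add] at hi
    rwa [show 2 * (C * n) = C * n + C * n by ring]
  unfold gL
  simp [List.getD, hi']

/-- Agreement of two lists, as a computable function. -/
def aLL (C₂ : ℕ) (x : ((ℕ × ℕ) × List Bool) × List Bool) : ℕ :=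
  ((List.range (powB x.1.1.2 (C₂ * x.1.1.1))).filter fun i =>
    decide (x.1.2.getD i false = x.2.getD i false)).length

lemma ptime_aLL (C₂ : ℕ) : PTime (aLL C₂) := by
  unfold aLL
  refine PTime.length (PTime.filter (g := fun (x : ((ℕ × ℕ) × List Bool) × List Bool) i =>
    decide (x.1.2.getD i false = x.2.getD i false)) (by fun_prop)
    (PTime.eq (by fun_prop) (by fun_prop)))

lemma aLL_eq {C₂ n N : ℕ} (h : 2 ^ (C₂ * n) ≤ N) (L B : List Bool) :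
    aLL C₂ (((n, N), L), B) = agw (C₂ * n) (fun i => L.getD i false) (fun i => B.getD i false) := by
  unfold aLL agw
  simp only
  rw [powB_eq h, length_filter_range]
  simp only [decide_eq_true_eq]

lemma bad_bridge (C E C₃ c : ℕ) : ∀ᶠ q in big ⊤, ∀ (B : List Bool) (s : ℕ),
    (BadP C E ((q.1, q.2), gT C C₃ c (((q.1, q.2), B), s)) ↔ BadL C E C₃ c q.1 B s) := by
  have h1 := eventually_le_two_pow ⊤ (c := c * (2 * C₃)) (fun n => c * (2 * (C₃ * n)))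
    (fun n => by nlinarith [Nat.zero_le (c * (2 * C₃))])
  have h2 := eventually_le_two_pow ⊤ (c := 2 * C₃ * 2 ^ c) (fun n => 2 * (C₃ * n) * 2 ^ c)
    (fun n => by nlinarith [Nat.zero_le (2 * C₃ * 2 ^ c)])
  have h3 := eventually_le_two_pow ⊤ (c := 2 * C₃) (fun n => 2 * (C₃ * n)) (fun n => by nlinarith)
  have h4 := eventually_le_two_pow ⊤ (c := 2 * C) (fun n => 2 * (C * n)) (fun n => by nlinarith)
  have h5 := eventually_le_two_pow ⊤ (c := 2 * E + 2) (fun n => 2 * (E * n) + 2)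
    (fun n => by nlinarith)
  have h6 := eventually_two_pow_le ⊤ 1
  have h7 := eventually_two_pow_le ⊤ C
  filter_upwards [h1, h2, h3, h4, h5, h6, h7] with q h1 h2 h3 h4 h5 h6 h7 B s
  rw [one_mul] at h6
  rw [gT_eq h1 h2 h3 h4, badP_iff h7 h5 h6]
  rfl

/-- The computable form of the property of the hard word. -/
def HdP (C E C₂ E₂ C₃ c : ℕ) (x : (ℕ × ℕ) × List Bool) : Prop :=
  ∀ B : List Bool, sz B ≤ x.1.2 → ((B.length = powB x.1.2 (C₂ * x.1.1) ∧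
    powB x.1.2 (C₂ * x.1.1) + 2 * powB x.1.2 (C₂ * x.1.1 - E₂ * x.1.1) ≤ 2 * aLL C₂ (x, B)) →
    ∃ s ∈ List.range (powB x.1.2 (2 * (C₃ * x.1.1) * 2 ^ c)),
      ¬ BadP C E ((x.1.1, x.1.2), gT C C₃ c (((x.1.1, x.1.2), B), s)))

lemma psp_HdP (C E C₂ E₂ C₃ c : ℕ) : PSp (HdP C E C₂ E₂ C₃ c) := by
  unfold HdP
  refine PSp.forall_le (R := fun (x : (ℕ × ℕ) × List Bool) (B : List Bool) =>
    ((B.length = powB x.1.2 (C₂ * x.1.1) ∧
    powB x.1.2 (C₂ * x.1.1) + 2 * powB x.1.2 (C₂ * x.1.1 - E₂ * x.1.1) ≤ 2 * aLL C₂ (x, B)) →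
    ∃ s ∈ List.range (powB x.1.2 (2 * (C₃ * x.1.1) * 2 ^ c)),
      ¬ BadP C E ((x.1.1, x.1.2), gT C C₃ c (((x.1.1, x.1.2), B), s)))) ?_ (by fun_prop)
  refine PSp.imp (PSp.and (PSp.of_ptime (by fun_prop)) (PSp.of_ptime ?_)) ?_
  · exact PTime.le (by fun_prop) (PTime.mul (by fun_prop) (ptime_aLL C₂))
  · refine PSp.exists_mem (R := fun (y : ((ℕ × ℕ) × List Bool) × List Bool) (s : ℕ) =>
      ¬ BadP C E ((y.1.1.1, y.1.1.2), gT C C₃ c (((y.1.1.1, y.1.1.2), y.2), s))) (PSp.not ?_)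
      (by fun_prop)
    refine (psp_badP C E).comp (g := fun z : (((ℕ × ℕ) × List Bool) × List Bool) × ℕ =>
      ((z.1.1.1.1, z.1.1.1.2), gT C C₃ c (((z.1.1.1.1, z.1.1.1.2), z.1.2), z.2))) ?_
    exact PTime.pair (by fun_prop) ((ptime_gT C C₃ c).comp
      (f := fun z : (((ℕ × ℕ) × List Bool) × List Bool) × ℕ =>
        (((z.1.1.1.1, z.1.1.1.2), z.1.2), z.2)) (by fun_prop))

lemma HdP_iff (C E C₂ E₂ C₃ c : ℕ) : ∀ᶠ q in big ⊤, ∀ L : List Bool,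
    L.length = 2 ^ (C₂ * q.1) → (HdP C E C₂ E₂ C₃ c ((q.1, q.2), L) ↔ Hd C E C₂ E₂ C₃ c q.1 L) := by
  have h2 := eventually_le_two_pow ⊤ (c := 2 * C₃ * 2 ^ c) (fun n => 2 * (C₃ * n) * 2 ^ c)
    (fun n => by nlinarith [Nat.zero_le (2 * C₃ * 2 ^ c)])
  filter_upwards [bad_bridge C E C₃ c, h2, eventually_two_pow_le ⊤ C₂,
    eventually_sz_bits ⊤ C₂] with q h1 h2 h3 h4 L _
  have h5 : 2 ^ (C₂ * q.1 - E₂ * q.1) ≤ q.2 :=
    le_trans (Nat.pow_le_pow_right (by norm_num) (by omega)) h3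
  unfold HdP Hd
  simp only
  rw [powB_eq h2, powB_eq h3, powB_eq h5]
  simp only [h1, List.mem_range]
  constructor
  · intro h B hB hagr
    exact h B (h4 B hB) ⟨hB, by rw [aLL_eq h3]; exact hagr⟩
  · rintro h B - ⟨hB, hagr⟩
    rw [aLL_eq h3] at hagr
    exact h B hB hagr

theorem nen_of_app8 {C E C₂ E₂ : ℕ} (hC : 2 * E + 4 ≤ C) (hC₂ : 2 * E₂ + 3 * C + 2 ≤ C₂)
    (H : AppH C E) (H₂ : AppH C₂ E₂) (Hm : MajH) {R : ℕ → ℕ → Prop} (hR : ESn R) : NEn R := by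
  classical
  obtain ⟨C₃, hC₃⟩ : ∃ C₃, C₃ = C₂ + 4 * C + 2 := ⟨_, rfl⟩
  obtain ⟨c, hc⟩ : ∃ c, c = 2 * C₃ + 2 := ⟨_, rfl⟩
  -- the hard language
  set LH : ℕ → List Bool := leastL C₂ (Hd C E C₂ E₂ C₃ c) with hLH
  have hLHe : ESf LH := esf_leastL (psp_HdP C E C₂ E₂ C₃ c) (HdP_iff C E C₂ E₂ C₃ c)
  have hLHs : ∀ n ≥ 1, (LH n).length = 2 ^ (C₂ * n) ∧ Hd C E C₂ E₂ C₃ c n (LH n) := by
    intro n hn
    obtain ⟨h1, h2, -⟩ := leastL_spec (exists_Hd hC hC₂ hC₃.ge hc.ge hn)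
    exact ⟨h1, h2⟩
  have hRs : ESn fun m z => ∃ n, m = C₂ * n ∧ (LH n).getD z false = true := by
    refine esn_scaled hLHe (by omega)
      (V := fun x : (ℕ × List Bool × ℕ) × ℕ => x.1.2.1.getD x.2 false) (by fun_prop) ?_
    exact Eventually.of_forall fun q z _ => Iff.rfl
  obtain ⟨S, hS, n₀, hn₀⟩ := H₂ _ hRs
  have hSe := esn_of_nen hS
  have hBe : ESf fun n => tab S (C₂ * n) := esf_tab hSe C₂
  have hBn : NEf fun n => tab S (C₂ * n) := nef_tab Hm hS hSe (by omega)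
  have hagr : ∀ n, agr (C₂ * n) (fun m z => ∃ n, m = C₂ * n ∧ (LH n).getD z false = true) S =
      agw (C₂ * n) (fun z => (LH n).getD z false) (fun z => (tab S (C₂ * n)).getD z false) := by
    intro n
    unfold agr agw
    congr 1
    refine Finset.filter_congr fun z hz => ?_
    rw [Finset.mem_range] at hz
    have h1 : (∃ n', C₂ * n = C₂ * n' ∧ (LH n').getD z false = true) ↔
        (LH n).getD z false = true := by
      constructor
      · rintro ⟨n', h1, h2⟩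
        rwa [Nat.eq_of_mul_eq_mul_left (by omega) h1]
      · intro h
        exact ⟨n, rfl, h⟩
    beta_reduce
    rw [h1, ← getD_tab (R := S) hz, ← Bool.eq_iff_iff]
    exact eq_comm
  -- the seed
  have hBd : ESf fun n => 2 ^ (2 * (C₃ * n) * 2 ^ c) := by
    refine esf_of_ptime (G := fun q : ℕ × ℕ => powB q.2 (2 * (C₃ * q.1) * 2 ^ c)) (by fun_prop) ?_
    have h2 := eventually_le_two_pow ⊤ (c := 2 * C₃ * 2 ^ c) (fun n => 2 * (C₃ * n) * 2 ^ c)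
      (fun n => by nlinarith [Nat.zero_le (2 * C₃ * 2 ^ c)])
    filter_upwards [h2] with q hq
    exact powB_eq hq
  set sd : ℕ → ℕ := leastN (fun n => 2 ^ (2 * (C₃ * n) * 2 ^ c))
    (fun n s => ¬ BadL C E C₃ c n (tab S (C₂ * n)) s) with hsd
  have hsde : ESf sd := by
    refine esf_least hBe (fun n => by positivity) hBd
      (Gd := fun x => ¬ BadP C E ((x.1.1, x.1.2.2), gT C C₃ c (((x.1.1, x.1.2.2), x.1.2.1), x.2)))
      (PSp.not ?_) ?_
    · refine (psp_badP C E).comp (g := fun x : (ℕ × List Bool × ℕ) × ℕ =>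
        ((x.1.1, x.1.2.2), gT C C₃ c (((x.1.1, x.1.2.2), x.1.2.1), x.2))) ?_
      exact PTime.pair (by fun_prop) ((ptime_gT C C₃ c).comp
        (f := fun x : (ℕ × List Bool × ℕ) × ℕ => (((x.1.1, x.1.2.2), x.1.2.1), x.2))
        (by fun_prop))
    · filter_upwards [bad_bridge C E C₃ c] with q h1 s _
      exact not_congr (h1 _ _)
  have hsdn : NEf sd := by
    refine nef_of_esf Hm hsde (K := 2 * C₃ * 2 ^ c)
      (Nat.mul_pos (by omega) (by positivity)) (Eventually.of_forall fun n => ?_)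
    have h1 := leastN_lt (B := fun n => 2 ^ (2 * (C₃ * n) * 2 ^ c))
      (Gd := fun n s => ¬ BadL C E C₃ c n (tab S (C₂ * n)) s) (n := n) (by positivity)
    rwa [show 2 * C₃ * 2 ^ c * n = 2 * (C₃ * n) * 2 ^ c by ring]
  -- the table
  set F : ℕ → List Bool := fun n => gL C C₃ c n (tab S (C₂ * n)) (sd n) with hF
  have hG : PTime fun x : ℕ × (List Bool × ℕ) × ℕ =>
      gT C C₃ c (((x.1, x.2.2), x.2.1.1), x.2.1.2) :=
    (ptime_gT C C₃ c).comp (f := fun x : ℕ × (List Bool × ℕ) × ℕ =>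
      (((x.1, x.2.2), x.2.1.1), x.2.1.2)) (by fun_prop)
  have hGF : ∀ᶠ q in big ⊤, gT C C₃ c (((q.1, q.2), tab S (C₂ * q.1)), sd q.1) = F q.1 := by
    have h1 := eventually_le_two_pow ⊤ (c := c * (2 * C₃)) (fun n => c * (2 * (C₃ * n)))
      (fun n => by nlinarith [Nat.zero_le (c * (2 * C₃))])
    have h2 := eventually_le_two_pow ⊤ (c := 2 * C₃ * 2 ^ c) (fun n => 2 * (C₃ * n) * 2 ^ c)
      (fun n => by nlinarith [Nat.zero_le (2 * C₃ * 2 ^ c)])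
    have h3 := eventually_le_two_pow ⊤ (c := 2 * C₃) (fun n => 2 * (C₃ * n))
      (fun n => by nlinarith)
    have h4 := eventually_le_two_pow ⊤ (c := 2 * C) (fun n => 2 * (C * n)) (fun n => by nlinarith)
    filter_upwards [h1, h2, h3, h4] with q h1 h2 h3 h4
    rw [gT_eq h1 h2 h3 h4]
    rfl
  have hFe : ESf F := (hBe.prod hsde).map hG hGF
  have hFn : NEf F := (hBn.prod hsdn).map hG (hGF.filter_mono (big_le_top _))
  -- decoding
  refine nen_of_nef_tab ?_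
  refine nef_decode (esn_padR hR) (C := C) (E := E) (by omega) H Hm hFe hFn
    (cw := fun n T z => tcw (C * n) (prm (2 ^ (C * n - 1))) (fun i => (F n).getD i false) T z)
    (V := fun x => x.1.1.2.1.getD (x.2 * powB x.1.1.2.2 (C * x.1.1.1) +
      hv x.1.2 (x.2 % prm (powB x.1.1.2.2 (C * x.1.1.1 - 1)))
        (prm (powB x.1.1.2.2 (C * x.1.1.1 - 1)))) false) ?_ ?_ (2 * E + 2) ?_
  · have h1 : PTime fun x : ((ℕ × List Bool × ℕ) × List Bool) × ℕ =>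
        prm (powB x.1.1.2.2 (C * x.1.1.1 - 1)) := by fun_prop
    have h3 : PTime fun x : ((ℕ × List Bool × ℕ) × List Bool) × ℕ =>
        hv x.1.2 (x.2 % prm (powB x.1.1.2.2 (C * x.1.1.1 - 1)))
          (prm (powB x.1.1.2.2 (C * x.1.1.1 - 1))) :=
      ptime_hv (by fun_prop) (PTime.mod (by fun_prop) h1) h1
    exact PTime.listGetD (by fun_prop) (PTime.add (by fun_prop) h3) (by fun_prop)
  · filter_upwards [eventually_two_pow_le ⊤ C] with q hq T z hT hz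
    have h1 : 2 ^ (C * q.1 - 1) ≤ q.2 :=
      le_trans (Nat.pow_le_pow_right (by norm_num) (by omega)) hq
    rw [powB_eq hq, powB_eq h1]
    rfl
  · filter_upwards [eventually_pows_ge 1, eventually_pows_ge n₀] with n hn1 hn0 w Λ hΛ
    obtain ⟨h1, h2⟩ := hLHs n hn1
    have h3 := hn₀ n hn0
    rw [hagr] at h3
    obtain ⟨s, hs, hbad⟩ := h2 _ (length_tab _ _) h3
    have h4 : ¬ BadL C E C₃ c n (tab S (C₂ * n)) (sd n) := by
      exact (leastN_spec (B := fun n => 2 ^ (2 * (C₃ * n) * 2 ^ c))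
        (Gd := fun n s => ¬ BadL C E C₃ c n (tab S (C₂ * n)) s) ⟨s, hs, hbad⟩).2
    have h5 : Λ.card < 2 ^ (2 * (E * n) + 2) := by
      by_contra hno
      push Not at hno
      obtain ⟨Λ', hΛ', hcard⟩ := Finset.exists_subset_card_eq hno
      exact h4 ⟨w, Λ', hcard, fun T hT => hΛ T (hΛ' hT)⟩
    refine h5.le.trans (Nat.pow_le_pow_right (by norm_num) ?_)
    nlinarith

theorem subset_of_appR {δ : ℝ} (h0 : 0 < δ) (h1 : δ < 1 / 2) (H : AppR δ) :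
    EXPSPACE ⊆ NEXPTIME := by
  have h2 : 0 < 1 - 2 * δ := by linarith
  obtain ⟨C, hC⟩ := exists_nat_ge (6 / (1 - 2 * δ) + 1)
  have hC1 : (1 : ℝ) ≤ C := by
    have : 0 < 6 / (1 - 2 * δ) := by positivity
    linarith
  have hC3 : 6 ≤ (C : ℝ) * (1 - 2 * δ) := by
    have h3 : 6 / (1 - 2 * δ) ≤ C := by linarith
    rwa [div_le_iff₀ h2] at h3
  obtain ⟨E, hE⟩ : ∃ E, E = ⌈δ * C⌉₊ := ⟨_, rfl⟩
  have hE1 : δ * C ≤ E := by rw [hE]; exact Nat.le_ceil _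
  have hE2 : (E : ℝ) < δ * C + 1 := by rw [hE]; exact Nat.ceil_lt_add_one (by positivity)
  have h5 : (2 * E + 4 : ℝ) ≤ C := by nlinarith
  have h6 : 2 * E + 4 ≤ C := by exact_mod_cast h5
  obtain ⟨C₂, hC₂⟩ := exists_nat_ge ((3 * C + 4) / (1 - 2 * δ) + 1)
  have hC₂1 : (1 : ℝ) ≤ C₂ := by
    have : 0 < (3 * C + 4) / (1 - 2 * δ) := by positivity
    linarith
  have hC₂3 : (3 * C + 4 : ℝ) ≤ (C₂ : ℝ) * (1 - 2 * δ) := by
    have h3 : (3 * C + 4) / (1 - 2 * δ) ≤ C₂ := by linarith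
    rwa [div_le_iff₀ h2] at h3
  obtain ⟨E₂, hE₂⟩ : ∃ E₂, E₂ = ⌈δ * C₂⌉₊ := ⟨_, rfl⟩
  have hE₂1 : δ * C₂ ≤ E₂ := by rw [hE₂]; exact Nat.le_ceil _
  have hE₂2 : (E₂ : ℝ) < δ * C₂ + 1 := by rw [hE₂]; exact Nat.ceil_lt_add_one (by positivity)
  have h7 : (2 * E₂ + 3 * C + 2 : ℝ) ≤ C₂ := by nlinarith
  have h8 : 2 * E₂ + 3 * C + 2 ≤ C₂ := by exact_mod_cast h7
  intro L hL
  rw [mem_NEXPTIME_iff]
  exact nen_of_app8 h6 h8 (appH_of_appR H (by omega) hE1 (by omega))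
    (appH_of_appR H (by omega) hE₂1 (by omega)) (majH_of_appR H) (esn_of_mem hL)

end Pool.Agent.H48.NE
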