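import Pool.Agent.H48.NE.PSp
import Pool.Agent.H48.NE.Defs

/-!
# Space-bounded runs of the compiled machines
-/

namespace Pool.Agent.H48.NE

open TMLib Polynomial Turing

variable {α β γ δ σ τ : Type} [Enc α] [Enc β] [Enc γ] [Enc δ] [Enc σ] [Enc τ]

/-- `c'` is reached from `c` through configurations with stacks of length at most `B`. -/
def SReach {Λ : Type} (M : Λ → TM2.Stmt Γb Λ (Option Bool)) (B : ℕ)
    (c c' : TM2.Cfg Γb Λ (Option Bool)) : Prop :=
  ∃ t, Reach M c c' t ∧ ∀ i ≤ t, ∃ c'', Reach M c c'' i ∧ ∀ k, (c''.stk k).length ≤ B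

lemma SReach.mono {Λ : Type} {M : Λ → TM2.Stmt Γb Λ (Option Bool)} {B B' : ℕ} {c c'}
    (h : SReach M B c c') (hB : B ≤ B') : SReach M B' c c' := by
  obtain ⟨t, h1, h2⟩ := h
  refine ⟨t, h1, fun i hi => ?_⟩
  obtain ⟨c'', h3, h4⟩ := h2 i hi
  exact ⟨c'', h3, fun k => (h4 k).trans hB⟩

lemma SReach.trans {Λ : Type} {M : Λ → TM2.Stmt Γb Λ (Option Bool)} {B : ℕ} {c c' c''}
    (h : SReach M B c c') (h' : SReach M B c' c'') : SReach M B c c'' := by
  obtain ⟨t, h1, h2⟩ := h
  obtain ⟨t', h1', h2'⟩ := h'
  refine ⟨t + t', h1.trans h1', fun i hi => ?_⟩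
  rcases Nat.le_total i t with h | h
  · exact h2 i h
  · obtain ⟨d, h3, h4⟩ := h2' (i - t) (by omega)
    refine ⟨d, ?_, h4⟩
    have := h1.trans h3
    rwa [show t + (i - t) = i by omega] at this

lemma SReach.one {Λ : Type} {M : Λ → TM2.Stmt Γb Λ (Option Bool)} {B : ℕ} {c c'}
    (h : TM2.step M c = some c') (hc : ∀ k, (c.stk k).length ≤ B)
    (hc' : ∀ k, (c'.stk k).length ≤ B) : SReach M B c c' := by
  refine ⟨1, Reach.one h, fun i hi => ?_⟩
  interval_cases i
  · exact ⟨c, rfl, hc⟩
  · exact ⟨c', Reach.one h, hc'⟩

/-- Length of every stack is at most the total length. -/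
lemma length_get_le (s : St) (k : Stk) : (s.get k).length ≤ s.tot := by
  cases k <;> simp [St.tot] <;> omega

/-- The compiled program runs from `s` to `s'` with all stacks of length at most `B`. -/
def SRuns (p : Prog) (s s' : St) (B : ℕ) : Prop :=
  ∀ (Λ : Type) (M : Λ → TM2.Stmt Γb Λ (Option Bool)) (ι : Lbl p → Λ) (ex : Λ),
    (∀ l, M (ι l) = stmtOf p ι ex l) →
      SReach M B (cfg (some (ι (entry p))) s) (cfg (some ex) s')

namespace SRuns

lemma mono {p : Prog} {s s' : St} {B B' : ℕ} (h : SRuns p s s' B) (hB : B ≤ B') :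
    SRuns p s s' B' := fun Λ M ι ex hM => (h Λ M ι ex hM).mono hB

lemma seq {p q : Prog} {s s' s'' : St} {B : ℕ} (h1 : SRuns p s s' B) (h2 : SRuns q s' s'' B) :
    SRuns (.seq p q) s s'' B := by
  intro Λ M ι ex hM
  exact (h1 Λ M (fun x => ι (Sum.inl x)) (ι (Sum.inr (entry q))) fun l => hM (Sum.inl l)).trans
    (h2 Λ M (fun x => ι (Sum.inr x)) ex fun l => hM (Sum.inr l))

lemma loopF {k : Stk} {f : Option Bool → Bool} {p : Prog} {s : St} {B : ℕ}
    (hf : f (s.get k).head? = false) (hs : s.tot ≤ B) : SRuns (.loop k f p) s s B := by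
  intro Λ M ι ex hM
  refine SReach.one ?_ (fun k => (length_get_le s k).trans hs)
    (fun k => (length_get_le s k).trans hs)
  have h0 := hM (none : Option _)
  change TM2.step M ⟨some (ι (none : Option _)), none, s.get⟩ = _
  rw [TM2.step, h0]
  simp [stmtOf, test, hf, cfg]

lemma loopT {k : Stk} {f : Option Bool → Bool} {p : Prog} {s s' s'' : St} {B : ℕ}
    (hf : f (s.get k).head? = true) (hs : s.tot ≤ B) (h1 : SRuns p s s' B)
    (h2 : SRuns (.loop k f p) s' s'' B) : SRuns (.loop k f p) s s'' B := by
  intro Λ M ι ex hM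
  refine SReach.trans (SReach.trans (c' := cfg (some (ι (some (entry p) : Option _))) s)
    (SReach.one ?_ (fun k => (length_get_le s k).trans hs)
      (fun k => (length_get_le s k).trans hs))
    (h1 Λ M (fun x => ι (some x : Option _)) (ι (none : Option _))
      fun l => hM (some l : Option _))) (h2 Λ M ι ex hM)
  have h0 := hM (none : Option _)
  change TM2.step M ⟨some (ι (none : Option _)), none, s.get⟩ = _
  rw [TM2.step, h0]
  simp [stmtOf, test, hf, cfg]

/-- A run of `t` steps uses space at most the initial size plus `t`. -/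
lemma of_run {p : Prog} {s s' : St} {t : ℕ} (h : Run p s s' t) :
    SRuns p s s' (s.tot + t) := by
  induction h with
  | skip s =>
    intro Λ M ι ex hM
    refine SReach.one (by simp [cfg, hM, stmtOf]) (fun k => (length_get_le s k).trans (by omega))
      (fun k => (length_get_le s k).trans (by omega))
  | push k b s =>
    intro Λ M ι ex hM
    have h1 := (Run.push k b s).tot_le
    refine SReach.one (by simp [cfg, hM, stmtOf, St.get_set])
      (fun k => (length_get_le s k).trans (by omega)) (fun k' => (length_get_le _ k').trans h1)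
  | pop k s =>
    intro Λ M ι ex hM
    have h1 := (Run.pop k s).tot_le
    refine SReach.one (by simp [cfg, hM, stmtOf, St.get_set])
      (fun k => (length_get_le s k).trans (by omega)) (fun k' => (length_get_le _ k').trans h1)
  | @seq p q s s' s'' t t' h1 h2 ih1 ih2 =>
    have := h1.tot_le
    exact (ih1.mono (by omega)).seq (ih2.mono (by omega))
  | @iteT k f p q s s' t hf h1 ih1 =>
    intro Λ M ι ex hM
    refine SReach.trans (c' := cfg (some (ι (some (Sum.inl (entry p)) : Option _))) s)
      (SReach.one ?_ (fun k => (length_get_le s k).trans (by omega))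
        (fun k => (length_get_le s k).trans (by omega)))
      ((ih1 Λ M (fun x => ι (some (Sum.inl x) : Option _)) ex
        fun l => hM (some (Sum.inl l) : Option _)).mono (by omega))
    have h0 := hM (none : Option _)
    change TM2.step M ⟨some (ι (none : Option _)), none, s.get⟩ = _
    rw [TM2.step, h0]
    simp [stmtOf, test, hf, cfg]
  | @iteF k f p q s s' t hf h1 ih1 =>
    intro Λ M ι ex hM
    refine SReach.trans (c' := cfg (some (ι (some (Sum.inr (entry q)) : Option _))) s)
      (SReach.one ?_ (fun k => (length_get_le s k).trans (by omega))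
        (fun k => (length_get_le s k).trans (by omega)))
      ((ih1 Λ M (fun x => ι (some (Sum.inr x) : Option _)) ex
        fun l => hM (some (Sum.inr l) : Option _)).mono (by omega))
    have h0 := hM (none : Option _)
    change TM2.step M ⟨some (ι (none : Option _)), none, s.get⟩ = _
    rw [TM2.step, h0]
    simp [stmtOf, test, hf, cfg]
  | @loopF k f p s hf => exact SRuns.loopF hf (by omega)
  | @loopT k f p s s' s'' t t' hf h1 h2 ih1 ih2 =>
    have := h1.tot_le
    exact SRuns.loopT hf (by omega) (ih1.mono (by omega)) (ih2.mono (by omega))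

lemma of_runs {p : Prog} {s s' : St} {T B : ℕ} (h : Runs p s s' T) (hB : s.tot + T ≤ B) :
    SRuns p s s' B := by
  obtain ⟨t, ht, h⟩ := h
  exact (of_run h).mono (by omega)

end SRuns

lemma _root_.TMLib.Runs.tot_le {p : Prog} {s s' : St} {T : ℕ} (h : Runs p s s' T) :
    s'.tot ≤ s.tot + T := by
  obtain ⟨t, ht, h⟩ := h
  have := h.tot_le
  omega

@[simp] lemma tot_ms (l : List Bool) : (ms l).tot = l.length := by simp [St.tot, ms]

/-! ### The loop of an iteration -/

/-- The loop iterating the program `p` of a step function. -/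
def convLoop (p : Prog) : Prog := .loop .m isT (.seq drop (.seq p (.pop .m)))

lemma sruns_convLoop {G : σ → Bool × σ} {p : Prog} {T : ℕ[X]}
    (hp : ∀ a r, Runs p (ms ((enc a).code ++ r)) (ms ((enc (G a)).code ++ r)) (T.eval (sz a)))
    {B : ℕ} {s t : σ} (h : Conv G B s t) (r : List Bool) :
    SRuns (convLoop p) (ms ((enc true).code ++ ((enc s).code ++ r)))
      (ms (false :: ((enc t).code ++ r))) (30 + 2 * B + r.length + T.eval B) := by
  have body : ∀ s : σ, sz s ≤ B → Runs (.seq drop (.seq p (.pop .m)))
      (ms ((enc true).code ++ ((enc s).code ++ r)))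
      (ms ((enc (G s).1).code ++ ((enc (G s).2).code ++ r))) (25 + T.eval B) := by
    intro s hs
    have h1 := runs_drop (enc true) ((enc s).code ++ r)
    have h2 := hp s r
    have h3 : Runs (.pop .m) (ms ((enc (G s)).code ++ r))
        (ms ((enc (G s).1).code ++ ((enc (G s).2).code ++ r))) 1 := by
      have e : enc (G s) = D.cons (enc (G s).1) (enc (G s).2) := rfl
      rw [e]
      have := Runs.pop .m (ms ((D.cons (enc (G s).1) (enc (G s).2)).code ++ r))
      simpa [ms, D.code] using this
    refine (h1.seq (h2.seq h3)).mono ?_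
    have := eval_mono T hs
    have e : (enc true).size = 3 := rfl
    omega
  have tot1 : ∀ s : σ, sz s ≤ B →
      (ms ((enc true).code ++ ((enc s).code ++ r))).tot ≤ 3 + B + r.length := by
    intro s hs
    rw [tot_ms, List.length_append, List.length_append, D.length_code, D.length_code]
    have e : (enc true).size = 3 := rfl
    have e' : (enc s).size = sz s := rfl
    omega
  induction h with
  | @stop s h1 h2 h3 =>
    have hb := body s h1
    have ht := tot1 s h1
    rw [h2] at hb
    refine SRuns.loopT (k := .m) (f := isT) rfl (by omega) (SRuns.of_runs hb (by omega)) ?_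
    refine SRuns.loopF rfl ?_
    have e' : (enc (G s).2).size = sz (G s).2 := rfl
    have e'' : (enc false).size = 1 := rfl
    rw [tot_ms, List.length_append, List.length_append, D.length_code, D.length_code]
    omega
  | @step s t h1 h2 _ ih =>
    have hb := body s h1
    have ht := tot1 s h1
    rw [h2] at hb
    exact SRuns.loopT (k := .m) (f := isT) rfl (by omega) (SRuns.of_runs hb (by omega)) ih

/-- The whole program of a space-bounded computation. -/
def convProg (pi pg pf : Prog) : Prog :=
  .seq (mvAll .a .b) (.seq (.push .m false) (.seq inLoop (.seq pi (.seq (.push .m false)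
    (.seq (.push .m false) (.seq (.push .m true) (.seq (convLoop pg) (.seq (.pop .m) (.seq pf
      (.seq outLoop (.seq (.pop .m) (mvAll .b .a))))))))))))

/-- A function on bit strings computed in space `h` is computed by a machine in space polynomial
in `h`. -/
theorem exists_mach_of_scomp {h : List Bool → ℕ} {f : List Bool → List Bool} (hf : SComp h f)
    (hh : ∀ x, x.length ≤ h x) :
    ∃ (M : Mach) (q : ℕ[X]), ∀ x, OutInSpace M x (f x) (q.eval (h x)) := by
  obtain ⟨σ, hσ, init, G, fin, P, ⟨pi, Ti, hi⟩, ⟨pg, Tg, hg⟩, ⟨pf, Tf, hfin⟩, hc⟩ := hf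
  let prog := convProg pi pg pf
  let Q : ℕ[X] := 1000 + 1000 * X + 1000 * P + 100 * Ti.comp (1 + 4 * X) + 100 * Tg.comp P +
    100 * Tf.comp P
  refine ⟨⟨machine prog, Equiv.refl Bool, Equiv.refl Bool⟩, Q, fun x => ?_⟩
  obtain ⟨t, ht, ht'⟩ := hc x
  -- the runs
  have h1 := runs_mvAll_ab x [] [] []
  have h2 : Runs (.push .m false) ⟨[], [], x.reverse, []⟩ ⟨[false], [], x.reverse, []⟩ 1 :=
    Runs.push .m false _
  have h3 := runs_inLoop (x.reverse ++ []) []
  rw [List.append_nil, List.append_nil, List.reverse_reverse] at h3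
  rw [List.append_nil] at h1
  have h4 := hi x []
  rw [List.append_nil, List.append_nil] at h4
  have h5 : Runs (.push .m false) (ms (enc (init x)).code) (ms (false :: (enc (init x)).code)) 1 :=
    Runs.push .m false _
  have h6 : Runs (.push .m false) (ms (false :: (enc (init x)).code))
      (ms (false :: false :: (enc (init x)).code)) 1 := Runs.push .m false _
  have h7 : Runs (.push .m true) (ms (false :: false :: (enc (init x)).code))
      (ms (true :: false :: false :: (enc (init x)).code)) 1 := Runs.push .m true _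
  have h8 := sruns_convLoop hg ht []
  rw [List.append_nil, List.append_nil] at h8
  have h9 : Runs (.pop .m) (ms (false :: (enc t).code)) (ms (enc t).code) 1 := Runs.pop .m _
  have h10 := hfin t []
  rw [List.append_nil, List.append_nil, ht'] at h10
  have h11 := runs_outLoop (f x) []
  have h12 : Runs (.pop .m) ⟨[false], [], (f x).reverse, []⟩ ⟨[], [], (f x).reverse, []⟩ 1 :=
    Runs.pop .m _
  have h13 := runs_mvAll_ba ((f x).reverse ++ []) [] [] []
  rw [List.append_nil, List.append_nil, List.reverse_reverse] at h13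
  rw [List.append_nil] at h11
  -- sizes
  have hb := sz_bits_le x
  have hx := hh x
  have s1 := eval_mono Ti (show sz x ≤ 1 + 4 * h x by omega)
  have s2 := PTime.size_le hi x
  have s3 := ht.sz_le
  have s4 := ht.sz_le'
  have s5 := eval_mono Tf s3
  have s6 := PTime.size_le hfin t
  rw [ht'] at s6
  have s7 := length_lt_sz (f x)
  have e1000 : eval (h x) (1000 : ℕ[X]) = 1000 := by simp
  have e100 : eval (h x) (100 : ℕ[X]) = 100 := by simp
  have e4 : eval (h x) (4 : ℕ[X]) = 4 := by simp
  have e1 : eval (h x) (1 : ℕ[X]) = 1 := by simp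
  have hQ : Q.eval (h x) = 1000 + 1000 * h x + 1000 * P.eval (h x) +
      100 * Ti.eval (1 + 4 * h x) + 100 * Tg.eval (P.eval (h x)) +
      100 * Tf.eval (P.eval (h x)) := by
    simp only [Q, eval_add, eval_mul, eval_comp, eval_X, e1000, e100, e4, e1]
  simp only [eval_add, eval_X] at s2 s6
  have hall : SRuns prog (.ofA x) (.ofA (f x)) (Q.eval (h x)) := by
    rw [hQ]
    have tx : (enc x).size = sz x := rfl
    have ti : (enc (init x)).size = sz (init x) := rfl
    have tt : (enc t).size = sz t := rfl
    have tf : (enc (f x)).size = sz (f x) := rfl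
    refine (SRuns.of_runs h1 ?_).seq ((SRuns.of_runs h2 ?_).seq ((SRuns.of_runs h3 ?_).seq
      ((SRuns.of_runs h4 ?_).seq ((SRuns.of_runs h5 ?_).seq ((SRuns.of_runs h6 ?_).seq
      ((SRuns.of_runs h7 ?_).seq ((h8.mono ?_).seq ((SRuns.of_runs h9 ?_).seq
      ((SRuns.of_runs h10 ?_).seq ((SRuns.of_runs h11 ?_).seq ((SRuns.of_runs h12 ?_).seq
      (SRuns.of_runs h13 ?_))))))))))))
    all_goals simp only [St.tot, ms, List.length_nil, List.length_cons, List.length_reverse,
      D.length_code, tx, ti, tt, tf, enc_nil, D.size_nil]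
    all_goals omega
  obtain ⟨n, hn, hn'⟩ := hall (Option (Lbl prog)) (machine prog).m some none (fun l => rfl)
  have hlast : Reach (machine prog).m (cfg (some none) (.ofA (f x))) (cfg none (.ofA (f x))) 1 := by
    apply Reach.one
    rfl
  have hfinal := hn.trans hlast
  have g1 : initList (machine prog) x = cfg (some (some (entry prog))) (.ofA x) := by
    simp only [initList, cfg]
    congr 1
    funext k
    cases k <;> rfl
  have g2 : haltList (machine prog) (f x) = cfg none (.ofA (f x)) := by
    simp only [haltList, cfg]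
    congr 1
    funext k
    cases k <;> rfl
  have g3 : ∀ l : List Bool, l.map (Equiv.refl Bool).invFun = l := by
    intro l
    exact List.map_id l
  have g4 : ∀ i, cfgAt ⟨machine prog, Equiv.refl Bool, Equiv.refl Bool⟩ x i =
      (flip bind (TM2.step (machine prog).m))^[i] (some (cfg (some (some (entry prog))) (.ofA x))) := by
    intro i
    have g5 := (congrArg (initList (machine prog)) (g3 x)).trans g1
    exact congrArg (fun c => (flip bind (TM2.step (machine prog).m))^[i] (some c)) g5
  refine ⟨n + 1, ?_, ?_⟩
  · rw [g4]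
    have g5 := (congrArg (haltList (machine prog)) (g3 (f x))).trans g2
    exact Eq.trans hfinal (congrArg some g5).symm
  · intro i hi c hci k
    rw [g4] at hci
    rcases Nat.lt_or_ge n i with hni | hni
    · have : i = n + 1 := by omega
      subst this
      have h' : some c = some (cfg none (.ofA (f x))) := hci.symm.trans hfinal
      rw [Option.some.inj h']
      obtain ⟨c', hc', hc''⟩ := hn' n le_rfl
      have h'' : some c' = some (cfg (some none) (.ofA (f x))) := hc'.symm.trans hn
      rw [Option.some.inj h''] at hc''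
      exact hc'' k
    · obtain ⟨c', hc', hc''⟩ := hn' i hni
      have h' : some c = some c' := hci.symm.trans hc'
      rw [Option.some.inj h']
      exact hc'' k

end Pool.Agent.H48.NE
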