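import Pool.Agent.H48.NE.SRun

/-!
# Simulation of machines by polynomial time step functions
-/

namespace Pool.Agent.H48.NE

open TMLib Polynomial Turing

noncomputable section

/-- Is the statement `halt`? -/
def isHalt {K : Type} [DecidableEq K] {Γ : K → Type} {Λ σ : Type} : TM2.Stmt Γ Λ σ → Bool
  | .halt => true
  | _ => false

lemma isHalt_iff {K : Type} [DecidableEq K] {Γ : K → Type} {Λ σ : Type} (q : TM2.Stmt Γ Λ σ) :
    isHalt q = true ↔ q = .halt := by
  cases q <;> simp [isHalt]

lemma length_micro {K : Type} [DecidableEq K] {Γ : K → Type} {Λ σ : Type}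
    (M : Λ → TM2.Stmt Γ Λ σ) (C : ℕ) (hC : ∀ l, depth (M l) ≤ C) (s n : ℕ) :
    ∀ (c c' : TM2.Cfg Γ Λ σ), (flip bind (TM2.step M))^[n] (some c) = some c' → c'.l = none →
      (∀ i ≤ n, ∀ d, (flip bind (TM2.step M))^[i] (some c) = some d → ∀ k, (d.stk k).length ≤ s) →
      ∀ i k, (((mstep M)^[i] (toM M c)).2 k).length ≤ s + C := by
  induction n with
  | zero =>
    intro c c' h hl hs i k
    have h' : c = c' := by simpa using h
    subst h'
    have e : toM M c = ((.halt, c.var), c.stk) := by simp [toM, stmtAt, hl]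
    rw [e, mstep_iterate_halt]
    have := hs 0 le_rfl c rfl k
    simp only
    omega
  | succ n ih =>
    intro c c' h hl hs i k
    rw [Function.iterate_succ_apply] at h
    obtain ⟨l, v, S⟩ := c
    cases l with
    | none =>
      have : flip bind (TM2.step M) (some (⟨none, v, S⟩ : TM2.Cfg Γ Λ σ)) = none := rfl
      rw [this, flip_bind_none] at h
      exact absurd h (by simp)
    | some l =>
      have h1 : flip bind (TM2.step M) (some (⟨some l, v, S⟩ : TM2.Cfg Γ Λ σ)) =
        some (TM2.stepAux (M l) v S) := rfl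
      rw [h1] at h
      obtain ⟨j, hj, hj'⟩ := mstep_stmt M (M l) v S
      rcases Nat.le_total i j with hij | hij
      · have h2 := length_mstep_iterate M (toM M ⟨some l, v, S⟩) s
          (fun k => hs 0 (by omega) _ rfl k) i k
        have := hC l
        omega
      · obtain ⟨i, rfl⟩ : ∃ i', i = i' + j := ⟨i - j, by omega⟩
        rw [Function.iterate_add_apply]
        change (((mstep M)^[i] ((mstep M)^[j] ((M l, v), S))).2 k).length ≤ s + C
        rw [hj']
        refine ih _ _ h hl ?_ i k
        intro i' hi' d hd k'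
        refine hs (i' + 1) (by omega) d ?_ k'
        rw [Function.iterate_succ_apply, h1]
        exact hd

/-- The simulation of a machine. -/
theorem exists_sim (M : Mach) : ∃ (init : List Bool → ℕ × List (List ℕ))
    (step : ℕ × List (List ℕ) → ℕ × List (List ℕ)) (out : ℕ × List (List ℕ) → List Bool)
    (halted : ℕ × List (List ℕ) → Bool) (C E : ℕ),
    PTime init ∧ PTime step ∧ PTime out ∧ PTime halted ∧
    (∀ z i, sz (step^[i] (init z)) ≤ E * (z.length + i + 1)) ∧
    ∀ z l' n, cfgAt M z n = some (haltList M.tm (l'.map M.outputAlphabet.invFun)) →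
      (∀ T, n * C ≤ T → halted (step^[T] (init z)) = true) ∧
      (∀ i, halted (step^[i] (init z)) = true → out (step^[i] (init z)) = l') ∧
      (∀ s, (∀ i ≤ n, ∀ c, cfgAt M z i = some c → ∀ k, (c.stk k).length ≤ s) →
        ∀ i, sz (step^[i] (init z)) ≤ E * (s + 1)) := by
  classical
  let := M.tm.kDecidableEq
  let := M.tm.kFin
  let := M.tm.ΛFin
  let := M.tm.σFin
  let := M.tm.Γk₀Fin
  let m := M.tm.m
  let k₀ := M.tm.k₀
  let k₁ := M.tm.k₁
  let inv : Bool → M.tm.Γ M.tm.k₀ := M.inputAlphabet.invFun
  let outI : Bool → M.tm.Γ M.tm.k₁ := M.outputAlphabet.invFun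
  let C : ℕ := Finset.univ.sup fun l => depth (M.tm.m l)
  have hC : ∀ l, depth (M.tm.m l) ≤ C := fun l =>
    Finset.le_sup (f := fun l => depth (M.tm.m l)) (Finset.mem_univ l)
  -- the initial coded configuration
  let m0 : List Bool → (TM2.Stmt M.tm.Γ M.tm.Λ M.tm.σ × M.tm.σ) × (∀ k, List (M.tm.Γ k)) :=
    fun z => ((m M.tm.main, M.tm.initialState), (initList M.tm (z.map inv)).stk)
  have hst : ∀ s : List (M.tm.Γ M.tm.k₀), (initList M.tm s).stk M.tm.k₀ = s := by
    intro s
    simp [initList]
  have hst' : ∀ (s : List (M.tm.Γ M.tm.k₀)) (k : M.tm.K), k ≠ M.tm.k₀ →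
      (initList M.tm s).stk k = [] := by
    intro s k hk
    simp [initList, hk]
  have hend : ∀ s : List (M.tm.Γ M.tm.k₁), (haltList M.tm s).stk M.tm.k₁ = s := by
    intro s
    simp [haltList]
  have hinv : ∀ z, MInv m k₀ (m0 z) := by
    intro z
    refine ⟨label_mem_stm m _, fun k a ha => ?_⟩
    by_cases hk : k = k₀
    · subst hk
      exact List.mem_append_right _ (by simp)
    · simp only [m0, hst' _ k hk] at ha
      simp at ha
  let init : List Bool → ℕ × List (List ℕ) := fun z =>
    (cCode m (m M.tm.main, M.tm.initialState),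
      setAt ((Finset.univ : Finset M.tm.K).toList.map fun _ => []) (kCode k₀)
        (z.map fun b => bif b then sCode m k₀ ⟨k₀, inv true⟩ else sCode m k₀ ⟨k₀, inv false⟩))
  have hinit : ∀ z, init z = codeCfg m k₀ (m0 z) := by
    intro z
    refine Prod.ext rfl ?_
    have h1 := setAt_codeStk m k₀ (fun k => ([] : List (M.tm.Γ k))) k₀ (z.map inv)
    have h2 : codeStk m k₀ (m0 z).2 =
        codeStk m k₀ (Function.update (fun k => ([] : List (M.tm.Γ k))) k₀ (z.map inv)) := by
      congr 1
      funext k
      by_cases hk : k = k₀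
      · subst hk
        rw [Function.update_self]
        exact hst _
      · rw [Function.update_of_ne hk]
        exact hst' _ k hk
    change setAt _ _ _ = codeStk m k₀ (m0 z).2
    rw [h2, ← h1]
    congr 1
    rw [List.map_map]
    apply List.map_congr_left
    intro b _
    cases b <;> rfl
  have hinitP : PTime init := by
    refine PTime.pair (PTime.const _) (ptime_setAt _ (PTime.const _) ?_)
    fun_prop
  let out : ℕ × List (List ℕ) → List Bool := fun s =>
    (s.2.getD (kCode k₁) []).map fun n =>
      ((syms m k₀).map fun s => rdSym k₁ M.outputAlphabet s).getD n false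
  have houtP : PTime out := by
    refine PTime.map (by fun_prop) ?_
    fun_prop
  have hout : ∀ c, MInv m k₀ c → out (codeCfg m k₀ c) = (c.2 k₁).map M.outputAlphabet := by
    intro c hc
    change ((codeStk m k₀ c.2).getD (kCode k₁) []).map _ = _
    rw [getD_codeStk, List.map_map]
    apply List.map_congr_left
    intro a ha
    have h : (syms m k₀)[sCode m k₀ ⟨k₁, a⟩]? = some ⟨k₁, a⟩ :=
      getElem?_idxOf_of_mem (hc.2 k₁ a ha)
    simp only [Function.comp_apply, List.getD, List.getElem?_map, h]
    simp
  let H : List ℕ := ((ctls m).filter fun c => isHalt c.1).map (cCode m)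
  let halted : ℕ × List (List ℕ) → Bool := fun s => decide (s.1 ∈ H)
  have hhaltedP : PTime halted := by
    refine PTime.mem (PTime.fst PTime.id) (PTime.const H)
  have hhalted : ∀ c, MInv m k₀ c → (halted (codeCfg m k₀ c) = true ↔ c.1.1 = .halt) := by
    intro c hc
    have hcm : c.1 ∈ ctls m := mem_ctls.2 hc.1
    simp only [halted, decide_eq_true_eq, H, List.mem_map, List.mem_filter]
    constructor
    · rintro ⟨d, ⟨hd, hd'⟩, hdc⟩
      have h1 := getElem?_cCode m hd
      have h2 := getElem?_cCode m hcm
      have h3 : cCode m d = cCode m c.1 := hdc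
      rw [h3, h2] at h1
      rw [Option.some.inj h1]
      exact (isHalt_iff _).1 hd'
    · intro h
      exact ⟨c.1, ⟨hcm, (isHalt_iff _).2 h⟩, rfl⟩
  let E : ℕ := 1 + (1 + 2 * (ctls m).length) + (1 + Fintype.card M.tm.K *
      (1 + (1 + (C + 1) * (1 + (1 + 2 * (syms m k₀).length)))))
  have hsz : ∀ (c : (TM2.Stmt M.tm.Γ M.tm.Λ M.tm.σ × M.tm.σ) × (∀ k, List (M.tm.Γ k))) (s : ℕ),
      (∀ k, (c.2 k).length ≤ s + C) → sz (codeCfg m k₀ c) ≤ E * (s + 1) := by
    intro c s hs
    refine (sz_codeCfg_le m k₀ c (s + C) hs).trans ?_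
    have h1 : (s + C) ≤ (C + 1) * (s + 1) := by
      have : (C + 1) * (s + 1) = C * s + C + s + 1 := by ring
      omega
    have h2 : (s + C) * (1 + (1 + 2 * (syms m k₀).length)) ≤
        (C + 1) * (1 + (1 + 2 * (syms m k₀).length)) * (s + 1) := by
      calc (s + C) * (1 + (1 + 2 * (syms m k₀).length)) ≤
          ((C + 1) * (s + 1)) * (1 + (1 + 2 * (syms m k₀).length)) := Nat.mul_le_mul_right _ h1
        _ = _ := by ring
    have h3 : (1 + (1 + (s + C) * (1 + (1 + 2 * (syms m k₀).length)))) ≤
        (1 + (1 + (C + 1) * (1 + (1 + 2 * (syms m k₀).length)))) * (s + 1) := by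
      have e : (1 + (1 + (C + 1) * (1 + (1 + 2 * (syms m k₀).length)))) * (s + 1) =
        2 * (s + 1) + (C + 1) * (1 + (1 + 2 * (syms m k₀).length)) * (s + 1) := by ring
      omega
    have h4 := Nat.mul_le_mul_left (Fintype.card M.tm.K) h3
    have e : E * (s + 1) = (3 + 2 * (ctls m).length) * (s + 1) + Fintype.card M.tm.K *
      ((1 + (1 + (C + 1) * (1 + (1 + 2 * (syms m k₀).length)))) * (s + 1)) := by
      simp only [E]
      ring
    rw [e]
    have h5 : (3 + 2 * (ctls m).length) ≤ (3 + 2 * (ctls m).length) * (s + 1) :=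
      Nat.le_mul_of_pos_right _ (by omega)
    omega
  have hm0len : ∀ z k, ((m0 z).2 k).length ≤ z.length := by
    intro z k
    by_cases hk : k = k₀
    · subst hk
      have : (m0 z).2 k₀ = z.map inv := hst _
      rw [this]
      simp
    · have : (m0 z).2 k = [] := hst' _ k hk
      rw [this]
      simp
  refine ⟨init, stepN m k₀, out, halted, C, E, hinitP, ptime_stepN m k₀, houtP, hhaltedP, ?_, ?_⟩
  · intro z i
    rw [hinit, (stepN_iterate m k₀ _ (hinv z) i).1]
    have := hsz ((mstep m)^[i] (m0 z)) (z.length + i) (fun k => by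
      have := length_mstep_iterate m (m0 z) z.length (hm0len z) i k
      omega)
    exact this
  · intro z l' n hn
    have hn' : (flip bind (TM2.step m))^[n] (some (initList M.tm (z.map inv))) =
      some (haltList M.tm (l'.map outI)) := hn
    have htoM : toM m (initList M.tm (z.map inv)) = m0 z := rfl
    have hhaltM : toM m (haltList M.tm (l'.map outI)) =
      ((.halt, M.tm.initialState), (haltList M.tm (l'.map outI)).stk) := rfl
    have hfinal : ∀ T, n * C ≤ T → (mstep m)^[T] (m0 z) =
        ((.halt, M.tm.initialState), (haltList M.tm (l'.map outI)).stk) := by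
      intro T hT
      have := mstep_of_evals_halt m C hC n (initList M.tm (z.map inv))
        (haltList M.tm (l'.map outI)) hn' rfl T hT
      rw [htoM, hhaltM] at this
      exact this
    refine ⟨?_, ?_, ?_⟩
    · intro T hT
      obtain ⟨h4, h5⟩ := stepN_iterate m k₀ _ (hinv z) T
      rw [hinit, h4, hhalted _ h5, hfinal T hT]
    · intro i hi
      obtain ⟨h4, h5⟩ := stepN_iterate m k₀ _ (hinv z) i
      rw [hinit, h4] at hi ⊢
      rw [hhalted _ h5] at hi
      rw [hout _ h5]
      have h6 : (mstep m)^[n * C + i] (m0 z) = (mstep m)^[i] (m0 z) := by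
        rw [Function.iterate_add_apply]
        generalize (mstep m)^[i] (m0 z) = c at hi ⊢
        obtain ⟨⟨q, v⟩, S⟩ := c
        have hi' : q = .halt := hi
        subst hi'
        exact mstep_iterate_halt m v S _
      rw [← h6, hfinal _ (by omega)]
      change ((haltList M.tm (l'.map outI)).stk M.tm.k₁).map M.outputAlphabet = _
      rw [hend, List.map_map]
      have : (M.outputAlphabet ∘ outI) = id := by
        funext b
        exact M.outputAlphabet.apply_symm_apply b
      rw [this, List.map_id]
    · intro s hs i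
      rw [hinit, (stepN_iterate m k₀ _ (hinv z) i).1]
      refine hsz _ s fun k => ?_
      rw [← htoM]
      exact length_micro m C hC s n _ _ hn' rfl hs i k

end

end Pool.Agent.H48.NE
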