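import Pool.Agent.H48.NE.Calc

/-!
# From approximations to certificates for short strings
-/

namespace Pool.Agent.H48.NE

open TMLib Polynomial Filter

set_option maxHeartbeats 4000000

variable {α β γ δ : Type} [Enc α] [Enc β] [Enc γ] [Enc δ]

open Classical in
/-- The number of strings of length `n` on which two predicates agree. -/
noncomputable def agr (n : ℕ) (R S : ℕ → ℕ → Prop) : ℕ :=
  ((Finset.range (2 ^ n)).filter fun k => (S n k ↔ R n k)).card

open Classical in
/-- The number of strings of length `n` with a property. -/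
noncomputable def cnt (n : ℕ) (S : ℕ → ℕ → Prop) : ℕ :=
  ((Finset.range (2 ^ n)).filter fun k => S n k).card

/-- Every exponential space predicate of the length is approximated by a nondeterministic
exponential time predicate on more than half of the strings of each large length. -/
def MajH : Prop := ∀ R, ESn R → (∀ l x y, R l x ↔ R l y) →
  ∃ S, NEn S ∧ ∃ n₀, ∀ n ≥ n₀, 2 ^ n < 2 * agr n R S

lemma maj_iff {l : ℕ} {R S : ℕ → ℕ → Prop} (hR : ∀ x y, R l x ↔ R l y)
    (h : 2 ^ l < 2 * agr l R S) : R l 0 ↔ 2 ^ l < 2 * cnt l S := by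
  classical
  by_cases h0 : R l 0
  · have e : agr l R S = cnt l S := by
      unfold agr cnt
      congr 1
      refine Finset.filter_congr fun x _ => ?_
      have : R l x := (hR x 0).2 h0
      simp [this]
    rw [e] at h
    exact iff_of_true h0 h
  · have e : agr l R S + cnt l S = 2 ^ l := by
      unfold agr cnt
      have e1 : ((Finset.range (2 ^ l)).filter fun k => (S l k ↔ R l k)) =
          (Finset.range (2 ^ l)).filter fun k => ¬ S l k := by
        refine Finset.filter_congr fun x _ => ?_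
        have : ¬ R l x := fun hx => h0 ((hR x 0).1 hx)
        simp [this]
      rw [e1, add_comm, Finset.card_filter_add_card_filter_not, Finset.card_range]
    exact iff_of_false h0 (by omega)

/-- The certificate predicate for a strict majority. -/
def Mj (P : ℕ × ℕ × ℕ → Prop) (l N : ℕ) : Prop :=
  ∃ B : List Bool, sz B ≤ 1 + 4 * N ∧ (powB N l < 2 * ((List.range (powB N l)).filter
    fun y => B.getD y false).length ∧
    ∀ x ∈ List.range (powB N l), (B.getD x false = false ∨ P (l, x, N)))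

lemma npp_mj {P : ℕ × ℕ × ℕ → Prop} (hP : NPp P) {l N : α → ℕ} (hl : PTime l) (hN : PTime N) :
    NPp fun a => Mj P (l a) (N a) := by
  refine NPp.comp (P := fun q : ℕ × ℕ => Mj P q.1 q.2) (g := fun a => (l a, N a)) ?_
    (PTime.pair hl hN)
  refine NPp.exists_le (R := fun (q : ℕ × ℕ) (B : List Bool) => (powB q.2 q.1 <
    2 * ((List.range (powB q.2 q.1)).filter fun y => B.getD y false).length ∧
    ∀ x ∈ List.range (powB q.2 q.1), (B.getD x false = false ∨ P (q.1, x, q.2)))) ?_
    (by fun_prop)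
  refine NPp.and (NPp.of_ptime (by fun_prop)) ?_
  refine NPp.forall_mem (R := fun (s : (ℕ × ℕ) × List Bool) x =>
    (s.2.getD x false = false ∨ P (s.1.1, x, s.1.2))) ?_ (by fun_prop)
  refine NPp.or (NPp.of_ptime (by fun_prop)) ?_
  exact hP.comp (g := fun x : ((ℕ × ℕ) × List Bool) × ℕ => (x.1.1.1, x.2, x.1.1.2)) (by fun_prop)

open Classical in
lemma filter_length_le {M : ℕ} {B : List Bool} {Q : ℕ → Prop}
    (h : ∀ x < M, B.getD x false = false ∨ Q x) :
    ((List.range M).filter fun y => B.getD y false).length ≤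
      ((Finset.range M).filter fun k => Q k).card := by
  rw [length_filter_range]
  refine Finset.card_le_card fun x hx => ?_
  rw [Finset.mem_filter, Finset.mem_range] at hx ⊢
  refine ⟨hx.1, ?_⟩
  rcases h x hx.1 with h1 | h1
  · rw [hx.2] at h1
    exact absurd h1 (by simp)
  · exact h1

open Classical in
lemma filter_length_tab (S : ℕ → ℕ → Prop) (l : ℕ) :
    ((List.range (2 ^ l)).filter fun y => (tab S l).getD y false).length = cnt l S := by
  rw [length_filter_range]
  unfold cnt
  congr 1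
  refine Finset.filter_congr fun x hx => ?_
  rw [Finset.mem_range] at hx
  exact getD_tab hx

lemma mj_iff {P : ℕ × ℕ × ℕ → Prop} {S : ℕ → ℕ → Prop} {l N : ℕ} (hN : 2 ^ l ≤ N)
    (h : ∀ k < 2 ^ l, (P (l, k, N) ↔ S l k)) : Mj P l N ↔ 2 ^ l < 2 * cnt l S := by
  classical
  unfold Mj
  rw [powB_eq hN]
  constructor
  · rintro ⟨B, -, h1, h2⟩
    have h3 := filter_length_le (Q := fun x => S l x) (B := B) (M := 2 ^ l) (fun x hx => by
      rcases h2 x (List.mem_range.2 hx) with h4 | h4
      · exact Or.inl h4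
      · exact Or.inr ((h x hx).1 h4))
    have h4 : cnt l S = ((Finset.range (2 ^ l)).filter fun k => S l k).card := rfl
    omega
  · intro h1
    refine ⟨tab S l, ?_, ?_, fun x hx => ?_⟩
    · have := sz_tab_le S l
      omega
    · rwa [filter_length_tab]
    · rw [List.mem_range] at hx
      by_cases hS : S l x
      · exact Or.inr ((h x hx).2 hS)
      · left
        rw [← Bool.not_eq_true, getD_tab hx]
        exact hS

lemma eq_of_bits {m v w : ℕ} (hv : v < 2 ^ m) (hw : w < 2 ^ m)
    (h : ∀ i < m, v / 2 ^ i % 2 = w / 2 ^ i % 2) : v = w := by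
  refine Nat.eq_of_testBit_eq fun i => ?_
  rw [Nat.testBit_eq_decide_div_mod_eq, Nat.testBit_eq_decide_div_mod_eq]
  rcases Nat.lt_or_ge i m with hi | hi
  · rw [h i hi]
  · have h1 : 2 ^ m ≤ 2 ^ i := Nat.pow_le_pow_right (by norm_num) hi
    rw [Nat.div_eq_of_lt (by omega), Nat.div_eq_of_lt (by omega)]

/-- Under the approximation hypothesis, exponential space functions with values of linearly many
bits have certificates. -/
theorem nef_of_esf (H : MajH) {F : ℕ → ℕ} (hF : ESf F) {K : ℕ} (hK : 1 ≤ K)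
    (hlt : ∀ᶠ n in pows, F n < 2 ^ (K * n)) : NEf F := by
  classical
  obtain ⟨P, hP, hP'⟩ := id hF
  -- the language with one bit at each length
  let R : ℕ → ℕ → Prop := fun l _ => ∃ n, (∃ j, n = 2 ^ j) ∧ K * n ≤ l / 2 ∧
    l / 2 < 2 * (K * n) ∧ F n / 2 ^ (l / 2 - K * n) % 2 = l % 2
  have hR : ESn R := by
    obtain ⟨c, hc⟩ := eventually_big_top.1 ((eventually_forall_le hP' ⊤ 1).and
      (eventually_two_pow_le ⊤ 1))
    refine ⟨c, fun q => ∃ n ∈ List.range (q.1 + 1), (∃ j ∈ List.range (q.1 + 1),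
      n = powB (q.1 + 1) j) ∧ (K * n ≤ q.1 / 2 ∧ q.1 / 2 < 2 * (K * n)) ∧ ∃ v : ℕ, sz v ≤ q.2.2 ∧
      (P (n, v, q.2.2) ∧ v / powB q.2.2 (q.1 / 2 - K * n) % 2 = q.1 % 2), ?_, ?_⟩
    · refine PSp.exists_mem (R := fun (q : ℕ × ℕ × ℕ) n => (∃ j ∈ List.range (q.1 + 1),
        n = powB (q.1 + 1) j) ∧ (K * n ≤ q.1 / 2 ∧ q.1 / 2 < 2 * (K * n)) ∧
        ∃ v : ℕ, sz v ≤ q.2.2 ∧ (P (n, v, q.2.2) ∧
          v / powB q.2.2 (q.1 / 2 - K * n) % 2 = q.1 % 2)) ?_ (by fun_prop)
      refine PSp.and ?_ (PSp.and (PSp.of_ptime (by fun_prop)) ?_)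
      · exact PSp.exists_mem (R := fun (s : (ℕ × ℕ × ℕ) × ℕ) j => s.2 = powB (s.1.1 + 1) j)
          (PSp.of_ptime (by fun_prop)) (by fun_prop)
      · refine PSp.exists_le (R := fun (s : (ℕ × ℕ × ℕ) × ℕ) (v : ℕ) => P (s.2, v, s.1.2.2) ∧
          v / powB s.1.2.2 (s.1.1 / 2 - K * s.2) % 2 = s.1.1 % 2) (PSp.and ?_ (PSp.of_ptime ?_))
          (by fun_prop)
        · exact hP.comp (g := fun x : ((ℕ × ℕ × ℕ) × ℕ) × ℕ => (x.1.2, x.2, x.1.1.2.2))
            (by fun_prop)
        · fun_prop
    · intro l x N _ hN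
      obtain ⟨h2, h3⟩ := hc l N hN
      simp only [one_mul] at h2 h3 ⊢
      constructor
      · rintro ⟨n, hn, ⟨j, hj, hnj⟩, ⟨h4, h5⟩, v, -, hv, h6⟩
        rw [List.mem_range] at hn hj
        obtain ⟨-, h7⟩ := h2 n (by omega)
        rw [h7] at hv
        subst hv
        have h8 : n = 2 ^ j := by
          unfold powB at hnj
          omega
        rw [powB_eq (le_trans (Nat.pow_le_pow_right (by norm_num) (by omega)) h3)] at h6
        exact ⟨n, ⟨j, h8⟩, h4, h5, h6⟩
      · rintro ⟨n, ⟨j, hj⟩, h4, h5, h6⟩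
        have h8 : n ≤ K * n := Nat.le_mul_of_pos_left _ hK
        have h9 : j < 2 ^ j := Nat.lt_two_pow_self
        obtain ⟨h7, h7'⟩ := h2 n (by omega)
        refine ⟨n, List.mem_range.2 (by omega), ⟨j, List.mem_range.2 (by omega), ?_⟩, ⟨h4, h5⟩,
          F n, h7, (h7' _).2 rfl, ?_⟩
        · rw [powB_eq (by omega), hj]
        · rw [powB_eq (le_trans (Nat.pow_le_pow_right (by norm_num) (by omega)) h3)]
          exact h6
  obtain ⟨S, hS, n₀, hn₀⟩ := H R hR (fun _ _ _ => Iff.rfl)
  obtain ⟨c, Q, hQ, hQ'⟩ := id hS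
  have hmaj : ∀ l ≥ n₀, (R l 0 ↔ 2 ^ l < 2 * cnt l S) := fun l hl =>
    maj_iff (fun x y => Iff.rfl) (hn₀ l hl)
  refine ⟨fun q => q.2.1 < powB q.2.2 (K * q.1) ∧ ∀ i ∈ List.range (K * q.1),
    Mj Q (2 * (K * q.1 + i) + q.2.1 / powB q.2.2 i % 2) q.2.2, ?_, ?_⟩
  · refine NPp.and (NPp.of_ptime (by fun_prop)) ?_
    refine NPp.forall_mem (R := fun (q : ℕ × ℕ × ℕ) i =>
      Mj Q (2 * (K * q.1 + i) + q.2.1 / powB q.2.2 i % 2) q.2.2) ?_ (by fun_prop)
    refine npp_mj hQ ?_ (by fun_prop)
    fun_prop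
  · have hbig : ∀ᶠ q in big ⊤, (2 ^ q.1 ≤ q.2 ∧ ∀ k < 2 ^ q.1, (Q (q.1, k, q.2) ↔ S q.1 k)) := by
      filter_upwards [eventually_pow_le ⊤ c, eventually_two_pow_le ⊤ 1] with q h1 h2
      rw [one_mul] at h2
      exact ⟨h2, fun k hk => hQ' _ _ _ hk h1⟩
    have hF2 : ∀ᶠ q in big pows, sz (F q.1) ≤ q.2 := (hP'.filter_mono (big_le_top _)).mono
      fun q h => h.1
    have hpw : ∀ᶠ q in big pows, ∃ j, q.1 = 2 ^ j := by
      refine eventually_fst (p := fun n => ∃ j, n = 2 ^ j) ?_
      exact eventually_pows.2 ⟨0, fun j _ => ⟨j, rfl⟩⟩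
    filter_upwards [eventually_forall_le hbig pows (4 * K + 1), hF2, hpw, eventually_fst hlt,
      eventually_fst (eventually_pows_ge n₀)] with q h1 h2 h3 h4 h5
    refine ⟨h2, fun v => ?_⟩
    obtain ⟨n, N⟩ := q
    simp only at h1 h2 h3 h4 h5 ⊢
    obtain ⟨j, hj⟩ := h3
    have hnK : n ≤ K * n := Nat.le_mul_of_pos_left _ hK
    have hle : (4 * K + 1) * (n + 1) = 4 * (K * n) + n + 4 * K + 1 := by ring
    have hpow : ∀ i ≤ K * n, powB N i = 2 ^ i := fun i hi =>
      powB_eq (h1 i (by omega)).1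
    have key : ∀ i < K * n, ∀ s < 2, (Mj Q (2 * (K * n + i) + s) N ↔ F n / 2 ^ i % 2 = s) := by
      intro i hi s hs
      have h6 := h1 (2 * (K * n + i) + s) (by omega)
      rw [mj_iff h6.1 h6.2, ← hmaj _ (by omega)]
      have e1 : (2 * (K * n + i) + s) / 2 = K * n + i := by omega
      have e2 : (2 * (K * n + i) + s) % 2 = s := by omega
      constructor
      · rintro ⟨n', ⟨j', hj'⟩, h7, h8, h9⟩
        rw [e1] at h7 h8 h9
        rw [e2] at h9
        have h10 : K * n' < K * (2 * n) := by nlinarith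
        have h11 : K * n < K * (2 * n') := by nlinarith
        have h12 := Nat.lt_of_mul_lt_mul_left h10
        have h13 := Nat.lt_of_mul_lt_mul_left h11
        rw [hj, hj'] at h12 h13
        rw [← pow_succ'] at h12 h13
        have h14 := (Nat.pow_lt_pow_iff_right (by norm_num : 1 < 2)).1 h12
        have h15 := (Nat.pow_lt_pow_iff_right (by norm_num : 1 < 2)).1 h13
        have h16 : j = j' := by omega
        have h17 : n' = n := by rw [hj, hj', h16]
        subst h17
        rwa [Nat.add_sub_cancel_left] at h9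
      · intro h7
        refine ⟨n, ⟨j, hj⟩, ?_, ?_, ?_⟩
        · omega
        · omega
        · rw [e1, e2, Nat.add_sub_cancel_left]
          exact h7
    rw [hpow _ le_rfl]
    constructor
    · rintro ⟨h6, h7⟩
      refine eq_of_bits h6 h4 fun i hi => ?_
      have h8 := h7 i (List.mem_range.2 hi)
      rw [hpow i hi.le] at h8
      exact ((key i hi _ (Nat.mod_lt _ (by norm_num))).1 h8).symm
    · rintro rfl
      refine ⟨h4, fun i hi => ?_⟩
      rw [List.mem_range] at hi
      rw [hpow i hi.le]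
      exact (key i hi _ (Nat.mod_lt _ (by norm_num))).2 rfl

/-- Truth tables of languages in nondeterministic exponential time have certificates. -/
theorem nef_tab (H : MajH) {S : ℕ → ℕ → Prop} (hS : NEn S) (hS' : ESn S) {C : ℕ} (hC : 1 ≤ C) :
    NEf fun n => tab S (C * n) := by
  classical
  obtain ⟨c, P, hP, hP'⟩ := id hS
  have hcnt : ESf fun n => cnt (C * n) S := by
    refine (esf_tab hS' C).map (G := fun q : ℕ × List Bool × ℕ =>
      ((List.range (powB q.2.2 (C * q.1))).filter fun y => q.2.1.getD y false).length)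
      (by fun_prop) ?_
    filter_upwards [eventually_two_pow_le ⊤ C] with q hq
    rw [powB_eq hq, filter_length_tab]
  have hcnt2 : NEf fun n => cnt (C * n) S := by
    refine nef_of_esf H hcnt (K := C + 1) (by omega) ?_
    filter_upwards [eventually_pows_ge 1] with n hn
    have h1 : cnt (C * n) S ≤ 2 ^ (C * n) := by
      unfold cnt
      exact (Finset.card_filter_le _ _).trans (by simp)
    have h2 : 2 ^ (C * n) < 2 ^ ((C + 1) * n) := by
      refine Nat.pow_lt_pow_right (by norm_num) ?_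
      nlinarith
    omega
  obtain ⟨Q, hQ, hQ'⟩ := hcnt2
  refine ⟨fun q => (q.2.1.length = powB q.2.2 (C * q.1)) ∧ Q (q.1, ((List.range (powB q.2.2
    (C * q.1))).filter fun y => q.2.1.getD y false).length, q.2.2) ∧
    ∀ x ∈ List.range (powB q.2.2 (C * q.1)), (q.2.1.getD x false = false ∨
      P (C * q.1, x, q.2.2)), ?_, ?_⟩
  · refine NPp.and (NPp.of_ptime (by fun_prop)) (NPp.and ?_ ?_)
    · exact hQ.comp (g := fun q : ℕ × List Bool × ℕ => (q.1, ((List.range (powB q.2.2
        (C * q.1))).filter fun y => q.2.1.getD y false).length, q.2.2)) (by fun_prop)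
    · refine NPp.forall_mem (R := fun (q : ℕ × List Bool × ℕ) x =>
        (q.2.1.getD x false = false ∨ P (C * q.1, x, q.2.2))) ?_ (by fun_prop)
      refine NPp.or (NPp.of_ptime (by fun_prop)) ?_
      exact hP.comp (g := fun x : (ℕ × List Bool × ℕ) × ℕ => (C * x.1.1, x.2, x.1.2.2))
        (by fun_prop)
  · have h0 : ∀ᶠ q in big ⊤, 2 ^ (c * (q.1 + 1)) ≤ q.2 := eventually_pow_le _ _
    filter_upwards [eventually_forall_le h0 pows C, eventually_two_pow_le pows C, hQ',
      eventually_sz_tab pows S C] with q h1 h2 h3 h4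
    refine ⟨h4, fun B => ?_⟩
    have h5 : ∀ k < 2 ^ (C * q.1), (P (C * q.1, k, q.2) ↔ S (C * q.1) k) := fun k hk =>
      hP' _ _ _ hk (h1 _ (by nlinarith))
    rw [powB_eq h2, h3.2]
    constructor
    · rintro ⟨h6, h7, h8⟩
      have h9 : ∀ k < 2 ^ (C * q.1), B.getD k false = true → S (C * q.1) k := by
        intro k hk hB
        rcases h8 k (List.mem_range.2 hk) with h10 | h10
        · rw [hB] at h10
          exact absurd h10 (by simp)
        · exact (h5 k hk).1 h10
      rw [length_filter_range] at h7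
      have h10 : ((Finset.range (2 ^ (C * q.1))).filter fun y => B.getD y false = true) =
          ((Finset.range (2 ^ (C * q.1))).filter fun y => S (C * q.1) y) := by
        refine Finset.eq_of_subset_of_card_le ?_ (le_of_eq h7.symm)
        intro k hk
        rw [Finset.mem_filter, Finset.mem_range] at hk ⊢
        exact ⟨hk.1, h9 k hk.1 hk.2⟩
      refine List.ext_getElem (by rw [h6, length_tab]) fun i hi hi' => ?_
      rw [length_tab] at hi'
      have h11 := Finset.ext_iff.1 h10 i
      rw [Finset.mem_filter, Finset.mem_range, Finset.mem_filter, Finset.mem_range] at h11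
      have h12 : B.getD i false = true ↔ (tab S (C * q.1)).getD i false = true := by
        rw [getD_tab hi']
        tauto
      rw [← Bool.eq_iff_iff] at h12
      simpa [List.getD, hi, hi'] using h12
    · rintro rfl
      refine ⟨length_tab _ _, filter_length_tab _ _, fun x hx => ?_⟩
      rw [List.mem_range] at hx
      by_cases hSx : S (C * q.1) x
      · exact Or.inr ((h5 x hx).2 hSx)
      · left
        rw [← Bool.not_eq_true, getD_tab hx]
        exact hSx

end Pool.Agent.H48.NE
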